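import Pool.Agent.BEK.Stmts

set_option autoImplicit false

/-! # AFF: the iterated change of coordinates -/

namespace Pool.Agent.BEK

namespace AffX

variable {F : Type} [Field F]

theorem good_S (hP : Stmt_Par) {x y : F} (h : Good x y) (j : ℕ) :
    (af x y j).S ≠ 0 ∧ Good (af x y j).x (af x y j).y := by
  induction j with
  | zero => exact ⟨one_ne_zero, h⟩
  | succ j ih =>
    obtain ⟨hS, hg⟩ := ih
    rw [af_succ]
    refine ⟨?_, (hP F _ _ hg).2.2.1⟩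
    exact mul_ne_zero hS (div_ne_zero (pow_ne_zero _ hg.w0) hg.y1)

theorem at_step {a : Aff F} (hS : a.S ≠ 0) (hg : Good a.x a.y) (X Y : F) :
    (a.at X Y).step = a.step.at X Y := by
  have hs : ww a.x a.y ^ 2 / (a.y + 1) ≠ 0 := div_ne_zero (pow_ne_zero _ hg.w0) hg.y1
  apply St.ext
  · rfl
  · rfl
  · show ((X - a.R) / a.S ^ 2 - bb a.x a.y) / (ww a.x a.y ^ 2 / (a.y + 1)) ^ 2 =
      (X - (a.R + a.S ^ 2 * bb a.x a.y)) / (a.S * (ww a.x a.y ^ 2 / (a.y + 1))) ^ 2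
    generalize ww a.x a.y ^ 2 / (a.y + 1) = s at *
    field_simp
    ring
  · show ((Y - a.L * X - a.N) / a.S ^ 3 - bb a.x a.y * cc a.x a.y -
        (cc a.x a.y - a.x * a.y) * ((X - a.R) / a.S ^ 2 - bb a.x a.y)) /
        (ww a.x a.y ^ 2 / (a.y + 1)) ^ 3 =
      (Y - (a.L + a.S * (cc a.x a.y - a.x * a.y)) * X - (a.N + a.S ^ 3 * bb a.x a.y * cc a.x a.y -
        a.S * (cc a.x a.y - a.x * a.y) * (a.R + a.S ^ 2 * bb a.x a.y))) /
        (a.S * (ww a.x a.y ^ 2 / (a.y + 1))) ^ 3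
    generalize ww a.x a.y ^ 2 / (a.y + 1) = s at *
    field_simp
    ring

theorem iter_at (hP : Stmt_Par) {x y : F} (h : Good x y) (X Y : F) (j : ℕ) :
    St.step^[j] ⟨x, y, X, Y⟩ = (af x y j).at X Y := by
  induction j with
  | zero =>
    apply St.ext
    · rfl
    · rfl
    · show X = (X - 0) / 1 ^ 2
      simp
    · show Y = (Y - 0 * X - 0) / 1 ^ 3
      simp
  | succ j ih =>
    rw [Function.iterate_succ_apply', ih, af_succ]
    exact at_step (good_S hP h j).1 (good_S hP h j).2 X Y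

/-- composition -/
theorem comp (x y : F) (j k : ℕ) :
    (af x y (j + k)).x = (af (af x y j).x (af x y j).y k).x ∧
    (af x y (j + k)).y = (af (af x y j).x (af x y j).y k).y ∧
    (af x y (j + k)).S = (af x y j).S * (af (af x y j).x (af x y j).y k).S ∧
    (af x y (j + k)).R = (af x y j).R +
      (af x y j).S ^ 2 * (af (af x y j).x (af x y j).y k).R ∧
    (af x y (j + k)).L = (af x y j).L + (af x y j).S * (af (af x y j).x (af x y j).y k).L ∧
    (af x y (j + k)).N = (af x y j).N + (af x y j).S ^ 3 *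
      (af (af x y j).x (af x y j).y k).N - (af x y j).S *
      (af (af x y j).x (af x y j).y k).L * (af x y j).R := by
  induction k with
  | zero =>
    refine ⟨rfl, rfl, (mul_one _).symm, ?_, ?_, ?_⟩
    · show (af x y j).R = (af x y j).R + (af x y j).S ^ 2 * 0
      ring
    · show (af x y j).L = (af x y j).L + (af x y j).S * 0
      ring
    · show (af x y j).N = (af x y j).N + (af x y j).S ^ 3 * 0 - (af x y j).S * 0 * (af x y j).R
      ring
  | succ k ih =>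
    obtain ⟨h1, h2, h3, h4, h5, h6⟩ := ih
    rw [← add_assoc, af_succ, af_succ]
    generalize af x y (j + k) = a at *
    generalize af (af x y j).x (af x y j).y k = b at *
    generalize af x y j = c at *
    refine ⟨?_, ?_, ?_, ?_, ?_, ?_⟩
    · show -(a.x + 1) / a.x = -(b.x + 1) / b.x
      rw [h1]
    · show -a.y / ww a.x a.y = -b.y / ww b.x b.y
      rw [h1, h2]
    · show a.S * (ww a.x a.y ^ 2 / (a.y + 1)) = c.S * (b.S * (ww b.x b.y ^ 2 / (b.y + 1)))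
      rw [h1, h2, h3]; ring
    · show a.R + a.S ^ 2 * bb a.x a.y = c.R + c.S ^ 2 * (b.R + b.S ^ 2 * bb b.x b.y)
      rw [h1, h2, h3, h4]; ring
    · show a.L + a.S * (cc a.x a.y - a.x * a.y) =
        c.L + c.S * (b.L + b.S * (cc b.x b.y - b.x * b.y))
      rw [h1, h2, h3, h5]; ring
    · show a.N + a.S ^ 3 * bb a.x a.y * cc a.x a.y -
        a.S * (cc a.x a.y - a.x * a.y) * (a.R + a.S ^ 2 * bb a.x a.y) =
        c.N + c.S ^ 3 * (b.N + b.S ^ 3 * bb b.x b.y * cc b.x b.y -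
        b.S * (cc b.x b.y - b.x * b.y) * (b.R + b.S ^ 2 * bb b.x b.y)) -
        c.S * (b.L + b.S * (cc b.x b.y - b.x * b.y)) * c.R
      rw [h1, h2, h3, h4, h6]
      have h5' := h5
      ring

/-- one step of the coefficients -/
theorem coef {a : Aff F} {X X1 Y Y1 W S : F} (h : Row a X X1 Y Y1 W S) :
    a.step.R = a.R + S ^ 2 * (-(Y ^ 2 * W) / X1) ∧
    a.step.L = a.L + S * (-(X * Y * W) / Y1 - X * Y) ∧
    a.step.N = a.N + S ^ 3 * (-(Y ^ 2 * W) / X1) * (-(X * Y * W) / Y1) -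
      S * (-(X * Y * W) / Y1 - X * Y) * (a.step.R) := by
  obtain ⟨h1, h2, h3, h4, h5, h6⟩ := h
  refine ⟨?_, ?_, ?_⟩
  · show a.R + a.S ^ 2 * (-(a.y ^ 2 * ww a.x a.y) / (a.x + 1)) = _
    rw [h5, h2, h3, h6]
  · show a.L + a.S * (-(a.x * a.y * ww a.x a.y) / (a.y + 1) - a.x * a.y) = _
    rw [h5, h4, h1, h3, h6]
  · show a.N + a.S ^ 3 * (-(a.y ^ 2 * ww a.x a.y) / (a.x + 1)) *
      (-(a.x * a.y * ww a.x a.y) / (a.y + 1)) -
        a.S * (-(a.x * a.y * ww a.x a.y) / (a.y + 1) - a.x * a.y) *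
        (a.R + a.S ^ 2 * (-(a.y ^ 2 * ww a.x a.y) / (a.x + 1))) = _
    have hR : a.step.R = a.R + a.S ^ 2 * (-(a.y ^ 2 * ww a.x a.y) / (a.x + 1)) := rfl
    rw [hR, h5, h4, h2, h1, h3, h6]

/-- the third change of coordinates -/
theorem three (hP : Stmt_Par) (hT : Stmt_Tab) {x y : F} (h : Good x y) :
    (af x y 3).R = -(y ^ 2 * ww x y) / ((x + 1) * (y + 1)) ∧
    (af x y 3).L = y / (x + 1) - (x + 1) * y * ww x y / (y + 1) ∧
    (af x y 3).N = -(y ^ 3 * ww x y) / (x * (x + 1)) +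
      y ^ 4 * ww x y ^ 2 * (x + 1) / (x * (y + 1) ^ 3) -
      x * y ^ 3 * ww x y / ((x + 1) ^ 2 * (y + 1)) +
      y ^ 3 * ww x y ^ 2 / (x * (x + 1) * (y + 1) ^ 2) := by
  obtain ⟨r0, r1, r2, -⟩ := hT F x y h
  obtain ⟨p1, p2, -⟩ := hP F x y h
  obtain ⟨c0, d0, n0⟩ := coef r0
  obtain ⟨c1, d1, n1⟩ := coef r1
  obtain ⟨c2, d2, n2⟩ := coef r2
  rw [← af_succ] at c0 d0 n0 c1 d1 n1 c2 d2 n2
  have hx0 := h.x0
  have hx1 := h.x1
  have hy0 := h.y0
  have hy1 := h.y1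
  have hw0 := h.w0
  have hw : ww x y = y + 1 - x * y := rfl
  generalize ww x y = w at *
  have a0 : (af x y 0).R = 0 := rfl
  have b0 : (af x y 0).L = 0 := rfl
  have m0 : (af x y 0).N = 0 := rfl
  rw [a0] at c0
  rw [b0] at d0
  rw [m0] at n0
  -- first step
  have R1 : (af x y 1).R = -(y ^ 2 * w) / (x + 1) := by
    rw [c0]; ring
  have L1 : (af x y 1).L = -(x * y * w) / (y + 1) - x * y := by
    rw [d0]; ring
  have N1 : (af x y 1).N = -(x * y ^ 3 * w) / (x + 1) := by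
    rw [n0, R1]
    field_simp
    ring
  -- second step
  have R2 : (af x y 2).R = -(y ^ 2 * (y + 1)) / (x + 1) := by
    rw [c1, R1]
    field_simp
    rw [hw]
    ring
  have L2 : (af x y 2).L = y - y * w * (x ^ 2 + x + 1) / (x * (y + 1)) := by
    rw [d1, L1]
    field_simp
    ring
  have N2 : (af x y 2).N = -(y ^ 3 * w) / (x * (x + 1)) := by
    rw [n1, R2, N1]
    field_simp
    rw [hw]
    ring
  -- third step
  have R3 : (af x y 3).R = -(y ^ 2 * (y + 1)) / (x + 1) + y ^ 3 * w * (x + 1) / (y + 1) ^ 2 := by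
    rw [c2, R2]
    field_simp
  have q1 : (1 - x * y) * (x * (x + 1)) = y * (y + 1) := by
    rw [p1]; field_simp
  have q2 : (x + y + 1) * (y + 1) = (x + 1) ^ 2 * w := by
    rw [p2]; field_simp
  have R3' : (af x y 3).R = -(y ^ 2 * w) / ((x + 1) * (y + 1)) := by
    have e1 : -(y ^ 2 * (y + 1)) / (x + 1) + y ^ 3 * w * (x + 1) / (y + 1) ^ 2 =
        (y ^ 2 * (y * ((x + 1) ^ 2 * w) - (y + 1) ^ 3)) / ((x + 1) * (y + 1) ^ 2) := by
      field_simp
      ring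
    have e2 : y * ((x + 1) ^ 2 * w) - (y + 1) ^ 3 = -(w * (y + 1)) := by
      rw [← q2, hw]; ring
    rw [R3, e1, e2]
    field_simp
  refine ⟨R3', ?_, ?_⟩
  · rw [d2, L2]
    field_simp
    ring
  · rw [n2, N2, R3']
    field_simp
    ring

theorem six (hP : Stmt_Par) (hT : Stmt_Tab) {x y : F} (h : Good x y) :
    (af x y 6).R = 0 ∧ (af x y 6).L = cc x y - 1 ∧ (af x y 6).N = bb x y := by
  obtain ⟨-, -, -, r3, -⟩ := hT F x y h
  obtain ⟨p1, p2, -⟩ := hP F x y h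
  obtain ⟨R3, L3, N3⟩ := three hP hT h
  have hg3 := (good_S hP h 3).2
  obtain ⟨R3', L3', N3'⟩ := three hP hT hg3
  obtain ⟨-, -, -, k4, k5, k6⟩ := comp x y 3 3
  rw [R3'] at k4
  rw [L3'] at k5
  rw [N3', L3'] at k6
  rw [r3.w, r3.x1, r3.y1, r3.y, r3.S, R3] at k4
  rw [r3.w, r3.x1, r3.y1, r3.y, r3.S, L3] at k5
  rw [r3.w, r3.x1, r3.y1, r3.x, r3.y, r3.S, N3, R3] at k6
  have hx0 := h.x0
  have hx1 := h.x1
  have hy0 := h.y0
  have hy1 := h.y1
  have hw0 := h.w0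
  have hw : ww x y = y + 1 - x * y := rfl
  have hb : bb x y = -(y ^ 2 * ww x y) / (x + 1) := rfl
  have hc : cc x y = -(x * y * ww x y) / (y + 1) := rfl
  rw [hb, hc]
  generalize ww x y = w at *
  have q1 : (1 - x * y) * (x * (x + 1)) = y * (y + 1) := by
    rw [p1]; field_simp
  have q2 : (x + y + 1) * (y + 1) = (x + 1) ^ 2 * w := by
    rw [p2]; field_simp
  refine ⟨?_, ?_, ?_⟩
  · rw [show (6 : ℕ) = 3 + 3 from rfl, k4]
    field_simp
    ring
  · rw [show (6 : ℕ) = 3 + 3 from rfl, k5, ← sub_eq_zero]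
    have e1 : y / (x + 1) - (x + 1) * y * w / (y + 1) +
        y ^ 2 * w / (x ^ 2 * (y + 1)) * (-(x * (x + 1)) / y / (x + 1) -
          (x + 1) * (-(x * (x + 1)) / y) * (x ^ 3 / w) / (-(x * (x + 1) ^ 2) / (y + 1))) -
        (-(x * y * w) / (y + 1) - 1) =
        (x * y * (y + 1) - y * ((x + 1) ^ 2 * w) + ((1 - x * y) * (x * (x + 1))) * (y + 1)) /
          (x * (x + 1) * (y + 1)) := by
      field_simp
      ring
    rw [e1, ← q2, q1, show x * y * (y + 1) - y * ((x + y + 1) * (y + 1)) +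
      y * (y + 1) * (y + 1) = 0 by ring, zero_div]
  · rw [show (6 : ℕ) = 3 + 3 from rfl, k6, ← sub_eq_zero]
    have e2 : y ^ 2 * w / (x ^ 2 * (y + 1)) * (-(x * (x + 1)) / y / (x + 1) -
          (x + 1) * (-(x * (x + 1)) / y) * (x ^ 3 / w) / (-(x * (x + 1) ^ 2) / (y + 1))) =
        -(y * w) / (x * (y + 1)) - x * y := by
      field_simp
    have e3 : (y ^ 2 * w / (x ^ 2 * (y + 1))) ^ 3 *
        (-((-(x * (x + 1)) / y) ^ 3 * (x ^ 3 / w)) / (x * (x + 1)) +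
          (-(x * (x + 1)) / y) ^ 4 * (x ^ 3 / w) ^ 2 * (x + 1) /
            (x * (-(x * (x + 1) ^ 2) / (y + 1)) ^ 3) -
          x * (-(x * (x + 1)) / y) ^ 3 * (x ^ 3 / w) /
            ((x + 1) ^ 2 * (-(x * (x + 1) ^ 2) / (y + 1))) +
          (-(x * (x + 1)) / y) ^ 3 * (x ^ 3 / w) ^ 2 /
            (x * (x + 1) * (-(x * (x + 1) ^ 2) / (y + 1)) ^ 2)) =
        y ^ 3 * w ^ 2 * (x + 1) ^ 2 / (x * (y + 1) ^ 3) - y ^ 2 * w / (x + 1) -
          y ^ 3 * w ^ 2 / ((x + 1) * (y + 1) ^ 2) - y ^ 3 * w / ((x + 1) ^ 2 * (y + 1)) := by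
      field_simp
      ring
    rw [e2, e3]
    have e4 : -(y ^ 3 * w) / (x * (x + 1)) + y ^ 4 * w ^ 2 * (x + 1) / (x * (y + 1) ^ 3) -
        x * y ^ 3 * w / ((x + 1) ^ 2 * (y + 1)) +
        y ^ 3 * w ^ 2 / (x * (x + 1) * (y + 1) ^ 2) +
        (y ^ 3 * w ^ 2 * (x + 1) ^ 2 / (x * (y + 1) ^ 3) - y ^ 2 * w / (x + 1) -
          y ^ 3 * w ^ 2 / ((x + 1) * (y + 1) ^ 2) - y ^ 3 * w / ((x + 1) ^ 2 * (y + 1))) -
        (-(y * w) / (x * (y + 1)) - x * y) * (-(y ^ 2 * w) / ((x + 1) * (y + 1))) -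
        -(y ^ 2 * w) / (x + 1) =
        y ^ 3 * w * (-(y + 1) ^ 3 + ((x + 1) ^ 2 * w) * (x + y + 1) - x * w * (y + 1) -
          x * (x + 1) * (y + 1) ^ 2) / (x * (x + 1) * (y + 1) ^ 3) := by
      field_simp
      ring
    rw [e4, ← q2, hw, show y ^ 3 * (y + 1 - x * y) * (-(y + 1) ^ 3 +
      (x + y + 1) * (y + 1) * (x + y + 1) - x * (y + 1 - x * y) * (y + 1) -
          x * (x + 1) * (y + 1) ^ 2) = 0 by ring, zero_div]

theorem four (hP : Stmt_Par) (hT : Stmt_Tab) {x y : F} (h : Good x y) :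
    (af x y 4).R = cc x y ∧ (af x y 5).R = y * ww x y := by
  obtain ⟨-, -, -, r3, r4, -⟩ := hT F x y h
  obtain ⟨p1, p2, -⟩ := hP F x y h
  obtain ⟨R3, -, -⟩ := three hP hT h
  obtain ⟨c3, -, -⟩ := coef r3
  obtain ⟨c4, -, -⟩ := coef r4
  rw [← af_succ] at c3 c4
  have hx0 := h.x0
  have hx1 := h.x1
  have hy0 := h.y0
  have hy1 := h.y1
  have hw0 := h.w0
  have hc : cc x y = -(x * y * ww x y) / (y + 1) := rfl
  have hw : ww x y = y + 1 - x * y := rfl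
  rw [R3] at c3
  generalize ww x y = w at *
  have q1 : (1 - x * y) * (x * (x + 1)) = y * (y + 1) := by
    rw [p1]; field_simp
  have q2 : (x + y + 1) * (y + 1) = (x + 1) ^ 2 * w := by
    rw [p2]; field_simp
  have R4 : (af x y 4).R = cc x y := by
    rw [hc, c3, ← sub_eq_zero]
    have e1 : -(y ^ 2 * w) / ((x + 1) * (y + 1)) + (y ^ 2 * w / (x ^ 2 * (y + 1))) ^ 2 *
        (-((-(x * (x + 1)) / y) ^ 2 * (x ^ 3 / w)) / (x + 1)) - -(x * y * w) / (y + 1) =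
        y * w * (-(y * (y + 1)) - x * (x + 1) ^ 2 * y + x * (x + 1) * (y + 1)) /
          ((x + 1) * (y + 1) ^ 2) := by
      field_simp
      ring
    rw [e1, ← q1, show y * w * (-((1 - x * y) * (x * (x + 1))) - x * (x + 1) ^ 2 * y +
      x * (x + 1) * (y + 1)) = 0 by ring, zero_div]
  refine ⟨R4, ?_⟩
  rw [c4, R4, hc, ← sub_eq_zero]
  have e1 : -(x * y * w) / (y + 1) + (-(x ^ 3 * y ^ 2) / ((x + 1) ^ 2 * w)) ^ 2 *
      (-(((x + 1) * w / (x ^ 2 * y)) ^ 2 * ((x + 1) ^ 4 * w ^ 2 / (x ^ 3 * y * (y + 1) ^ 2))) /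
        (-1 / x)) - y * w =
      y * w * (-(x * (y + 1)) + (x + 1) ^ 2 * w - (y + 1) ^ 2) / (y + 1) ^ 2 := by
    field_simp
  rw [e1, ← q2, show y * w * (-(x * (y + 1)) + (x + y + 1) * (y + 1) - (y + 1) ^ 2) = 0 by ring,
    zero_div]

end AffX

open AffX in
theorem aff_proof (hP : Stmt_Par) (hT : Stmt_Tab) : Stmt_Aff := by
  intro F _ x y h
  obtain ⟨r0, r1, r2, r3, r4, r5, r6⟩ := hT F x y h
  obtain ⟨R6, L6, N6⟩ := six hP hT h
  have hd3 : dia^[3] (x, y) = (x, -(x * (x + 1)) / y) := by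
    rw [dia_iter, r3.x, r3.y]
  have hd6 : dia^[6] (x, y) = (x, y) := by
    rw [dia_iter, r6.x, r6.y]
  have h6 : af x y 6 = ⟨x, y, -1, 0, cc x y - 1, bb x y⟩ := by
    apply Aff.ext
    · exact r6.x
    · exact r6.y
    · exact r6.S
    · exact R6
    · exact L6
    · exact N6
  refine ⟨h6, hd3, hd6, ?_, ?_⟩
  · intro X Y
    rw [iter_at hP h X Y 6, h6]
    apply St.ext
    · rfl
    · rfl
    · show (X - 0) / (-1) ^ 2 = X
      ring
    · show (Y - (cc x y - 1) * X - bb x y) / (-1) ^ 3 = -Y - (1 - cc x y) * X + bb x y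
      ring
  · intro j
    obtain ⟨hS, hg⟩ := good_S hP h j
    refine ⟨hS, hg, ?_, ?_, ?_, fun X Y => iter_at hP h X Y j⟩
    · rw [(comp x y j 4).2.2.2.1, (four hP hT hg).1]
    · rw [(comp x y j 5).2.2.2.1, (four hP hT hg).2]
    · rw [(comp x y j 6).2.2.2.1, (six hP hT hg).1]
      ring

end Pool.Agent.BEK
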