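import Pool.Agent.BEK.Stmts

set_option autoImplicit false

/-!
# ASYM: asymptotic values of the regulators (squad BEK, MP_0a9c3b_nt)
-/

namespace Pool.Agent.BEK

namespace Asym

/-! ### nice functions -/

lemma nice_const (a : ℂ) (ha : ‖a‖ = 1) : Nice 0 0 (fun _ => a) where
  smooth := contDiff_const
  periodic := fun _ => rfl
  ne := fun _ h => by
    rw [h, norm_zero] at ha
    norm_num at ha
  size := fun _ => by rw [ha, Real.log_one, abs_zero]
  der := fun θ => by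
    have : darg (fun _ : ℝ => a) θ = 0 := by
      unfold darg
      rw [deriv_const]
      simp
    rw [this, abs_zero]
  wind := by
    have : ∀ θ : ℝ, darg (fun _ : ℝ => a) θ = 0 := by
      intro θ
      unfold darg
      rw [deriv_const]
      simp
    simp [this]

lemma nice_pow (hN : Stmt_Nice) {C : ℝ} {w : ℤ} {f : ℝ → ℂ} (h : Nice C w f) (n : ℕ) :
    Nice (n * C) (n * w) (fun θ => f θ ^ n) := by
  induction n with
  | zero =>
    have := nice_const 1 (by simp)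
    simpa using this
  | succ n ih =>
    have h1 := hN.1 _ _ _ _ _ _ ih h
    have e1 : ((n + 1 : ℕ) : ℝ) * C = n * C + C := by push_cast; ring
    have e2 : ((n + 1 : ℕ) : ℤ) * w = n * w + w := by push_cast; ring
    rw [e1, e2]
    simpa only [pow_succ] using h1

lemma nice_mul (hN : Stmt_Nice) {C C' : ℝ} {w w' : ℤ} {f g : ℝ → ℂ} (h : Nice C w f)
    (h' : Nice C' w' g) : Nice (C + C') (w + w') (fun θ => f θ * g θ) :=
  hN.1 _ _ _ _ _ _ h h'

lemma nice_div (hN : Stmt_Nice) {C C' : ℝ} {w w' : ℤ} {f g : ℝ → ℂ} (h : Nice C w f)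
    (h' : Nice C' w' g) : Nice (C + C') (w - w') (fun θ => f θ / g θ) := by
  have := hN.1 _ _ _ _ _ _ h (hN.2.1 _ _ _ h')
  simpa only [div_eq_mul_inv, sub_eq_add_neg] using this

lemma nice_congr {C C' : ℝ} {w w' : ℤ} {f g : ℝ → ℂ} (h : Nice C w f) (e : ∀ θ, g θ = f θ)
    (hC : C = C') (hw : w = w') : Nice C' w' g := by
  have : g = f := funext e
  rw [this, ← hC, ← hw]
  exact h

/-! ### algebra -/

section alg

variable {F : Type} [Field F]

lemma at_sg (a : Aff F) (X Y : F) : (a.at X Y).sg = ww a.x a.y ^ 2 / (a.y + 1) := rfl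

lemma step_S (a : Aff F) (X Y : F) : a.step.S = a.S * (a.at X Y).sg := rfl

lemma step_R (a : Aff F) : a.step.R = a.R + a.S ^ 2 * bb a.x a.y := rfl

lemma quot (a : Aff F) (X Y : F) (hS : a.S ≠ 0) :
    ((a.at X Y).X - (a.at X Y).b) / (a.at X Y).Y =
      a.S * ((X - a.step.R) / (Y - a.L * X - a.N)) := by
  have e1 : (a.at X Y).X = (X - a.R) / a.S ^ 2 := rfl
  have e2 : (a.at X Y).Y = (Y - a.L * X - a.N) / a.S ^ 3 := rfl
  have e3 : (a.at X Y).b = bb a.x a.y := rfl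
  rw [e1, e2, e3, step_R]
  generalize Y - a.L * X - a.N = D
  by_cases hD : D = 0
  · rw [hD]; simp
  · field_simp
    ring

lemma fn_conj (hProd : Stmt_Prod) (s : St F) (hg : Good s.x s.y) (hE : s.OnE) (hG : s.Gen) :
    s.fn * s.conj.fn = -s.X ^ 13 := by
  obtain ⟨-, -, h1, h2, h3, h4⟩ := hProd F s hg hE
  have hb : s.X - s.b ≠ 0 := sub_ne_zero.2 hG.Xb
  have hc : s.X - s.c ≠ 0 := sub_ne_zero.2 hG.Xc
  have hy : s.X - s.y * s.w ≠ 0 := sub_ne_zero.2 hG.X6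
  have e : s.conj.fn = (s.conj.Y * s.conj.L2) ^ 4 * s.conj.T3 ^ 2 * s.conj.L6 /
      (((s.X - s.b) * (s.X - s.c)) ^ 4 * (s.X - s.y * s.w) ^ 2) := rfl
  have e' : s.fn * s.conj.fn = ((s.Y * s.conj.Y) * (s.L2 * s.conj.L2)) ^ 4 *
      (s.T3 * s.conj.T3) ^ 2 * (s.L6 * s.conj.L6) /
      (((s.X - s.b) * (s.X - s.c)) ^ 4 * (s.X - s.y * s.w) ^ 2) ^ 2 := by
    rw [e, St.fn]
    rw [div_mul_div_comm]
    congr 1 <;> ring
  rw [e', h1, h2, h3, h4]
  rw [div_eq_iff (pow_ne_zero _ (mul_ne_zero (pow_ne_zero _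
    (mul_ne_zero hb hc)) (pow_ne_zero _ hy)))]
  ring

lemma iter_at (hAff : Stmt_Aff) {x y : F} (hg : Good x y) (X Y : F) (j : ℕ) :
    St.step^[j] ⟨x, y, X, Y⟩ = (af x y j).at X Y :=
  ((hAff F x y hg).2.2.2.2 j).2.2.2.2.2 X Y

lemma iter_good (hAff : Stmt_Aff) {x y : F} (hg : Good x y) (X Y : F) (j : ℕ) :
    Good (St.step^[j] ⟨x, y, X, Y⟩ : St F).x (St.step^[j] ⟨x, y, X, Y⟩ : St F).y := by
  rw [iter_at hAff hg]
  exact ((hAff F x y hg).2.2.2.2 j).2.1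

lemma iter_onE (hInv : Stmt_Inv) (hAff : Stmt_Aff) {x y : F} (hg : Good x y) (X Y : F)
    (h0 : (⟨x, y, X, Y⟩ : St F).OnE) (j : ℕ) : (St.step^[j] (⟨x, y, X, Y⟩ : St F)).OnE := by
  induction j with
  | zero => exact h0
  | succ j ih =>
    rw [Function.iterate_succ_apply']
    exact (hInv F).1 _ (iter_good hAff hg X Y j) ih

lemma iter_gen (hAff : Stmt_Aff) {x y : F} (hg : Good x y) (X Y : F)
    (hX : ∀ i, X ≠ (af x y i).R) (j : ℕ) : (St.step^[j] (⟨x, y, X, Y⟩ : St F)).Gen := by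
  rw [iter_at hAff hg]
  obtain ⟨hS, -, h4, h5, -, -⟩ := (hAff F x y hg).2.2.2.2 j
  have h1 : (af x y (j + 1)).R = (af x y j).R + (af x y j).S ^ 2 * bb (af x y j).x (af x y j).y := by
    rw [af_succ]; rfl
  have hS2 : (af x y j).S ^ 2 ≠ 0 := pow_ne_zero _ hS
  have key : ∀ r : F, X ≠ (af x y j).R + (af x y j).S ^ 2 * r →
      ((af x y j).at X Y).X ≠ r := by
    intro r hr h
    apply hr
    have e : ((af x y j).at X Y).X = (X - (af x y j).R) / (af x y j).S ^ 2 := rfl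
    rw [e, div_eq_iff hS2] at h
    linear_combination h
  refine ⟨key 0 ?_, key _ ?_, key _ ?_, key _ ?_⟩
  · rw [mul_zero, add_zero]; exact hX j
  · have := hX (j + 1); rw [h1] at this; exact this
  · have := hX (j + 4); rw [h4] at this; exact this
  · have := hX (j + 5); rw [h5] at this; exact this

/-- the function `F_j` -/
def Ff (x y X Y : F) (j : ℕ) : F := (af x y j).S ^ 13 * (St.step^[j] (⟨x, y, X, Y⟩ : St F)).fn

lemma Ff_succ (hInv : Stmt_Inv) (hStep : Stmt_Step) (hAff : Stmt_Aff) {x y : F}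
    (hg : Good x y) (X Y : F) (h0 : (⟨x, y, X, Y⟩ : St F).OnE) (hX : ∀ i, X ≠ (af x y i).R)
    (j : ℕ) :
    Ff x y X Y (j + 1) = Ff x y X Y j ^ 2 *
      ((X - (af x y (j + 1)).R) / (Y - (af x y j).L * X - (af x y j).N)) ^ 13 := by
  have hs := iter_at hAff hg X Y j
  have h1 := hStep F (St.step^[j] (⟨x, y, X, Y⟩ : St F)) (iter_good hAff hg X Y j)
    (iter_onE hInv hAff hg X Y h0 j) (iter_gen hAff hg X Y hX j) (by
      have := iter_gen hAff hg X Y hX (j + 1)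
      rwa [Function.iterate_succ_apply'] at this)
  have hS := ((hAff F x y hg).2.2.2.2 j).1
  have hq := quot (af x y j) X Y hS
  unfold Ff
  rw [Function.iterate_succ_apply', af_succ]
  rw [hs] at h1 ⊢
  rw [hq] at h1
  rw [step_S (af x y j) X Y]
  linear_combination ((af x y j).S ^ 13) * h1

lemma Ff_conj (hInv : Stmt_Inv) (hProd : Stmt_Prod) (hAff : Stmt_Aff) {x y : F}
    (hg : Good x y) (X Y : F) (h0 : (⟨x, y, X, Y⟩ : St F).OnE) (hX : ∀ i, X ≠ (af x y i).R)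
    (j : ℕ) (hF : Ff x y X Y j ≠ 0) :
    (af x y j).S ^ 13 * (St.step^[j] (⟨x, y, X, Y⟩ : St F)).conj.fn =
      (-1) * (X - (af x y j).R) ^ 13 / Ff x y X Y j := by
  have hs := iter_at hAff hg X Y j
  have h1 := fn_conj hProd (St.step^[j] (⟨x, y, X, Y⟩ : St F)) (iter_good hAff hg X Y j)
    (iter_onE hInv hAff hg X Y h0 j) (iter_gen hAff hg X Y hX j)
  have hS := ((hAff F x y hg).2.2.2.2 j).1
  rw [eq_div_iff hF]
  unfold Ff
  have e : (St.step^[j] (⟨x, y, X, Y⟩ : St F)).X = (X - (af x y j).R) / (af x y j).S ^ 2 := by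
    rw [hs]; rfl
  rw [e] at h1
  have e2 : ((X - (af x y j).R) / (af x y j).S ^ 2) ^ 13 * (af x y j).S ^ 26 =
      (X - (af x y j).R) ^ 13 := by
    field_simp
  linear_combination ((af x y j).S ^ 26) * h1 - e2

lemma u_eq (hAff : Stmt_Aff) {x y : F} (hg : Good x y) (X Y : F) (j : ℕ) :
    (St.step^[j] (⟨x, y, X, Y⟩ : St F)).u =
      bb (af x y j).x (af x y j).y ^ 5 / (cc (af x y j).x (af x y j).y ^ 2 * (af x y j).y ^ 2) := by
  rw [iter_at hAff hg]
  rfl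

lemma onE_of_loop {x y X t : F}
    (h : X ^ 2 - (t ^ 2 + (1 - cc x y) * t + bb x y) * X + bb x y * t = 0) :
    (⟨x, y, X, t * X⟩ : St F).OnE := by
  show (t * X) ^ 2 + (1 - cc x y) * X * (t * X) - bb x y * (t * X) = X ^ 3 - bb x y * X ^ 2
  linear_combination (-X) * h

end alg

/-! ### the bounds -/

noncomputable def KF : ℕ → ℝ
  | 0 => 21
  | (n + 1) => 2 * KF n + 26

def wF : ℕ → ℤ
  | 0 => 12
  | 1 => 11
  | 2 => 9
  | 3 => 5
  | 4 => 10
  | _ => 7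

lemma R_bound (hAff : Stmt_Aff) {x y δ : ℝ} (hg : Good x y)
    (h : ∀ j : ℕ, j < 6 → |(af x y j).R| < δ) (i : ℕ) : |(af x y i).R| < δ := by
  induction i using Nat.strong_induction_on with
  | _ i ih =>
    by_cases hi : i < 6
    · exact h i hi
    · obtain ⟨k, rfl⟩ : ∃ k, i = k + 6 := ⟨i - 6, by omega⟩
      rw [((hAff ℝ x y hg).2.2.2.2 k).2.2.2.2.1]
      exact ih k (by omega)

end Asym

open Asym in
theorem asym_proof (hInv : Stmt_Inv) (hProd : Stmt_Prod) (hStep : Stmt_Step) (hAff : Stmt_Aff)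
    (hMon : Stmt_Mon) (hN : Stmt_Nice) (hLine : Stmt_Line) : Stmt_Asym := by
  intro ρ hρ0 hρ1
  obtain ⟨δ₁, C₁, hδ₁, hL⟩ := hLine ρ hρ0 hρ1
  obtain ⟨δ', C₂, hδ', hM⟩ := hMon δ₁ hδ₁
  set Cj : ℕ → ℝ := fun j =>
    abs (2 * (KF j * C₁) * (0 + 13 * C₁ + KF j * C₁) + 13 * abs C₂) with hCj
  refine ⟨δ', ∑ i ∈ Finset.range 6, Cj i, hδ', ?_⟩
  intro x y hg hx hy
  obtain ⟨⟨hb, hc, hyx, hm3, hxw, hyw⟩, hMj⟩ := hM x y hg hx hy
  obtain ⟨X, hX, hl2, hl1, hx1⟩ := hL (bb x y) (cc x y) hb hc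
  refine ⟨X, hX, ?_⟩
  have hR := R_bound hAff hg (fun j hj => (hMj j hj).1)
  have hgc : Good (x : ℂ) (y : ℂ) := hg.map Complex.ofRealHom
  have haf : ∀ j, af (x : ℂ) (y : ℂ) j = (af x y j).map Complex.ofRealHom := by
    intro j
    exact map_af Complex.ofRealHom x y j
  have hbb : bb (x : ℂ) (y : ℂ) = ((bb x y : ℝ) : ℂ) := (map_bb Complex.ofRealHom x y).symm
  have hcc : cc (x : ℂ) (y : ℂ) = ((cc x y : ℝ) : ℂ) := (map_cc Complex.ofRealHom x y).symm
  have hww : ww (x : ℂ) (y : ℂ) = ((ww x y : ℝ) : ℂ) := (map_ww Complex.ofRealHom x y).symm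
  have hE : ∀ θ, (⟨(x : ℂ), (y : ℂ), X θ, tt ρ θ * X θ⟩ : St ℂ).OnE := by
    intro θ
    apply onE_of_loop
    rw [hbb, hcc]
    exact hX.eq θ
  have hXR : ∀ θ i, X θ ≠ (af (x : ℂ) (y : ℂ) i).R := by
    intro θ i h
    have := (hx1 _ (hR i)).ne θ
    apply this
    show X θ - (((af x y i).R : ℝ) : ℂ) = 0
    rw [h, haf]
    exact sub_self _
  -- the functions `F_j`
  have hF : ∀ j : ℕ, j < 6 → Nice (KF j * C₁) (wF j)
      (fun θ => Ff (x : ℂ) (y : ℂ) (X θ) (tt ρ θ * X θ) j) := by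
    intro j
    induction j with
    | zero =>
      intro _
      have a1 := hl2 0 0 (by simpa using hδ₁) (by simpa using hδ₁)
      have a2 := hl2 (cc x y) 0 hc (by simpa using hδ₁)
      have a3 := hl2 (y * (1 - x)) (bb x y - cc x y - y * (1 - x) * cc x y) hyx hm3
      have a4 := hl2 (-((x + 1) * ww x y)) 0 (by rw [abs_neg]; exact hxw) (by simpa using hδ₁)
      have b1 := hx1 (bb x y) hb
      have b2 := hx1 (cc x y) hc
      have b3 := hx1 (y * ww x y) hyw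
      have n1 := nice_pow hN (nice_mul hN a1 a2) 4
      have n2 := nice_pow hN a3 2
      have n3 := nice_pow hN (nice_mul hN b1 b2) 4
      have n4 := nice_pow hN b3 2
      have n5 := nice_div hN (nice_mul hN (nice_mul hN n1 n2) a4) (nice_mul hN n3 n4)
      refine nice_congr n5 ?_ ?_ ?_
      · intro θ
        unfold Ff
        simp only [Function.iterate_zero, id, af_zero, Aff.start, one_pow, one_mul]
        unfold St.fn St.L2 St.T3 St.L6 St.b St.c St.w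
        simp only [hbb, hcc, hww]
        push_cast
        congr 1
        ring
      · unfold KF
        push_cast
        ring
      · unfold wF
        norm_num
    | succ j ih =>
      intro hj
      have h1 := ih (by omega)
      have h2 := hx1 _ (hR (j + 1))
      have h3 : Nice C₁ (if j = 3 then 1 else 2) (fun θ => tt ρ θ * X θ -
          (((af x y j).L : ℝ) : ℂ) * X θ - (((af x y j).N : ℝ) : ℂ)) := by
        have h4 := (hMj j (by omega)).2.2.1
        have h5 := (hMj j (by omega)).2.1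
        by_cases hj3 : j = 3
        · rw [if_pos hj3] at h4 ⊢
          exact hl1 _ _ h4 h5
        · rw [if_neg hj3] at h4 ⊢
          rw [add_zero] at h4
          exact hl2 _ _ h4 h5
      have h6 := nice_mul hN (nice_pow hN h1 2) (nice_pow hN (nice_div hN h2 h3) 13)
      refine nice_congr h6 ?_ ?_ ?_
      · intro θ
        have h7 := Ff_succ hInv hStep hAff hgc (X θ) (tt ρ θ * X θ) (hE θ) (hXR θ) j
        rw [h7, haf, haf]
        rfl
      · show _ = (2 * KF j + 26) * C₁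
        push_cast
        ring
      · have : j = 0 ∨ j = 1 ∨ j = 2 ∨ j = 3 ∨ j = 4 := by omega
        rcases this with h | h | h | h | h <;> subst h <;> norm_num [wF]
  intro j hj
  have hFj := hF j hj
  have hne : ∀ θ, Ff (x : ℂ) (y : ℂ) (X θ) (tt ρ θ * X θ) j ≠ 0 := hFj.ne
  have hG : Nice (0 + 13 * C₁ + KF j * C₁) (13 - wF j) (fun θ => (af (x : ℂ) (y : ℂ) j).S ^ 13 *
      (St.step^[j] (⟨(x : ℂ), (y : ℂ), X θ, tt ρ θ * X θ⟩ : St ℂ)).conj.fn) := by
    have h1 := nice_const (-1) (by simp)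
    have h2 := nice_pow hN (hx1 _ (hR j)) 13
    have h3 := nice_div hN (nice_mul hN h1 h2) hFj
    refine nice_congr h3 ?_ ?_ ?_
    · intro θ
      rw [Ff_conj hInv hProd hAff hgc (X θ) (tt ρ θ * X θ) (hE θ) (hXR θ) j (hne θ), haf]
      rfl
    · push_cast
      ring
    · push_cast
      ring
  set U : ℝ := (af x y j).S ^ 13 * (bb (af x y j).x (af x y j).y ^ 5 /
        (cc (af x y j).x (af x y j).y ^ 2 * (af x y j).y ^ 2)) with hU
  have hSr : (af x y j).S ≠ 0 := ((hAff ℝ x y hg).2.2.2.2 j).1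
  have hgj : Good (af x y j).x (af x y j).y := ((hAff ℝ x y hg).2.2.2.2 j).2.1
  have hb0 : bb (af x y j).x (af x y j).y ≠ 0 := by
    unfold bb
    exact div_ne_zero (neg_ne_zero.2 (mul_ne_zero (pow_ne_zero _ hgj.y0) hgj.w0)) hgj.x1
  have hc0 : cc (af x y j).x (af x y j).y ≠ 0 := by
    unfold cc
    exact div_ne_zero (neg_ne_zero.2 (mul_ne_zero (mul_ne_zero hgj.x0 hgj.y0) hgj.w0)) hgj.y1
  have hU0 : U ≠ 0 := mul_ne_zero (pow_ne_zero _ hSr) (div_ne_zero (pow_ne_zero _ hb0)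
    (mul_ne_zero (pow_ne_zero _ hc0) (pow_ne_zero _ hgj.y0)))
  have hUc : (U : ℂ) ≠ 0 := by exact_mod_cast hU0
  have hSc : (af (x : ℂ) (y : ℂ) j).S ≠ 0 := by
    rw [haf]
    show (((af x y j).S : ℝ) : ℂ) ≠ 0
    exact_mod_cast hSr
  have hUS : (U : ℂ) = (af (x : ℂ) (y : ℂ) j).S ^ 13 *
      (bb (af (x : ℂ) (y : ℂ) j).x (af (x : ℂ) (y : ℂ) j).y ^ 5 /
        (cc (af (x : ℂ) (y : ℂ) j).x (af (x : ℂ) (y : ℂ) j).y ^ 2 *
          (af (x : ℂ) (y : ℂ) j).y ^ 2)) := by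
    rw [haf]
    show (U : ℂ) = (((af x y j).S : ℝ) : ℂ) ^ 13 *
      (bb (((af x y j).x : ℝ) : ℂ) (((af x y j).y : ℝ) : ℂ) ^ 5 /
        (cc (((af x y j).x : ℝ) : ℂ) (((af x y j).y : ℝ) : ℂ) ^ 2 *
          (((af x y j).y : ℝ) : ℂ) ^ 2))
    have e1 : bb (((af x y j).x : ℝ) : ℂ) (((af x y j).y : ℝ) : ℂ) =
        ((bb (af x y j).x (af x y j).y : ℝ) : ℂ) :=
      (map_bb Complex.ofRealHom (af x y j).x (af x y j).y).symm
    have e2 : cc (((af x y j).x : ℝ) : ℂ) (((af x y j).y : ℝ) : ℂ) =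
        ((cc (af x y j).x (af x y j).y : ℝ) : ℂ) :=
      (map_cc Complex.ofRealHom (af x y j).x (af x y j).y).symm
    rw [e1, e2, hU]
    push_cast
    rfl
  have hf : (fun θ => (St.step^[j] (⟨(x : ℂ), (y : ℂ), X θ, tt ρ θ * X θ⟩ : St ℂ)).h) =
      fun θ => Ff (x : ℂ) (y : ℂ) (X θ) (tt ρ θ * X θ) j / (U : ℂ) := by
    funext θ
    unfold St.h Ff
    rw [u_eq hAff hgc, hUS, mul_div_mul_left _ _ (pow_ne_zero _ hSc)]
  have hg' : (fun θ => (St.step^[j] (⟨(x : ℂ), (y : ℂ), X θ, tt ρ θ * X θ⟩ : St ℂ)).conj.h) =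
      fun θ => (af (x : ℂ) (y : ℂ) j).S ^ 13 *
        (St.step^[j] (⟨(x : ℂ), (y : ℂ), X θ, tt ρ θ * X θ⟩ : St ℂ)).conj.fn / (U : ℂ) := by
    funext θ
    have e : (St.step^[j] (⟨(x : ℂ), (y : ℂ), X θ, tt ρ θ * X θ⟩ : St ℂ)).conj.u =
        (St.step^[j] (⟨(x : ℂ), (y : ℂ), X θ, tt ρ θ * X θ⟩ : St ℂ)).u := rfl
    unfold St.h
    rw [e, u_eq hAff hgc, hUS, mul_div_mul_left _ _ (pow_ne_zero _ hSc)]
  rw [hf, hg']
  have hest := hN.2.2 _ _ _ _ _ _ (U : ℂ) hFj hG hUc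
  have hnorm : ‖(U : ℂ)‖ = |U| := by
    rw [Complex.norm_real, Real.norm_eq_abs]
  rw [hnorm] at hest
  have hlog := (hMj j hj).2.2.2
  rw [← hU] at hlog
  have hkap : (kap j : ℝ) = (asq j : ℝ) * (2 * (wF j : ℝ) - 13) := by
    have : j = 0 ∨ j = 1 ∨ j = 2 ∨ j = 3 ∨ j = 4 ∨ j = 5 := by omega
    rcases this with h | h | h | h | h | h <;> subst h <;> norm_num [wF, kap, asq]
  have hw13 : |2 * (wF j : ℝ) - 13| ≤ 13 := by
    have : j = 0 ∨ j = 1 ∨ j = 2 ∨ j = 3 ∨ j = 4 ∨ j = 5 := by omega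
    rcases this with h | h | h | h | h | h <;> subst h <;> rw [abs_le] <;>
      constructor <;> norm_num [wF]
  have hCnn : Cj j ≤ ∑ i ∈ Finset.range 6, Cj i :=
    Finset.single_le_sum (f := Cj) (fun i _ => abs_nonneg _) (Finset.mem_range.2 hj)
  refine le_trans ?_ hCnn
  refine le_trans ?_ (le_abs_self _)
  have hsplit : ∀ r : ℝ, r - kap j * Real.log (abs (x + 1)) =
      (r - Real.log |U| * ((wF j : ℝ) - ((13 - wF j : ℤ) : ℝ))) +
        (2 * (wF j : ℝ) - 13) * (Real.log |U| - asq j * Real.log (abs (x + 1))) := by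
    intro r
    rw [hkap]
    push_cast
    ring
  rw [hsplit]
  refine (abs_add_le _ _).trans (add_le_add hest ?_)
  rw [abs_mul]
  exact mul_le_mul hw13 (hlog.trans (le_abs_self _)) (abs_nonneg _) (by norm_num)

end Pool.Agent.BEK
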