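import Pool.Agent.BEK.NICE

set_option autoImplicit false

/-!
# CIRC: the basic nice functions
-/

namespace Pool.Agent.BEK

namespace CircX

/-- the winding number of `1 + e`, `‖e‖ < 1`, is zero -/
theorem wind0 {g : ℝ → ℂ} (hg : ContDiff ℝ 1 g) (hper : ∀ θ, g (θ + 2 * Real.pi) = g θ)
    (hs : ∀ θ, g θ ∈ Complex.slitPlane) : ∫ θ in (0 : ℝ)..2 * Real.pi, darg g θ = 0 := by
  have h0 : ∀ θ, g θ ≠ 0 := fun θ => Complex.slitPlane_ne_zero (hs θ)
  have h1 : ∀ θ, HasDerivAt (fun θ => (Complex.log (g θ)).im) (darg g θ) θ := by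
    intro θ
    have h2 : HasDerivAt g (deriv g θ) θ :=
      (hg.differentiable (by norm_num)).differentiableAt.hasDerivAt
    have h3 := h2.clog_real (hs θ)
    have h4 := Complex.imCLM.hasFDerivAt.comp_hasDerivAt θ h3
    exact h4
  rw [intervalIntegral.integral_eq_sub_of_hasDerivAt (fun θ _ => h1 θ)
    ((NiceX.cont_darg hg h0).intervalIntegrable _ _)]
  have h5 := hper 0
  rw [zero_add] at h5
  rw [h5, sub_self]

theorem tt_hasDeriv (ρ θ : ℝ) : HasDerivAt (tt ρ) (tt ρ θ * Complex.I) θ := by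
  unfold tt
  have h1 : HasDerivAt (fun θ : ℝ => (θ : ℂ) * Complex.I) (1 * Complex.I) θ :=
    (Complex.ofRealCLM.hasDerivAt (x := θ)).mul_const Complex.I
  have h2 := (h1.cexp).const_mul (ρ : ℂ)
  have h3 : (ρ : ℂ) * Complex.exp (θ * Complex.I) * Complex.I =
      (ρ : ℂ) * (Complex.exp (θ * Complex.I) * (1 * Complex.I)) := by ring
  rw [h3]
  exact h2

theorem tt_norm {ρ : ℝ} (h : 0 < ρ) (θ : ℝ) : ‖tt ρ θ‖ = ρ := by
  unfold tt
  rw [norm_mul, Complex.norm_exp_ofReal_mul_I, mul_one, Complex.norm_real, Real.norm_eq_abs,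
    abs_of_pos h]

theorem tt_ne {ρ : ℝ} (h : 0 < ρ) (θ : ℝ) : tt ρ θ ≠ 0 := by
  rw [← norm_pos_iff, tt_norm h]
  exact h

theorem tt_smooth (ρ : ℝ) : ContDiff ℝ 1 (tt ρ) := by
  unfold tt
  exact contDiff_const.mul ((Complex.ofRealCLM.contDiff.mul contDiff_const).cexp)

theorem tt_per (ρ θ : ℝ) : tt ρ (θ + 2 * Real.pi) = tt ρ θ := by
  unfold tt
  congr 1
  push_cast
  rw [add_mul, Complex.exp_add, Complex.exp_two_pi_mul_I, mul_one]

theorem tt_conj (ρ θ : ℝ) : tt ρ (-θ) = (starRingEnd ℂ) (tt ρ θ) := by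
  unfold tt
  rw [map_mul, Complex.conj_ofReal, ← Complex.exp_conj, map_mul, Complex.conj_ofReal,
    Complex.conj_I]
  congr 2
  push_cast
  ring

end CircX

open CircX

theorem circ_proof : Stmt_Circ := by
  intro ρ h0 h1
  have hn : ∀ θ, ‖tt ρ θ‖ = ρ := tt_norm h0
  have hs : ∀ θ, 1 + tt ρ θ ∈ Complex.slitPlane := fun θ =>
    Complex.mem_slitPlane_of_norm_lt_one (by rw [hn]; exact h1)
  have hsm : ContDiff ℝ 1 (fun θ => 1 + tt ρ θ) := contDiff_const.add (tt_smooth ρ)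
  have hlow : ∀ θ, 1 - ρ ≤ ‖1 + tt ρ θ‖ := by
    intro θ
    have h2 := norm_sub_norm_le (1 : ℂ) (-tt ρ θ)
    rw [norm_neg, hn, norm_one, sub_neg_eq_add] at h2
    exact h2
  have hup : ∀ θ, ‖1 + tt ρ θ‖ ≤ 2 := by
    intro θ
    have h2 := norm_add_le (1 : ℂ) (tt ρ θ)
    rw [hn, norm_one] at h2
    linarith
  have hd : ∀ θ, deriv (fun θ => 1 + tt ρ θ) θ = tt ρ θ * Complex.I := fun θ =>
    ((tt_hasDeriv ρ θ).const_add 1).deriv
  refine ⟨1 + |Real.log ρ| + |Real.log (1 - ρ)| + Real.log 2 + ρ / (1 - ρ), ?_, ?_⟩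
  · have hρ : 0 ≤ ρ / (1 - ρ) := div_nonneg h0.le (by linarith)
    have hl2 : 0 ≤ Real.log 2 := Real.log_nonneg (by norm_num)
    have ha := abs_nonneg (Real.log ρ)
    have hb := abs_nonneg (Real.log (1 - ρ))
    have hdt : ∀ θ, darg (tt ρ) θ = 1 := by
      intro θ
      unfold darg
      rw [(tt_hasDeriv ρ θ).deriv, mul_div_cancel_left₀ _ (tt_ne h0 θ), Complex.I_im]
    refine ⟨tt_smooth ρ, tt_per ρ, tt_ne h0, fun θ => ?_, fun θ => ?_, ?_⟩
    · rw [hn]
      linarith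
    · rw [hdt, abs_one]
      linarith
    · simp_rw [hdt]
      simp
  · have hρ : 0 ≤ ρ / (1 - ρ) := div_nonneg h0.le (by linarith)
    have hl2 : 0 ≤ Real.log 2 := Real.log_nonneg (by norm_num)
    have ha := abs_nonneg (Real.log ρ)
    have hb := abs_nonneg (Real.log (1 - ρ))
    refine ⟨hsm, fun θ => by rw [tt_per], fun θ => Complex.slitPlane_ne_zero (hs θ), fun θ => ?_,
      fun θ => ?_, ?_⟩
    · have hpos : 0 < ‖1 + tt ρ θ‖ := lt_of_lt_of_le (by linarith) (hlow θ)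
      have e1 : Real.log (1 - ρ) ≤ Real.log ‖1 + tt ρ θ‖ :=
        Real.log_le_log (by linarith) (hlow θ)
      have e2 : Real.log ‖1 + tt ρ θ‖ ≤ Real.log 2 := Real.log_le_log hpos (hup θ)
      have e3 := neg_abs_le (Real.log (1 - ρ))
      rw [abs_le]
      constructor <;> linarith
    · have hpos : 0 < ‖1 + tt ρ θ‖ := lt_of_lt_of_le (by linarith) (hlow θ)
      have e1 : |darg (fun θ => 1 + tt ρ θ) θ| ≤ ρ / (1 - ρ) := by
        unfold darg
        rw [hd]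
        refine (Complex.abs_im_le_norm _).trans ?_
        rw [norm_div, norm_mul, Complex.norm_I, mul_one, hn]
        exact div_le_div_of_nonneg_left h0.le (by linarith) (hlow θ)
      linarith
    · rw [wind0 hsm (fun θ => by rw [tt_per]) hs]
      simp

end Pool.Agent.BEK
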