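import Mathlib

set_option autoImplicit false

/-!
# Beilinson's conjecture for `K_2` of elliptic curves over sextic fields: definitions

`K_2` of a field, tame symbols of discrete valuations, the regulator along loops of generic
points, the modular curve `X_1(13)` and the functions attached to a point of order 13.
-/

namespace Pool.Agent.BEK

open scoped TensorProduct

/-! ## K_2 -/

section K2

variable (F : Type) [Field F]

/-- The subgroup of `F^* ⊗ F^*` generated by the Steinberg elements `u ⊗ (1 - u)`. -/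
def steinberg : AddSubgroup (Additive Fˣ ⊗[ℤ] Additive Fˣ) :=
  AddSubgroup.closure {z | ∃ u v : Fˣ, (u : F) + v = 1 ∧
    z = Additive.ofMul u ⊗ₜ[ℤ] Additive.ofMul v}

/-- `K_2` of the field `F`. -/
abbrev K2 : Type := (Additive Fˣ ⊗[ℤ] Additive Fˣ) ⧸ steinberg F

/-- The vector space `K_2(F) ⊗ ℚ`. -/
abbrev K2Q : Type := ℚ ⊗[ℤ] K2 F

end K2

/-! ## Discrete valuations and tame symbols -/

/-- A normalised discrete valuation of the field `F`. -/
structure DV (F : Type) [Field F] where
  ord : Fˣ → ℤ
  mul : ∀ a b, ord (a * b) = ord a + ord b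
  add : ∀ a b c : Fˣ, (a : F) + b = c → min (ord a) (ord b) ≤ ord c
  surj : Function.Surjective ord

namespace DV

variable {F : Type} [Field F] (v : DV F)

theorem one : v.ord 1 = 0 := by
  have := v.mul 1 1
  rw [mul_one] at this; omega

theorem inv (a : Fˣ) : v.ord a⁻¹ = -v.ord a := by
  have := v.mul a a⁻¹
  rw [mul_inv_cancel, v.one] at this; omega

theorem neg_one : v.ord (-1) = 0 := by
  have := v.mul (-1) (-1)
  rw [neg_mul_neg, mul_one, v.one] at this; omega

/-- The order as a homomorphism. -/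
def hom : Fˣ →* Multiplicative ℤ where
  toFun a := Multiplicative.ofAdd (v.ord a)
  map_one' := by rw [v.one]; rfl
  map_mul' a b := by rw [v.mul]; rfl

theorem zpow (a : Fˣ) (n : ℤ) : v.ord (a ^ n) = n * v.ord a := by
  have h := map_zpow v.hom a n
  have h2 := congrArg Multiplicative.toAdd h
  rw [toAdd_zpow] at h2
  simpa [hom] using h2

/-- The group of units of the valuation ring. -/
def U : Subgroup Fˣ where
  carrier := {a | v.ord a = 0}
  one_mem' := v.one
  mul_mem' := by
    intro a b ha hb
    show v.ord (a * b) = 0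
    rw [v.mul, show v.ord a = 0 from ha, show v.ord b = 0 from hb]; rfl
  inv_mem' := by
    intro a ha
    show v.ord a⁻¹ = 0
    rw [v.inv, show v.ord a = 0 from ha]; rfl

/-- The units that are congruent to `1` modulo the maximal ideal. -/
def U1 : Subgroup Fˣ where
  carrier := {a | v.ord a = 0 ∧ ∀ c : Fˣ, (a : F) - 1 = c → 0 < v.ord c}
  one_mem' := ⟨v.one, by
    intro c hc
    exfalso
    apply c.ne_zero
    rw [← hc]; simp⟩
  mul_mem' := by
    rintro a b ⟨ha, ha'⟩ ⟨hb, hb'⟩
    refine ⟨by rw [v.mul, ha, hb]; rfl, ?_⟩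
    intro c hc
    rw [Units.val_mul] at hc
    -- `ab - 1 = a (b - 1) + (a - 1)`
    by_cases h1 : (a : F) - 1 = 0
    · have : (a : F) = 1 := by linear_combination h1
      rw [this, one_mul] at hc
      exact hb' c hc
    · by_cases h2 : (b : F) - 1 = 0
      · have : (b : F) = 1 := by linear_combination h2
        rw [this, mul_one] at hc
        exact ha' c hc
      · have e1 := ha' (Units.mk0 _ h1) rfl
        have e2 := hb' (Units.mk0 _ h2) rfl
        have e3 := v.add (a * Units.mk0 _ h2) (Units.mk0 _ h1) c (by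
          rw [← hc]; simp only [Units.val_mul, Units.val_mk0]; ring)
        rw [v.mul, ha] at e3
        omega
  inv_mem' := by
    rintro a ⟨ha, ha'⟩
    refine ⟨by rw [v.inv, ha]; rfl, ?_⟩
    intro c hc
    -- `a⁻¹ - 1 = - a⁻¹ (a - 1)`
    have h1 : (a : F) - 1 = ((-1) * a * c : Fˣ) := by
      have h3 := a.ne_zero
      have : ((a⁻¹ : Fˣ) : F) = (a : F)⁻¹ := Units.val_inv_eq_inv_val a
      rw [this] at hc
      simp only [Units.val_mul, Units.val_neg, Units.val_one, ← hc]
      field_simp
      ring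
    have h2 := ha' _ h1
    rw [v.mul, v.mul, v.neg_one, ha] at h2
    omega

/-- The multiplicative group of the residue field. -/
abbrev Res : Type := v.U ⧸ (v.U1.subgroupOf v.U)

/-- The unit `(-1)^(ord f ord g) f^(ord g) / g^(ord f)`. -/
def tu (f g : Fˣ) : v.U :=
  ⟨(-1) ^ (v.ord f * v.ord g) * f ^ v.ord g * (g ^ v.ord f)⁻¹, by
    show v.ord _ = 0
    rw [v.mul, v.mul, v.inv, v.zpow, v.zpow, v.zpow, v.neg_one]
    ring⟩

/-- The tame symbol. -/
def tame (f g : Fˣ) : v.Res := QuotientGroup.mk (v.tu f g)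

theorem tame_mul_left (f f' g : Fˣ) : v.tame (f * f') g = v.tame f g * v.tame f' g := by
  have : v.tu (f * f') g = v.tu f g * v.tu f' g := by
    apply Subtype.ext
    show (-1) ^ (v.ord (f * f') * v.ord g) * (f * f') ^ v.ord g * (g ^ v.ord (f * f'))⁻¹ =
      ((-1) ^ (v.ord f * v.ord g) * f ^ v.ord g * (g ^ v.ord f)⁻¹) *
      ((-1) ^ (v.ord f' * v.ord g) * f' ^ v.ord g * (g ^ v.ord f')⁻¹)
    rw [v.mul, add_mul, zpow_add, zpow_add, mul_zpow, mul_inv]
    simp only [mul_assoc, mul_comm, mul_left_comm]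
  unfold tame
  rw [this]
  rfl

theorem tame_mul_right (f g g' : Fˣ) : v.tame f (g * g') = v.tame f g * v.tame f g' := by
  have : v.tu f (g * g') = v.tu f g * v.tu f g' := by
    apply Subtype.ext
    show (-1) ^ (v.ord f * v.ord (g * g')) * f ^ v.ord (g * g') * ((g * g') ^ v.ord f)⁻¹ =
      ((-1) ^ (v.ord f * v.ord g) * f ^ v.ord g * (g ^ v.ord f)⁻¹) *
      ((-1) ^ (v.ord f * v.ord g') * f ^ v.ord g' * (g' ^ v.ord f)⁻¹)
    rw [v.mul, mul_add, zpow_add, zpow_add, mul_zpow, mul_inv]
    simp only [mul_assoc, mul_comm, mul_left_comm]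
  unfold tame
  rw [this]
  rfl

theorem tame_eq_one {f g : Fˣ} : v.tame f g = 1 ↔ (v.tu f g : Fˣ) ∈ v.U1 := by
  unfold tame
  rw [QuotientGroup.eq_one_iff]
  exact Subgroup.mem_subgroupOf

end DV

/-- TAME: the Steinberg relation for the tame symbol. -/
def Stmt_Tame : Prop :=
  ∀ (F : Type) [Field F] (v : DV F) (f g : Fˣ), (f : F) + g = 1 → v.tame f g = 1

/-! ## Regulators -/

/-- the logarithmic derivative of the argument -/
noncomputable def darg (z : ℝ → ℂ) (θ : ℝ) : ℝ := (deriv z θ / z θ).im

/-- `(1/2π) ∮ (log|f| d arg g - log|g| d arg f)` -/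
noncomputable def regz (f g : ℝ → ℂ) : ℝ :=
  1 / (2 * Real.pi) * ∫ θ in (0 : ℝ)..2 * Real.pi,
    (Real.log ‖f θ‖ * darg g θ - Real.log ‖g θ‖ * darg f θ)

/-- DILOG: the Steinberg relation for the regulator. -/
def Stmt_Dilog : Prop :=
  ∀ z : ℝ → ℂ, ContDiff ℝ 1 z → (∀ θ, z (θ + 2 * Real.pi) = z θ) → (∀ θ, z θ ≠ 0) →
    (∀ θ, z θ ≠ 1) → regz z (fun θ => 1 - z θ) = 0

/-- A closed path of generic points of the curve with function field `F`: the value of every
function is defined at every point of the path and is continuously differentiable. -/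
structure Loop (F : Type) [Field F] where
  ev : ℝ → (F →+* ℂ)
  smooth : ∀ f : F, ContDiff ℝ 1 fun θ => ev θ f
  periodic : ∀ θ, ev (θ + 2 * Real.pi) = ev θ

/-! ## The modular curve `X_1(13)` and the functions attached to a point of order 13 -/

section formulas

variable {F : Type} [Field F]

/-- The diamond operator `⟨2⟩` on `X_1(13)`. -/
def dia (p : F × F) : F × F := (-(p.1 + 1) / p.1, -p.2 / (p.2 + 1 - p.1 * p.2))

def ww (x y : F) : F := y + 1 - x * y
def cc (x y : F) : F := -(x * y * ww x y) / (y + 1)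
def bb (x y : F) : F := -(y ^ 2 * ww x y) / (x + 1)

/-- The affine equation of `X_1(13)` and the nonvanishing of the basic units. -/
structure Good (x y : F) : Prop where
  rel : y ^ 2 + (x ^ 3 + x ^ 2 + 1) * y = x ^ 2 + x
  x0 : x ≠ 0
  x1 : x + 1 ≠ 0
  y0 : y ≠ 0
  y1 : y + 1 ≠ 0
  w0 : ww x y ≠ 0

/-- parameters `x, y` and a point `X, Y` -/
@[ext] structure St (F : Type) where
  x : F
  y : F
  X : F
  Y : F

namespace St

def b (s : St F) : F := bb s.x s.y
def c (s : St F) : F := cc s.x s.y
def w (s : St F) : F := ww s.x s.y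

/-- `(X, Y)` is a point of the curve `E_{b,c}`, on which `(0,0)` has order 13. -/
def OnE (s : St F) : Prop :=
  s.Y ^ 2 + (1 - s.c) * s.X * s.Y - s.b * s.Y = s.X ^ 3 - s.b * s.X ^ 2

/-- The opposite point. -/
def conj (s : St F) : St F := ⟨s.x, s.y, s.X, -s.Y - (1 - s.c) * s.X + s.b⟩

/-- The line through `P`, `2P`, `-3P`. -/
def L2 (s : St F) : F := s.Y - s.c * s.X

/-- The tangent at `3P` (it passes through `-6P`). -/
def T3 (s : St F) : F := s.Y - (s.b - s.c) - s.y * (1 - s.x) * (s.X - s.c)

/-- The tangent at `6P` (it passes through `P`). -/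
def L6 (s : St F) : F := s.Y + (s.x + 1) * s.w * s.X

/-- The function with divisor `13 (P) - 13 (O)`, `P = (0,0)`.
(`Y` is the tangent at `P`; `b`, `c`, `y w` are the `X`-coordinates of `2P`, `3P`, `6P`.) -/
def fn (s : St F) : F :=
  (s.Y * s.L2) ^ 4 * s.T3 ^ 2 * s.L6 /
  (((s.X - s.b) * (s.X - s.c)) ^ 4 * (s.X - s.y * s.w) ^ 2)

/-- Its value at `-P`. -/
def u (s : St F) : F := s.b ^ 5 / (s.c ^ 2 * s.y ^ 2)

/-- The function normalised to take the value `1` at `-P`. -/
def h (s : St F) : F := s.fn / s.u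

/-- The scaling factor. -/
def sg (s : St F) : F := s.w ^ 2 / (s.y + 1)

/-- Passage from the point `P` to the point `2P`: the coordinates of the same point of the same
curve in Tate's normal form with respect to `2P`. -/
def step (s : St F) : St F :=
  ⟨-(s.x + 1) / s.x, -s.y / s.w, (s.X - s.b) / s.sg ^ 2,
    (s.Y - s.b * s.c - (s.c - s.x * s.y) * (s.X - s.b)) / s.sg ^ 3⟩

/-- The point is generic: not one of the points used in the formulas. -/
structure Gen (s : St F) : Prop where
  X0 : s.X ≠ 0
  Xb : s.X ≠ s.b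
  Xc : s.X ≠ s.c
  X6 : s.X ≠ s.y * s.w

end St

/-- The curve `E_{b,c}` in Tate's normal form. -/
def Ew (x y : F) : WeierstrassCurve F :=
  { a₁ := 1 - cc x y, a₂ := -bb x y, a₃ := -bb x y, a₄ := 0, a₆ := 0 }

/-- A change of coordinates `X = S^2 X' + R`, `Y = S^3 Y' + L X + N`, together with the
parameters of the new curve. -/
@[ext] structure Aff (F : Type) where
  x : F
  y : F
  S : F
  R : F
  L : F
  N : F

def Aff.start (x y : F) : Aff F := ⟨x, y, 1, 0, 0, 0⟩

def Aff.step (a : Aff F) : Aff F :=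
  ⟨-(a.x + 1) / a.x, -a.y / ww a.x a.y, a.S * (ww a.x a.y ^ 2 / (a.y + 1)),
    a.R + a.S ^ 2 * bb a.x a.y, a.L + a.S * (cc a.x a.y - a.x * a.y),
    a.N + a.S ^ 3 * bb a.x a.y * cc a.x a.y -
      a.S * (cc a.x a.y - a.x * a.y) * (a.R + a.S ^ 2 * bb a.x a.y)⟩

/-- The point of the new curve with old coordinates `X, Y`. -/
def Aff.at (a : Aff F) (X Y : F) : St F :=
  ⟨a.x, a.y, (X - a.R) / a.S ^ 2, (Y - a.L * X - a.N) / a.S ^ 3⟩

/-- `k` steps starting with `x, y` -/
def af (x y : F) (k : ℕ) : Aff F := Aff.step^[k] (Aff.start x y)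

theorem af_zero (x y : F) : af x y 0 = Aff.start x y := rfl

theorem af_succ (x y : F) (k : ℕ) : af x y (k + 1) = (af x y k).step := by
  unfold af
  rw [Function.iterate_succ_apply']

theorem dia_iter (x y : F) (k : ℕ) : dia^[k] (x, y) = ((af x y k).x, (af x y k).y) := by
  induction k with
  | zero => rfl
  | succ k ih =>
    rw [Function.iterate_succ_apply', ih, af_succ]
    rfl

theorem step_iter_xy (s : St F) (k : ℕ) :
    ((St.step^[k] s).x, (St.step^[k] s).y) = dia^[k] (s.x, s.y) := by
  induction k with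
  | zero => rfl
  | succ k ih =>
    rw [Function.iterate_succ_apply', Function.iterate_succ_apply', ← ih]
    rfl

end formulas

/-! ## Compatibility with field homomorphisms -/

section maps

variable {F G : Type} [Field F] [Field G] (φ : F →+* G)

theorem map_ww (x y : F) : φ (ww x y) = ww (φ x) (φ y) := by simp [ww]
theorem map_cc (x y : F) : φ (cc x y) = cc (φ x) (φ y) := by simp [cc, map_ww]
theorem map_bb (x y : F) : φ (bb x y) = bb (φ x) (φ y) := by simp [bb, map_ww]

theorem map_dia (p : F × F) : dia (φ p.1, φ p.2) = (φ (dia p).1, φ (dia p).2) := by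
  simp [dia]

theorem map_dia_iter (p : F × F) (k : ℕ) :
    dia^[k] (φ p.1, φ p.2) = (φ (dia^[k] p).1, φ (dia^[k] p).2) := by
  induction k with
  | zero => rfl
  | succ k ih =>
    rw [Function.iterate_succ_apply', ih, map_dia, Function.iterate_succ_apply']

theorem Good.map {x y : F} (h : Good x y) : Good (φ x) (φ y) where
  rel := by
    have := congrArg φ h.rel
    simpa using this
  x0 := by simpa using h.x0
  x1 := by
    have h2 := (map_ne_zero φ).mpr h.x1
    simpa using h2
  y0 := by simpa using h.y0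
  y1 := by
    have h2 := (map_ne_zero φ).mpr h.y1
    simpa using h2
  w0 := by
    rw [← map_ww]
    exact (map_ne_zero φ).mpr h.w0

theorem Good.of_map {x y : F} (h : Good (φ x) (φ y)) : Good x y where
  rel := by
    apply φ.injective
    have := h.rel
    simpa using this
  x0 := by
    intro e; apply h.x0; rw [e, map_zero]
  x1 := by
    intro e; apply h.x1
    have := congrArg φ e
    simpa using this
  y0 := by
    intro e; apply h.y0; rw [e, map_zero]
  y1 := by
    intro e; apply h.y1
    have := congrArg φ e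
    simpa using this
  w0 := by
    intro e; apply h.w0; rw [← map_ww, e, map_zero]

/-- the image of a point -/
def St.map (s : St F) : St G := ⟨φ s.x, φ s.y, φ s.X, φ s.Y⟩

theorem St.map_b (s : St F) : (s.map φ).b = φ s.b := (map_bb φ _ _).symm
theorem St.map_c (s : St F) : (s.map φ).c = φ s.c := (map_cc φ _ _).symm
theorem St.map_w (s : St F) : (s.map φ).w = φ s.w := (map_ww φ _ _).symm

theorem St.map_conj (s : St F) : (s.map φ).conj = s.conj.map φ := by
  unfold St.conj
  rw [St.map_b, St.map_c]
  simp [St.map]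

theorem St.map_sg (s : St F) : (s.map φ).sg = φ s.sg := by
  unfold St.sg
  rw [St.map_w]
  simp [St.map]

theorem St.map_step (s : St F) : (s.map φ).step = s.step.map φ := by
  unfold St.step
  rw [St.map_b, St.map_c, St.map_w, St.map_sg]
  simp [St.map]

theorem St.map_step_iter (s : St F) (k : ℕ) :
    St.step^[k] (s.map φ) = (St.step^[k] s).map φ := by
  induction k with
  | zero => rfl
  | succ k ih =>
    rw [Function.iterate_succ_apply', ih, St.map_step, Function.iterate_succ_apply']

theorem St.map_fn (s : St F) : (s.map φ).fn = φ s.fn := by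
  unfold St.fn St.L2 St.T3 St.L6
  rw [St.map_b, St.map_c, St.map_w]
  simp [St.map]

theorem St.map_u (s : St F) : (s.map φ).u = φ s.u := by
  unfold St.u
  rw [St.map_b, St.map_c]
  simp [St.map]

theorem St.map_h (s : St F) : (s.map φ).h = φ s.h := by
  unfold St.h
  rw [St.map_fn, St.map_u, map_div₀]

/-- the image of a change of coordinates -/
def Aff.map (a : Aff F) : Aff G := ⟨φ a.x, φ a.y, φ a.S, φ a.R, φ a.L, φ a.N⟩

theorem Aff.map_step (a : Aff F) : (a.map φ).step = a.step.map φ := by
  unfold Aff.step Aff.map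
  simp [map_bb, map_cc, map_ww]

theorem map_af (x y : F) (k : ℕ) : af (φ x) (φ y) k = (af x y k).map φ := by
  induction k with
  | zero => simp [af_zero, Aff.start, Aff.map]
  | succ k ih => rw [af_succ, ih, Aff.map_step, ← af_succ]

theorem map_Ew (x y : F) : (Ew x y).map φ = Ew (φ x) (φ y) := by
  unfold Ew WeierstrassCurve.map
  simp [map_bb, map_cc]

end maps

end Pool.Agent.BEK
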