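import Pool.Agent.BEK.Stmts

set_option autoImplicit false

namespace Pool.Agent.BEK

namespace DETX

/-- the integral limit matrix -/
def M0 : Matrix (Fin 6) (Fin 6) ℤ := fun i j =>
  if (i : ℕ) ≤ (j : ℕ) then kap ((j : ℕ) - (i : ℕ)) else -kap (6 + (j : ℕ) - (i : ℕ))

def nn : ℕ → ℤ
  | 0 => 17284
  | 1 => -44407
  | 2 => -74449
  | 3 => 9442
  | 4 => -96491
  | _ => -62722

def N0 : Matrix (Fin 6) (Fin 6) ℤ := fun i j =>
  if (i : ℕ) ≤ (j : ℕ) then nn ((j : ℕ) - (i : ℕ)) else -nn (6 + (j : ℕ) - (i : ℕ))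

theorem mulN : M0 * N0 = (17164485 : ℤ) • (1 : Matrix (Fin 6) (Fin 6) ℤ) := by
  ext i j
  rw [Matrix.mul_apply, Fin.sum_univ_six]
  fin_cases i <;> fin_cases j <;> decide

theorem det0 : M0.det ≠ 0 := by
  intro h
  have h2 := congrArg Matrix.det mulN
  rw [Matrix.det_mul, h, zero_mul, Matrix.det_smul, Matrix.det_one] at h2
  norm_num at h2

end DETX

open DETX in
theorem det_proof : Stmt_Det := by
  have hne : (M0.map (Int.castRingHom ℝ)).det ≠ 0 := by
    rw [← RingHom.mapMatrix_apply, ← RingHom.map_det]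
    simpa using det0
  have hcont : Continuous (fun M : Fin 6 → Fin 6 → ℝ => (Matrix.of M).det) :=
    Continuous.matrix_det (A := fun M : Fin 6 → Fin 6 → ℝ => Matrix.of M) continuous_id
  have hopen : IsOpen {M : Fin 6 → Fin 6 → ℝ | (Matrix.of M).det ≠ 0} :=
    isOpen_ne_fun hcont continuous_const
  rw [Metric.isOpen_iff] at hopen
  obtain ⟨η, hη, hball⟩ := hopen (fun i j => (M0 i j : ℝ)) hne
  refine ⟨η, hη, ?_⟩
  intro M hM
  have hmem : (fun i j => M i j) ∈ Metric.ball (fun i j => (M0 i j : ℝ)) η := by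
    rw [Metric.mem_ball, dist_pi_lt_iff hη]
    intro i
    rw [dist_pi_lt_iff hη]
    intro j
    rw [Real.dist_eq]
    have h1 := hM i j
    have h2 : (M0 i j : ℝ) = (if (i : ℕ) ≤ (j : ℕ) then
        (kap ((j : ℕ) - (i : ℕ)) : ℝ) else -(kap (6 + (j : ℕ) - (i : ℕ)) : ℝ)) := by
      simp only [M0]
      split_ifs <;> simp
    rw [h2]
    exact h1
  exact hball hmem

end Pool.Agent.BEK
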