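import Pool.Agent.BEK.Stmts

set_option autoImplicit false

/-!
# DILOG (uses PRIM): the Steinberg relation for the regulator along a loop
-/

namespace Pool.Agent.BEK

theorem dilog_proof (hPrim : Stmt_Prim) : Stmt_Dilog := by
  obtain ⟨D, hD⟩ := hPrim
  intro z hz hper h0 h1
  have hd : ∀ θ, HasDerivAt z (deriv z θ) θ := fun θ =>
    (hz.differentiable (by norm_num) θ).hasDerivAt
  have hdc : Continuous (deriv z) := hz.continuous_deriv (by norm_num)
  have hd' : ∀ θ, deriv (fun θ => 1 - z θ) θ = -deriv z θ := fun θ =>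
    ((hd θ).const_sub 1).deriv
  have h1' : ∀ θ, 1 - z θ ≠ 0 := fun θ h => h1 θ (by linear_combination -h)
  have hint : ∀ θ, Real.log ‖z θ‖ * darg (fun θ => 1 - z θ) θ -
      Real.log ‖1 - z θ‖ * darg z θ =
      Real.log ‖z θ‖ * (-deriv z θ / (1 - z θ)).im - Real.log ‖1 - z θ‖ * (deriv z θ / z θ).im := by
    intro θ
    unfold darg
    rw [hd']
  have hder : ∀ θ, HasDerivAt (fun θ => D (z θ))
      (Real.log ‖z θ‖ * (-deriv z θ / (1 - z θ)).im -
        Real.log ‖1 - z θ‖ * (deriv z θ / z θ).im) θ := by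
    intro θ
    obtain ⟨L, hL, hL'⟩ := hD (z θ) (h0 θ) (h1 θ)
    rw [← hL' (deriv z θ)]
    exact hL.comp_hasDerivAt θ (hd θ)
  have hcont : Continuous (fun θ => Real.log ‖z θ‖ * (-deriv z θ / (1 - z θ)).im -
        Real.log ‖1 - z θ‖ * (deriv z θ / z θ).im) := by
    have hzc : Continuous z := hz.continuous
    have e1 : Continuous fun θ => Real.log ‖z θ‖ :=
      hzc.norm.log fun θ => norm_ne_zero_iff.2 (h0 θ)
    have e2 : Continuous fun θ => Real.log ‖1 - z θ‖ :=
      (continuous_const.sub hzc).norm.log fun θ => norm_ne_zero_iff.2 (h1' θ)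
    have e3 : Continuous fun θ => (-deriv z θ / (1 - z θ)) :=
      hdc.neg.div (continuous_const.sub hzc) h1'
    have e4 : Continuous fun θ => (deriv z θ / z θ) := hdc.div hzc h0
    exact (e1.mul (Complex.continuous_im.comp e3)).sub (e2.mul (Complex.continuous_im.comp e4))
  unfold regz
  have hI := intervalIntegral.integral_eq_sub_of_hasDerivAt
    (a := (0 : ℝ)) (b := 2 * Real.pi) (fun θ _ => hder θ)
    (hcont.intervalIntegrable 0 (2 * Real.pi))
  have hp : z (2 * Real.pi) = z 0 := by
    have := hper 0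
    rwa [zero_add] at this
  rw [hp, sub_self] at hI
  rw [intervalIntegral.integral_congr (fun θ _ => hint θ), hI, mul_zero]

end Pool.Agent.BEK
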