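import Pool.Agent.BEK.Stmts

set_option autoImplicit false

/-!
# Module DISC: the discriminant and the `j`-invariant near the cusp
-/

namespace Pool.Agent.BEK

namespace DiscX

/-- the discriminant in terms of `b`, `c` -/
theorem delta_bc {F : Type} [Field F] (x y : F) :
    (Ew x y).Δ = bb x y ^ 3 * (((1 - cc x y) ^ 2 - 4 * bb x y) ^ 2 + 8 * (1 - cc x y) ^ 3 -
      27 * bb x y - 9 * (1 - cc x y) * ((1 - cc x y) ^ 2 - 4 * bb x y)) := by
  simp only [Ew, WeierstrassCurve.Δ, WeierstrassCurve.b₂, WeierstrassCurve.b₄,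
    WeierstrassCurve.b₆, WeierstrassCurve.b₈]
  ring

theorem c4_bc {F : Type} [Field F] (x y : F) :
    (Ew x y).c₄ = ((1 - cc x y) ^ 2 - 4 * bb x y) ^ 2 + 24 * bb x y * (1 - cc x y) := by
  simp only [Ew, WeierstrassCurve.c₄, WeierstrassCurve.b₂, WeierstrassCurve.b₄]
  ring

theorem bracket {F : Type} [Field F] (x y : F) (h : Good x y) :
    (((1 - cc x y) ^ 2 - 4 * bb x y) ^ 2 + 8 * (1 - cc x y) ^ 3 -
      27 * bb x y - 9 * (1 - cc x y) * ((1 - cc x y) ^ 2 - 4 * bb x y)) =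
      -(x * (x + 1) ^ 4 * y ^ 6 * ww x y ^ 3 * (1 - x - 4 * x ^ 2 - x ^ 3)) / (y + 1) ^ 6 := by
  have h1 := h.x1
  have h2 := h.y1
  have hr := h.rel
  rw [eq_div_iff (pow_ne_zero 6 h2)]
  have e1 : (((1 - cc x y) ^ 2 - 4 * bb x y) ^ 2 + 8 * (1 - cc x y) ^ 3 -
      27 * bb x y - 9 * (1 - cc x y) * ((1 - cc x y) ^ 2 - 4 * bb x y)) * (y + 1) ^ 6 *
      (x + 1) ^ 2 =
      (((y + 1 + x * y * (y + 1 - x * y)) ^ 2 * (x + 1) +
        4 * (y ^ 2 * (y + 1 - x * y)) * (y + 1) ^ 2) ^ 2 +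
        8 * ((y + 1 + x * y * (y + 1 - x * y)) ^ 3 * ((x + 1) ^ 2 * (y + 1))) +
        27 * (y ^ 2 * (y + 1 - x * y) * ((x + 1) * (y + 1) ^ 4)) -
        9 * ((y + 1 + x * y * (y + 1 - x * y)) * ((y + 1 + x * y * (y + 1 - x * y)) ^ 2 * (x + 1) +
        4 * (y ^ 2 * (y + 1 - x * y)) * (y + 1) ^ 2) * ((x + 1) * (y + 1)))) * (y + 1) ^ 2 := by
    unfold bb cc ww
    field_simp
    ring
  apply mul_right_cancel₀ (pow_ne_zero 2 h1)
  rw [e1]
  unfold ww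
  linear_combination (16*x^2*y^10 - 32*x*y^10 + 16*y^10 - 8*x^6*y^9 + 16*x^4*y^9 + 72*x^2*y^9 - 192*x*y^9 + 112*y^9 + x^10*y^8 + 6*x^9*y^8 + 7*x^8*y^8 - 12*x^7*y^8 - 41*x^6*y^8 + 14*x^5*y^8 + 77*x^4*y^8 - 4*x^3*y^8 + 116*x^2*y^8 - 484*x*y^8 + 336*y^8 - 2*x^9*y^7 - 15*x^8*y^7 - 34*x^7*y^7 - 24*x^6*y^7 + 67*x^5*y^7 + 125*x^4*y^7 - 24*x^3*y^7 + 59*x^2*y^7 - 663*x*y^7 + 559*y^7 + x^8*y^6 + 9*x^7*y^6 + 28*x^6*y^6 + 55*x^5*y^6 + 76*x^4*y^6 - 34*x^3*y^6 - 48*x^2*y^6 - 539*x*y^6 + 554*y^6 + 20*x^4*y^5 - 15*x^3*y^5 - 88*x^2*y^5 - 276*x*y^5 + 321*y^5 + 5*x^4*y^4 - 2*x^3*y^4 - 57*x^2*y^4 - 102*x*y^4 + 92*y^4 - 19*x^2*y^3 - 34*x*y^3 + y^3 - 3*x^2*y^2 - 9*x*y^2 - 6*y^2 - x*y - y) * hr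

theorem delta {F : Type} [Field F] (x y : F) (h : Good x y) :
    (Ew x y).Δ =
      x * (x + 1) * y ^ 12 * ww x y ^ 6 / (y + 1) ^ 6 * (1 - x - 4 * x ^ 2 - x ^ 3) := by
  rw [delta_bc, bracket x y h]
  have h1 := h.x1
  have h2 := h.y1
  have hb : bb x y = -(y ^ 2 * ww x y) / (x + 1) := rfl
  rw [hb]
  field_simp

/-- the ratio `y / (x + 1)` near the cusp -/
theorem ratio (x y : ℝ) (h : Good x y) : y / (x + 1) = x / (y + x ^ 3 + x ^ 2 + 1) := by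
  have h1 := h.x1
  have hr := h.rel
  have e : y * (y + x ^ 3 + x ^ 2 + 1) = x * (x + 1) := by linear_combination hr
  have h3 : y + x ^ 3 + x ^ 2 + 1 ≠ 0 := by
    intro h0
    rw [h0, mul_zero] at e
    exact mul_ne_zero h.x0 h1 e.symm
  rw [div_eq_div_iff h1 h3]
  linear_combination e

theorem near (η : ℝ) (hη : 0 < η) : ∃ δ : ℝ, 0 < δ ∧ ∀ x y : ℝ, Good x y → |x + 1| < δ →
    |y| < δ → |y / (x + 1) + 1| < η := by
  have hc : ContinuousAt (fun p : ℝ × ℝ => p.1 / (p.2 + p.1 ^ 3 + p.1 ^ 2 + 1)) (-1, 0) := by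
    apply ContinuousAt.div
    · fun_prop
    · fun_prop
    · norm_num
  have h := Metric.continuousAt_iff.mp hc η hη
  obtain ⟨δ, hδ, h⟩ := h
  refine ⟨δ, hδ, ?_⟩
  intro x y hg h1 h2
  have h3 := h (x := (x, y)) (by
    rw [Prod.dist_eq, max_lt_iff, Real.dist_eq, Real.dist_eq]
    constructor
    · simpa using h1
    · simpa using h2)
  rw [Real.dist_eq] at h3
  rw [ratio x y hg]
  have e : x / (y + x ^ 3 + x ^ 2 + 1) + 1 =
      x / (y + x ^ 3 + x ^ 2 + 1) - (-1) / (0 + (-1) ^ 3 + (-1) ^ 2 + 1) := by norm_num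
  rw [e]
  exact h3

theorem inv_large (B : ℝ) : ∃ δ : ℝ, 0 < δ ∧ ∀ x y : ℝ, Good x y → |x + 1| < δ → |y| < δ →
    0 < (Ew x y).c₄ ∧ 0 < (x + 1) * (Ew x y).Δ ∧ B < |(Ew x y).c₄ ^ 3 / (Ew x y).Δ| := by
  obtain ⟨δ1, hδ1, hn⟩ := near (1 / 2) (by norm_num)
  have hB : 0 < 100 * (|B| + 1) := by positivity
  refine ⟨min δ1 (min (1 / 100) (1 / (100 * (|B| + 1)))), by positivity, ?_⟩
  intro x y hg hx hy
  rw [lt_min_iff, lt_min_iff] at hx hy
  obtain ⟨hx1, hx2, hx3⟩ := hx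
  obtain ⟨hy1, hy2, hy3⟩ := hy
  have ht := hn x y hg hx1 hy1
  have e1 := hg.x1
  have e2 := hg.y1
  rw [abs_lt] at hx2 hy2 ht
  set t : ℝ := y / (x + 1) with htdef
  set w : ℝ := ww x y with hwdef
  have hw : w = y + 1 - x * y := rfl
  have hw1 : 97 / 100 < w := by rw [hw]; nlinarith
  have hw2 : w < 103 / 100 := by rw [hw]; nlinarith
  have hb : bb x y = -(t * y * w) := by
    unfold bb
    rw [htdef, hwdef]
    field_simp
  have hc : cc x y * (y + 1) = -(x * y * w) := by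
    unfold cc
    rw [← hwdef]
    field_simp
  have hyw : |y * w| < 11 / 1000 := by
    rw [abs_lt]; constructor <;> nlinarith
  rw [abs_lt] at hyw
  have hb' : |bb x y| < 17 / 1000 := by
    rw [hb, mul_assoc, abs_lt]; constructor <;> nlinarith
  have hc' : |cc x y| < 12 / 1000 := by
    rw [abs_lt]
    have h5 : |x * (y * w)| < 1112 / 100000 := by
      rw [abs_lt]; constructor <;> nlinarith
    rw [abs_lt] at h5
    rw [mul_assoc] at hc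
    constructor <;> nlinarith
  rw [abs_lt] at hb' hc'
  have hc4 : 2 / 5 < (Ew x y).c₄ := by
    rw [c4_bc]
    have h6 : 9 / 10 < (1 - cc x y) ^ 2 - 4 * bb x y := by nlinarith
    have h7 : 81 / 100 < ((1 - cc x y) ^ 2 - 4 * bb x y) ^ 2 := by nlinarith
    have h8 : -(41 / 100) < 24 * bb x y * (1 - cc x y) := by
      nlinarith
    linarith
  have hs : 1 - x - 4 * x ^ 2 - x ^ 3 = -1 + 4 * (x + 1) - (x + 1) ^ 2 - (x + 1) ^ 3 := by ring
  have hx1' : |x + 1| < 1 / 100 := abs_lt.mpr hx2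
  have hp2 : (x + 1) ^ 2 < 1 / 100 := by nlinarith
  have hp3 : |(x + 1) ^ 3| < 1 / 100 := by
    rw [abs_pow]
    calc |x + 1| ^ 3 ≤ |x + 1| ^ 1 := pow_le_pow_of_le_one (abs_nonneg _) (by linarith) (by norm_num)
      _ < 1 / 100 := by rw [pow_one]; exact hx1'
  rw [abs_lt] at hp3
  have hs1 : 1 - x - 4 * x ^ 2 - x ^ 3 < -(9 / 10) := by rw [hs]; nlinarith
  have hs2 : -(11 / 10) < 1 - x - 4 * x ^ 2 - x ^ 3 := by rw [hs]; nlinarith [sq_nonneg (x + 1)]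
  have hD := delta x y hg
  rw [← hwdef] at hD
  have hy0 := hg.y0
  have hw0 : w ≠ 0 := hg.w0
  have hpos : 0 < (x + 1) * (Ew x y).Δ := by
    rw [hD]
    have e : (x + 1) * (x * (x + 1) * y ^ 12 * w ^ 6 / (y + 1) ^ 6 * (1 - x - 4 * x ^ 2 - x ^ 3)) =
        (-x) * (-(1 - x - 4 * x ^ 2 - x ^ 3)) * ((x + 1) ^ 2 * y ^ 12 * w ^ 6 / (y + 1) ^ 6) := by
      ring
    rw [e]
    apply mul_pos (mul_pos (by linarith) (by linarith))
    have p1 : 0 < (x + 1) ^ 2 := by positivity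
    have p2 : 0 < y ^ 12 := Even.pow_pos (by decide) hy0
    have p3 : 0 < w ^ 6 := Even.pow_pos (by decide) hw0
    have p4 : 0 < (y + 1) ^ 6 := Even.pow_pos (by decide) e2
    positivity
  refine ⟨by linarith, hpos, ?_⟩
  have hD0 : (Ew x y).Δ ≠ 0 := by
    intro h0; rw [h0, mul_zero] at hpos; exact lt_irrefl _ hpos
  have hDabs : |(Ew x y).Δ| ≤ 4 * |x + 1| := by
    rw [hD]
    have r1 : |w ^ 6 / (y + 1) ^ 6| ≤ 3 := by
      rw [abs_div, abs_pow, abs_pow, div_le_iff₀ (by positivity)]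
      have a1 : |w| ≤ 103 / 100 := by rw [abs_le]; constructor <;> linarith
      have a2 : 99 / 100 ≤ |y + 1| := by
        rw [abs_of_pos (by linarith)]; linarith
      calc |w| ^ 6 ≤ (103 / 100) ^ 6 := pow_le_pow_left₀ (abs_nonneg _) a1 6
        _ ≤ 3 * (99 / 100) ^ 6 := by norm_num
        _ ≤ 3 * |y + 1| ^ 6 := by
          have := pow_le_pow_left₀ (by norm_num) a2 6
          linarith
    have r2 : |y ^ 12| ≤ 1 := by
      rw [abs_pow]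
      apply pow_le_one₀ (abs_nonneg _)
      rw [abs_le]; constructor <;> linarith
    have r3 : |x| ≤ 101 / 100 := by rw [abs_le]; constructor <;> linarith
    have r4 : |1 - x - 4 * x ^ 2 - x ^ 3| ≤ 11 / 10 := by rw [abs_le]; constructor <;> linarith
    have e : x * (x + 1) * y ^ 12 * w ^ 6 / (y + 1) ^ 6 * (1 - x - 4 * x ^ 2 - x ^ 3) =
        (x + 1) * ((x * (1 - x - 4 * x ^ 2 - x ^ 3)) * (y ^ 12 * (w ^ 6 / (y + 1) ^ 6))) := by ring
    rw [e, abs_mul, abs_mul, abs_mul, abs_mul (y ^ 12)]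
    have b1 : |x| * |1 - x - 4 * x ^ 2 - x ^ 3| ≤ 101 / 100 * (11 / 10) :=
      mul_le_mul r3 r4 (abs_nonneg _) (by norm_num)
    have b2 : |y ^ 12| * |w ^ 6 / (y + 1) ^ 6| ≤ 1 * 3 :=
      mul_le_mul r2 r1 (abs_nonneg _) (by norm_num)
    have b3 := mul_le_mul b1 b2 (by positivity) (by norm_num)
    have b4 : |x| * |1 - x - 4 * x ^ 2 - x ^ 3| * (|y ^ 12| * |w ^ 6 / (y + 1) ^ 6|) ≤ 4 := by
      refine b3.trans ?_
      norm_num
    nlinarith [abs_nonneg (x + 1)]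
  have hxx : 4 * |x + 1| < 4 * (1 / (100 * (|B| + 1))) := by linarith
  rw [abs_div, lt_div_iff₀ (abs_pos.mpr hD0), abs_pow]
  have hc3 : 8 / 125 < |(Ew x y).c₄| ^ 3 := by
    rw [abs_of_pos (by linarith)]
    calc (8 : ℝ) / 125 = (2 / 5) ^ 3 := by norm_num
      _ < (Ew x y).c₄ ^ 3 := pow_lt_pow_left₀ hc4 (by norm_num) (by norm_num)
  have hBD : B * |(Ew x y).Δ| ≤ (|B| + 1) * (4 * (1 / (100 * (|B| + 1)))) := by
    have q1 : B ≤ |B| + 1 := by linarith [le_abs_self B]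
    have q2 : |(Ew x y).Δ| ≤ 4 * (1 / (100 * (|B| + 1))) := by linarith
    calc B * |(Ew x y).Δ| ≤ (|B| + 1) * |(Ew x y).Δ| := by
          apply mul_le_mul_of_nonneg_right q1 (abs_nonneg _)
      _ ≤ _ := by apply mul_le_mul_of_nonneg_left q2 (by positivity)
  have hfin : (|B| + 1) * (4 * (1 / (100 * (|B| + 1)))) = 4 / 100 := by
    have : |B| + 1 ≠ 0 := by positivity
    field_simp
  rw [hfin] at hBD
  linarith

end DiscX

theorem disc_proof : Stmt_Disc :=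
  ⟨fun _ _ x y h => DiscX.delta x y h, DiscX.inv_large⟩

end Pool.Agent.BEK
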