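import Pool.Agent.BEK.Defs

set_option autoImplicit false

/-!
# Exact statements of the modules of squad BEK (MP_0a9c3b_nt)
Text: /team-store/MP_0a9c3b_PROOF.md
(TAME and DILOG are stated in `Defs.lean`.)
-/

namespace Pool.Agent.BEK

/-! ## Algebra -/

/-- PAR: identities between the basic units of `X_1(13)`. -/
def Stmt_Par : Prop :=
  ∀ (F : Type) [Field F] (x y : F), Good x y →
    1 - x * y = y * (y + 1) / (x * (x + 1)) ∧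
    x + y + 1 = (x + 1) ^ 2 * ww x y / (y + 1) ∧
    Good (dia (x, y)).1 (dia (x, y)).2 ∧
    (dia (x, y)).1 + 1 = -1 / x ∧
    (dia (x, y)).2 + 1 = y * (y + 1) / (x * (x + 1) * ww x y) ∧
    ww (dia (x, y)).1 (dia (x, y)).2 = -(y * (y + 1) ^ 2) / ((x + 1) * ww x y ^ 2) ∧
    (bb x y ≠ 0 ∧ cc x y ≠ 0) ∧
    bb x y - cc x y = x ^ 2 * y ^ 2 * ww x y / (y + 1) ∧
    bb x y - y * ww x y = -((x + 1) * y * ww x y ^ 2) / (y + 1) ∧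
    cc x y - y * ww x y = -((x + 1) ^ 2 * y * ww x y ^ 2) / (y + 1) ^ 2 ∧
    bb x y - cc x y - cc x y ^ 2 = x ^ 3 * y ^ 3 * ww x y / (y + 1) ^ 2 ∧
    2 * (-((x + 1) * ww x y) * (y * ww x y)) + (1 - cc x y) * (y * ww x y) - bb x y =
      -((x + 1) ^ 4 * y ^ 2 * ww x y ^ 3) / (x * (y + 1) ^ 3)

/-- explicit values for one change of coordinates -/
structure Row {F : Type} [Field F] (a : Aff F) (X X1 Y Y1 W S : F) : Prop where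
  x : a.x = X
  x1 : a.x + 1 = X1
  y : a.y = Y
  y1 : a.y + 1 = Y1
  w : ww a.x a.y = W
  S : a.S = S

/-- TAB (uses PAR): the table of the units after `j` steps. -/
def Stmt_Tab : Prop :=
  ∀ (F : Type) [Field F] (x y : F), Good x y →
    Row (af x y 0) x (x + 1) y (y + 1) (ww x y) 1 ∧
    Row (af x y 1) (-(x + 1) / x) (-1 / x) (-y / ww x y)
      (y * (y + 1) / (x * (x + 1) * ww x y)) (-(y * (y + 1) ^ 2) / ((x + 1) * ww x y ^ 2))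
      (ww x y ^ 2 / (y + 1)) ∧
    Row (af x y 2) (-1 / (x + 1)) (x / (x + 1)) (-((x + 1) * ww x y) / (y + 1) ^ 2)
      (x * y / ((x + 1) * (y + 1))) (-(y * ww x y) / (x * (y + 1) ^ 2))
      (x * y * (y + 1) ^ 2 / ((x + 1) * ww x y)) ∧
    Row (af x y 3) x (x + 1) (-(x * (x + 1)) / y) (-(x * (x + 1) ^ 2) / (y + 1))
      (x ^ 3 / ww x y) (y ^ 2 * ww x y / (x ^ 2 * (y + 1))) ∧
    Row (af x y 4) (-(x + 1) / x) (-1 / x) ((x + 1) * ww x y / (x ^ 2 * y))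
      ((x + 1) ^ 2 * ww x y / (x ^ 2 * y * (y + 1)))
      ((x + 1) ^ 4 * ww x y ^ 2 / (x ^ 3 * y * (y + 1) ^ 2))
      (-(x ^ 3 * y ^ 2) / ((x + 1) ^ 2 * ww x y)) ∧
    Row (af x y 5) (-1 / (x + 1)) (x / (x + 1)) (-(x * (y + 1) ^ 2) / ((x + 1) ^ 3 * ww x y))
      (x * (y + 1) / ((x + 1) ^ 2 * y)) (x * (y + 1) ^ 2 / ((x + 1) ^ 3 * y * ww x y))
      (-((x + 1) ^ 4 * y * ww x y ^ 2) / (x * (y + 1) ^ 3)) ∧
    Row (af x y 6) x (x + 1) y (y + 1) (ww x y) (-1)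

/-- INV (uses PAR): the change of coordinates is an isomorphism of the curves. -/
def Stmt_Inv : Prop :=
  ∀ (F : Type) [Field F],
    (∀ s : St F, Good s.x s.y → s.OnE → s.step.OnE) ∧
    (∀ s : St F, Good s.x s.y → s.conj.step = s.step.conj) ∧
    ∀ x y : F, Good x y →
      (Ew x y).c₄ = (ww x y ^ 2 / (y + 1)) ^ 4 * (Ew (dia (x, y)).1 (dia (x, y)).2).c₄ ∧
      (Ew x y).Δ = (ww x y ^ 2 / (y + 1)) ^ 12 * (Ew (dia (x, y)).1 (dia (x, y)).2).Δ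

/-- PROD: products of lines and the conjugate lines. -/
def Stmt_Prod : Prop :=
  ∀ (F : Type) [Field F] (s : St F), Good s.x s.y → s.OnE →
    s.conj.OnE ∧ s.conj.conj = s ∧
    s.Y * s.conj.Y = -(s.X ^ 2 * (s.X - s.b)) ∧
    s.L2 * s.conj.L2 = -(s.X * (s.X - s.b) * (s.X - s.c)) ∧
    s.T3 * s.conj.T3 = -((s.X - s.c) ^ 2 * (s.X - s.y * s.w)) ∧
    s.L6 * s.conj.L6 = -(s.X * (s.X - s.y * s.w) ^ 2)

/-- STEP (uses PAR, INV, PROD): the function attached to `2P`. -/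
def Stmt_Step : Prop :=
  ∀ (F : Type) [Field F] (s : St F), Good s.x s.y → s.OnE → s.Gen → s.step.Gen →
    s.sg ^ 13 * s.step.fn = s.fn ^ 2 * ((s.X - s.b) / s.Y) ^ 13

/-- AFF (uses PAR, TAB): the iterated passage in the original coordinates; `2^6 P = -P`. -/
def Stmt_Aff : Prop :=
  ∀ (F : Type) [Field F] (x y : F), Good x y →
    af x y 6 = ⟨x, y, -1, 0, cc x y - 1, bb x y⟩ ∧
    dia^[3] (x, y) = (x, -(x * (x + 1)) / y) ∧ dia^[6] (x, y) = (x, y) ∧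
    (∀ X Y : F, St.step^[6] ⟨x, y, X, Y⟩ = St.conj ⟨x, y, X, Y⟩) ∧
    ∀ j : ℕ, (af x y j).S ≠ 0 ∧ Good (af x y j).x (af x y j).y ∧
      (af x y (j + 4)).R = (af x y j).R + (af x y j).S ^ 2 * cc (af x y j).x (af x y j).y ∧
      (af x y (j + 5)).R = (af x y j).R +
        (af x y j).S ^ 2 * ((af x y j).y * ww (af x y j).x (af x y j).y) ∧
      (af x y (j + 6)).R = (af x y j).R ∧
      ∀ X Y : F, St.step^[j] ⟨x, y, X, Y⟩ = (af x y j).at X Y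

/-- the basic units of the point are units for `v` -/
def UnitsAt {F : Type} [Field F] (v : DV F) (s : St F) : Prop :=
  ∀ e : Fˣ, (e : F) = s.x ∨ (e : F) = s.x + 1 ∨ (e : F) = s.y ∨ (e : F) = s.y + 1 ∨
    (e : F) = s.w → v.ord e = 0

/-- UNEG (uses PAR, PROD): valuations near the origin `O`. -/
def Stmt_UnrNeg : Prop :=
  ∀ (F : Type) [Field F] (v : DV F) (s : St F), Good s.x s.y → s.OnE → s.Gen → UnitsAt v s →
    (∃ e : Fˣ, (e : F) = s.X ∧ v.ord e < 0) →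
    ∀ f g : Fˣ, (f : F) = s.h → (g : F) = s.conj.h → v.tame f g = 1

/-- UPOS (uses PAR, PROD): valuations near `P` or `-P`. -/
def Stmt_UnrPos : Prop :=
  ∀ (F : Type) [Field F] (v : DV F) (s : St F), Good s.x s.y → s.OnE → s.Gen → UnitsAt v s →
    (∃ e : Fˣ, (e : F) = s.X ∧ 0 < v.ord e) →
    ∀ f g : Fˣ, (f : F) = s.h → (g : F) = s.conj.h → v.tame f g = 1

/-- UZERO (uses PAR, PROD): all other valuations; `h` and `conj h` are units. -/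
def Stmt_UnrZero : Prop :=
  ∀ (F : Type) [Field F] (v : DV F) (s : St F), Good s.x s.y → s.OnE → s.Gen → UnitsAt v s →
    (∃ e : Fˣ, (e : F) = s.X ∧ v.ord e = 0) →
    ∀ f g : Fˣ, (f : F) = s.h → (g : F) = s.conj.h → v.ord f = 0 ∧ v.ord g = 0

/-- UNR (from UNEG, UPOS, UZERO): the tame symbols of `{h, conj h}` are trivial. -/
def Stmt_Unr : Prop :=
  ∀ (F : Type) [Field F] (v : DV F) (s : St F), Good s.x s.y → s.OnE → s.Gen → UnitsAt v s →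
    ∀ f g : Fˣ, (f : F) = s.h → (g : F) = s.conj.h → v.tame f g = 1

/-! ## Behaviour near the cusp `(-1, 0)` -/

/-- `a^2` for `a = 2^j mod 13`, `|a| ≤ 6` -/
def asq : ℕ → ℤ
  | 0 => 1
  | 1 => 4
  | 2 => 16
  | 3 => 25
  | 4 => 9
  | _ => 36

/-- MON (uses TAB): the changes of coordinates near the cusp `(-1, 0)`. -/
def Stmt_Mon : Prop :=
  ∀ δ : ℝ, 0 < δ → ∃ δ' C : ℝ, 0 < δ' ∧ ∀ x y : ℝ, Good x y → |x + 1| < δ' → |y| < δ' →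
    (|bb x y| < δ ∧ |cc x y| < δ ∧ |y * (1 - x)| < δ ∧
      |bb x y - cc x y - y * (1 - x) * cc x y| < δ ∧
      |(x + 1) * ww x y| < δ ∧ |y * ww x y| < δ) ∧
    ∀ j : ℕ, j < 6 →
      |(af x y j).R| < δ ∧ |(af x y j).N| < δ ∧
      |(af x y j).L + (if j = 3 then 1 else 0)| < δ ∧
      abs (Real.log (abs ((af x y j).S ^ 13 * (bb (af x y j).x (af x y j).y ^ 5 /
        (cc (af x y j).x (af x y j).y ^ 2 * (af x y j).y ^ 2)))) -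
          asq j * Real.log (abs (x + 1))) ≤ C

/-- DISC: the discriminant, and the `j`-invariant near the cusp. -/
def Stmt_Disc : Prop :=
  (∀ (F : Type) [Field F] (x y : F), Good x y →
    (Ew x y).Δ =
      x * (x + 1) * y ^ 12 * ww x y ^ 6 / (y + 1) ^ 6 * (1 - x - 4 * x ^ 2 - x ^ 3)) ∧
  ∀ B : ℝ, ∃ δ : ℝ, 0 < δ ∧ ∀ x y : ℝ, Good x y → |x + 1| < δ → |y| < δ →
    0 < (Ew x y).c₄ ∧ 0 < (x + 1) * (Ew x y).Δ ∧ B < |(Ew x y).c₄ ^ 3 / (Ew x y).Δ|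

/-! ## Analysis -/

/-- functions without zeros on a circle: size and winding number -/
structure Nice (C : ℝ) (w : ℤ) (g : ℝ → ℂ) : Prop where
  smooth : ContDiff ℝ 1 g
  periodic : ∀ θ, g (θ + 2 * Real.pi) = g θ
  ne : ∀ θ, g θ ≠ 0
  size : ∀ θ, |Real.log ‖g θ‖| ≤ C
  der : ∀ θ, |darg g θ| ≤ C
  wind : ∫ θ in (0 : ℝ)..2 * Real.pi, darg g θ = 2 * Real.pi * w

/-- NICE: calculus of nice functions and the main estimate of the regulator. -/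
def Stmt_Nice : Prop :=
  (∀ (C C' : ℝ) (w w' : ℤ) (f g : ℝ → ℂ), Nice C w f → Nice C' w' g →
    Nice (C + C') (w + w') (fun θ => f θ * g θ)) ∧
  (∀ (C : ℝ) (w : ℤ) (f : ℝ → ℂ), Nice C w f → Nice C (-w) (fun θ => (f θ)⁻¹)) ∧
  (∀ (C C' : ℝ) (w w' : ℤ) (f g : ℝ → ℂ) (a : ℂ), Nice C w f → Nice C' w' g → a ≠ 0 →
    |regz (fun θ => f θ / a) (fun θ => g θ / a) - Real.log ‖a‖ * (w - w')| ≤ 2 * C * C')

/-- LI2: the dilogarithm on the plane cut along `[1, ∞)`. -/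
def Stmt_Li2 : Prop :=
  ∃ G : ℂ → ℂ, ContinuousAt G 0 ∧ (∀ r : ℝ, r < 1 → (G r).im = 0) ∧
    ∀ z : ℂ, z ≠ 0 → (z.im ≠ 0 ∨ z.re < 1) → HasDerivAt G (-Complex.log (1 - z) / z) z

/-- PRIM (uses LI2): the Bloch-Wigner function is a primitive of
`log|z| d arg(1-z) - log|1-z| d arg z`. -/
def Stmt_Prim : Prop :=
  ∃ D : ℂ → ℝ, ∀ z : ℂ, z ≠ 0 → z ≠ 1 → ∃ L : ℂ →L[ℝ] ℝ, HasFDerivAt D L z ∧
    ∀ h : ℂ, L h = Real.log ‖z‖ * (-h / (1 - z)).im - Real.log ‖1 - z‖ * (h / z).im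

/-- the circle `|t| = ρ` -/
noncomputable def tt (ρ θ : ℝ) : ℂ := ρ * Complex.exp (θ * Complex.I)

/-- a loop on the curve `E_{b,c}`: `Y = t X` with `|t| = ρ` -/
structure IsLoop (ρ b c : ℝ) (X : ℝ → ℂ) : Prop where
  smooth : ContDiff ℝ 1 X
  periodic : ∀ θ, X (θ + 2 * Real.pi) = X θ
  symm : ∀ θ, X (-θ) = (starRingEnd ℂ) (X θ)
  ne : ∀ θ, X θ ≠ 0
  eq : ∀ θ, X θ ^ 2 - (tt ρ θ ^ 2 + (1 - c) * tt ρ θ + b) * X θ + b * tt ρ θ = 0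

/-- CIRC: the basic nice functions. -/
def Stmt_Circ : Prop :=
  ∀ ρ : ℝ, 0 < ρ → ρ < 1 → ∃ C : ℝ, Nice C 1 (tt ρ) ∧ Nice C 0 (fun θ => 1 + tt ρ θ)

/-- PERT: a function that is `C^1`-close to a nice function is nice. -/
def Stmt_Pert : Prop :=
  ∀ (C₀ : ℝ) (w : ℤ) (g₀ : ℝ → ℂ), Nice C₀ w g₀ → ∃ ε C : ℝ, 0 < ε ∧ ∀ g : ℝ → ℂ,
    ContDiff ℝ 1 g → (∀ θ, g (θ + 2 * Real.pi) = g θ) → (∀ θ, ‖g θ - g₀ θ‖ ≤ ε) →
    (∀ θ, ‖deriv g θ - deriv g₀ θ‖ ≤ ε) → Nice C w g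

/-- LINEX: the loop near the nodal curve. -/
def Stmt_LineX : Prop :=
  ∀ ρ : ℝ, 0 < ρ → ρ < 1 → ∀ ε : ℝ, 0 < ε → ∃ δ : ℝ, 0 < δ ∧ ∀ b c : ℝ, |b| < δ → |c| < δ →
    ∃ X : ℝ → ℂ, IsLoop ρ b c X ∧ (∀ θ, ‖X θ - tt ρ θ * (1 + tt ρ θ)‖ ≤ ε) ∧
      (∀ θ, ‖deriv X θ - deriv (fun θ => tt ρ θ * (1 + tt ρ θ)) θ‖ ≤ ε)

/-- LINE (uses NICE, CIRC, PERT, LINEX): all lines with slope near `0` or `-1`. -/
def Stmt_Line : Prop :=
  ∀ ρ : ℝ, 0 < ρ → ρ < 1 → ∃ δ C : ℝ, 0 < δ ∧ ∀ b c : ℝ, |b| < δ → |c| < δ →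
    ∃ X : ℝ → ℂ, IsLoop ρ b c X ∧
      (∀ l m : ℝ, |l| < δ → |m| < δ → Nice C 2 (fun θ => tt ρ θ * X θ - l * X θ - m)) ∧
      (∀ l m : ℝ, |l + 1| < δ → |m| < δ → Nice C 1 (fun θ => tt ρ θ * X θ - l * X θ - m)) ∧
      (∀ m : ℝ, |m| < δ → Nice C 1 (fun θ => X θ - m))

/-- the leading coefficients of the regulators -/
def kap : ℕ → ℤ
  | 0 => 11
  | 1 => 36
  | 2 => 80
  | 3 => -75
  | 4 => 63
  | _ => 36

/-- ASYM (uses INV, PROD, STEP, AFF, MON, NICE, LINE): asymptotic values of the regulators. -/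
def Stmt_Asym : Prop :=
  ∀ ρ : ℝ, 0 < ρ → ρ < 1 → ∃ δ C : ℝ, 0 < δ ∧ ∀ x y : ℝ, Good x y → |x + 1| < δ → |y| < δ →
    ∃ X : ℝ → ℂ, IsLoop ρ (bb x y) (cc x y) X ∧ ∀ j : ℕ, j < 6 →
      abs (regz (fun θ => (St.step^[j] ⟨(x : ℂ), (y : ℂ), X θ, tt ρ θ * X θ⟩).h)
        (fun θ => (St.step^[j] ⟨(x : ℂ), (y : ℂ), X θ, tt ρ θ * X θ⟩).conj.h) -
        kap j * Real.log (abs (x + 1))) ≤ C

/-! ## Generic points -/

/-- TRANS: transcendence. -/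
def Stmt_Trans : Prop :=
  (∃ ρ : ℝ, 0 < ρ ∧ ρ < 1 ∧ Transcendental ℚ (ρ ^ 2)) ∧
  ∀ (K : Type) [Field K] [NumberField K] (σ : K →+* ℝ) (ρ : ℝ) (b c : K), 0 < ρ →
    Transcendental ℚ (ρ ^ 2) → ∀ (X : ℂ) (θ : ℝ), X ≠ 0 →
    X ^ 2 - (tt ρ θ ^ 2 + (1 - (σ c : ℂ)) * tt ρ θ + (σ b : ℂ)) * X + (σ b : ℂ) * tt ρ θ = 0 →
    ∀ p : Polynomial K, p ≠ 0 → (p.map ((algebraMap ℝ ℂ).comp σ)).eval X ≠ 0

open WeierstrassCurve.Affine in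
/-- the function `X` on a Weierstrass curve -/
noncomputable def fX {K : Type} [Field K] (W : WeierstrassCurve.Affine K) : W.FunctionField :=
  algebraMap W.CoordinateRing W.FunctionField
    (CoordinateRing.mk W (Polynomial.C Polynomial.X))

open WeierstrassCurve.Affine in
/-- the function `Y` on a Weierstrass curve -/
noncomputable def fY {K : Type} [Field K] (W : WeierstrassCurve.Affine K) : W.FunctionField :=
  algebraMap W.CoordinateRing W.FunctionField (CoordinateRing.mk W Polynomial.X)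

/-- FUNA: points with transcendental coordinate are generic. -/
def Stmt_FunA : Prop :=
  ∀ (K : Type) [Field K] (W : WeierstrassCurve.Affine K) (φ : K →+* ℂ) (X Y : ℂ),
    Y ^ 2 + φ W.a₁ * X * Y + φ W.a₃ * Y = X ^ 3 + φ W.a₂ * X ^ 2 + φ W.a₄ * X + φ W.a₆ →
    (∀ p : Polynomial K, p ≠ 0 → (p.map φ).eval X ≠ 0) →
    ∃ e : W.FunctionField →+* ℂ, (∀ k, e (algebraMap K _ k) = φ k) ∧ e (fX W) = X ∧
      e (fY W) = Y

/-- FUNG: the function field. -/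
def Stmt_FunG : Prop :=
  ∀ (K : Type) [Field K] (W : WeierstrassCurve.Affine K),
    (fY W ^ 2 + algebraMap K _ W.a₁ * fX W * fY W + algebraMap K _ W.a₃ * fY W =
      fX W ^ 3 + algebraMap K _ W.a₂ * fX W ^ 2 + algebraMap K _ W.a₄ * fX W +
        algebraMap K _ W.a₆) ∧
    (∀ k : K, fX W ≠ algebraMap K _ k) ∧
    ∀ S : Subfield W.FunctionField, (∀ k : K, algebraMap K _ k ∈ S) → fX W ∈ S → fY W ∈ S →
      S = ⊤

/-- FUNF (uses FUNA, FUNG): loops of generic points of a Weierstrass curve. -/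
def Stmt_FunF : Prop :=
  ∀ (K : Type) [Field K] (W : WeierstrassCurve.Affine K)
    (σ : K →+* ℝ) (X Y : ℝ → ℂ), ContDiff ℝ 1 X → ContDiff ℝ 1 Y →
      (∀ θ, X (θ + 2 * Real.pi) = X θ) → (∀ θ, Y (θ + 2 * Real.pi) = Y θ) →
      (∀ θ, X (-θ) = (starRingEnd ℂ) (X θ)) → (∀ θ, Y (-θ) = (starRingEnd ℂ) (Y θ)) →
      (∀ θ, Y θ ^ 2 + (σ W.a₁ : ℂ) * X θ * Y θ + (σ W.a₃ : ℂ) * Y θ =
        X θ ^ 3 + (σ W.a₂ : ℂ) * X θ ^ 2 + (σ W.a₄ : ℂ) * X θ + (σ W.a₆ : ℂ)) →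
      (∀ θ (p : Polynomial K), p ≠ 0 → (p.map ((algebraMap ℝ ℂ).comp σ)).eval (X θ) ≠ 0) →
      ∃ γ : Loop W.FunctionField, (∀ θ k, γ.ev θ (algebraMap K _ k) = (σ k : ℂ)) ∧
        (∀ θ, γ.ev θ (fX W) = X θ) ∧ (∀ θ, γ.ev θ (fY W) = Y θ) ∧
        ∀ θ f, γ.ev (-θ) f = (starRingEnd ℂ) (γ.ev θ f)

/-! ## The sextic fields -/

/-- the minimal polynomial of `y` -/
noncomputable def gpoly (n : ℕ) : Polynomial ℤ :=
  Polynomial.X ^ 6 - (1 + Polynomial.C (n : ℤ) * Polynomial.X) *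
    (Polynomial.C (n : ℤ) * Polynomial.X ^ 2 + Polynomial.C (n : ℤ) * Polynomial.X + 1) *
    (Polynomial.C ((n : ℤ) - 1) * Polynomial.X ^ 2 + Polynomial.C (n : ℤ) * Polynomial.X + 1)

/-- IRR: irreducibility (modulo 2 it is `y^6 + y^4 + y^3 + y + 1`). -/
def Stmt_Irr : Prop :=
  ∀ n : ℕ, Odd n → Irreducible ((gpoly n).map (Int.castRingHom ℚ))

/-- ROOTS (uses PAR, AFF): the six real points. -/
def Stmt_Roots : Prop :=
  ∀ δ : ℝ, 0 < δ → ∃ n₀ : ℕ, ∀ n : ℕ, n₀ ≤ n → ∀ m : Fin 6, ∃ x y : ℝ, Good x y ∧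
    x * (x + 1) * (x + n) + 1 = 0 ∧
    |(dia^[(m : ℕ)] (x, y)).1 + 1| < δ ∧ |(dia^[(m : ℕ)] (x, y)).2| < δ

/-- SEP (uses PAR, TAB): a point is near the cusp for at most one `m`. -/
def Stmt_Sep : Prop :=
  ∃ δ : ℝ, 0 < δ ∧ ∀ x y : ℝ, Good x y → ∀ m m' : Fin 6,
    |(dia^[(m : ℕ)] (x, y)).1 + 1| < δ → |(dia^[(m : ℕ)] (x, y)).2| < δ →
    |(dia^[(m' : ℕ)] (x, y)).1 + 1| < δ → |(dia^[(m' : ℕ)] (x, y)).2| < δ → m = m'

/-- UNITS (uses TAB): the basic units are units. -/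
def Stmt_Units : Prop :=
  ∀ (K : Type) [Field K] (x y : K) (n : ℕ), Good x y → x * (x + 1) * (x + (n : K)) + 1 = 0 →
    ∀ e : K, e = x ∨ e = x + 1 ∨ e = y ∨ e = y + 1 ∨ e = ww x y →
      IsIntegral ℤ e ∧ IsIntegral ℤ e⁻¹

/-- FIELD (uses IRR, ROOTS, SEP, UNITS): the sextic fields. -/
def Stmt_Field : Prop :=
  ∀ δ : ℝ, 0 < δ → ∃ n₀ : ℕ, ∀ n : ℕ, n₀ ≤ n → Odd n →
    ∃ (K : Type) (_ : Field K) (_ : NumberField K) (x y : K) (σ : Fin 6 → (K →+* ℝ)),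
      Module.finrank ℚ K = 6 ∧ Good x y ∧ x * (x + 1) * (x + (n : K)) + 1 = 0 ∧
      Function.Injective σ ∧
      (∀ e : K, e = x ∨ e = x + 1 ∨ e = y ∨ e = y + 1 ∨ e = ww x y →
        IsIntegral ℤ e ∧ IsIntegral ℤ e⁻¹) ∧
      ∀ m : Fin 6, |σ m (dia^[(m : ℕ)] (x, y)).1 + 1| < δ ∧ |σ m (dia^[(m : ℕ)] (x, y)).2| < δ

/-- DET: the limit matrix. -/
def Stmt_Det : Prop :=
  ∃ η : ℝ, 0 < η ∧ ∀ M : Matrix (Fin 6) (Fin 6) ℝ,
    (∀ i j : Fin 6, |M i j - (if (i : ℕ) ≤ (j : ℕ) then (kap ((j : ℕ) - (i : ℕ)) : ℝ)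
      else -(kap (6 + (j : ℕ) - (i : ℕ)) : ℝ))| < η) → M.det ≠ 0

end Pool.Agent.BEK
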