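import Mathlib
import Pool.Agent.BEK.Stmts

set_option autoImplicit false

/-!
# Squad BEK, module FIELD: the sextic fields
-/

namespace Pool.Agent.BEK

namespace FieldX

open Polynomial

/-- `gpoly` over `ℚ` -/
noncomputable def q (n : ℕ) : ℚ[X] := (gpoly n).map (Int.castRingHom ℚ)

theorem q_eq (n : ℕ) : q n = X ^ 6 - (1 + C (n : ℚ) * X) *
    (C (n : ℚ) * X ^ 2 + C (n : ℚ) * X + 1) *
    (C ((n : ℚ) - 1) * X ^ 2 + C (n : ℚ) * X + 1) := by
  simp [q, gpoly]

theorem natDegree_q (n : ℕ) : (q n).natDegree = 6 := by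
  rw [q_eq]
  have h : ((1 + C (n : ℚ) * X) *
    (C (n : ℚ) * X ^ 2 + C (n : ℚ) * X + 1) *
    (C ((n : ℚ) - 1) * X ^ 2 + C (n : ℚ) * X + 1)).natDegree ≤ 5 := by
    compute_degree
  rw [natDegree_sub_eq_left_of_natDegree_lt, natDegree_X_pow]
  rw [natDegree_X_pow]
  omega

theorem eval₂_q {R : Type} [Field R] [CharZero R] (f : ℚ →+* R) (n : ℕ) (y : R) :
    (q n).eval₂ f y = y ^ 6 - (1 + n * y) * (n * y ^ 2 + n * y + 1) *
      ((n - 1) * y ^ 2 + n * y + 1) := by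
  rw [q_eq]
  simp [eval₂_mul, eval₂_add, eval₂_sub, eval₂_pow]

section alg

variable {K : Type} [Field K]

/-- the algebra behind the parametrisation -/
theorem forward {x y : K} {n : ℕ} (hy : y ≠ 0)
    (hg : y ^ 6 = (1 + n * y) * (n * y ^ 2 + n * y + 1) * ((n - 1) * y ^ 2 + n * y + 1))
    (hx : x * y ^ 2 = -(n * y ^ 2 + n * y + 1)) :
    x * (x + 1) * (x + n) + 1 = 0 ∧ y ^ 2 + (x ^ 3 + x ^ 2 + 1) * y = x ^ 2 + x := by
  have hx1 : (x + 1) * y ^ 2 = -((n - 1) * y ^ 2 + n * y + 1) := by linear_combination hx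
  have hxn : (x + n) * y ^ 2 = -(1 + n * y) := by linear_combination hx
  have h1 : x * (x + 1) * (x + n) * y ^ 6 = -y ^ 6 := by
    calc x * (x + 1) * (x + n) * y ^ 6 = (x * y ^ 2) * ((x + 1) * y ^ 2) * ((x + n) * y ^ 2) := by
          ring
      _ = -y ^ 6 := by rw [hx, hx1, hxn, hg]; ring
  have hy6 : y ^ 6 ≠ 0 := pow_ne_zero _ hy
  have h2 : x * (x + 1) * (x + n) = -1 := by
    apply mul_right_cancel₀ hy6
    rw [h1]; ring
  refine ⟨by rw [h2]; ring, ?_⟩
  -- `x (x + 1) (1 + n y) = y ^ 2`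
  have h3 : x * (x + 1) * (1 + n * y) = y ^ 2 := by
    have : x * (x + 1) * (1 + n * y) = -(x * (x + 1) * (x + n)) * y ^ 2 := by
      rw [show (1 + n * y : K) = -((x + n) * y ^ 2) by rw [hxn]; ring]
      ring
    rw [this, h2]; ring
  linear_combination (y) * h2 - h3

theorem backward {x y : K} {n : ℕ} (_hy : y ≠ 0)
    (hr : y ^ 2 + (x ^ 3 + x ^ 2 + 1) * y = x ^ 2 + x)
    (h2 : x * (x + 1) * (x + n) + 1 = 0) :
    x * y ^ 2 = -(n * y ^ 2 + n * y + 1) ∧
    y ^ 6 = (1 + n * y) * (n * y ^ 2 + n * y + 1) * ((n - 1) * y ^ 2 + n * y + 1) := by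
  have h3 : x * (x + 1) * (1 + n * y) = y ^ 2 := by
    linear_combination (y) * h2 - hr
  have hW : x * (x + 1) ≠ 0 := by
    intro h
    rw [h] at h2
    simp at h2
  have hx : x * y ^ 2 = -(n * y ^ 2 + n * y + 1) := by
    apply mul_left_cancel₀ hW
    linear_combination (y ^ 2) * h2 + h3
  refine ⟨hx, ?_⟩
  have e1 : n * y ^ 2 + n * y + 1 = -(x * y ^ 2) := by rw [hx]; ring
  have e2 : (n - 1) * y ^ 2 + n * y + 1 = -((x + 1) * y ^ 2) := by linear_combination hx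
  rw [e1, e2]
  linear_combination (-y ^ 4) * h3

theorem good {x y : K} {n : ℕ} (hr : y ^ 2 + (x ^ 3 + x ^ 2 + 1) * y = x ^ 2 + x)
    (h2 : x * (x + 1) * (x + n) + 1 = 0) : Good x y := by
  have hx : x ≠ 0 := by
    rintro rfl
    simp at h2
  have hx1 : x + 1 ≠ 0 := by
    intro h
    rw [h] at h2
    simp at h2
  refine ⟨hr, hx, hx1, ?_, ?_, ?_⟩
  · rintro rfl
    have : x * (x + 1) = 0 := by linear_combination -hr
    rcases mul_eq_zero.1 this with h | h
    · exact hx h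
    · exact hx1 h
  · intro h
    have hy : y = -1 := by linear_combination h
    subst hy
    have : x * (x + 1) ^ 2 = 0 := by linear_combination -hr
    rcases mul_eq_zero.1 this with h | h
    · exact hx h
    · exact hx1 (pow_eq_zero_iff (two_ne_zero) |>.1 h)
  · intro h
    unfold ww at h
    -- `y (x - 1) = 1`
    have h4 : y * (x - 1) = 1 := by linear_combination -h
    have : x ^ 3 = 0 := by
      linear_combination (x - 1) ^ 2 * hr -
        (y * (x - 1) + 1 + (x ^ 3 + x ^ 2 + 1) * (x - 1)) * h4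
    exact hx (pow_eq_zero_iff (three_ne_zero) |>.1 this)

end alg

end FieldX

theorem field_proof (hIrr : Stmt_Irr) (hRoots : Stmt_Roots) (hSep : Stmt_Sep)
    (hUnits : Stmt_Units) : Stmt_Field := by
  intro δ hδ
  obtain ⟨δ₁, hδ₁, hsep⟩ := hSep
  obtain ⟨n₀, hn₀⟩ := hRoots (min δ δ₁) (lt_min hδ hδ₁)
  refine ⟨n₀, fun n hn hodd => ?_⟩
  have hirr : Irreducible (FieldX.q n) := hIrr n hodd
  have : Fact (Irreducible (FieldX.q n)) := ⟨hirr⟩
  let K := AdjoinRoot (FieldX.q n)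
  let _ : Field K := AdjoinRoot.instField
  let _ : Algebra ℚ K := inferInstance
  have hne : FieldX.q n ≠ 0 := hirr.ne_zero
  have : CharZero K := algebraRat.charZero K
  have hfr : Module.finrank ℚ K = 6 := by
    rw [(AdjoinRoot.powerBasis hne).finrank, AdjoinRoot.powerBasis_dim, FieldX.natDegree_q]
  have : FiniteDimensional ℚ K := (AdjoinRoot.powerBasis hne).finite
  have : NumberField K := ⟨⟩
  let y : K := AdjoinRoot.root (FieldX.q n)
  have hy6 : y ^ 6 = (1 + n * y) * (n * y ^ 2 + n * y + 1) * ((n - 1) * y ^ 2 + n * y + 1) := by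
    have h := AdjoinRoot.eval₂_root (FieldX.q n)
    rw [FieldX.eval₂_q] at h
    exact sub_eq_zero.1 h
  have hy : y ≠ 0 := by
    intro h
    rw [h] at hy6
    simp at hy6
  let x : K := -(n * y ^ 2 + n * y + 1) / y ^ 2
  have hx : x * y ^ 2 = -(n * y ^ 2 + n * y + 1) := div_mul_cancel₀ _ (pow_ne_zero 2 hy)
  obtain ⟨h1, h2⟩ := FieldX.forward hy hy6 hx
  have hgood : Good x y := FieldX.good h2 h1
  -- the six real points
  choose X Y hXY using hn₀ n hn
  have hev : ∀ m, (FieldX.q n).eval₂ (algebraMap ℚ ℝ) (Y m) = 0 := by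
    intro m
    rw [FieldX.eval₂_q, sub_eq_zero]
    exact (FieldX.backward (hXY m).1.y0 (hXY m).1.rel (hXY m).2.1).2
  let σ : Fin 6 → (K →+* ℝ) := fun m => AdjoinRoot.lift (algebraMap ℚ ℝ) (Y m) (hev m)
  have hσy : ∀ m, σ m y = Y m := fun m => AdjoinRoot.lift_root (hev m)
  have hσx : ∀ m, σ m x = X m := by
    intro m
    have e1 := (FieldX.backward (hXY m).1.y0 (hXY m).1.rel (hXY m).2.1).1
    have e2 : σ m x * Y m ^ 2 = -(n * Y m ^ 2 + n * Y m + 1) := by
      have := congrArg (σ m) hx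
      simpa [hσy] using this
    exact mul_right_cancel₀ (pow_ne_zero 2 (hXY m).1.y0) (e2.trans e1.symm)
  have hdia : ∀ m : Fin 6, dia^[(m : ℕ)] (X m, Y m) =
      (σ m (dia^[(m : ℕ)] (x, y)).1, σ m (dia^[(m : ℕ)] (x, y)).2) := by
    intro m
    have := map_dia_iter (σ m) (x, y) (m : ℕ)
    rw [hσx, hσy] at this
    exact this
  refine ⟨K, inferInstance, inferInstance, x, y, σ, hfr, hgood, h1, ?_,
    hUnits K x y n hgood h1, ?_⟩
  · intro m m' h
    have e1 : X m = X m' := by rw [← hσx, ← hσx, h]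
    have e2 : Y m = Y m' := by rw [← hσy, ← hσy, h]
    apply hsep (X m) (Y m) (hXY m).1 m m'
    · exact lt_of_lt_of_le (hXY m).2.2.1 (min_le_right _ _)
    · exact lt_of_lt_of_le (hXY m).2.2.2 (min_le_right _ _)
    · rw [e1, e2]; exact lt_of_lt_of_le (hXY m').2.2.1 (min_le_right _ _)
    · rw [e1, e2]; exact lt_of_lt_of_le (hXY m').2.2.2 (min_le_right _ _)
  · intro m
    have e := hdia m
    have e1 : (dia^[(m : ℕ)] (X m, Y m)).1 = σ m (dia^[(m : ℕ)] (x, y)).1 := by rw [e]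
    have e2 : (dia^[(m : ℕ)] (X m, Y m)).2 = σ m (dia^[(m : ℕ)] (x, y)).2 := by rw [e]
    rw [← e1, ← e2]
    exact ⟨lt_of_lt_of_le (hXY m).2.2.1 (min_le_left _ _),
      lt_of_lt_of_le (hXY m).2.2.2 (min_le_left _ _)⟩

end Pool.Agent.BEK
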