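import Pool.Agent.BEK.Stmts

set_option autoImplicit false

/-!
# FUNA: points with transcendental coordinate are generic
-/

namespace Pool.Agent.BEK

namespace FunAX

open WeierstrassCurve.Affine Polynomial

variable {K : Type} [Field K] (W : WeierstrassCurve.Affine K) (φ : K →+* ℂ) (X Y : ℂ)

/-- the coordinate ring is a finite module over `K[X]` -/
theorem finite_cr : Module.Finite (Polynomial K) W.CoordinateRing :=
  Module.Finite.of_basis (CoordinateRing.basis W)

theorem root_eq (h : Y ^ 2 + φ W.a₁ * X * Y + φ W.a₃ * Y =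
    X ^ 3 + φ W.a₂ * X ^ 2 + φ W.a₄ * X + φ W.a₆) :
    W.polynomial.eval₂ (eval₂RingHom φ X) Y = 0 := by
  unfold WeierstrassCurve.Affine.polynomial
  simp only [eval₂_sub, eval₂_add, eval₂_mul, eval₂_pow, eval₂_X, eval₂_C, coe_eval₂RingHom]
  linear_combination h

/-- evaluation on the coordinate ring -/
noncomputable def evr (h : Y ^ 2 + φ W.a₁ * X * Y + φ W.a₃ * Y =
    X ^ 3 + φ W.a₂ * X ^ 2 + φ W.a₄ * X + φ W.a₆) : W.CoordinateRing →+* ℂ :=
  AdjoinRoot.lift (eval₂RingHom φ X) Y (root_eq W φ X Y h)

end FunAX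

open WeierstrassCurve.Affine Polynomial in
theorem funa_proof : Stmt_FunA := by
  intro K _ W φ X Y h hX
  have hfin := FunAX.finite_cr W
  have hint : Algebra.IsIntegral (Polynomial K) W.CoordinateRing := inferInstance
  let g := FunAX.evr W φ X Y h
  have hC : ∀ p : Polynomial K, g (CoordinateRing.mk W (Polynomial.C p)) = p.eval₂ φ X := by
    intro p
    show AdjoinRoot.lift (eval₂RingHom φ X) Y _ (AdjoinRoot.mk _ (Polynomial.C p)) = _
    rw [AdjoinRoot.mk_C, AdjoinRoot.lift_of]
    rfl
  have hY : g (CoordinateRing.mk W Polynomial.X) = Y := by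
    show AdjoinRoot.lift (eval₂RingHom φ X) Y _ (AdjoinRoot.mk _ Polynomial.X) = _
    rw [AdjoinRoot.mk_X, AdjoinRoot.lift_root]
  have hinj : Function.Injective g := by
    rw [RingHom.injective_iff_ker_eq_bot]
    apply Ideal.eq_bot_of_comap_eq_bot (R := Polynomial K)
    rw [eq_bot_iff]
    intro p hp
    rw [Ideal.mem_comap, RingHom.mem_ker] at hp
    by_contra hne
    apply hX p (by simpa using hne)
    rw [Polynomial.eval_map, ← hC]
    exact hp
  refine ⟨IsFractionRing.lift hinj, ?_, ?_, ?_⟩
  · intro k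
    have e1 : algebraMap K W.FunctionField k =
        algebraMap W.CoordinateRing W.FunctionField (CoordinateRing.mk W (C (C k))) := by
      rw [IsScalarTower.algebraMap_apply K W.CoordinateRing W.FunctionField]
      rfl
    rw [e1, IsFractionRing.lift_algebraMap, hC, eval₂_C]
  · unfold fX
    rw [IsFractionRing.lift_algebraMap, hC, eval₂_X]
  · unfold fY
    rw [IsFractionRing.lift_algebraMap, hY]

end Pool.Agent.BEK
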