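import Pool.Agent.BEK.Stmts

set_option autoImplicit false

/-!
# FUNF: loops of generic points of a Weierstrass curve
-/

namespace Pool.Agent.BEK

theorem funf_proof (hA : Stmt_FunA) (hG : Stmt_FunG) : Stmt_FunF := by
  intro K _ W σ X Y hX hY pX pY sX sY hE hT
  have hex : ∀ θ, ∃ e : W.FunctionField →+* ℂ,
      (∀ k, e (algebraMap K _ k) = ((algebraMap ℝ ℂ).comp σ) k) ∧ e (fX W) = X θ ∧
      e (fY W) = Y θ := fun θ => hA K W ((algebraMap ℝ ℂ).comp σ) (X θ) (Y θ) (hE θ) (hT θ)
  choose ev hK hx hy using hex
  have hgen := (hG K W).2.2
  have hext : ∀ a b : W.FunctionField →+* ℂ, (∀ k, a (algebraMap K _ k) = b (algebraMap K _ k)) →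
      a (fX W) = b (fX W) → a (fY W) = b (fY W) → a = b := by
    intro a b h1 h2 h3
    have := hgen (RingHom.eqLocusField a b) h1 h2 h3
    apply RingHom.ext
    intro f
    have hf : f ∈ RingHom.eqLocusField a b := by rw [this]; trivial
    exact hf
  have hsm : ∀ f : W.FunctionField, ContDiff ℝ 1 fun θ => ev θ f := by
    let S : Subfield W.FunctionField :=
      { carrier := {f | ContDiff ℝ 1 fun θ => ev θ f}
        mul_mem' := by
          intro a b ha hb
          show ContDiff ℝ 1 fun θ => ev θ (a * b)
          simp only [map_mul]
          exact ContDiff.mul ha hb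
        one_mem' := by
          show ContDiff ℝ 1 fun θ => ev θ 1
          simp only [map_one]
          exact contDiff_const
        add_mem' := by
          intro a b ha hb
          show ContDiff ℝ 1 fun θ => ev θ (a + b)
          simp only [map_add]
          exact ContDiff.add ha hb
        zero_mem' := by
          show ContDiff ℝ 1 fun θ => ev θ 0
          simp only [map_zero]
          exact contDiff_const
        neg_mem' := by
          intro a ha
          show ContDiff ℝ 1 fun θ => ev θ (-a)
          simp only [map_neg]
          exact ContDiff.neg ha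
        inv_mem' := by
          intro a ha
          show ContDiff ℝ 1 fun θ => ev θ a⁻¹
          by_cases h0 : a = 0
          · subst h0
            simp only [inv_zero, map_zero]
            exact contDiff_const
          · simp only [map_inv₀]
            exact ContDiff.inv ha (fun θ => (map_ne_zero (ev θ)).2 h0) }
    have hS : S = ⊤ := by
      apply hgen
      · intro k
        show ContDiff ℝ 1 fun θ => ev θ (algebraMap K _ k)
        simp only [hK]
        exact contDiff_const
      · show ContDiff ℝ 1 fun θ => ev θ (fX W)
        simp only [hx]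
        exact hX
      · show ContDiff ℝ 1 fun θ => ev θ (fY W)
        simp only [hy]
        exact hY
    intro f
    have hf : f ∈ S := by rw [hS]; trivial
    exact hf
  refine ⟨⟨ev, hsm, fun θ => ?_⟩, hK, hx, hy, fun θ f => ?_⟩
  · apply hext
    · intro k
      rw [hK, hK]
    · rw [hx, hx, pX]
    · rw [hy, hy, pY]
  · have h := hext (ev (-θ)) ((starRingEnd ℂ).comp (ev θ)) (by
      intro k
      rw [RingHom.comp_apply, hK, hK]
      exact (Complex.conj_ofReal (σ k)).symm) (by rw [RingHom.comp_apply, hx, hx, sX])
      (by rw [RingHom.comp_apply, hy, hy, sY])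
    show ev (-θ) f = _
    rw [h]
    rfl

end Pool.Agent.BEK
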