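import Pool.Agent.BEK.Stmts

set_option autoImplicit false

/-!
# FUNG: the function field is generated by `X, Y`
-/

namespace Pool.Agent.BEK

open WeierstrassCurve.Affine Polynomial in
theorem fung_proof : Stmt_FunG := by
  intro K _ W
  -- the structure map on constants
  have hK : ∀ k : K, algebraMap K W.FunctionField k =
      algebraMap W.CoordinateRing W.FunctionField (CoordinateRing.mk W (C (C k))) := by
    intro k
    rw [IsScalarTower.algebraMap_apply K W.CoordinateRing W.FunctionField]
    rfl
  have hinj : Function.Injective (algebraMap W.CoordinateRing W.FunctionField) :=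
    IsFractionRing.injective _ _
  have hC : Function.Injective (fun p : Polynomial K => CoordinateRing.mk W (C p)) := by
    intro p q hpq
    exact FaithfulSMul.algebraMap_injective (Polynomial K) W.CoordinateRing hpq
  refine ⟨?_, ?_, ?_⟩
  · have h0 : CoordinateRing.mk W W.polynomial = 0 := AdjoinRoot.mk_self
    have h1 : (Polynomial.X ^ 2 + C (C W.a₁) * C X * Polynomial.X + C (C W.a₃) * Polynomial.X :
        Polynomial (Polynomial K)) = (C X ^ 3 + C (C W.a₂) * C X ^ 2 + C (C W.a₄) * C X +
          C (C W.a₆)) + W.polynomial := by
      unfold WeierstrassCurve.Affine.polynomial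
      simp only [C_add, C_mul, C_pow]
      ring
    have h2 := congrArg (CoordinateRing.mk W) h1
    rw [RingHom.map_add (CoordinateRing.mk W) _ W.polynomial, h0, add_zero] at h2
    have h3 := congrArg (algebraMap W.CoordinateRing W.FunctionField) h2
    simp only [RingHom.map_add, RingHom.map_mul, RingHom.map_pow] at h3
    rw [← hK, ← hK, ← hK, ← hK, ← hK] at h3
    exact h3
  · intro k hk
    unfold fX at hk
    rw [hK] at hk
    have h1 := hC (hinj hk)
    have h2 := congrArg (fun p : Polynomial K => p.coeff 1) h1
    simp at h2
  · intro S hS hX hY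
    have hX' : algebraMap W.CoordinateRing W.FunctionField (CoordinateRing.mk W (C X)) ∈ S := hX
    have hY' : algebraMap W.CoordinateRing W.FunctionField (CoordinateRing.mk W Polynomial.X) ∈ S := hY
    have h1 : ∀ p : Polynomial K,
        algebraMap W.CoordinateRing W.FunctionField (CoordinateRing.mk W (C p)) ∈ S := by
      intro p
      induction p using Polynomial.induction_on' with
      | add p q hp hq =>
        rw [C_add, map_add, map_add]
        exact S.add_mem hp hq
      | monomial n a =>
        rw [← C_mul_X_pow_eq_monomial, C_mul, C_pow, map_mul, map_mul, map_pow, map_pow, ← hK]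
        exact S.mul_mem (hS a) (S.pow_mem hX' n)
    have h2 : ∀ P : Polynomial (Polynomial K),
        algebraMap W.CoordinateRing W.FunctionField (CoordinateRing.mk W P) ∈ S := by
      intro P
      induction P using Polynomial.induction_on' with
      | add p q hp hq =>
        rw [map_add, map_add]
        exact S.add_mem hp hq
      | monomial n a =>
        rw [← C_mul_X_pow_eq_monomial, map_mul, map_mul, map_pow, map_pow]
        exact S.mul_mem (h1 a) (S.pow_mem hY' n)
    rw [eq_top_iff]
    intro f _
    obtain ⟨a, b, hb, rfl⟩ := IsFractionRing.div_surjective (A := W.CoordinateRing) f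
    obtain ⟨P, rfl⟩ := AdjoinRoot.mk_surjective a
    obtain ⟨Q, rfl⟩ := AdjoinRoot.mk_surjective b
    exact S.div_mem (h2 P) (h2 Q)

end Pool.Agent.BEK
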