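import Pool.Agent.BEK.Defs

set_option autoImplicit false

/-!
# The regulator and the tame symbols as homomorphisms
-/

namespace Pool.Agent.BEK

open scoped TensorProduct

variable {F : Type} [Field F]

namespace Loop

variable (γ : Loop F)

/-- the function `f` along the path -/
def fn (f : F) : ℝ → ℂ := fun θ => γ.ev θ f

theorem fn_ne (f : Fˣ) (θ : ℝ) : γ.fn f θ ≠ 0 := (map_ne_zero _).mpr f.ne_zero

theorem fn_mul (f g : F) : γ.fn (f * g) = fun θ => γ.fn f θ * γ.fn g θ := by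
  funext θ; exact map_mul _ _ _

theorem fn_diff (f : F) (θ : ℝ) : DifferentiableAt ℝ (γ.fn f) θ :=
  ((γ.smooth f).differentiable (by norm_num)) θ

theorem darg_mul (f g : Fˣ) (θ : ℝ) :
    darg (γ.fn ((f * g : Fˣ) : F)) θ = darg (γ.fn f) θ + darg (γ.fn g) θ := by
  unfold darg
  have e : γ.fn ((f * g : Fˣ) : F) = γ.fn f * γ.fn g := by
    funext θ; exact map_mul _ _ _
  rw [e, deriv_mul (γ.fn_diff _ θ) (γ.fn_diff _ θ), ← Complex.add_im, Pi.mul_apply]
  congr 1
  have h1 := γ.fn_ne f θ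
  have h2 := γ.fn_ne g θ
  field_simp

theorem cont_fn (f : F) : Continuous (γ.fn f) := (γ.smooth f).continuous

theorem cont_darg (f : Fˣ) : Continuous (darg (γ.fn f)) := by
  unfold darg
  refine Complex.continuous_im.comp ?_
  refine ((γ.smooth f).continuous_deriv le_rfl).div (γ.cont_fn f) (γ.fn_ne f)

theorem cont_log (f : Fˣ) : Continuous fun θ => Real.log ‖γ.fn f θ‖ := by
  refine (γ.cont_fn f).norm.log ?_
  intro θ
  exact norm_ne_zero_iff.mpr (γ.fn_ne f θ)

/-- the regulator integral of the symbol `{f, g}` -/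
noncomputable def rz (f g : Fˣ) : ℝ := regz (γ.fn f) (γ.fn g)

theorem rz_mul_left (f f' g : Fˣ) : γ.rz (f * f') g = γ.rz f g + γ.rz f' g := by
  unfold rz regz
  rw [← mul_add, ← intervalIntegral.integral_add]
  · congr 1
    apply intervalIntegral.integral_congr
    intro θ _
    simp only
    rw [darg_mul, Units.val_mul, fn_mul]
    simp only
    rw [norm_mul, Real.log_mul (norm_ne_zero_iff.mpr (γ.fn_ne f θ))
      (norm_ne_zero_iff.mpr (γ.fn_ne f' θ))]
    ring
  · exact (((γ.cont_log f).mul (γ.cont_darg g)).sub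
      ((γ.cont_log g).mul (γ.cont_darg f))).intervalIntegrable _ _
  · exact (((γ.cont_log f').mul (γ.cont_darg g)).sub
      ((γ.cont_log g).mul (γ.cont_darg f'))).intervalIntegrable _ _

theorem rz_symm (f g : Fˣ) : γ.rz f g = -γ.rz g f := by
  unfold rz regz
  rw [← mul_neg, ← intervalIntegral.integral_neg]
  congr 1
  apply intervalIntegral.integral_congr
  intro θ _
  simp only
  ring

theorem rz_mul_right (f g g' : Fˣ) : γ.rz f (g * g') = γ.rz f g + γ.rz f g' := by
  rw [rz_symm, rz_mul_left, rz_symm γ g f, rz_symm γ g' f]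
  ring

/-- the bilinear form -/
noncomputable def rzHom : Additive Fˣ →+ Additive Fˣ →+ ℝ :=
  AddMonoidHom.mk' (fun f => AddMonoidHom.mk' (fun g => γ.rz f.toMul g.toMul) (by
    intro g g'
    exact γ.rz_mul_right _ _ _)) (by
    intro f f'
    ext g
    exact γ.rz_mul_left _ _ _)

theorem rzHom_apply (f g : Fˣ) :
    γ.rzHom (Additive.ofMul f) (Additive.ofMul g) = γ.rz f g := rfl

/-- on `F^* ⊗ F^*` -/
noncomputable def rzT : Additive Fˣ ⊗[ℤ] Additive Fˣ →+ ℝ :=
  TensorProduct.liftAddHom γ.rzHom (by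
    intro r m n
    rw [map_zsmul, map_zsmul]
    rfl)

theorem rzT_tmul (f g : Fˣ) :
    γ.rzT (Additive.ofMul f ⊗ₜ[ℤ] Additive.ofMul g) = γ.rz f g := by
  unfold rzT
  rw [TensorProduct.liftAddHom_tmul]
  rfl

theorem steinberg_le (hD : Stmt_Dilog) : steinberg F ≤ γ.rzT.ker := by
  unfold steinberg
  rw [AddSubgroup.closure_le]
  rintro z ⟨u, v, huv, rfl⟩
  show γ.rzT _ = 0
  rw [rzT_tmul]
  unfold rz
  have e : γ.fn (v : F) = fun θ => 1 - γ.fn u θ := by
    funext θ
    have h : (v : F) = 1 - u := by rw [← huv]; ring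
    show γ.ev θ v = 1 - γ.ev θ u
    rw [h, map_sub, map_one]
  rw [e]
  refine hD _ (γ.smooth _) ?_ (γ.fn_ne u) ?_
  · intro θ
    show γ.ev _ _ = γ.ev _ _
    rw [γ.periodic]
  · intro θ h
    have h2 := γ.fn_ne v θ
    rw [e] at h2
    exact h2 (by simp [h])

/-- The regulator on `K_2(F)`. -/
noncomputable def regK (hD : Stmt_Dilog) : K2 F →+ ℝ :=
  QuotientAddGroup.lift (steinberg F) γ.rzT (γ.steinberg_le hD)

/-- The regulator on `K_2(F) ⊗ ℚ`. -/
noncomputable def regQ (hD : Stmt_Dilog) : K2Q F →ₗ[ℚ] ℝ :=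
  LinearMap.liftBaseChange ℚ (γ.regK hD).toIntLinearMap

end Loop

/-- The symbol `{f, g}` in `K_2(F) ⊗ ℚ`. -/
def sym (f g : Fˣ) : K2Q F :=
  1 ⊗ₜ[ℤ] (QuotientAddGroup.mk (Additive.ofMul f ⊗ₜ[ℤ] Additive.ofMul g) : K2 F)

theorem Loop.regQ_sym (hD : Stmt_Dilog) (γ : Loop F) (f g : Fˣ) :
    γ.regQ hD (sym f g) = regz (fun θ => γ.ev θ f) (fun θ => γ.ev θ g) := by
  unfold Loop.regQ sym
  rw [LinearMap.liftBaseChange_tmul, one_smul]
  show γ.rzT (Additive.ofMul f ⊗ₜ[ℤ] Additive.ofMul g) = _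
  rw [Loop.rzT_tmul]
  rfl

namespace DV

variable (v : DV F)

@[instance_reducible]
noncomputable instance (priority := high) resCommGroup : CommGroup v.Res :=
  QuotientGroup.Quotient.commGroup _

/-- the tame symbol as a bilinear map -/
noncomputable def tHom : Additive Fˣ →+ Additive Fˣ →+ Additive v.Res :=
  AddMonoidHom.mk' (fun f => AddMonoidHom.mk' (fun g => Additive.ofMul (v.tame f.toMul g.toMul)) (by
    intro g g'
    exact congrArg Additive.ofMul (v.tame_mul_right _ _ _))) (by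
    intro f f'
    ext g
    exact congrArg Additive.ofMul (v.tame_mul_left _ _ _))

/-- on `F^* ⊗ F^*` -/
noncomputable def tT : Additive Fˣ ⊗[ℤ] Additive Fˣ →+ Additive v.Res :=
  TensorProduct.liftAddHom v.tHom (by
    intro r m n
    rw [map_zsmul, map_zsmul]
    rfl)

theorem tT_tmul (f g : Fˣ) :
    v.tT (Additive.ofMul f ⊗ₜ[ℤ] Additive.ofMul g) = Additive.ofMul (v.tame f g) := by
  unfold tT
  rw [TensorProduct.liftAddHom_tmul]
  rfl

theorem steinberg_le (hT : Stmt_Tame) : steinberg F ≤ v.tT.ker := by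
  unfold steinberg
  rw [AddSubgroup.closure_le]
  rintro z ⟨u, w, huw, rfl⟩
  show v.tT _ = 0
  rw [tT_tmul, hT F v u w huw]
  rfl

/-- The tame symbol on `K_2(F)`. -/
noncomputable def tameK (hT : Stmt_Tame) : K2 F →+ Additive v.Res :=
  QuotientAddGroup.lift (steinberg F) v.tT (v.steinberg_le hT)

/-- The tame symbol on `K_2(F) ⊗ ℚ`. -/
noncomputable def tameQ (hT : Stmt_Tame) : K2Q F →ₗ[ℚ] ℚ ⊗[ℤ] Additive v.Res :=
  LinearMap.baseChange ℚ (v.tameK hT).toIntLinearMap

theorem tameQ_sym (hT : Stmt_Tame) (f g : Fˣ) (h : v.tame f g = 1) :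
    v.tameQ hT (sym f g) = 0 := by
  unfold tameQ sym
  rw [LinearMap.baseChange_tmul]
  have : (v.tameK hT).toIntLinearMap
      (QuotientAddGroup.mk (Additive.ofMul f ⊗ₜ[ℤ] Additive.ofMul g) : K2 F) = 0 := by
    show v.tT (Additive.ofMul f ⊗ₜ[ℤ] Additive.ofMul g) = _
    rw [tT_tmul, h]
    rfl
  rw [this, TensorProduct.tmul_zero]

end DV

/-- The elements of `K_2(F) ⊗ ℚ` with trivial tame symbol at every discrete valuation of `F`. -/
noncomputable def unramQ (F : Type) [Field F] (hT : Stmt_Tame) : Submodule ℚ (K2Q F) :=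
  ⨅ v : DV F, LinearMap.ker (v.tameQ hT)

end Pool.Agent.BEK
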