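import Pool.Agent.BEK.Stmts
import Pool.Agent.BEK.Reg

set_option autoImplicit false

/-!
# Assembly, part A: generic facts about the points and the units
-/

namespace Pool.Agent.BEK

section

variable {F : Type} [Field F]

theorem step_iter_x (s : St F) (k : ℕ) : (St.step^[k] s).x = (dia^[k] (s.x, s.y)).1 := by
  rw [← step_iter_xy]

theorem step_iter_y (s : St F) (k : ℕ) : (St.step^[k] s).y = (dia^[k] (s.x, s.y)).2 := by
  rw [← step_iter_xy]

theorem good_step (hPar : Stmt_Par) (s : St F) (hG : Good s.x s.y) :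
    Good s.step.x s.step.y := by
  have h := (hPar F s.x s.y hG).2.2.1
  exact h

theorem good_iter (hPar : Stmt_Par) (s : St F) (hG : Good s.x s.y) (k : ℕ) :
    Good (St.step^[k] s).x (St.step^[k] s).y := by
  induction k with
  | zero => exact hG
  | succ k ih =>
    rw [Function.iterate_succ_apply']
    exact good_step hPar _ ih

theorem good_dia (hPar : Stmt_Par) (x y : F) (hG : Good x y) (k : ℕ) :
    Good (dia^[k] (x, y)).1 (dia^[k] (x, y)).2 := by
  have h := good_iter hPar (⟨x, y, 0, 0⟩ : St F) hG k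
  rwa [step_iter_x, step_iter_y] at h

theorem onE_iter (hPar : Stmt_Par) (hInv : Stmt_Inv) (s : St F) (hG : Good s.x s.y)
    (hE : s.OnE) (k : ℕ) : (St.step^[k] s).OnE := by
  induction k with
  | zero => exact hE
  | succ k ih =>
    rw [Function.iterate_succ_apply']
    exact (hInv F).1 _ (good_iter hPar s hG k) ih

theorem conj_iter (hPar : Stmt_Par) (hInv : Stmt_Inv) (s : St F) (hG : Good s.x s.y) (k : ℕ) :
    St.step^[k] s.conj = (St.step^[k] s).conj := by
  induction k with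
  | zero => rfl
  | succ k ih =>
    rw [Function.iterate_succ_apply', ih, Function.iterate_succ_apply']
    exact (hInv F).2.1 _ (good_iter hPar s hG k)

theorem six (hAff : Stmt_Aff) (s : St F) (hG : Good s.x s.y) : St.step^[6] s = s.conj :=
  (hAff F s.x s.y hG).2.2.2.1 s.X s.Y

theorem conj_u (s : St F) : s.conj.u = s.u := rfl

theorem lines_ne (hProd : Stmt_Prod) (s : St F) (hG : Good s.x s.y) (hE : s.OnE)
    (hgen : s.Gen) : s.Y ≠ 0 ∧ s.L2 ≠ 0 ∧ s.T3 ≠ 0 ∧ s.L6 ≠ 0 ∧ s.conj.Y ≠ 0 ∧ s.conj.L2 ≠ 0 ∧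
      s.conj.T3 ≠ 0 ∧ s.conj.L6 ≠ 0 := by
  obtain ⟨_, _, h1, h2, h3, h4⟩ := hProd F s hG hE
  have x0 := hgen.X0
  have xb := sub_ne_zero.mpr hgen.Xb
  have xc := sub_ne_zero.mpr hgen.Xc
  have x6 := sub_ne_zero.mpr hgen.X6
  have e1 : s.Y * s.conj.Y ≠ 0 := by
    rw [h1]; exact neg_ne_zero.mpr (mul_ne_zero (pow_ne_zero _ x0) xb)
  have e2 : s.L2 * s.conj.L2 ≠ 0 := by
    rw [h2]; exact neg_ne_zero.mpr (mul_ne_zero (mul_ne_zero x0 xb) xc)
  have e3 : s.T3 * s.conj.T3 ≠ 0 := by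
    rw [h3]; exact neg_ne_zero.mpr (mul_ne_zero (pow_ne_zero _ xc) x6)
  have e4 : s.L6 * s.conj.L6 ≠ 0 := by
    rw [h4]; exact neg_ne_zero.mpr (mul_ne_zero x0 (pow_ne_zero _ x6))
  exact ⟨left_ne_zero_of_mul e1, left_ne_zero_of_mul e2, left_ne_zero_of_mul e3,
    left_ne_zero_of_mul e4, right_ne_zero_of_mul e1, right_ne_zero_of_mul e2,
    right_ne_zero_of_mul e3, right_ne_zero_of_mul e4⟩

theorem u_ne (hPar : Stmt_Par) (s : St F) (hG : Good s.x s.y) : s.u ≠ 0 := by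
  have h := (hPar F s.x s.y hG).2.2.2.2.2.2.1
  unfold St.u
  exact div_ne_zero (pow_ne_zero _ h.1) (mul_ne_zero (pow_ne_zero _ h.2)
    (pow_ne_zero _ hG.y0))

theorem h_ne (hPar : Stmt_Par) (hProd : Stmt_Prod) (s : St F) (hG : Good s.x s.y) (hE : s.OnE)
    (hgen : s.Gen) : s.h ≠ 0 ∧ s.conj.h ≠ 0 := by
  obtain ⟨a1, a2, a3, a4, b1, b2, b3, b4⟩ := lines_ne hProd s hG hE hgen
  have xb := sub_ne_zero.mpr hgen.Xb
  have xc := sub_ne_zero.mpr hgen.Xc
  have x6 := sub_ne_zero.mpr hgen.X6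
  have hu := u_ne hPar s hG
  have hd : ((s.X - s.b) * (s.X - s.c)) ^ 4 * (s.X - s.y * s.w) ^ 2 ≠ 0 :=
    mul_ne_zero (pow_ne_zero _ (mul_ne_zero xb xc)) (pow_ne_zero _ x6)
  constructor
  · unfold St.h St.fn
    exact div_ne_zero (div_ne_zero (mul_ne_zero (mul_ne_zero (pow_ne_zero _ (mul_ne_zero a1 a2))
      (pow_ne_zero _ a3)) a4) hd) hu
  · unfold St.h St.fn
    exact div_ne_zero (div_ne_zero (mul_ne_zero (mul_ne_zero (pow_ne_zero _ (mul_ne_zero b1 b2))
      (pow_ne_zero _ b3)) b4) hd) hu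

/-! ## Units of a valuation -/

namespace DV

variable (v : DV F)

/-- `a` is a unit for `v` -/
def IsU (a : F) : Prop := ∃ u : Fˣ, (u : F) = a ∧ v.ord u = 0

variable {v}

theorem IsU.one : v.IsU 1 := ⟨1, rfl, v.one⟩

theorem IsU.mul {a b : F} (ha : v.IsU a) (hb : v.IsU b) : v.IsU (a * b) := by
  obtain ⟨u, rfl, hu⟩ := ha
  obtain ⟨w, rfl, hw⟩ := hb
  exact ⟨u * w, rfl, by rw [v.mul, hu, hw]; rfl⟩

theorem IsU.neg {a : F} (ha : v.IsU a) : v.IsU (-a) := by
  obtain ⟨u, rfl, hu⟩ := ha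
  refine ⟨-u, rfl, ?_⟩
  have : -u = (-1) * u := by simp
  rw [this, v.mul, hu, v.neg_one]; rfl

theorem IsU.inv {a : F} (ha : v.IsU a) : v.IsU a⁻¹ := by
  obtain ⟨u, rfl, hu⟩ := ha
  exact ⟨u⁻¹, by simp, by rw [v.inv, hu]; rfl⟩

theorem IsU.div {a b : F} (ha : v.IsU a) (hb : v.IsU b) : v.IsU (a / b) := by
  rw [div_eq_mul_inv]; exact ha.mul hb.inv

theorem IsU.pow {a : F} (ha : v.IsU a) (n : ℕ) : v.IsU (a ^ n) := by
  induction n with
  | zero => rw [pow_zero]; exact IsU.one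
  | succ n ih => rw [pow_succ]; exact ih.mul ha

theorem IsU.ord {a : F} (ha : v.IsU a) (e : Fˣ) (he : (e : F) = a) : v.ord e = 0 := by
  obtain ⟨u, hu, h0⟩ := ha
  have : e = u := Units.ext (by rw [he, hu])
  rw [this, h0]

end DV

theorem unitsAt_iff (v : DV F) (s : St F) (hG : Good s.x s.y) :
    UnitsAt v s ↔ v.IsU s.x ∧ v.IsU (s.x + 1) ∧ v.IsU s.y ∧ v.IsU (s.y + 1) ∧ v.IsU s.w := by
  constructor
  · intro h
    refine ⟨⟨Units.mk0 _ hG.x0, rfl, h _ (Or.inl rfl)⟩,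
      ⟨Units.mk0 _ hG.x1, rfl, h _ (Or.inr (Or.inl rfl))⟩,
      ⟨Units.mk0 _ hG.y0, rfl, h _ (Or.inr (Or.inr (Or.inl rfl)))⟩,
      ⟨Units.mk0 _ hG.y1, rfl, h _ (Or.inr (Or.inr (Or.inr (Or.inl rfl))))⟩,
      ⟨Units.mk0 _ hG.w0, rfl, h _ (Or.inr (Or.inr (Or.inr (Or.inr rfl))))⟩⟩
  · rintro ⟨h1, h2, h3, h4, h5⟩ e (he | he | he | he | he)
    · exact h1.ord e he
    · exact h2.ord e he
    · exact h3.ord e he
    · exact h4.ord e he
    · exact h5.ord e he

theorem unitsAt_step (hPar : Stmt_Par) (v : DV F) (s : St F) (hG : Good s.x s.y)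
    (h : UnitsAt v s) : UnitsAt v s.step := by
  rw [unitsAt_iff v s hG] at h
  rw [unitsAt_iff v s.step (good_step hPar s hG)]
  obtain ⟨hx, hx1, hy, hy1, hw⟩ := h
  obtain ⟨_, _, _, e1, e2, e3, _⟩ := hPar F s.x s.y hG
  refine ⟨?_, ?_, ?_, ?_, ?_⟩
  · exact hx1.neg.div hx
  · show v.IsU ((dia (s.x, s.y)).1 + 1)
    rw [e1]; exact DV.IsU.one.neg.div hx
  · exact hy.neg.div hw
  · show v.IsU ((dia (s.x, s.y)).2 + 1)
    rw [e2]; exact (hy.mul hy1).div ((hx.mul hx1).mul hw)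
  · show v.IsU (ww (dia (s.x, s.y)).1 (dia (s.x, s.y)).2)
    rw [e3]; exact (hy.mul (hy1.pow 2)).neg.div (hx1.mul (hw.pow 2))

theorem unitsAt_iter (hPar : Stmt_Par) (v : DV F) (s : St F) (hG : Good s.x s.y)
    (h : UnitsAt v s) (k : ℕ) : UnitsAt v (St.step^[k] s) := by
  induction k with
  | zero => exact h
  | succ k ih =>
    rw [Function.iterate_succ_apply']
    exact unitsAt_step hPar v _ (good_iter hPar s hG k) ih

/-- The valuation ring. -/
def DV.vring (v : DV F) : ValuationSubring F where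
  carrier := {a | ∀ u : Fˣ, (u : F) = a → 0 ≤ v.ord u}
  mul_mem' := by
    intro a b ha hb u hu
    have ha0 : a ≠ 0 := by
      intro e; apply u.ne_zero; rw [hu, e, zero_mul]
    have hb0 : b ≠ 0 := by
      intro e; apply u.ne_zero; rw [hu, e, mul_zero]
    have e : u = Units.mk0 a ha0 * Units.mk0 b hb0 := Units.ext hu
    rw [e, v.mul]
    exact add_nonneg (ha _ rfl) (hb _ rfl)
  one_mem' := by
    intro u hu
    have : u = 1 := Units.ext hu
    rw [this, v.one]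
  add_mem' := by
    intro a b ha hb u hu
    by_cases ha0 : a = 0
    · rw [ha0, zero_add] at hu
      exact hb u hu
    · by_cases hb0 : b = 0
      · rw [hb0, add_zero] at hu
        exact ha u hu
      · have h := v.add (Units.mk0 a ha0) (Units.mk0 b hb0) u (by rw [hu]; rfl)
        exact le_trans (le_min (ha _ rfl) (hb _ rfl)) h
  zero_mem' := by
    intro u hu
    exact absurd hu u.ne_zero
  neg_mem' := by
    intro a ha u hu
    have h := ha (-u) (by rw [Units.val_neg, hu, neg_neg])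
    have e : -u = (-1) * u := by simp
    rw [e, v.mul, v.neg_one, zero_add] at h
    exact h
  mem_or_inv_mem' := by
    intro a
    by_cases ha0 : a = 0
    · left
      intro u hu
      exact absurd (hu.trans ha0) u.ne_zero
    · rcases le_total 0 (v.ord (Units.mk0 a ha0)) with h | h
      · left
        intro u hu
        have : u = Units.mk0 a ha0 := Units.ext hu
        rw [this]; exact h
      · right
        intro u hu
        have : u = (Units.mk0 a ha0)⁻¹ := Units.ext (by rw [hu]; simp)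
        rw [this, v.inv]; omega

theorem DV.ord_nonneg_of_integral (v : DV F) (u : Fˣ) (h : IsIntegral ℤ (u : F)) :
    0 ≤ v.ord u := by
  have h2 : IsIntegral v.vring (u : F) := h.tower_top
  obtain ⟨y, hy⟩ := IsIntegrallyClosed.isIntegral_iff.mp h2
  exact y.2 u hy.symm

theorem DV.isU_of_integral (v : DV F) (a : F) (h0 : a ≠ 0) (h : IsIntegral ℤ a)
    (h' : IsIntegral ℤ a⁻¹) : v.IsU a := by
  refine ⟨Units.mk0 a h0, rfl, ?_⟩
  have h1 := v.ord_nonneg_of_integral (Units.mk0 a h0) h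
  have h2 := v.ord_nonneg_of_integral (Units.mk0 a h0)⁻¹ (by simpa using h')
  rw [v.inv] at h2
  omega

end

/-! ## The matrix of regulators -/

theorem det_of_asym {η : ℝ} {N : Matrix (Fin 6) (Fin 6) ℝ}
    (hdet : ∀ M : Matrix (Fin 6) (Fin 6) ℝ, (∀ i j, |M i j - N i j| < η) → M.det ≠ 0)
    {C : ℝ} (M : Matrix (Fin 6) (Fin 6) ℝ) (L : Fin 6 → ℝ) (hL0 : ∀ i, L i ≠ 0)
    (hL : ∀ i, C < η * |L i|) (h : ∀ i j, |M i j - N i j * L i| ≤ C) : M.det ≠ 0 := by
  have key : (Matrix.of fun i j => (L i)⁻¹ * M i j).det ≠ 0 := by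
    apply hdet
    intro i j
    have e : (Matrix.of fun i j => (L i)⁻¹ * M i j) i j - N i j =
        (L i)⁻¹ * (M i j - N i j * L i) := by
      rw [Matrix.of_apply]
      have := hL0 i
      field_simp
    rw [e, abs_mul, abs_inv]
    have hpos : 0 < |L i| := abs_pos.mpr (hL0 i)
    rw [inv_mul_lt_iff₀ hpos]
    calc |M i j - N i j * L i| ≤ C := h i j
      _ < η * |L i| := hL i
      _ = |L i| * η := mul_comm _ _
  intro hM
  apply key
  rw [Matrix.det_mul_column, hM, mul_zero]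

end Pool.Agent.BEK
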