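import Pool.Agent.BEK.FinA

set_option autoImplicit false

/-!
# Assembly, part B: the loops
-/

namespace Pool.Agent.BEK

open scoped TensorProduct

/-- the generic point of the curve -/
noncomputable def gen {K : Type} [Field K] (x y : K) : St (Ew x y).toAffine.FunctionField :=
  ⟨algebraMap K _ x, algebraMap K _ y, fX (Ew x y).toAffine, fY (Ew x y).toAffine⟩

section

variable {K : Type} [Field K]

theorem gen_good {x y : K} (hG : Good x y) : Good (gen x y).x (gen x y).y :=
  hG.map (algebraMap K (Ew x y).toAffine.FunctionField)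

theorem gen_onE (hFunG : Stmt_FunG) (x y : K) : (gen x y).OnE := by
  have h := (hFunG K (Ew x y).toAffine).1
  unfold St.OnE
  have eb : (gen x y).b = algebraMap K _ (bb x y) :=
    (map_bb (algebraMap K (Ew x y).toAffine.FunctionField) x y).symm
  have ec : (gen x y).c = algebraMap K _ (cc x y) :=
    (map_cc (algebraMap K (Ew x y).toAffine.FunctionField) x y).symm
  rw [eb, ec]
  show fY _ ^ 2 + (1 - _) * fX _ * fY _ - _ * fY _ = fX _ ^ 3 - _ * fX _ ^ 2
  have h1 : (Ew x y).toAffine.a₁ = 1 - cc x y := rfl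
  have h2 : (Ew x y).toAffine.a₂ = -bb x y := rfl
  have h3 : (Ew x y).toAffine.a₃ = -bb x y := rfl
  have h4 : (Ew x y).toAffine.a₄ = 0 := rfl
  have h6 : (Ew x y).toAffine.a₆ = 0 := rfl
  rw [h1, h2, h3, h4, h6, map_sub, map_one, map_neg, map_zero] at h
  linear_combination h

theorem gen_gen (hFunG : Stmt_FunG) (hAff : Stmt_Aff) {x y : K} (hG : Good x y) (j : ℕ) :
    (St.step^[j] (gen x y)).Gen := by
  have hne := (hFunG K (Ew x y).toAffine).2.1
  have hG' := gen_good hG
  have key : ∀ k, St.step^[k] (gen x y) = (af (gen x y).x (gen x y).y k).at (gen x y).X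
      (gen x y).Y := fun k => ((hAff _ _ _ hG').2.2.2.2 k).2.2.2.2.2 _ _
  set φ := algebraMap K (Ew x y).toAffine.FunctionField with hφ
  have haf : ∀ k, af (gen x y).x (gen x y).y k = (af x y k).map φ := fun k => map_af φ x y k
  have hS := ((hAff _ _ _ hG).2.2.2.2 j).1
  have hS' : φ (af x y j).S ^ 2 ≠ 0 := pow_ne_zero _ ((map_ne_zero φ).mpr hS)
  have hX : (St.step^[j] (gen x y)).X = (fX (Ew x y).toAffine - φ (af x y j).R) /
      φ (af x y j).S ^ 2 := by
    rw [key, haf]; rfl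
  -- the coordinate is not a constant
  have main : ∀ k : K, (St.step^[j] (gen x y)).X ≠ φ k := by
    intro k hk
    rw [hX, div_eq_iff hS'] at hk
    apply hne ((af x y j).R + k * (af x y j).S ^ 2)
    rw [map_add, map_mul, map_pow, ← hk]
    ring
  have hxj : (St.step^[j] (gen x y)).x = φ (af x y j).x := by rw [key, haf]; rfl
  have hyj : (St.step^[j] (gen x y)).y = φ (af x y j).y := by rw [key, haf]; rfl
  refine ⟨?_, ?_, ?_, ?_⟩
  · have := main 0
    rwa [map_zero] at this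
  · have := main (bb (af x y j).x (af x y j).y)
    rw [map_bb, ← hxj, ← hyj] at this
    exact this
  · have := main (cc (af x y j).x (af x y j).y)
    rw [map_cc, ← hxj, ← hyj] at this
    exact this
  · have := main ((af x y j).y * ww (af x y j).x (af x y j).y)
    rw [map_mul, map_ww, ← hxj, ← hyj] at this
    exact this

end

theorem tt_neg (ρ θ : ℝ) : tt ρ (-θ) = (starRingEnd ℂ) (tt ρ θ) := by
  unfold tt
  rw [map_mul, Complex.conj_ofReal, ← Complex.exp_conj, map_mul, Complex.conj_I,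
    Complex.conj_ofReal]
  congr 2
  push_cast
  ring

theorem tt_periodic (ρ θ : ℝ) : tt ρ (θ + 2 * Real.pi) = tt ρ θ := by
  unfold tt
  push_cast
  rw [add_mul, Complex.exp_add, Complex.exp_two_pi_mul_I, mul_one]

theorem tt_smooth (ρ : ℝ) : ContDiff ℝ 1 (tt ρ) := by
  unfold tt
  have h : ContDiff ℝ 1 fun θ : ℝ => ((θ : ℂ) * Complex.I) :=
    (Complex.ofRealCLM.contDiff).mul contDiff_const
  exact contDiff_const.mul h.cexp

/-- the point of the loop in the coordinates at the cusp -/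
noncomputable def lp (ρ x y : ℝ) (X : ℝ → ℂ) (θ : ℝ) : St ℂ :=
  ⟨(x : ℂ), (y : ℂ), X θ, tt ρ θ * X θ⟩

theorem lp_onE {ρ x y : ℝ} {X : ℝ → ℂ} (hX : IsLoop ρ (bb x y) (cc x y) X) (θ : ℝ) :
    (lp ρ x y X θ).OnE := by
  have h := hX.eq θ
  have eb : (lp ρ x y X θ).b = ((bb x y : ℝ) : ℂ) := (map_bb Complex.ofRealHom x y).symm
  have ec : (lp ρ x y X θ).c = ((cc x y : ℝ) : ℂ) := (map_cc Complex.ofRealHom x y).symm
  unfold St.OnE
  rw [eb, ec]
  show (tt ρ θ * X θ) ^ 2 + (1 - _) * X θ * (tt ρ θ * X θ) - _ * (tt ρ θ * X θ) =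
    X θ ^ 3 - _ * X θ ^ 2
  linear_combination -(X θ) * h

theorem lp_neg {ρ x y : ℝ} {X : ℝ → ℂ} (hX : IsLoop ρ (bb x y) (cc x y) X) (θ : ℝ) :
    lp ρ x y X (-θ) = (lp ρ x y X θ).map (starRingEnd ℂ) := by
  unfold lp St.map
  simp only [hX.symm θ, tt_neg, map_mul, Complex.conj_ofReal]

/-- The loop over one real place of `K`. -/
theorem loop_exists (hPar : Stmt_Par) (hInv : Stmt_Inv) (hProd : Stmt_Prod) (hAff : Stmt_Aff)
    (hTrans : Stmt_Trans) (hFunF : Stmt_FunF) {K : Type} [Field K] [NumberField K] (x y : K)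
    (hG : Good x y) (σ : K →+* ℝ) (m : ℕ) (hm : m ≤ 6) (ρ : ℝ) (hρ : 0 < ρ)
    (hρt : Transcendental ℚ (ρ ^ 2)) (X' : ℝ → ℂ)
    (hX' : IsLoop ρ (bb (σ (dia^[m] (x, y)).1) (σ (dia^[m] (x, y)).2))
      (cc (σ (dia^[m] (x, y)).1) (σ (dia^[m] (x, y)).2)) X') :
    ∃ γ : Loop (Ew x y).toAffine.FunctionField,
      (∀ θ k, γ.ev θ (algebraMap K _ k) = (σ k : ℂ)) ∧
      (∀ θ f, γ.ev (-θ) f = (starRingEnd ℂ) (γ.ev θ f)) ∧
      ∀ θ, (gen x y).map (γ.ev θ) = (St.step^[6 - m]
        (lp ρ (σ (dia^[m] (x, y)).1) (σ (dia^[m] (x, y)).2) X' θ)).conj := by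
  set φ : K →+* ℂ := (algebraMap ℝ ℂ).comp σ with hφ
  set xK : K := (dia^[m] (x, y)).1 with hxK
  set yK : K := (dia^[m] (x, y)).2 with hyK
  have hGK : Good xK yK := good_dia hPar x y hG m
  have hGC : Good (φ xK) (φ yK) := hGK.map φ
  set a : Aff K := af xK yK (6 - m) with ha
  have haC : af (φ xK) (φ yK) (6 - m) = a.map φ := map_af φ xK yK (6 - m)
  have hS : a.S ≠ 0 := ((hAff K xK yK hGK).2.2.2.2 (6 - m)).1
  have hSC : φ a.S ≠ 0 := (map_ne_zero φ).mpr hS
  have haxy : (a.x, a.y) = (x, y) := by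
    rw [ha, ← dia_iter, hxK, hyK]
    show dia^[6 - m] (dia^[m] (x, y)) = (x, y)
    rw [← Function.iterate_add_apply, Nat.sub_add_cancel hm]
    exact (hAff K x y hG).2.2.1
  have hax : a.x = x := congrArg Prod.fst haxy
  have hay : a.y = y := congrArg Prod.snd haxy
  -- the loop
  set s' : ℝ → St ℂ := lp ρ (σ xK) (σ yK) X' with hs'
  set s : ℝ → St ℂ := fun θ => (St.step^[6 - m] (s' θ)).conj with hs
  have hs'G : ∀ θ, Good (s' θ).x (s' θ).y := fun θ => hGC
  have hs'E : ∀ θ, (s' θ).OnE := fun θ => lp_onE hX' θ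
  have hst : ∀ θ, St.step^[6 - m] (s' θ) = (a.map φ).at (X' θ) (tt ρ θ * X' θ) := by
    intro θ
    have h := ((hAff ℂ (φ xK) (φ yK) hGC).2.2.2.2 (6 - m)).2.2.2.2.2 (X' θ) (tt ρ θ * X' θ)
    rw [haC] at h
    exact h
  have hsx : ∀ θ, (s θ).x = φ x := by
    intro θ
    show (St.step^[6 - m] (s' θ)).x = _
    rw [hst]
    show φ a.x = _
    rw [hax]
  have hsy : ∀ θ, (s θ).y = φ y := by
    intro θ
    show (St.step^[6 - m] (s' θ)).y = _
    rw [hst]
    show φ a.y = _
    rw [hay]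
  have hsX : ∀ θ, (s θ).X = (X' θ - φ a.R) / φ a.S ^ 2 := by
    intro θ
    show (St.step^[6 - m] (s' θ)).X = _
    rw [hst]; rfl
  have hsY : ∀ θ, (s θ).Y = -((tt ρ θ * X' θ - φ a.L * X' θ - φ a.N) / φ a.S ^ 3) -
      (1 - φ (cc x y)) * ((X' θ - φ a.R) / φ a.S ^ 2) + φ (bb x y) := by
    intro θ
    have e1 : (St.step^[6 - m] (s' θ)).c = φ (cc x y) := by
      show cc _ _ = _
      rw [hst]
      show cc (φ a.x) (φ a.y) = _
      rw [← map_cc, hax, hay]
    have e2 : (St.step^[6 - m] (s' θ)).b = φ (bb x y) := by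
      show bb _ _ = _
      rw [hst]
      show bb (φ a.x) (φ a.y) = _
      rw [← map_bb, hax, hay]
    show -(St.step^[6 - m] (s' θ)).Y - (1 - (St.step^[6 - m] (s' θ)).c) *
      (St.step^[6 - m] (s' θ)).X + (St.step^[6 - m] (s' θ)).b = _
    rw [e1, e2, hst]
    rfl
  have hsE : ∀ θ, (s θ).OnE := by
    intro θ
    exact (hProd ℂ _ (good_iter hPar (s' θ) (hs'G θ) (6 - m))
      (onE_iter hPar hInv (s' θ) (hs'G θ) (hs'E θ) (6 - m))).1
  have hsneg : ∀ θ, s (-θ) = (s θ).map (starRingEnd ℂ) := by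
    intro θ
    show (St.step^[6 - m] (s' (-θ))).conj = _
    rw [hs', lp_neg hX' θ, St.map_step_iter, St.map_conj]
  have hsper : ∀ θ, s (θ + 2 * Real.pi) = s θ := by
    intro θ
    show (St.step^[6 - m] (s' (θ + 2 * Real.pi))).conj = _
    have : s' (θ + 2 * Real.pi) = s' θ := by
      show St.mk _ _ _ _ = St.mk _ _ _ _
      rw [hX'.periodic, tt_periodic]
    rw [this]
  have cX : ContDiff ℝ 1 fun θ => (s θ).X := by
    have : (fun θ => (s θ).X) = fun θ => (X' θ - φ a.R) / φ a.S ^ 2 := funext hsX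
    rw [this]
    exact (hX'.smooth.sub contDiff_const).div_const _
  have cY : ContDiff ℝ 1 fun θ => (s θ).Y := by
    have : (fun θ => (s θ).Y) = fun θ => -((tt ρ θ * X' θ - φ a.L * X' θ - φ a.N) /
      φ a.S ^ 3) - (1 - φ (cc x y)) * ((X' θ - φ a.R) / φ a.S ^ 2) + φ (bb x y) := funext hsY
    rw [this]
    refine ((((((tt_smooth ρ).mul hX'.smooth).sub (contDiff_const.mul hX'.smooth)).sub
      contDiff_const).div_const _).neg.sub (contDiff_const.mul
        ((hX'.smooth.sub contDiff_const).div_const _))).add contDiff_const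
  obtain ⟨γ, g1, g2, g3, g4⟩ := hFunF K (Ew x y).toAffine σ (fun θ => (s θ).X)
    (fun θ => (s θ).Y) cX cY (fun θ => congrArg St.X (hsper θ)) (fun θ => congrArg St.Y (hsper θ))
    (fun θ => congrArg St.X (hsneg θ)) (fun θ => congrArg St.Y (hsneg θ)) (by
      intro θ
      have h := hsE θ
      unfold St.OnE at h
      have e1 : (s θ).c = ((σ (cc x y) : ℝ) : ℂ) := by
        show cc (s θ).x (s θ).y = φ (cc x y)
        rw [hsx, hsy, map_cc]
      have e2 : (s θ).b = ((σ (bb x y) : ℝ) : ℂ) := by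
        show bb (s θ).x (s θ).y = φ (bb x y)
        rw [hsx, hsy, map_bb]
      rw [e1, e2] at h
      have h1 : (Ew x y).toAffine.a₁ = 1 - cc x y := rfl
      have h2 : (Ew x y).toAffine.a₂ = -bb x y := rfl
      have h3 : (Ew x y).toAffine.a₃ = -bb x y := rfl
      have h4 : (Ew x y).toAffine.a₄ = 0 := rfl
      have h6 : (Ew x y).toAffine.a₆ = 0 := rfl
      rw [h1, h2, h3, h4, h6, map_sub, map_one, map_neg, map_zero]
      push_cast
      linear_combination h) (by
      intro θ p hp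
      -- transport to the coordinates at the cusp
      set q : Polynomial K := p.comp (Polynomial.C ((a.S ^ 2)⁻¹) *
        (Polynomial.X - Polynomial.C a.R)) with hq
      have hS2 : ((a.S ^ 2)⁻¹ : K) ≠ 0 := inv_ne_zero (pow_ne_zero _ hS)
      have hq0 : q ≠ 0 := by
        intro h0
        have hd : (Polynomial.C ((a.S ^ 2)⁻¹) * (Polynomial.X - Polynomial.C a.R)).natDegree
            = 1 := by
          rw [Polynomial.natDegree_C_mul hS2, Polynomial.natDegree_X_sub_C]
        have h1 := Polynomial.natDegree_comp (p := p) (q := Polynomial.C ((a.S ^ 2)⁻¹) *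
          (Polynomial.X - Polynomial.C a.R))
        rw [← hq, h0, Polynomial.natDegree_zero, hd, mul_one] at h1
        have h2 := Polynomial.eq_C_of_natDegree_eq_zero h1.symm
        rw [h2, Polynomial.C_comp] at hq
        rw [hq] at h0
        rw [h0] at h2
        exact hp h2
      have hmain := hTrans.2 K σ ρ (bb xK yK) (cc xK yK) hρ hρt (X' θ) θ (hX'.ne θ) (by
        have h := hX'.eq θ
        rw [← map_bb, ← map_cc] at h
        exact h) q hq0
      intro hz
      apply hmain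
      rw [hq, Polynomial.map_comp, Polynomial.eval_comp]
      rw [Polynomial.map_mul, Polynomial.map_sub, Polynomial.map_C, Polynomial.map_C,
        Polynomial.map_X, Polynomial.eval_mul, Polynomial.eval_sub, Polynomial.eval_C,
        Polynomial.eval_C, Polynomial.eval_X]
      have e : ((algebraMap ℝ ℂ).comp σ) ((a.S ^ 2)⁻¹) * (X' θ - ((algebraMap ℝ ℂ).comp σ) a.R)
          = (s θ).X := by
        rw [hsX θ, map_inv₀, map_pow, ← hφ]
        rw [div_eq_mul_inv, mul_comm]
      rw [e]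
      exact hz)
  refine ⟨γ, g1, g4, ?_⟩
  intro θ
  have e1 : ((gen x y).map (γ.ev θ)).x = (s θ).x := by
    rw [hsx]
    exact g1 θ x
  have e2 : ((gen x y).map (γ.ev θ)).y = (s θ).y := by
    rw [hsy]
    exact g1 θ y
  exact St.ext e1 e2 (g2 θ) (g3 θ)

end Pool.Agent.BEK
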