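import Pool.Agent.BEK.Stmts

set_option autoImplicit false

/-!
# LI2: the dilogarithm on the plane cut along `[1, ∞)`, by a parametric integral
-/

namespace Pool.Agent.BEK

namespace Li2

open MeasureTheory Topology Set

/-- A holomorphic function on an open set that is star-shaped about `0` has the primitive
`z ↦ ∫ t in 0..1, z f(tz)`. -/
theorem primitive (S : Set ℂ) (hS : IsOpen S)
    (hstar : ∀ z ∈ S, ∀ t : ℝ, 0 ≤ t → t ≤ 1 → (t : ℂ) * z ∈ S) (f : ℂ → ℂ)
    (hf : DifferentiableOn ℂ f S) (z₀ : ℂ) (hz₀ : z₀ ∈ S) :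
    HasDerivAt (fun z : ℂ => ∫ t in (0 : ℝ)..1, z * f (t * z)) (f z₀) z₀ := by
  have hfd : ∀ z ∈ S, HasDerivAt f (deriv f z) z := fun z hz =>
    (hf.differentiableAt (hS.mem_nhds hz)).hasDerivAt
  have hfc : ContinuousOn f S := hf.continuousOn
  have hdc : ContinuousOn (deriv f) S := (hf.deriv hS).continuousOn
  -- a compact neighbourhood of the segment
  set K₀ : Set ℂ := (fun t : ℝ => (t : ℂ) * z₀) '' Icc 0 1 with hK₀
  have hK₀c : IsCompact K₀ := isCompact_Icc.image (by fun_prop)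
  have hK₀S : K₀ ⊆ S := by
    rintro _ ⟨t, ht, rfl⟩
    exact hstar z₀ hz₀ t ht.1 ht.2
  obtain ⟨ε, hε, hKS⟩ := hK₀c.exists_cthickening_subset_open hS hK₀S
  set K : Set ℂ := Metric.cthickening ε K₀ with hK
  have hKc : IsCompact K := hK₀c.cthickening
  have hin : ∀ z ∈ Metric.ball z₀ ε, ∀ t : ℝ, t ∈ Icc (0 : ℝ) 1 → (t : ℂ) * z ∈ K := by
    intro z hz t ht
    apply Metric.mem_cthickening_of_dist_le ((t : ℂ) * z) ((t : ℂ) * z₀) ε K₀
    · exact ⟨t, ht, rfl⟩
    · rw [dist_eq_norm, ← mul_sub, norm_mul, Complex.norm_real, Real.norm_of_nonneg ht.1]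
      have h1 : ‖z - z₀‖ < ε := by rw [← dist_eq_norm]; exact hz
      nlinarith [ht.1, ht.2, norm_nonneg (z - z₀)]
  obtain ⟨M₁, hM₁⟩ := hKc.exists_bound_of_continuousOn (hfc.mono hKS)
  obtain ⟨M₂, hM₂⟩ := hKc.exists_bound_of_continuousOn (hdc.mono hKS)
  have huIoc : ∀ t : ℝ, t ∈ uIoc (0 : ℝ) 1 → t ∈ Icc (0 : ℝ) 1 := by
    intro t ht
    rw [uIoc_of_le zero_le_one] at ht
    exact ⟨ht.1.le, ht.2⟩
  have hcont : ∀ z ∈ Metric.ball z₀ ε, ContinuousOn (fun t : ℝ => z * f ((t : ℂ) * z))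
      (Icc 0 1) := by
    intro z hz
    apply ContinuousOn.mul continuousOn_const
    exact hfc.comp (by fun_prop) (fun t ht => hKS (hin z hz t ht))
  have hcont' : ContinuousOn (fun t : ℝ => f ((t : ℂ) * z₀) + z₀ * (t * deriv f ((t : ℂ) * z₀)))
      (Icc 0 1) := by
    have h1 := Metric.mem_ball_self hε (x := z₀)
    apply ContinuousOn.add
    · exact hfc.comp (by fun_prop) (fun t ht => hKS (hin z₀ h1 t ht))
    · apply ContinuousOn.mul continuousOn_const
      apply ContinuousOn.mul (by fun_prop)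
      exact hdc.comp (by fun_prop) (fun t ht => hKS (hin z₀ h1 t ht))
  have key := intervalIntegral.hasDerivAt_integral_of_dominated_loc_of_deriv_le
    (μ := volume) (a := (0 : ℝ)) (b := 1)
    (F := fun (z : ℂ) (t : ℝ) => z * f ((t : ℂ) * z))
    (F' := fun (z : ℂ) (t : ℝ) => f ((t : ℂ) * z) + z * (t * deriv f ((t : ℂ) * z)))
    (x₀ := z₀) (s := Metric.ball z₀ ε) (bound := fun _ => M₁ + (‖z₀‖ + ε) * M₂)
    (Metric.ball_mem_nhds z₀ hε)
    (by
      filter_upwards [Metric.ball_mem_nhds z₀ hε] with z hz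
      apply ContinuousOn.aestronglyMeasurable _ measurableSet_uIoc
      exact (hcont z hz).mono huIoc)
    (by
      apply ContinuousOn.intervalIntegrable
      rw [uIcc_of_le zero_le_one]
      exact hcont z₀ (Metric.mem_ball_self hε))
    (by
      apply ContinuousOn.aestronglyMeasurable _ measurableSet_uIoc
      exact hcont'.mono huIoc)
    (by
      filter_upwards with t ht z hz
      have h1 := hM₁ _ (hin z hz t (huIoc t ht))
      have h2 := hM₂ _ (hin z hz t (huIoc t ht))
      have h3 : ‖z‖ ≤ ‖z₀‖ + ε := by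
        have : ‖z - z₀‖ < ε := by rw [← dist_eq_norm]; exact hz
        have h4 := norm_add_le z₀ (z - z₀)
        rw [add_sub_cancel] at h4
        linarith
      have h5 := (huIoc t ht)
      have h6 : ‖(t : ℂ) * deriv f ((t : ℂ) * z)‖ ≤ M₂ := by
        rw [norm_mul, Complex.norm_real, Real.norm_of_nonneg h5.1]
        nlinarith [norm_nonneg (deriv f ((t : ℂ) * z)), h5.1, h5.2]
      calc ‖f ((t : ℂ) * z) + z * (t * deriv f ((t : ℂ) * z))‖
          ≤ ‖f ((t : ℂ) * z)‖ + ‖z * (t * deriv f ((t : ℂ) * z))‖ := norm_add_le _ _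
        _ ≤ M₁ + (‖z₀‖ + ε) * M₂ := by
          rw [norm_mul z]
          apply add_le_add h1
          apply mul_le_mul h3 h6 (norm_nonneg _) (by positivity))
    intervalIntegrable_const
    (by
      filter_upwards with t ht z hz
      have h1 := hfd _ (hKS (hin z hz t (huIoc t ht)))
      have h2 : HasDerivAt (fun z : ℂ => (t : ℂ) * z) (t : ℂ) z := by
        simpa using (hasDerivAt_id z).const_mul (t : ℂ)
      have h3 := (hasDerivAt_id z).mul (h1.comp z h2)
      refine (h3.congr_deriv ?_)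
      simp only [Function.comp, id]
      ring)
  have hval : ∫ t in (0 : ℝ)..1, (f ((t : ℂ) * z₀) + z₀ * (t * deriv f ((t : ℂ) * z₀))) =
      f z₀ := by
    have h1 := intervalIntegral.integral_eq_sub_of_hasDerivAt
      (f := fun t : ℝ => (t : ℂ) * f ((t : ℂ) * z₀))
      (f' := fun t : ℝ => f ((t : ℂ) * z₀) + z₀ * (t * deriv f ((t : ℂ) * z₀)))
      (a := 0) (b := 1)
      (by
        intro t ht
        rw [uIcc_of_le zero_le_one] at ht
        have h2 := hfd _ (hKS (hin z₀ (Metric.mem_ball_self hε) t ht))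
        have h3 : HasDerivAt (fun t : ℝ => (t : ℂ)) 1 t := Complex.ofRealCLM.hasDerivAt
        have h4 : HasDerivAt (fun t : ℝ => (t : ℂ) * z₀) z₀ t := by
          simpa using h3.mul_const z₀
        have h5 := h3.mul (h2.comp t h4)
        refine h5.congr_deriv ?_
        simp only [Function.comp]
        ring)
      (by
        apply ContinuousOn.intervalIntegrable
        rw [uIcc_of_le zero_le_one]
        exact hcont')
    rw [h1]
    simp
  rw [← hval]
  exact key.2

/-- the plane without the cut `[1, ∞)` -/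
def S : Set ℂ := {z | 1 - z ∈ Complex.slitPlane}

theorem mem_S {z : ℂ} : z ∈ S ↔ z.re < 1 ∨ z.im ≠ 0 := by
  show 1 - z ∈ Complex.slitPlane ↔ _
  rw [Complex.mem_slitPlane_iff]
  simp

theorem isOpen_S : IsOpen S :=
  Complex.isOpen_slitPlane.preimage (by fun_prop)

theorem star_S (z : ℂ) (hz : z ∈ S) (t : ℝ) (h0 : 0 ≤ t) (h1 : t ≤ 1) : (t : ℂ) * z ∈ S := by
  rw [mem_S] at hz ⊢
  rw [Complex.re_ofReal_mul, Complex.im_ofReal_mul]
  rcases h0.eq_or_lt with rfl | h0
  · left; simp
  · rcases hz with hz | hz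
    · left
      rcases le_or_gt z.re 0 with h | h
      · nlinarith
      · nlinarith
    · right
      exact mul_ne_zero h0.ne' hz

/-- `-log(1 - z)` -/
noncomputable def lg (z : ℂ) : ℂ := -Complex.log (1 - z)

theorem lg_zero : lg 0 = 0 := by simp [lg]

theorem lg_diff : DifferentiableOn ℂ lg S := by
  intro z hz
  have h : HasDerivAt (fun z : ℂ => 1 - z) (-1) z := by
    simpa using (hasDerivAt_id z).const_sub 1
  exact (h.clog hz).neg.differentiableAt.differentiableWithinAt

theorem lg_deriv_zero : deriv lg 0 = 1 := by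
  have h : HasDerivAt (fun z : ℂ => 1 - z) (-1) (0 : ℂ) := by
    simpa using (hasDerivAt_id (0 : ℂ)).const_sub 1
  have h2 := (h.clog (by simp)).neg
  have h3 : deriv lg 0 = -(-1 / (1 - 0)) := h2.deriv
  rw [h3]; norm_num

theorem zero_mem_S : (0 : ℂ) ∈ S := by rw [mem_S]; left; simp

theorem fdiff : DifferentiableOn ℂ (dslope lg 0) S :=
  (Complex.differentiableOn_dslope (isOpen_S.mem_nhds zero_mem_S)).2 lg_diff

theorem dslope_of_ne {z : ℂ} (hz : z ≠ 0) : dslope lg 0 z = -Complex.log (1 - z) / z := by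
  rw [_root_.dslope_of_ne lg hz, slope_def_field, lg_zero]
  simp [lg]

theorem dslope_im (r : ℝ) (hr : r < 1) : (dslope lg 0 (r : ℂ)).im = 0 := by
  rcases eq_or_ne r 0 with rfl | h0
  · rw [Complex.ofReal_zero, dslope_same, lg_deriv_zero]; simp
  · rw [dslope_of_ne (by exact_mod_cast h0)]
    have h1 : (1 : ℂ) - r = ((1 - r : ℝ) : ℂ) := by push_cast; ring
    rw [h1, ← Complex.ofReal_log (by linarith), ← Complex.ofReal_neg, ← Complex.ofReal_div]
    exact Complex.ofReal_im _

end Li2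

open Li2 in
theorem li2_proof : Stmt_Li2 := by
  have hprim := primitive S isOpen_S star_S (dslope lg 0) fdiff
  refine ⟨fun z : ℂ => ∫ t in (0 : ℝ)..1, z * dslope lg 0 (t * z), ?_, ?_, ?_⟩
  · exact (hprim 0 zero_mem_S).continuousAt
  · intro r hr
    have h1 : ∀ t ∈ Set.uIcc (0 : ℝ) 1, (r : ℂ) * dslope lg 0 ((t : ℂ) * r) =
        (((r : ℂ) * dslope lg 0 ((t : ℂ) * r)).re : ℂ) := by
      intro t ht
      rw [Set.uIcc_of_le zero_le_one] at ht
      have h2 : t * r < 1 := by
        rcases le_or_gt r 0 with h | h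
        · nlinarith [ht.1]
        · nlinarith [ht.1, ht.2]
      have h3 := dslope_im (t * r) h2
      rw [Complex.ofReal_mul] at h3
      apply Complex.ext
      · simp
      · rw [Complex.ofReal_im, Complex.im_ofReal_mul, h3, mul_zero]
    show (∫ t in (0 : ℝ)..1, (r : ℂ) * dslope lg 0 (t * r)).im = 0
    rw [intervalIntegral.integral_congr h1, intervalIntegral.integral_ofReal]
    exact Complex.ofReal_im _
  · intro z hz hz'
    have h1 := hprim z (mem_S.2 hz'.symm)
    rw [dslope_of_ne hz] at h1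
    exact h1

end Pool.Agent.BEK
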