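import Mathlib
import Pool.Agent.BEK.Stmts

set_option autoImplicit false

/-!
# Squad BEK, module PRIM: the Bloch-Wigner function
-/

namespace Pool.Agent.BEK
namespace Prim

open Complex Topology

/-- multiplication by a complex number, as a real linear map -/
noncomputable def ml (c : ℂ) : ℂ →L[ℝ] ℂ := ContinuousLinearMap.mul ℝ ℂ c

theorem ml_apply (c h : ℂ) : ml c h = c * h := rfl

theorem real_deriv {f : ℂ → ℂ} {c z : ℂ} (h : HasDerivAt f c z) : HasFDerivAt f (ml c) z := by
  have h1 := h.hasFDerivAt.restrictScalars ℝ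
  have h2 : ml c = (ContinuousLinearMap.restrictScalars ℝ
      (ContinuousLinearMap.toSpanSingleton ℂ c) : ℂ →L[ℝ] ℂ) := by
    ext1 h
    rw [ml_apply]
    simp [mul_comm]
  rw [h2]
  exact h1

theorem im_deriv {f : ℂ → ℂ} {c z : ℂ} (h : HasDerivAt f c z) :
    HasFDerivAt (fun z => (f z).im) (imCLM.comp (ml c)) z :=
  imCLM.hasFDerivAt.comp z (real_deriv h)

theorem re_deriv {f : ℂ → ℂ} {c z : ℂ} (h : HasDerivAt f c z) :
    HasFDerivAt (fun z => (f z).re) (reCLM.comp (ml c)) z :=
  reCLM.hasFDerivAt.comp z (real_deriv h)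

/-- the derivative of `log |z|` -/
theorem log_norm_deriv {z : ℂ} (hz : z ≠ 0) :
    HasFDerivAt (fun w : ℂ => Real.log ‖w‖) (reCLM.comp (ml (1 / z))) z := by
  have h1 : HasDerivAt (fun w : ℂ => Complex.log (w / z)) (1 / z / (z / z)) z := by
    apply HasDerivAt.clog
    · exact (hasDerivAt_id z).div_const z
    · rw [div_self hz]; exact one_mem_slitPlane
  rw [div_self hz, div_one] at h1
  have h2 := (re_deriv h1).add_const (Real.log ‖z‖)
  refine h2.congr_of_eventuallyEq ?_
  filter_upwards [isOpen_ne.mem_nhds hz] with w hw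
  rw [Complex.log_re, norm_div, Real.log_div (norm_ne_zero_iff.2 hw) (norm_ne_zero_iff.2 hz)]
  ring

/-- the wanted property of a primitive at a point -/
def P (E : ℂ → ℝ) (z : ℂ) : Prop :=
  ∃ L : ℂ →L[ℝ] ℝ, HasFDerivAt E L z ∧
    ∀ h : ℂ, L h = Real.log ‖z‖ * (-h / (1 - z)).im - Real.log ‖1 - z‖ * (h / z).im

theorem slit {z : ℂ} (h : z.im ≠ 0 ∨ z.re < 1) : 1 - z ∈ slitPlane := by
  rw [mem_slitPlane_iff]
  rcases h with h | h
  · right; simpa using h
  · left; simpa using h

theorem P_E {G : ℂ → ℂ} (z : ℂ) (hz : z ≠ 0) (hz' : z.im ≠ 0 ∨ z.re < 1)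
    (hG : HasDerivAt G (-Complex.log (1 - z) / z) z) :
    P (fun z => (G z).im + Real.log ‖z‖ * (Complex.log (1 - z)).im) z := by
  have hs := slit hz'
  have h0 : 1 - z ≠ 0 := slitPlane_ne_zero hs
  have h1 : HasDerivAt (fun w : ℂ => Complex.log (1 - w)) (-1 / (1 - z)) z :=
    HasDerivAt.clog ((hasDerivAt_id z).const_sub 1) hs
  have h2 := (im_deriv hG).add ((log_norm_deriv hz).mul (im_deriv h1))
  refine ⟨_, h2, fun h => ?_⟩
  simp only [_root_.add_apply, _root_.smul_apply,
    ContinuousLinearMap.comp_apply, ml_apply, reCLM_apply, imCLM_apply, smul_eq_mul]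
  have e1 : -Complex.log (1 - z) / z * h = -(Complex.log (1 - z) * (h / z)) := by
    field_simp
  have e2 : -1 / (1 - z) * h = -h / (1 - z) := by
    field_simp
  have e3 : 1 / z * h = h / z := by field_simp
  rw [e1, e2, e3, Complex.neg_im, Complex.mul_im, Complex.log_re]
  ring

theorem P_inv {E : ℂ → ℝ} (z : ℂ) (hz : z ≠ 0) (hz' : z ≠ 1) (hE : P E (1 / z)) :
    P (fun z => -E (1 / z)) z := by
  obtain ⟨L, hL, hL'⟩ := hE
  have h0 : 1 - z ≠ 0 := sub_ne_zero.2 (Ne.symm hz')
  have h1 : HasDerivAt (fun w : ℂ => 1 / w) (-1 / z ^ 2) z := by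
    have h5 := hasDerivAt_inv hz
    have h6 : (fun w : ℂ => 1 / w) = fun w : ℂ => w⁻¹ := by
      funext w; rw [one_div]
    have h7 : (-1 / z ^ 2 : ℂ) = -(z ^ 2)⁻¹ := by rw [neg_div, one_div]
    rw [h6, h7]
    exact h5
  have h2 := (hL.comp z (real_deriv h1)).neg
  refine ⟨_, h2, fun h => ?_⟩
  simp only [_root_.neg_apply, ContinuousLinearMap.comp_apply, ml_apply]
  rw [hL']
  have e1 : ‖1 / z‖ = ‖z‖⁻¹ := by rw [norm_div, norm_one, one_div]
  have e2 : ‖1 - 1 / z‖ = ‖1 - z‖ / ‖z‖ := by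
    rw [← norm_div, ← norm_neg]
    congr 1
    field_simp
    ring
  have e3 : -(-1 / z ^ 2 * h) / (1 - 1 / z) = -(h / z) - h / (1 - z) := by
    have : z - 1 ≠ 0 := sub_ne_zero.2 hz'
    have h5 : 1 - 1 / z = (z - 1) / z := by field_simp
    rw [h5]
    field_simp
    ring
  have e4 : -1 / z ^ 2 * h / (1 / z) = -(h / z) := by
    field_simp
  have e5 : -h / (1 - z) = -(h / (1 - z)) := neg_div _ _
  rw [e1, e2, e3, e4, e5, Real.log_inv, Real.log_div (norm_ne_zero_iff.2 h0)
    (norm_ne_zero_iff.2 hz), Complex.sub_im, Complex.neg_im, Complex.neg_im]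
  ring

theorem P_diff {E F : ℂ → ℝ} {z : ℂ} (hE : P E z) (hF : P F z) :
    HasFDerivAt (fun z => E z - F z) (0 : ℂ →L[ℝ] ℝ) z := by
  obtain ⟨L, hL, hL'⟩ := hE
  obtain ⟨M, hM, hM'⟩ := hF
  have : L = M := by
    ext1 h
    rw [hL', hM']
  subst this
  have h := hL.sub hM
  rw [sub_self] at h
  exact h

theorem P_congr {E F : ℂ → ℝ} {z : ℂ} (hE : P E z) (h : F =ᶠ[𝓝 z] E) : P F z := by
  obtain ⟨L, hL, hL'⟩ := hE
  exact ⟨L, hL.congr_of_eventuallyEq h, hL'⟩

/-- the complement of the ray `[0, ∞)` -/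
def Om : Set ℂ := {z | -z ∈ slitPlane}

theorem Om_open : IsOpen Om := isOpen_slitPlane.preimage continuous_neg

theorem Om_conn : IsPreconnected Om := by
  have h1 : IsPreconnected slitPlane :=
    (starConvex_one_slitPlane.isPathConnected one_mem_slitPlane).isConnected.isPreconnected
  have h2 : Om = (fun z => -z) '' slitPlane := by
    ext z
    constructor
    · intro hz; exact ⟨-z, hz, neg_neg z⟩
    · rintro ⟨w, hw, rfl⟩
      show - -w ∈ slitPlane
      rwa [neg_neg]
  rw [h2]
  exact h1.image _ continuous_neg.continuousOn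

theorem Om_ne {z : ℂ} (hz : z ∈ Om) : z ≠ 0 ∧ z ≠ 1 ∧ (z.im ≠ 0 ∨ z.re < 1) ∧ 1 / z ∈ Om := by
  have h1 : -z ∈ slitPlane := hz
  rw [mem_slitPlane_iff, Complex.neg_re, Complex.neg_im] at h1
  have hz0 : z ≠ 0 := by
    rintro rfl
    simp at h1
  refine ⟨hz0, ?_, ?_, ?_⟩
  · rintro rfl
    rcases h1 with h | h
    · norm_num at h
    · simp at h
  · rcases h1 with h | h
    · right; linarith
    · left; intro h2; apply h; rw [h2, neg_zero]
  · show -(1 / z) ∈ slitPlane
    have hn : 0 < normSq z := normSq_pos.2 hz0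
    rw [mem_slitPlane_iff, one_div, Complex.neg_re, Complex.neg_im, inv_re, inv_im]
    rcases h1 with h | h
    · left
      rw [← neg_div]
      exact div_pos h hn
    · right
      rw [neg_ne_zero]
      exact div_ne_zero h hn.ne'

end Prim

open Prim Complex Topology in
theorem prim_proof (h : Stmt_Li2) : Stmt_Prim := by
  obtain ⟨G, _, hG1, hG2⟩ := h
  set E : ℂ → ℝ := fun z => (G z).im + Real.log ‖z‖ * (Complex.log (1 - z)).im with hE
  have hPE : ∀ z : ℂ, z ≠ 0 → (z.im ≠ 0 ∨ z.re < 1) → P E z := fun z hz hz' =>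
    P_E z hz hz' (hG2 z hz hz')
  -- the values on the real line
  have hreal : ∀ r : ℝ, r < 1 → E r = 0 := by
    intro r hr
    show (G r).im + Real.log ‖(r : ℂ)‖ * (Complex.log (1 - (r : ℂ))).im = 0
    rw [hG1 r hr]
    have : (1 : ℂ) - (r : ℂ) = ((1 - r : ℝ) : ℂ) := by push_cast; ring
    rw [this, Complex.log_im, Complex.arg_ofReal_of_nonneg (by linarith)]
    simp
  -- the functional equation
  have hfun : ∀ z ∈ Om, E z = -E (1 / z) := by
    intro z hz
    have hd : ∀ w ∈ Om, HasFDerivAt (fun z => E z - -E (1 / z)) (0 : ℂ →L[ℝ] ℝ) w := by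
      intro w hw
      obtain ⟨a, b, c, d⟩ := Om_ne hw
      obtain ⟨a', b', c', d'⟩ := Om_ne d
      exact P_diff (hPE w a c) (P_inv w a b (hPE _ a' c'))
    have h1 : (-1 : ℂ) ∈ Om := by
      show - -(1 : ℂ) ∈ slitPlane
      rw [neg_neg]; exact one_mem_slitPlane
    have h2 := Om_open.is_const_of_fderiv_eq_zero (𝕜 := ℝ) Om_conn
      (f := fun z => E z - -E (1 / z))
      (fun w hw => (hd w hw).differentiableAt.differentiableWithinAt)
      (fun w hw => (hd w hw).fderiv) hz h1
    have h3 : E (-1) = 0 := by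
      have := hreal (-1) (by norm_num)
      simpa using this
    have h4 : E (1 / (-1)) = 0 := by
      have : (1 : ℂ) / (-1) = -1 := by norm_num
      rw [this, h3]
    simp only [h3, h4] at h2
    linarith
  -- the Bloch-Wigner function
  classical
  refine ⟨fun z => if z.im = 0 ∧ 1 ≤ z.re then 0 else E z, fun z hz hz1 => ?_⟩
  show P _ z
  by_cases hc : z.im ≠ 0 ∨ z.re < 1
  · refine P_congr (hPE z hz hc) ?_
    have ho : IsOpen {w : ℂ | w.im ≠ 0 ∨ w.re < 1} := by
      have : {w : ℂ | w.im ≠ 0 ∨ w.re < 1} = {w : ℂ | w.im ≠ 0} ∪ {w : ℂ | w.re < 1} := rfl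
      rw [this]
      exact (isOpen_ne_fun continuous_im continuous_const).union
        (isOpen_lt continuous_re continuous_const)
    filter_upwards [ho.mem_nhds hc] with w hw
    rw [if_neg]
    rintro ⟨h1, h2⟩
    rcases hw with h | h
    · exact h h1
    · linarith
  · push Not at hc
    obtain ⟨hi, hr⟩ := hc
    have hr1 : 1 < z.re := by
      rcases hr.lt_or_eq with h | h
      · exact h
      · exfalso
        apply hz1
        apply Complex.ext
        · rw [← h]; rfl
        · rw [hi]; rfl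
    have hzr : z = (z.re : ℂ) := by
      apply Complex.ext
      · simp
      · simpa using hi
    have hinv : (1 / z) = ((1 / z.re : ℝ) : ℂ) := by
      rw [hzr]; push_cast; simp
    have hp : P E (1 / z) := by
      apply hPE
      · exact one_div_ne_zero hz
      · right
        rw [hinv, ofReal_re, div_lt_one (by linarith)]
        exact hr1
    refine P_congr (P_inv z hz hz1 hp) ?_
    have ho : IsOpen {w : ℂ | 1 < w.re} := isOpen_lt continuous_const continuous_re
    filter_upwards [ho.mem_nhds hr1] with w hw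
    have hw' : 1 < w.re := hw
    by_cases hwi : w.im = 0
    · rw [if_pos ⟨hwi, hw'.le⟩]
      have hwr : w = (w.re : ℂ) := by
        apply Complex.ext
        · simp
        · simpa using hwi
      have : (1 / w) = ((1 / w.re : ℝ) : ℂ) := by
        rw [hwr]; push_cast; simp
      rw [this, hreal _ (by rw [div_lt_one (by linarith)]; exact hw'), neg_zero]
    · rw [if_neg (fun h => hwi h.1)]
      apply hfun
      show -w ∈ slitPlane
      rw [mem_slitPlane_iff]
      right
      simpa using hwi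

end Pool.Agent.BEK
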