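import Pool.Agent.BEK.Defs

set_option autoImplicit false

/-! # TAME: the Steinberg relation for the tame symbol -/

namespace Pool.Agent.BEK

namespace Tame

variable {F : Type} [Field F] (v : DV F)

theorem ord_neg (a : Fˣ) : v.ord (-a) = v.ord a := by
  have h : -a = (-1) * a := by rw [neg_one_mul]
  rw [h, v.mul, v.neg_one, zero_add]

theorem ord_g {f g : Fˣ} (h : (f : F) + g = 1) : min 0 (v.ord f) ≤ v.ord g := by
  have h1 := v.add 1 (-f) g (by rw [Units.val_neg, Units.val_one, ← h]; ring)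
  rwa [v.one, ord_neg] at h1

theorem ord_f {f g : Fˣ} (h : (f : F) + g = 1) : min 0 (v.ord g) ≤ v.ord f :=
  ord_g v (f := g) (g := f) (by rw [add_comm]; exact h)

theorem ord_one {f g : Fˣ} (h : (f : F) + g = 1) : min (v.ord f) (v.ord g) ≤ 0 := by
  have h1 := v.add f g 1 (by rw [Units.val_one]; exact h)
  rwa [v.one] at h1

theorem neg_one_sq_zpow (a : ℤ) : ((-1 : Fˣ)) ^ (a * a) = (-1) ^ a := by
  rw [zpow_mul]
  rcases Int.even_or_odd a with ha | ha
  · rw [ha.neg_one_zpow, one_zpow]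
  · rw [ha.neg_one_zpow, ha.neg_one_zpow]

theorem mem_U1 {a c : Fˣ} (h0 : v.ord a = 0) (hc : (a : F) - 1 = c) (h : 0 < v.ord c) :
    a ∈ v.U1 := by
  refine ⟨h0, fun d hd => ?_⟩
  have : c = d := Units.ext (hc.symm.trans hd)
  rw [← this]; exact h

end Tame

theorem tame_proof : Stmt_Tame := by
  intro F _ v f g hfg
  rw [v.tame_eq_one]
  show (-1) ^ (v.ord f * v.ord g) * f ^ v.ord g * (g ^ v.ord f)⁻¹ ∈ v.U1
  have h1 := Tame.ord_g v hfg
  have h2 := Tame.ord_f v hfg
  have h3 := Tame.ord_one v hfg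
  by_cases ha : 0 < v.ord f
  · have hb : v.ord g = 0 := by omega
    rw [hb, mul_zero, zpow_zero, zpow_zero, one_mul, one_mul]
    apply v.U1.inv_mem
    apply v.U1.zpow_mem
    exact Tame.mem_U1 v hb (c := -f) (by rw [Units.val_neg, ← hfg]; ring) (by
      rw [Tame.ord_neg]; exact ha)
  by_cases hb : 0 < v.ord g
  · have ha' : v.ord f = 0 := by omega
    rw [ha', zero_mul, zpow_zero, zpow_zero, inv_one, mul_one, one_mul]
    apply v.U1.zpow_mem
    exact Tame.mem_U1 v ha' (c := -g) (by rw [Units.val_neg, ← hfg]; ring) (by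
      rw [Tame.ord_neg]; exact hb)
  by_cases ha' : v.ord f < 0
  · have hab : v.ord g = v.ord f := by omega
    rw [hab, Tame.neg_one_sq_zpow, ← mul_zpow, ← inv_zpow, ← mul_zpow]
    apply v.U1.zpow_mem
    refine Tame.mem_U1 v (c := -g⁻¹) ?_ ?_ ?_
    · rw [v.mul, v.mul, v.inv, v.neg_one, hab]; omega
    · have hg := g.ne_zero
      rw [Units.val_mul, Units.val_mul, Units.val_neg, Units.val_one, Units.val_neg,
        Units.val_inv_eq_inv_val]
      have hf : (f : F) = 1 - g := by rw [← hfg]; ring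
      rw [hf]
      field_simp
      ring
    · rw [Tame.ord_neg, v.inv]; omega
  · have h4 : v.ord f = 0 := by omega
    have h5 : v.ord g = 0 := by omega
    rw [h4, h5]
    simp

end Pool.Agent.BEK
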