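import Pool.Agent.BEK.Reg
import Pool.Agent.BEK.Dilog
import Pool.Agent.BEK.Prim
import Pool.Agent.BEK.Li2
import Pool.Agent.BEK.TAME

set_option autoImplicit false

/-!
# `K_2(F) ⊗ ℚ`, the regulator along a loop of generic points, and unramified elements
-/

namespace Pool.Agent.BEK

open scoped TensorProduct

/-- The relations of `K_2(F)`: bimultiplicativity and the Steinberg relation. -/
inductive IsRel {F : Type} [Field F] : FreeAbelianGroup (Fˣ × Fˣ) → Prop
  | left (a b c : Fˣ) : IsRel (FreeAbelianGroup.of (a * b, c) - FreeAbelianGroup.of (a, c) -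
      FreeAbelianGroup.of (b, c))
  | right (a b c : Fˣ) : IsRel (FreeAbelianGroup.of (a, b * c) - FreeAbelianGroup.of (a, b) -
      FreeAbelianGroup.of (a, c))
  | steinberg (u v : Fˣ) (h : (u : F) + v = 1) : IsRel (FreeAbelianGroup.of (u, v))

/-- The subgroup generated by the relations. -/
def relK (F : Type) [Field F] : AddSubgroup (FreeAbelianGroup (Fˣ × Fˣ)) :=
  AddSubgroup.closure {z | IsRel z}

/-- `K_2` of the field `F` (Matsumoto): generated by the symbols `{f, g}`. -/
def KM (F : Type) [Field F] : Type := FreeAbelianGroup (Fˣ × Fˣ) ⧸ relK F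

noncomputable instance (F : Type) [Field F] : AddCommGroup (KM F) :=
  QuotientAddGroup.Quotient.addCommGroup (relK F)

/-- The vector space `K_2(F) ⊗ ℚ`. -/
def KQ (F : Type) [Field F] : Type := ℚ ⊗[ℤ] KM F

noncomputable instance (F : Type) [Field F] : AddCommGroup (KQ F) :=
  TensorProduct.addCommGroup

noncomputable instance (F : Type) [Field F] : Module ℚ (KQ F) :=
  TensorProduct.leftModule

variable {F : Type} [Field F]

/-- the symbol `{f, g}` in `K_2(F)` -/
def symK (f g : Fˣ) : KM F := QuotientAddGroup.mk (FreeAbelianGroup.of (f, g))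

/-- the symbol `{f, g}` in `K_2(F) ⊗ ℚ` -/
noncomputable def symQ (f g : Fˣ) : KQ F := (1 : ℚ) ⊗ₜ[ℤ] symK f g

/-! ## The regulator -/

/-- The additive extension of a map to the free abelian group. -/
def freeLift {A : Type} [AddCommGroup A] (B : Fˣ × Fˣ → A) : FreeAbelianGroup (Fˣ × Fˣ) →+ A :=
  FreeAbelianGroup.lift B

theorem freeLift_of {A : Type} [AddCommGroup A] (B : Fˣ × Fˣ → A) (p : Fˣ × Fˣ) :
    freeLift B (FreeAbelianGroup.of p) = B p := FreeAbelianGroup.lift_apply_of _ _

/-- `B` is bimultiplicative and respects the Steinberg relation. -/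
structure IsSymbol {A : Type} [AddCommGroup A] (B : Fˣ × Fˣ → A) : Prop where
  left : ∀ a b c, B (a * b, c) = B (a, c) + B (b, c)
  right : ∀ a b c, B (a, b * c) = B (a, b) + B (a, c)
  steinberg : ∀ u v : Fˣ, (u : F) + v = 1 → B (u, v) = 0

theorem IsSymbol.le_ker {A : Type} [AddCommGroup A] {B : Fˣ × Fˣ → A} (h : IsSymbol B) :
    relK F ≤ (freeLift B).ker := by
  unfold relK
  rw [AddSubgroup.closure_le]
  rintro z (⟨a, b, c⟩ | ⟨a, b, c⟩ | ⟨u, v, huv⟩)
  · show freeLift B _ = 0
    rw [map_sub, map_sub, freeLift_of, freeLift_of, freeLift_of, h.left]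
    abel
  · show freeLift B _ = 0
    rw [map_sub, map_sub, freeLift_of, freeLift_of, freeLift_of, h.right]
    abel
  · show freeLift B _ = 0
    rw [freeLift_of, h.steinberg u v huv]

/-- The homomorphism on `K_2(F)` given by a symbol. -/
def KM.lift {A : Type} [AddCommGroup A] {B : Fˣ × Fˣ → A} (h : IsSymbol B) : KM F →+ A :=
  QuotientAddGroup.lift (relK F) (freeLift B) h.le_ker

theorem KM.lift_sym {A : Type} [AddCommGroup A] {B : Fˣ × Fˣ → A} (h : IsSymbol B)
    (f g : Fˣ) : KM.lift h (symK f g) = B (f, g) := freeLift_of B (f, g)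

/-- `{f, g} ↦ (1/2π) ∮ (log|f| d arg g - log|g| d arg f)` -/
noncomputable def Loop.sg (γ : Loop F) (p : Fˣ × Fˣ) : ℝ :=
  regz (fun θ => γ.ev θ p.1) (fun θ => γ.ev θ p.2)

theorem Loop.sg_symbol (γ : Loop F) : IsSymbol γ.sg where
  left := γ.rz_mul_left
  right := γ.rz_mul_right
  steinberg := by
    intro u v huv
    have hD := γ.steinberg_le (dilog_proof (prim_proof li2_proof))
    have h := hD (AddSubgroup.subset_closure ⟨u, v, huv, rfl⟩)
    rw [AddMonoidHom.mem_ker, Loop.rzT_tmul] at h
    exact h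

/-- The regulator on `K_2(F)` along a path of generic points. -/
noncomputable def Loop.reg₁ (γ : Loop F) : KM F →+ ℝ :=
  KM.lift γ.sg_symbol

/-- The regulator on `K_2(F) ⊗ ℚ` along a path of generic points. -/
noncomputable def Loop.reg (γ : Loop F) : KQ F →ₗ[ℚ] ℝ :=
  LinearMap.liftBaseChange ℚ γ.reg₁.toIntLinearMap

theorem Loop.reg_sym (γ : Loop F) (f g : Fˣ) :
    γ.reg (symQ f g) = regz (fun θ => γ.ev θ f) (fun θ => γ.ev θ g) := by
  unfold Loop.reg symQ
  refine (LinearMap.liftBaseChange_tmul _ _ _ _).trans ?_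
  rw [one_smul]
  exact KM.lift_sym γ.sg_symbol f g

/-! ## Tame symbols -/

namespace DV

variable (v : DV F)

/-- the tame symbol, written additively -/
def ts (p : Fˣ × Fˣ) : Additive v.Res := Additive.ofMul (v.tame p.1 p.2)

theorem ts_symbol : IsSymbol v.ts where
  left := fun a b c => congrArg Additive.ofMul (v.tame_mul_left a b c)
  right := fun a b c => congrArg Additive.ofMul (v.tame_mul_right a b c)
  steinberg := fun u w h => congrArg Additive.ofMul (tame_proof F v u w h)

/-- The tame symbol on `K_2(F)`. -/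
noncomputable def tame₁ : KM F →+ Additive v.Res :=
  KM.lift v.ts_symbol

/-- The tame symbol on `K_2(F) ⊗ ℚ`. -/
noncomputable def tame2 : KQ F →ₗ[ℚ] ℚ ⊗[ℤ] Additive v.Res :=
  LinearMap.baseChange ℚ v.tame₁.toIntLinearMap

theorem tame2_sym (f g : Fˣ) (h : v.tame f g = 1) : v.tame2 (symQ f g) = 0 := by
  unfold tame2 symQ
  have e : v.tame₁.toIntLinearMap (symK f g) = 0 := by
    refine (KM.lift_sym v.ts_symbol f g).trans ?_
    show Additive.ofMul (v.tame f g) = 0
    rw [h]
    rfl
  refine (LinearMap.baseChange_tmul _ _ _).trans ?_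
  rw [e, TensorProduct.tmul_zero]

end DV

/-- The element of `K_2(F) ⊗ ℚ` has trivial tame symbol at every discrete valuation of `F`. -/
def Unram (ξ : KQ F) : Prop := ∀ v : DV F, v.tame2 ξ = 0

/-! ## Function fields -/

/-- The function field of a Weierstrass curve. -/
def FF {K : Type} [Field K] (E : WeierstrassCurve K) : Type := E.toAffine.FunctionField

noncomputable instance {K : Type} [Field K] (E : WeierstrassCurve K) : Field (FF E) :=
  FractionRing.field E.toAffine.CoordinateRing

/-- The constants in the function field. -/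
noncomputable def FF.const {K : Type} [Field K] (E : WeierstrassCurve K) : K →+* FF E :=
  algebraMap K E.toAffine.FunctionField

/-- The loop lies over the place `σ` of `K`. -/
def Over {K : Type} [Field K] {E : WeierstrassCurve K} (γ : Loop (FF E)) (σ : K →+* ℝ) : Prop :=
  ∀ (θ : ℝ) (k : K), γ.ev θ (FF.const E k) = (σ k : ℂ)

/-- Complex conjugation reverses the loop. -/
def Anti {F : Type} [Field F] (γ : Loop F) : Prop :=
  ∀ (θ : ℝ) (f : F), γ.ev (-θ) f = (starRingEnd ℂ) (γ.ev θ f)

/-- The matrix of regulators. -/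
noncomputable def regM {F : Type} [Field F] (γ : Fin 6 → Loop F) (ξ : Fin 6 → KQ F) :
    Matrix (Fin 6) (Fin 6) ℝ := fun i j => (γ i).reg (ξ j)

/-- The vectors of regulators of the unramified elements span the whole space. -/
def Onto {F : Type} [Field F] (γ : Fin 6 → Loop F) : Prop :=
  Submodule.span ℝ {r : Fin 6 → ℝ | ∃ η : KQ F, Unram η ∧ ∀ i, r i = (γ i).reg η} = ⊤

/-! ## Independence -/

theorem independent (γ : Fin 6 → Loop F) (ξ : Fin 6 → KQ F)
    (h : (regM γ ξ).det ≠ 0) : LinearIndependent ℚ ξ := by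
  rw [Fintype.linearIndependent_iff]
  intro g hg
  have h1 : Matrix.mulVec (regM γ ξ) (fun j => (g j : ℝ)) = 0 := by
    funext i
    rw [Matrix.mulVec, dotProduct]
    have h2 := congrArg (γ i).reg hg
    rw [map_sum, map_zero] at h2
    rw [Pi.zero_apply, ← h2]
    apply Finset.sum_congr rfl
    intro j _
    rw [map_smul, Rat.smul_def, mul_comm]
    rfl
  have h3 := Matrix.eq_zero_of_mulVec_eq_zero h h1
  intro j
  have h4 := congrFun h3 j
  simpa using h4

theorem spanning (γ : Fin 6 → Loop F) (ξ : Fin 6 → KQ F) (hξ : ∀ j, Unram (ξ j))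
    (h : (regM γ ξ).det ≠ 0) : Onto γ := by
  unfold Onto
  rw [eq_top_iff]
  intro r _
  set M : Matrix (Fin 6) (Fin 6) ℝ := regM γ ξ with hM
  have hu : IsUnit M.det := isUnit_iff_ne_zero.mpr h
  have h1 : r = M.mulVec (M⁻¹.mulVec r) := by
    rw [Matrix.mulVec_mulVec, Matrix.mul_nonsing_inv _ hu, Matrix.one_mulVec]
  have h2 : r = ∑ j, (M⁻¹.mulVec r) j • fun i => M i j := by
    conv_lhs => rw [h1]
    funext i
    rw [Matrix.mulVec, dotProduct, Finset.sum_apply]
    apply Finset.sum_congr rfl
    intro j _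
    rw [Pi.smul_apply, smul_eq_mul, mul_comm]
  rw [h2]
  apply Submodule.sum_mem
  intro j _
  apply Submodule.smul_mem
  apply Submodule.subset_span
  exact ⟨ξ j, hξ j, fun i => rfl⟩

end Pool.Agent.BEK
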