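import Pool.Agent.BEK.FinB
import Pool.Agent.BEK.KTwo

set_option autoImplicit false

/-!
# Assembly, part C: the main theorem, from the modules
-/

namespace Pool.Agent.BEK

open scoped TensorProduct

theorem conj_conj {F : Type} [Field F] (s : St F) : s.conj.conj = s := by
  unfold St.conj
  ext
  · rfl
  · rfl
  · rfl
  · show -(-s.Y - (1 - s.c) * s.X + s.b) - (1 - s.c) * s.X + s.b = s.Y
    ring

theorem regz_symm (f g : ℝ → ℂ) : regz f g = -regz g f := by
  unfold regz
  rw [← mul_neg, ← intervalIntegral.integral_neg]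
  congr 1
  apply intervalIntegral.integral_congr
  intro θ _
  simp only
  ring

theorem integral_map {K F : Type} [Field K] [Field F] (φ : K →+* F) {e : K}
    (h : IsIntegral ℤ e) : IsIntegral ℤ (φ e) := h.map φ.toIntAlgHom

/-- the limit matrix -/
def limN (i j : Fin 6) : ℝ :=
  if (i : ℕ) ≤ (j : ℕ) then (kap ((j : ℕ) - (i : ℕ)) : ℝ)
  else -(kap (6 + (j : ℕ) - (i : ℕ)) : ℝ)

/-- the values of the functions along the loops -/
theorem iter_loop (hPar : Stmt_Par) (hInv : Stmt_Inv) (hAff : Stmt_Aff) (s : St ℂ)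
    (hG : Good s.x s.y) (i j : ℕ) (hi : i ≤ 6) :
    (i ≤ j → St.step^[j] (St.step^[6 - i] s).conj = St.step^[j - i] s) ∧
    (j < i → St.step^[j] (St.step^[6 - i] s).conj = (St.step^[6 + j - i] s).conj) := by
  have h0 : St.step^[j] (St.step^[6 - i] s).conj = (St.step^[j + (6 - i)] s).conj := by
    rw [conj_iter hPar hInv _ (good_iter hPar s hG (6 - i)) j, Function.iterate_add_apply]
  constructor
  · intro hij
    rw [h0]
    have e : j + (6 - i) = (j - i) + 6 := by omega
    rw [e, Function.iterate_add_apply, six hAff s hG, conj_iter hPar hInv s hG, conj_conj]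
  · intro hij
    rw [h0]
    have e : j + (6 - i) = 6 + j - i := by omega
    rw [e]

/-- invariance of `c₄`, `Δ` -/
theorem inv_iter (hPar : Stmt_Par) (hInv : Stmt_Inv) {F : Type} [Field F] (x y : F)
    (hG : Good x y) (m : ℕ) : ∃ S : F, S ≠ 0 ∧
      (Ew x y).c₄ = S ^ 4 * (Ew (dia^[m] (x, y)).1 (dia^[m] (x, y)).2).c₄ ∧
      (Ew x y).Δ = S ^ 12 * (Ew (dia^[m] (x, y)).1 (dia^[m] (x, y)).2).Δ := by
  induction m with
  | zero => exact ⟨1, one_ne_zero, by simp, by simp⟩
  | succ m ih =>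
    obtain ⟨S, hS, h1, h2⟩ := ih
    have hGm := good_dia hPar x y hG m
    obtain ⟨e1, e2⟩ := (hInv F).2.2 _ _ hGm
    rw [Function.iterate_succ_apply']
    refine ⟨S * (ww (dia^[m] (x, y)).1 (dia^[m] (x, y)).2 ^ 2 / ((dia^[m] (x, y)).2 + 1)), ?_,
      ?_, ?_⟩
    · exact mul_ne_zero hS (div_ne_zero (pow_ne_zero _ hGm.w0) hGm.y1)
    · rw [h1, e1]; ring
    · rw [h2, e2]; ring

/-- NONGAL (helper90): some of the sextic fields are not Galois. -/
def Stmt_NonGal : Prop :=
  ∀ (K : Type) [Field K] [NumberField K] (x y : K) (m : ℕ), Good x y →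
    x * (x + 1) * (x + ((1058 * m + 533 : ℕ) : K)) + 1 = 0 → Module.finrank ℚ K = 6 →
    ¬ IsGalois ℚ K

/-- The main statement. -/
def Target : Prop :=
  ∀ B : ℝ, ∃ (K : Type) (_ : Field K) (_ : NumberField K) (E : WeierstrassCurve K)
    (_ : E.IsElliptic) (σ : Fin 6 → (K →+* ℝ)) (γ : Fin 6 → Loop (FF E))
    (ξ : Fin 6 → KQ (FF E)),
    Module.finrank ℚ K = 6 ∧ ¬ IsGalois ℚ K ∧ Function.Injective σ ∧
    (∀ i, B < |σ i E.j|) ∧ (∀ q : ℚ, E.j ≠ (q : K)) ∧
    (∀ i, Over (γ i) (σ i)) ∧ (∀ i, Anti (γ i)) ∧ (∀ j, Unram (ξ j)) ∧ (regM γ ξ).det ≠ 0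

theorem final (hPar : Stmt_Par) (hInv : Stmt_Inv)
    (hProd : Stmt_Prod) (hAff : Stmt_Aff) (hUnr : Stmt_Unr) (hDisc : Stmt_Disc)
    (hAsym : Stmt_Asym) (hTrans : Stmt_Trans) (hFunG : Stmt_FunG) (hFunF : Stmt_FunF)
    (hField : Stmt_Field) (hDet : Stmt_Det) (hNonGal : Stmt_NonGal) : Target := by
  intro B
  obtain ⟨ρ, hρ, hρ1, hρt⟩ := hTrans.1
  obtain ⟨δ₁, C, hδ₁, hA⟩ := hAsym ρ hρ hρ1
  obtain ⟨η, hη, hdet⟩ := hDet
  obtain ⟨δ₂, hδ₂, hj⟩ := hDisc.2 B
  set δ₃ : ℝ := Real.exp (-(|C| / η + 1)) with hδ₃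
  have hδ₃pos : 0 < δ₃ := Real.exp_pos _
  set δ : ℝ := min (min δ₁ δ₂) (min δ₃ (1 / 2)) with hδdef
  have hδ : 0 < δ := lt_min (lt_min hδ₁ hδ₂) (lt_min hδ₃pos (by norm_num))
  have d1 : δ ≤ δ₁ := (min_le_left _ _).trans (min_le_left _ _)
  have d2 : δ ≤ δ₂ := (min_le_left _ _).trans (min_le_right _ _)
  have d3 : δ ≤ δ₃ := (min_le_right _ _).trans (min_le_left _ _)
  have d4 : δ ≤ 1 / 2 := (min_le_right _ _).trans (min_le_right _ _)
  obtain ⟨n₀, hF⟩ := hField δ hδ
  obtain ⟨K, fK, nK, x, y, σ, hrank, hG, hcub, hinj, hint, hnear⟩ :=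
    hF (1058 * n₀ + 533) (by omega) ⟨529 * n₀ + 266, by ring⟩
  -- the parameters at the cusp
  set xr : Fin 6 → ℝ := fun i => σ i (dia^[(i : ℕ)] (x, y)).1 with hxr
  set yr : Fin 6 → ℝ := fun i => σ i (dia^[(i : ℕ)] (x, y)).2 with hyr
  have hGK : ∀ i : Fin 6, Good (dia^[(i : ℕ)] (x, y)).1 (dia^[(i : ℕ)] (x, y)).2 :=
    fun i => good_dia hPar x y hG i
  have hGr : ∀ i, Good (xr i) (yr i) := fun i => (hGK i).map (σ i)
  have hx1 : ∀ i, |xr i + 1| < δ := fun i => (hnear i).1
  have hy1 : ∀ i, |yr i| < δ := fun i => (hnear i).2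
  choose X hX hXa using fun i => hA (xr i) (yr i) (hGr i) ((hx1 i).trans_le d1)
    ((hy1 i).trans_le d1)
  have hcusp := fun i => hj (xr i) (yr i) (hGr i) ((hx1 i).trans_le d2) ((hy1 i).trans_le d2)
  -- the curve is elliptic
  have hΔr : ∀ i, (Ew (xr i) (yr i)).Δ ≠ 0 := by
    intro i h0
    have := (hcusp i).2.1
    rw [h0, mul_zero] at this
    exact lt_irrefl _ this
  have hΔ : (Ew x y).Δ ≠ 0 := by
    obtain ⟨S, hS, _, h2⟩ := inv_iter hPar hInv x y hG ((0 : Fin 6) : ℕ)
    rw [h2]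
    refine mul_ne_zero (pow_ne_zero _ hS) ?_
    intro h0
    apply hΔr 0
    have := congrArg (σ 0) h0
    rw [← WeierstrassCurve.map_Δ, map_Ew, map_zero] at this
    exact this
  have hell : (Ew x y).IsElliptic := ⟨isUnit_iff_ne_zero.mpr hΔ⟩
  -- the j-invariant
  have hjval : ∀ i, σ i (Ew x y).j = (Ew (xr i) (yr i)).c₄ ^ 3 / (Ew (xr i) (yr i)).Δ := by
    intro i
    obtain ⟨S, hS, h1, h2⟩ := inv_iter hPar hInv x y hG (i : ℕ)
    have h3 : (Ew x y).j = (Ew x y).c₄ ^ 3 / (Ew x y).Δ := by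
      rw [eq_div_iff hΔ]
      unfold WeierstrassCurve.j
      have : (Ew x y).Δ = ((Ew x y).Δ' : K) := rfl
      rw [this, mul_comm, ← mul_assoc, Units.mul_inv, one_mul]
    have h4 : (Ew x y).c₄ ^ 3 / (Ew x y).Δ =
        (Ew (dia^[(i : ℕ)] (x, y)).1 (dia^[(i : ℕ)] (x, y)).2).c₄ ^ 3 /
        (Ew (dia^[(i : ℕ)] (x, y)).1 (dia^[(i : ℕ)] (x, y)).2).Δ := by
      rw [h2] at hΔ
      have hΔ2 := right_ne_zero_of_mul hΔ
      rw [h1, h2]
      field_simp
    rw [h3, h4, map_div₀, map_pow, ← WeierstrassCurve.map_c₄, ← WeierstrassCurve.map_Δ, map_Ew]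
  -- the elements
  have hgG : Good (gen x y).x (gen x y).y := gen_good hG
  have hgE : (gen x y).OnE := gen_onE hFunG x y
  have hGj : ∀ j : Fin 6, Good (St.step^[(j : ℕ)] (gen x y)).x (St.step^[(j : ℕ)] (gen x y)).y :=
    fun j => good_iter hPar _ hgG j
  have hEj : ∀ j : Fin 6, (St.step^[(j : ℕ)] (gen x y)).OnE :=
    fun j => onE_iter hPar hInv _ hgG hgE j
  have hgenj : ∀ j : Fin 6, (St.step^[(j : ℕ)] (gen x y)).Gen :=
    fun j => gen_gen hFunG hAff hG j
  have hne : ∀ j : Fin 6, (St.step^[(j : ℕ)] (gen x y)).h ≠ 0 ∧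
      (St.step^[(j : ℕ)] (gen x y)).conj.h ≠ 0 :=
    fun j => h_ne hPar hProd _ (hGj j) (hEj j) (hgenj j)
  -- the loops
  choose γ g1 g2 g3 using fun i : Fin 6 => loop_exists hPar hInv hProd hAff hTrans hFunF x y hG
    (σ i) (i : ℕ) (by omega) ρ hρ hρt (X i) (hX i)
  refine ⟨K, fK, nK, Ew x y, hell, σ, γ,
    fun j => symQ (F := FF (Ew x y)) (Units.mk0 _ (hne j).1) (Units.mk0 _ (hne j).2), hrank,
    hNonGal K x y n₀ hG hcub hrank, hinj, ?_, ?_, g1, g2, ?_, ?_⟩
  · intro i
    rw [hjval i]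
    exact (hcusp i).2.2
  · -- the `j`-invariant is not rational
    intro q hq
    have e0 : ((Ew (xr 0) (yr 0)).c₄ ^ 3 / (Ew (xr 0) (yr 0)).Δ) = q := by
      rw [← hjval 0, hq, map_ratCast]
    have e2 : ((Ew (xr 2) (yr 2)).c₄ ^ 3 / (Ew (xr 2) (yr 2)).Δ) = q := by
      rw [← hjval 2, hq, map_ratCast]
    have c0 := hcusp 0
    have c2 := hcusp 2
    have hn : (3 : ℝ) ≤ ((1058 * n₀ + 533 : ℕ) : ℝ) := by
      push_cast
      have : (0 : ℝ) ≤ n₀ := Nat.cast_nonneg _
      linarith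
    -- at the place 0
    have s0 : 0 < xr 0 + 1 := by
      have hx : xr 0 = σ 0 x := rfl
      have hc := congrArg (σ 0) hcub
      rw [map_add, map_mul, map_mul, map_add, map_add, map_one, map_zero, map_natCast, ← hx]
        at hc
      have h1 := abs_lt.mp ((hx1 0).trans_le d4)
      by_contra hcon
      push Not at hcon
      have h2 : 0 ≤ xr 0 * (xr 0 + 1) := by nlinarith
      have h3 : 0 ≤ xr 0 + ((1058 * n₀ + 533 : ℕ) : ℝ) := by linarith
      have h4 := mul_nonneg h2 h3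
      linarith
    have s2 : xr 2 + 1 < 0 := by
      have hc := congrArg (σ 2) hcub
      rw [map_add, map_mul, map_mul, map_add, map_add, map_one, map_zero, map_natCast] at hc
      have h1 := abs_lt.mp ((hx1 2).trans_le d4)
      have hx : xr 2 = -1 / (σ 2 x + 1) := by
        show σ 2 (dia (dia (x, y))).1 = _
        have : (dia (dia (x, y))).1 = -1 / (x + 1) := by
          unfold dia
          have hx0 := hG.x0
          have hx1' := hG.x1
          simp only
          field_simp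
          ring
        rw [this, map_div₀, map_neg, map_one, map_add, map_one]
      have hne1 : σ 2 x + 1 ≠ 0 := by
        intro h0
        rw [h0, mul_zero, zero_mul, zero_add] at hc
        exact one_ne_zero hc
      have hpos : 0 < σ 2 x + 1 := by
        by_contra hcon
        push Not at hcon
        have h2 : 0 ≤ xr 2 := by
          rw [hx]
          exact div_nonneg_of_nonpos (by norm_num) hcon
        linarith
      have hneg : σ 2 x < 0 := by
        by_contra hcon
        push Not at hcon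
        have h2 : 0 ≤ σ 2 x * (σ 2 x + 1) := mul_nonneg hcon hpos.le
        have h3 : 0 ≤ σ 2 x + ((1058 * n₀ + 533 : ℕ) : ℝ) := by linarith
        have h4 := mul_nonneg h2 h3
        linarith
      have e : xr 2 + 1 = σ 2 x / (σ 2 x + 1) := by
        rw [hx]
        field_simp
        ring
      rw [e]
      exact div_neg_of_neg_of_pos hneg hpos
    have p0 : 0 < (Ew (xr 0) (yr 0)).Δ := by
      by_contra hcon
      push Not at hcon
      have := mul_nonpos_of_nonneg_of_nonpos s0.le hcon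
      linarith [c0.2.1]
    have p2 : (Ew (xr 2) (yr 2)).Δ < 0 := by
      by_contra hcon
      push Not at hcon
      have := mul_nonpos_of_nonpos_of_nonneg s2.le hcon
      linarith [c2.2.1]
    have q0 : 0 < (q : ℝ) := by
      rw [← e0]; exact div_pos (pow_pos c0.1 3) p0
    have q2 : (q : ℝ) < 0 := by
      rw [← e2]; exact div_neg_of_pos_of_neg (pow_pos c2.1 3) p2
    linarith
  · -- unramified
    intro j v
    apply DV.tame2_sym
    refine hUnr _ v (St.step^[(j : ℕ)] (gen x y)) (hGj j) (hEj j) (hgenj j) ?_ _ _ rfl rfl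
    apply unitsAt_iter hPar v _ hgG
    rw [unitsAt_iff v _ hgG]
    have hu : ∀ e : K, (e = x ∨ e = x + 1 ∨ e = y ∨ e = y + 1 ∨ e = ww x y) → e ≠ 0 →
        v.IsU (algebraMap K (Ew x y).toAffine.FunctionField e) := by
      intro e he he0
      obtain ⟨i1, i2⟩ := hint e he
      refine v.isU_of_integral _ ((map_ne_zero _).mpr he0) (integral_map _ i1) ?_
      have h5 := integral_map (algebraMap K (Ew x y).toAffine.FunctionField) i2
      rw [map_inv₀] at h5
      exact h5
    refine ⟨hu x (Or.inl rfl) hG.x0, ?_, hu y (Or.inr (Or.inr (Or.inl rfl))) hG.y0, ?_, ?_⟩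
    · have := hu (x + 1) (Or.inr (Or.inl rfl)) hG.x1
      rw [map_add, map_one] at this
      exact this
    · have := hu (y + 1) (Or.inr (Or.inr (Or.inr (Or.inl rfl)))) hG.y1
      rw [map_add, map_one] at this
      exact this
    · have := hu (ww x y) (Or.inr (Or.inr (Or.inr (Or.inr rfl)))) hG.w0
      rw [map_ww] at this
      exact this
  · -- the regulators
    apply det_of_asym hdet (C := C) _ (fun i => Real.log (abs (xr i + 1)))
    · intro i h0
      have h1 : |xr i + 1| < 1 := (hx1 i).trans_le (d4.trans (by norm_num))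
      have h2 : 0 < |xr i + 1| := abs_pos.mpr (hGr i).x1
      have := Real.log_neg h2 h1
      linarith
    · intro i
      have h2 : 0 < |xr i + 1| := abs_pos.mpr (hGr i).x1
      have h3 : Real.log |xr i + 1| < -(|C| / η + 1) := by
        have := Real.log_lt_log h2 ((hx1 i).trans_le d3)
        rwa [hδ₃, Real.log_exp] at this
      have h4 : |C| / η + 1 < abs (Real.log (abs (xr i + 1))) := by
        have h5 : 0 ≤ |C| / η := div_nonneg (abs_nonneg _) hη.le
        have h6 : Real.log |xr i + 1| < 0 := by linarith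
        rw [abs_of_neg h6]
        linarith
      calc C ≤ |C| := le_abs_self C
        _ = η * (|C| / η) := by field_simp
        _ < η * abs (Real.log (abs (xr i + 1))) := by
          apply mul_lt_mul_of_pos_left _ hη
          linarith
    · intro i j
      have hval : ∀ θ, (γ i).ev θ ((St.step^[(j : ℕ)] (gen x y)).h) =
          (St.step^[(j : ℕ)] (St.step^[6 - (i : ℕ)] (lp ρ (xr i) (yr i) (X i) θ)).conj).h := by
        intro θ
        rw [← St.map_h, ← St.map_step_iter, g3]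
      have hvalc : ∀ θ, (γ i).ev θ ((St.step^[(j : ℕ)] (gen x y)).conj.h) =
          (St.step^[(j : ℕ)] (St.step^[6 - (i : ℕ)]
            (lp ρ (xr i) (yr i) (X i) θ)).conj).conj.h := by
        intro θ
        rw [← St.map_h, ← St.map_conj, ← St.map_step_iter, g3]
      have hreg : Loop.reg (F := FF (Ew x y)) (γ i)
          (symQ (Units.mk0 _ (hne j).1) (Units.mk0 _ (hne j).2)) =
          regz (fun θ => (St.step^[(j : ℕ)] (St.step^[6 - (i : ℕ)]
            (lp ρ (xr i) (yr i) (X i) θ)).conj).h)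
          (fun θ => (St.step^[(j : ℕ)] (St.step^[6 - (i : ℕ)]
            (lp ρ (xr i) (yr i) (X i) θ)).conj).conj.h) := by
        exact (Loop.reg_sym (F := FF (Ew x y)) (γ i) _ _).trans
          (congrArg₂ regz (funext hval) (funext hvalc))
      have hgoal : abs (regz (fun θ => (St.step^[(j : ℕ)] (St.step^[6 - (i : ℕ)]
            (lp ρ (xr i) (yr i) (X i) θ)).conj).h)
          (fun θ => (St.step^[(j : ℕ)] (St.step^[6 - (i : ℕ)]
            (lp ρ (xr i) (yr i) (X i) θ)).conj).conj.h) -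
          (if (i : ℕ) ≤ (j : ℕ) then (kap ((j : ℕ) - (i : ℕ)) : ℝ)
            else -(kap (6 + (j : ℕ) - (i : ℕ)) : ℝ)) * Real.log (abs (xr i + 1))) ≤ C := by
        have hGl : ∀ θ, Good (lp ρ (xr i) (yr i) (X i) θ).x (lp ρ (xr i) (yr i) (X i) θ).y :=
          fun θ => (hGr i).map Complex.ofRealHom
        have hit := fun θ => iter_loop hPar hInv hAff (lp ρ (xr i) (yr i) (X i) θ) (hGl θ)
          (i : ℕ) (j : ℕ) (by omega)
        by_cases hij : (i : ℕ) ≤ (j : ℕ)
        · simp only [if_pos hij, (hit _).1 hij]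
          exact hXa i ((j : ℕ) - (i : ℕ)) (by omega)
        · push Not at hij
          simp only [if_neg (not_le.mpr hij), (hit _).2 hij, conj_conj]
          rw [regz_symm]
          have h : abs (regz
              (fun θ => (St.step^[6 + (j : ℕ) - (i : ℕ)] (lp ρ (xr i) (yr i) (X i) θ)).h)
              (fun θ => (St.step^[6 + (j : ℕ) - (i : ℕ)] (lp ρ (xr i) (yr i) (X i) θ)).conj.h) -
              kap (6 + (j : ℕ) - (i : ℕ)) * Real.log (abs (xr i + 1))) ≤ C :=
            hXa i (6 + (j : ℕ) - (i : ℕ)) (by omega)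
          rw [← abs_neg] at h
          refine le_trans (le_of_eq ?_) h
          congr 1
          ring
      rw [← hreg] at hgoal
      exact hgoal

end Pool.Agent.BEK
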