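import Pool.Agent.BEK.Stmts

set_option autoImplicit false

namespace Pool.Agent.BEK

namespace INVX

section
variable {F : Type} [Field F] {x y : F}

/-- the relations between the coefficients of the two curves -/
theorem rels (hP : Stmt_Par) (h : Good x y) :
    (ww x y ^ 2 / (y + 1)) * (1 - cc (dia (x, y)).1 (dia (x, y)).2) =
      1 - cc x y + 2 * (cc x y - x * y) ∧
    (ww x y ^ 2 / (y + 1)) ^ 2 * bb (dia (x, y)).1 (dia (x, y)).2 =
      -(2 * bb x y - (cc x y - x * y) * (1 - cc x y) - (cc x y - x * y) ^ 2) ∧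
    (ww x y ^ 2 / (y + 1)) ^ 3 * bb (dia (x, y)).1 (dia (x, y)).2 =
      -(bb x y * cc x y) ∧
    bb x y - cc x y + cc x y ^ 2 - (cc x y - x * y) * cc x y = 0 := by
  obtain ⟨-, -, -, e1, e2, e3, -⟩ := hP F x y h
  have hx := h.x0
  have hx1 := h.x1
  have hy := h.y0
  have hy1 := h.y1
  have hw := h.w0
  have hrel := h.rel
  have hw1 : (dia (x, y)).1 + 1 ≠ 0 := by
    rw [e1]
    exact div_ne_zero (neg_ne_zero.mpr one_ne_zero) hx
  have hb : bb (dia (x, y)).1 (dia (x, y)).2 = -(x * y ^ 3 * (y + 1) ^ 2) /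
      ((x + 1) * ww x y ^ 4) := by
    unfold bb
    rw [e3, e1]
    have : (dia (x, y)).2 = -y / ww x y := rfl
    rw [this]
    field_simp
  have hc : cc (dia (x, y)).1 (dia (x, y)).2 = (x + 1) * y * (y + 1) / ww x y ^ 2 := by
    unfold cc
    rw [e3, e2]
    have h1 : (dia (x, y)).2 = -y / ww x y := rfl
    have h2 : (dia (x, y)).1 = -(x + 1) / x := rfl
    rw [h1, h2]
    field_simp
  rw [hb, hc]
  refine ⟨?_, ?_, ?_, ?_⟩
  · have hww : ww x y = y + 1 - x * y := rfl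
    unfold cc
    field_simp
    rw [hww]
    ring
  · have hww : ww x y = y + 1 - x * y := rfl
    have k1 : (ww x y ^ 2 / (y + 1)) ^ 2 * (-(x * y ^ 3 * (y + 1) ^ 2) / ((x + 1) * ww x y ^ 4)) =
        -(x * y ^ 3 / (x + 1)) := by
      field_simp
    have k2 : 2 * bb x y - (cc x y - x * y) * (1 - cc x y) - (cc x y - x * y) ^ 2 =
        (2 * (-(y ^ 2 * ww x y)) * (y + 1) - (-x * y * ww x y - x * y * (y + 1)) * (1 - x * y) *
          (x + 1)) / ((x + 1) * (y + 1)) := by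
      unfold bb cc
      field_simp
      ring
    have k3 : 2 * (-(y ^ 2 * ww x y)) * (y + 1) - (-x * y * ww x y - x * y * (y + 1)) *
        (1 - x * y) * (x + 1) = x * y ^ 3 * (y + 1) := by
      rw [hww]
      linear_combination (x*y^2 - 2*y^2 - 2*y) * hrel
    rw [k1, k2, k3]
    field_simp
  · unfold bb cc
    field_simp
  · have hww : ww x y = y + 1 - x * y := rfl
    have k2 : bb x y - cc x y + cc x y ^ 2 - (cc x y - x * y) * cc x y =
        (-(y ^ 2 * ww x y) * (y + 1) + x * y * ww x y * (x + 1) - x * y * x * y * ww x y *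
          (x + 1)) / ((x + 1) * (y + 1)) := by
      unfold bb cc
      field_simp
      ring
    have k3 : -(y ^ 2 * ww x y) * (y + 1) + x * y * ww x y * (x + 1) - x * y * x * y * ww x y *
          (x + 1) = 0 := by
      rw [hww]
      linear_combination (x*y^2 - y^2 - y) * hrel
    rw [k2, k3, zero_div]

end


theorem onE {F : Type} [Field F] {b c m S b' c' X Y X' Y' : F} (hS : S ≠ 0)
    (r1 : S * (1 - c') = 1 - c + 2 * m) (r2 : S ^ 2 * b' = -(2 * b - m * (1 - c) - m ^ 2))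
    (r3 : S ^ 3 * b' = -(b * c)) (r4 : b - c + c ^ 2 - m * c = 0)
    (hX : X' * S ^ 2 = X - b) (hY : Y' * S ^ 3 = Y - b * c - m * (X - b))
    (hE : Y ^ 2 + (1 - c) * X * Y - b * Y = X ^ 3 - b * X ^ 2) :
    Y' ^ 2 + (1 - c') * X' * Y' - b' * Y' = X' ^ 3 - b' * X' ^ 2 := by
  apply mul_left_cancel₀ (pow_ne_zero 6 hS)
  have e1 : S ^ 6 * (Y' ^ 2 + (1 - c') * X' * Y' - b' * Y') =
      (Y' * S ^ 3) ^ 2 + (S * (1 - c')) * (X' * S ^ 2) * (Y' * S ^ 3) -
        (S ^ 3 * b') * (Y' * S ^ 3) := by ring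
  have e2 : S ^ 6 * (X' ^ 3 - b' * X' ^ 2) =
      (X' * S ^ 2) ^ 3 - (S ^ 2 * b') * (X' * S ^ 2) ^ 2 := by ring
  rw [e1, e2, hX, hY, r1, r2, r3]
  linear_combination hE + b * (X - b) * r4

theorem conjY {F : Type} [Field F] {b c m S b' c' X Y : F} (hS : S ≠ 0)
    (r1 : S * (1 - c') = 1 - c + 2 * m)
    (r3 : S ^ 3 * b' = -(b * c)) :
    ((-Y - (1 - c) * X + b) - b * c - m * (X - b)) / S ^ 3 =
      -((Y - b * c - m * (X - b)) / S ^ 3) - (1 - c') * ((X - b) / S ^ 2) + b' := by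
  have h2 : (1 - c') = (1 - c + 2 * m) / S := by
    rw [eq_div_iff hS, ← r1]; ring
  have h3 : b' = -(b * c) / S ^ 3 := by
    rw [eq_div_iff (pow_ne_zero 3 hS), ← r3]; ring
  rw [h2, h3]
  field_simp
  ring

end INVX

open INVX in
theorem inv_proof (hP : Stmt_Par) : Stmt_Inv := by
  intro F _
  refine ⟨?_, ?_, ?_⟩
  · intro s h hE
    obtain ⟨r1, r2, r3, r4⟩ := rels hP h
    have hS : ww s.x s.y ^ 2 / (s.y + 1) ≠ 0 := div_ne_zero (pow_ne_zero _ h.w0) h.y1
    have hX : s.step.X * (ww s.x s.y ^ 2 / (s.y + 1)) ^ 2 = s.X - s.b :=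
      div_mul_cancel₀ _ (pow_ne_zero _ hS)
    have hY : s.step.Y * (ww s.x s.y ^ 2 / (s.y + 1)) ^ 3 =
        s.Y - s.b * s.c - (s.c - s.x * s.y) * (s.X - s.b) :=
      div_mul_cancel₀ _ (pow_ne_zero _ hS)
    exact onE hS r1 r2 r3 r4 hX hY hE
  · intro s h
    obtain ⟨r1, r2, r3, r4⟩ := rels hP h
    have hS : ww s.x s.y ^ 2 / (s.y + 1) ≠ 0 := div_ne_zero (pow_ne_zero _ h.w0) h.y1
    apply St.ext
    · rfl
    · rfl
    · rfl
    · exact conjY hS r1 r3
  · intro x y h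
    obtain ⟨r1, r2, r3, r4⟩ := rels hP h
    have hS : ww x y ^ 2 / (y + 1) ≠ 0 := div_ne_zero (pow_ne_zero _ h.w0) h.y1
    set S := ww x y ^ 2 / (y + 1) with hSd
    set b' := bb (dia (x, y)).1 (dia (x, y)).2 with hb'
    set c' := cc (dia (x, y)).1 (dia (x, y)).2 with hc'
    let C : WeierstrassCurve.VariableChange F :=
      ⟨Units.mk0 S hS, bb x y, cc x y - x * y, bb x y * cc x y⟩
    have hu : ((C.u⁻¹ : Fˣ) : F) = S⁻¹ := Units.val_inv_eq_inv_val _
    have hC : C • Ew x y = Ew (dia (x, y)).1 (dia (x, y)).2 := by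
      apply WeierstrassCurve.ext
      · show ((C.u⁻¹ : Fˣ) : F) * ((1 - cc x y) + 2 * (cc x y - x * y)) = 1 - c'
        rw [hu, ← r1]
        field_simp
      · show ((C.u⁻¹ : Fˣ) : F) ^ 2 * (-bb x y - (cc x y - x * y) * (1 - cc x y) + 3 * bb x y -
          (cc x y - x * y) ^ 2) = -b'
        rw [hu]
        have : -bb x y - (cc x y - x * y) * (1 - cc x y) + 3 * bb x y -
          (cc x y - x * y) ^ 2 = -(S ^ 2 * b') := by
          rw [r2]; ring
        rw [this]
        field_simp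
      · show ((C.u⁻¹ : Fˣ) : F) ^ 3 * (-bb x y + bb x y * (1 - cc x y) +
          2 * (bb x y * cc x y)) = -b'
        rw [hu]
        have : -bb x y + bb x y * (1 - cc x y) + 2 * (bb x y * cc x y) = -(S ^ 3 * b') := by
          rw [r3]; ring
        rw [this]
        field_simp
      · show ((C.u⁻¹ : Fˣ) : F) ^ 4 * (0 - (cc x y - x * y) * (-bb x y) + 2 * bb x y * (-bb x y) -
          (bb x y * cc x y + bb x y * (cc x y - x * y)) * (1 - cc x y) + 3 * bb x y ^ 2 -
          2 * (cc x y - x * y) * (bb x y * cc x y)) = 0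
        apply mul_eq_zero_of_right
        linear_combination bb x y * r4
      · show ((C.u⁻¹ : Fˣ) : F) ^ 6 * (0 + bb x y * 0 + bb x y ^ 2 * (-bb x y) + bb x y ^ 3 -
          bb x y * cc x y * (-bb x y) - (bb x y * cc x y) ^ 2 -
          bb x y * (bb x y * cc x y) * (1 - cc x y)) = 0
        apply mul_eq_zero_of_right
        ring
    constructor
    · rw [← hC, WeierstrassCurve.variableChange_c₄, hu]
      field_simp
    · rw [← hC, WeierstrassCurve.variableChange_Δ, hu]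
      field_simp

end Pool.Agent.BEK
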