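import Pool.Agent.BEK.Stmts

/-!
# IRR: irreducibility of the sextic polynomial
-/

set_option autoImplicit false

namespace Pool.Agent.BEK

open Polynomial

namespace IrrX

theorem coeff_eq (f g : (ZMod 2)[X]) (k : ℕ) :
    (f * g).coeff k = ∑ i ∈ Finset.range (k + 1), f.coeff i * g.coeff (k - i) := by
  rw [coeff_mul, Finset.Nat.sum_antidiagonal_eq_sum_range_succ_mk]

theorem dec1 : ∀ a f0 f1 f2 f3 f4 : ZMod 2,
    a * f0 = 1 → a * f1 + 1 * f0 = 1 → a * f2 + 1 * f1 = 0 → a * f3 + 1 * f2 = 1 →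
    a * f4 + 1 * f3 = 1 → a * 1 + 1 * f4 = 0 → False := by
  decide

theorem dec2 : ∀ a b f0 f1 f2 f3 : ZMod 2,
    a * f0 = 1 → a * f1 + b * f0 = 1 → a * f2 + b * f1 + 1 * f0 = 0 →
    a * f3 + b * f2 + 1 * f1 = 1 → a * 1 + b * f3 + 1 * f2 = 1 → b * 1 + 1 * f3 = 0 → False := by
  decide

theorem dec3 : ∀ a b c f0 f1 f2 : ZMod 2,
    a * f0 = 1 → a * f1 + b * f0 = 1 → a * f2 + b * f1 + c * f0 = 0 →
    a * 1 + b * f2 + c * f1 + 1 * f0 = 1 → b * 1 + c * f2 + 1 * f1 = 1 →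
    c * 1 + 1 * f2 = 0 → False := by
  decide

/-- the reduction modulo 2 -/
noncomputable def q6 : (ZMod 2)[X] := X ^ 6 + X ^ 4 + X ^ 3 + X + 1

theorem q6_monic : q6.Monic := by
  unfold q6
  monicity!

theorem q6_deg : q6.natDegree = 6 := by
  unfold q6
  compute_degree!

theorem q6_coeff : q6.coeff 0 = 1 ∧ q6.coeff 1 = 1 ∧ q6.coeff 2 = 0 ∧ q6.coeff 3 = 1 ∧
    q6.coeff 4 = 1 ∧ q6.coeff 5 = 0 := by
  unfold q6
  simp [coeff_X, coeff_one]

theorem q6_irr : Irreducible q6 := by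
  rw [q6_monic.irreducible_iff_natDegree']
  refine ⟨?_, ?_⟩
  · intro h
    have := q6_deg
    rw [h] at this
    simp at this
  · intro f g hf hg hfg hmem
    rw [q6_deg, Finset.mem_Ioc] at hmem
    have hd : f.natDegree + g.natDegree = 6 := by
      rw [← hf.natDegree_mul hg, hfg, q6_deg]
    obtain ⟨c0, c1, c2, c3, c4, c5⟩ := q6_coeff
    rw [← hfg, mul_comm f g, coeff_eq] at c0 c1 c2 c3 c4 c5
    have hgl : g.coeff g.natDegree = 1 := hg.coeff_natDegree
    have hfl : f.coeff f.natDegree = 1 := hf.coeff_natDegree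
    have hgz : ∀ k, g.natDegree < k → g.coeff k = 0 := fun k hk => coeff_eq_zero_of_natDegree_lt hk
    have hfz : ∀ k, f.natDegree < k → f.coeff k = 0 := fun k hk => coeff_eq_zero_of_natDegree_lt hk
    have hcases : g.natDegree = 1 ∨ g.natDegree = 2 ∨ g.natDegree = 3 := by omega
    simp only [Finset.sum_range_succ, Finset.sum_range_zero, zero_add, Nat.sub_zero, Nat.sub_self,
      Nat.reduceSub] at c0 c1 c2 c3 c4 c5
    rcases hcases with h | h | h
    · have hf' : f.natDegree = 5 := by omega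
      rw [h] at hgl hgz
      rw [hf'] at hfl hfz
      have e2 := hgz 2 (by norm_num)
      have e3 := hgz 3 (by norm_num)
      have e4 := hgz 4 (by norm_num)
      have e5 := hgz 5 (by norm_num)
      rw [hgl] at c1 c2 c3 c4 c5
      rw [e2] at c2 c3 c4 c5
      rw [e3] at c3 c4 c5
      rw [e4] at c4 c5
      rw [e5] at c5
      rw [hfl] at c5
      simp only [zero_mul, add_zero] at c0 c1 c2 c3 c4 c5
      exact dec1 _ _ _ _ _ _ c0 c1 c2 c3 c4 c5
    · have hf' : f.natDegree = 4 := by omega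
      rw [h] at hgl hgz
      rw [hf'] at hfl hfz
      have e3 := hgz 3 (by norm_num)
      have e4 := hgz 4 (by norm_num)
      have e5 := hgz 5 (by norm_num)
      have f5 := hfz 5 (by norm_num)
      rw [hgl] at c2 c3 c4 c5
      rw [e3] at c3 c4 c5
      rw [e4] at c4 c5
      rw [e5] at c5
      rw [hfl] at c4 c5
      rw [f5] at c5
      simp only [zero_mul, mul_zero, add_zero, zero_add] at c0 c1 c2 c3 c4 c5
      exact dec2 _ _ _ _ _ _ c0 c1 c2 c3 c4 c5
    · have hf' : f.natDegree = 3 := by omega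
      rw [h] at hgl hgz
      rw [hf'] at hfl hfz
      have e4 := hgz 4 (by norm_num)
      have e5 := hgz 5 (by norm_num)
      have f5 := hfz 5 (by norm_num)
      have f4 := hfz 4 (by norm_num)
      rw [hgl] at c3 c4 c5
      rw [e4] at c4 c5
      rw [e5] at c5
      rw [hfl] at c3 c4 c5
      rw [f4] at c4 c5
      rw [f5] at c5
      simp only [zero_mul, mul_zero, add_zero, zero_add] at c0 c1 c2 c3 c4 c5
      exact dec3 _ _ _ _ _ _ c0 c1 c2 c3 c4 c5

theorem gpoly_monic (n : ℕ) : (gpoly n).Monic := by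
  have e : gpoly n = X ^ 6 - (C ((n : ℤ) ^ 2 * ((n : ℤ) - 1)) * X ^ 5 +
      C ((n : ℤ) ^ 3 + ((n : ℤ) + (n : ℤ) ^ 2) * ((n : ℤ) - 1)) * X ^ 4 +
      C ((n : ℤ) ^ 2 + ((n : ℤ) + (n : ℤ) ^ 2) * n + 2 * n * ((n : ℤ) - 1)) * X ^ 3 +
      C (((n : ℤ) + (n : ℤ) ^ 2) + 2 * n * n + ((n : ℤ) - 1)) * X ^ 2 +
      C (3 * (n : ℤ)) * X + 1) := by
    unfold gpoly
    simp only [C_add, C_sub, C_mul, C_pow, C_1]
    have h2 : (C (2 : ℤ) : ℤ[X]) = 2 := rfl
    have h3 : (C (3 : ℤ) : ℤ[X]) = 3 := rfl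
    rw [h2, h3]
    ring
  rw [e]
  monicity!

theorem gpoly_map (n : ℕ) (hn : Odd n) : (gpoly n).map (Int.castRingHom (ZMod 2)) = q6 := by
  have hn2 : ((n : ℤ) : ZMod 2) = 1 := by
    rw [Int.cast_natCast]
    rcases hn with ⟨k, rfl⟩
    push_cast
    have : (2 : ZMod 2) = 0 := rfl
    rw [this]; ring
  have hC1 : (C (n : ℤ) : ℤ[X]).map (Int.castRingHom (ZMod 2)) = 1 := by
    rw [map_C]
    have : (Int.castRingHom (ZMod 2)) (n : ℤ) = 1 := hn2
    rw [this, C_1]
  have hC2 : (C ((n : ℤ) - 1) : ℤ[X]).map (Int.castRingHom (ZMod 2)) = 0 := by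
    rw [map_C]
    have : (Int.castRingHom (ZMod 2)) ((n : ℤ) - 1) = 0 := by
      rw [map_sub, map_one]
      have h1 : (Int.castRingHom (ZMod 2)) (n : ℤ) = 1 := hn2
      rw [h1, sub_self]
    rw [this, C_0]
  unfold gpoly q6
  simp only [Polynomial.map_sub, Polynomial.map_mul, Polynomial.map_add, Polynomial.map_pow,
    map_X, Polynomial.map_one, hC1, hC2]
  have h2 : (2 : (ZMod 2)[X]) = 0 := by
    have : (C (2 : ZMod 2) : (ZMod 2)[X]) = 0 := by
      have h : (2 : ZMod 2) = 0 := rfl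
      rw [h, C_0]
    exact this
  linear_combination (-X ^ 4 - 2 * X ^ 3 - 2 * X ^ 2 - 2 * X - 1) * h2

end IrrX

open IrrX in
theorem irr_proof : Stmt_Irr := by
  intro n hn
  have h1 : Irreducible ((gpoly n).map (Int.castRingHom (ZMod 2))) := by
    rw [gpoly_map n hn]; exact q6_irr
  have h2 : Irreducible (gpoly n) :=
    (gpoly_monic n).irreducible_of_irreducible_map _ _ h1
  have h3 := (gpoly_monic n).irreducible_iff_irreducible_map_fraction_map (K := ℚ) |>.mp h2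
  exact h3

end Pool.Agent.BEK
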