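import Pool.Agent.BEK.Stmts

set_option autoImplicit false

/-!
# LINE: all lines with slope near `0` or `-1`
-/

namespace Pool.Agent.BEK

namespace Line

theorem hasDerivAt_tt (ρ θ : ℝ) : HasDerivAt (tt ρ) (tt ρ θ * Complex.I) θ := by
  unfold tt
  have h1 : HasDerivAt (fun θ : ℝ => (θ : ℂ) * Complex.I) (1 * Complex.I) θ :=
    (Complex.ofRealCLM.hasDerivAt (x := θ)).mul_const _
  have h2 := (h1.cexp).const_mul (ρ : ℂ)
  have h3 : (ρ : ℂ) * Complex.exp (θ * Complex.I) * Complex.I =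
      (ρ : ℂ) * (Complex.exp (θ * Complex.I) * (1 * Complex.I)) := by ring
  rw [h3]
  exact h2

theorem norm_tt {ρ : ℝ} (h0 : 0 < ρ) (θ : ℝ) : ‖tt ρ θ‖ = ρ := by
  unfold tt
  rw [norm_mul, Complex.norm_exp_ofReal_mul_I, mul_one, Complex.norm_real, Real.norm_eq_abs,
    abs_of_pos h0]

theorem contDiff_tt (ρ : ℝ) : ContDiff ℝ 1 (tt ρ) := by
  unfold tt
  exact contDiff_const.mul ((Complex.ofRealCLM.contDiff.mul contDiff_const).cexp)

theorem tt_periodic (ρ θ : ℝ) : tt ρ (θ + 2 * Real.pi) = tt ρ θ := by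
  unfold tt
  have : ((θ + 2 * Real.pi : ℝ) : ℂ) * Complex.I = (θ : ℂ) * Complex.I + 2 * Real.pi * Complex.I := by
    push_cast; ring
  rw [this, Complex.exp_add, Complex.exp_two_pi_mul_I, mul_one]

theorem mono {C C' : ℝ} {w : ℤ} {g : ℝ → ℂ} (h : Nice C w g) (hC : C ≤ C') : Nice C' w g where
  smooth := h.smooth
  periodic := h.periodic
  ne := h.ne
  size θ := (h.size θ).trans hC
  der θ := (h.der θ).trans hC
  wind := h.wind

/-- bounds for `X` close to `t (1 + t)` -/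
theorem bounds {ρ : ℝ} (h0 : 0 < ρ) (h1 : ρ < 1) {e : ℝ} (he : e ≤ 1) {X : ℝ → ℂ}
    (hc : ∀ θ, ‖X θ - tt ρ θ * (1 + tt ρ θ)‖ ≤ e)
    (hd : ∀ θ, ‖deriv X θ - deriv (fun θ => tt ρ θ * (1 + tt ρ θ)) θ‖ ≤ e) (θ : ℝ) :
    ‖X θ‖ ≤ 3 ∧ ‖deriv X θ‖ ≤ 4 := by
  have ht := norm_tt h0 θ
  constructor
  · have e1 : X θ = (X θ - tt ρ θ * (1 + tt ρ θ)) + tt ρ θ * (1 + tt ρ θ) := by ring
    have e2 : ‖tt ρ θ * (1 + tt ρ θ)‖ ≤ 2 := by
      rw [norm_mul, ht]
      have : ‖1 + tt ρ θ‖ ≤ 1 + ρ := by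
        refine (norm_add_le _ _).trans ?_
        rw [norm_one, ht]
      nlinarith [norm_nonneg (1 + tt ρ θ)]
    rw [e1]
    refine (norm_add_le _ _).trans ?_
    linarith [hc θ]
  · have hdd : deriv (fun θ => tt ρ θ * (1 + tt ρ θ)) θ =
        tt ρ θ * Complex.I * (1 + tt ρ θ) + tt ρ θ * (tt ρ θ * Complex.I) := by
      have h := (hasDerivAt_tt ρ θ).mul ((hasDerivAt_tt ρ θ).const_add 1)
      exact h.deriv
    have e1 : deriv X θ = (deriv X θ - deriv (fun θ => tt ρ θ * (1 + tt ρ θ)) θ) +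
        deriv (fun θ => tt ρ θ * (1 + tt ρ θ)) θ := by ring
    have e2 : ‖deriv (fun θ => tt ρ θ * (1 + tt ρ θ)) θ‖ ≤ 3 := by
      rw [hdd]
      refine (norm_add_le _ _).trans ?_
      rw [norm_mul, norm_mul, norm_mul, norm_mul, Complex.norm_I, ht]
      have : ‖1 + tt ρ θ‖ ≤ 1 + ρ := by
        refine (norm_add_le _ _).trans ?_
        rw [norm_one, ht]
      nlinarith [norm_nonneg (1 + tt ρ θ)]
    rw [e1]
    refine (norm_add_le _ _).trans ?_
    linarith [hd θ]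

end Line

open Line in
theorem line_proof (hNice : Stmt_Nice) (hCirc : Stmt_Circ) (hPert : Stmt_Pert)
    (hLineX : Stmt_LineX) : Stmt_Line := by
  intro ρ h0 h1
  obtain ⟨C, hC1, hC2⟩ := hCirc ρ h0 h1
  obtain ⟨hmul, -, -⟩ := hNice
  have n3 := hmul _ _ _ _ _ _ hC1 hC2
  have n1 := hmul _ _ _ _ _ _ hC1 n3
  have n2 := hmul _ _ _ _ _ _ hC2 n3
  obtain ⟨ε1, D1, hε1, k1⟩ := hPert _ _ _ n1
  obtain ⟨ε2, D2, hε2, k2⟩ := hPert _ _ _ n2
  obtain ⟨ε3, D3, hε3, k3⟩ := hPert _ _ _ n3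
  set ε := min ε1 (min ε2 ε3) with hε
  have hε0 : 0 < ε := lt_min hε1 (lt_min hε2 hε3)
  have l1 : ε ≤ ε1 := min_le_left _ _
  have l2 : ε ≤ ε2 := (min_le_right _ _).trans (min_le_left _ _)
  have l3 : ε ≤ ε3 := (min_le_right _ _).trans (min_le_right _ _)
  set e := min (ε / 8) 1 with he
  have he0 : 0 < e := lt_min (by linarith) one_pos
  have he1 : e ≤ ε / 8 := min_le_left _ _
  have he2 : e ≤ 1 := min_le_right _ _
  obtain ⟨δ, hδ, hX⟩ := hLineX ρ h0 h1 e he0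
  refine ⟨min δ (ε / 16), max D1 (max D2 D3), lt_min hδ (by linarith), ?_⟩
  intro b c hb hc
  obtain ⟨X, hL, hX1, hX2⟩ := hX b c (hb.trans_le (min_le_left _ _)) (hc.trans_le (min_le_left _ _))
  have hB := bounds h0 h1 he2 hX1 hX2
  have hXd : ∀ θ, HasDerivAt X (deriv X θ) θ := fun θ =>
    ((hL.smooth.differentiable one_ne_zero) θ).hasDerivAt
  have hsmall : ∀ r : ℝ, |r| < min δ (ε / 16) → ‖(r : ℂ)‖ ≤ ε / 16 := by
    intro r hr
    rw [Complex.norm_real, Real.norm_eq_abs]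
    exact (hr.trans_le (min_le_right _ _)).le
  refine ⟨X, hL, ?_, ?_, ?_⟩
  · intro l m hl hm
    have hl' := hsmall l hl
    have hm' := hsmall m hm
    refine mono ?_ (le_max_left D1 _)
    have key := k1 (fun θ => tt ρ θ * X θ - l * X θ - m) ?_ ?_ ?_ ?_
    · simpa using key
    · exact (((contDiff_tt ρ).mul hL.smooth).sub (contDiff_const.mul hL.smooth)).sub contDiff_const
    · intro θ
      simp only [tt_periodic, hL.periodic]
    · intro θ
      have e1 : tt ρ θ * X θ - l * X θ - m - tt ρ θ * (tt ρ θ * (1 + tt ρ θ)) =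
          tt ρ θ * (X θ - tt ρ θ * (1 + tt ρ θ)) - l * X θ - m := by ring
      have e2 : ‖tt ρ θ * (X θ - tt ρ θ * (1 + tt ρ θ))‖ ≤ e := by
        rw [norm_mul, norm_tt h0]
        nlinarith [hX1 θ, norm_nonneg (X θ - tt ρ θ * (1 + tt ρ θ))]
      have e3 : ‖(l : ℂ) * X θ‖ ≤ ε / 16 * 3 := by
        rw [norm_mul]
        exact mul_le_mul hl' (hB θ).1 (norm_nonneg _) (by linarith)
      show ‖tt ρ θ * X θ - l * X θ - m - tt ρ θ * (tt ρ θ * (1 + tt ρ θ))‖ ≤ ε1
      rw [e1]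
      refine (norm_sub_le _ _).trans ?_
      refine (add_le_add_left (norm_sub_le _ _) _).trans ?_
      linarith
    · intro θ
      have d1 : deriv (fun θ => tt ρ θ * X θ - l * X θ - m) θ =
          tt ρ θ * Complex.I * X θ + tt ρ θ * deriv X θ - l * deriv X θ :=
        ((((hasDerivAt_tt ρ θ).mul (hXd θ)).sub ((hXd θ).const_mul (l : ℂ))).sub_const _).deriv
      have d2 : deriv (fun θ => tt ρ θ * (tt ρ θ * (1 + tt ρ θ))) θ =
          tt ρ θ * Complex.I * (tt ρ θ * (1 + tt ρ θ)) + tt ρ θ *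
            deriv (fun θ => tt ρ θ * (1 + tt ρ θ)) θ := by
        have h := (hasDerivAt_tt ρ θ).mul ((hasDerivAt_tt ρ θ).mul ((hasDerivAt_tt ρ θ).const_add 1))
        have h' := ((hasDerivAt_tt ρ θ).mul ((hasDerivAt_tt ρ θ).const_add 1)).deriv
        have h2 := h.deriv
        rw [← h'] at h2
        exact h2
      rw [d1, d2]
      have e1 : tt ρ θ * Complex.I * X θ + tt ρ θ * deriv X θ - l * deriv X θ -
          (tt ρ θ * Complex.I * (tt ρ θ * (1 + tt ρ θ)) + tt ρ θ *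
            deriv (fun θ => tt ρ θ * (1 + tt ρ θ)) θ) =
          tt ρ θ * Complex.I * (X θ - tt ρ θ * (1 + tt ρ θ)) +
          tt ρ θ * (deriv X θ - deriv (fun θ => tt ρ θ * (1 + tt ρ θ)) θ) - l * deriv X θ := by ring
      have e2 : ‖tt ρ θ * Complex.I * (X θ - tt ρ θ * (1 + tt ρ θ))‖ ≤ e := by
        rw [norm_mul, norm_mul, Complex.norm_I, norm_tt h0]
        nlinarith [hX1 θ, norm_nonneg (X θ - tt ρ θ * (1 + tt ρ θ))]
      have e3 : ‖tt ρ θ * (deriv X θ - deriv (fun θ => tt ρ θ * (1 + tt ρ θ)) θ)‖ ≤ e := by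
        rw [norm_mul, norm_tt h0]
        nlinarith [hX2 θ, norm_nonneg (deriv X θ - deriv (fun θ => tt ρ θ * (1 + tt ρ θ)) θ)]
      have e4 : ‖(l : ℂ) * deriv X θ‖ ≤ ε / 16 * 4 := by
        rw [norm_mul]
        exact mul_le_mul hl' (hB θ).2 (norm_nonneg _) (by linarith)
      rw [e1]
      refine (norm_sub_le _ _).trans ?_
      refine (add_le_add_left (norm_add_le _ _) _).trans ?_
      linarith
  · intro l m hl hm
    have hl' := hsmall (l + 1) hl
    have hm' := hsmall m hm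
    refine mono ?_ ((le_max_left D2 D3).trans (le_max_right D1 _))
    have key := k2 (fun θ => tt ρ θ * X θ - l * X θ - m) ?_ ?_ ?_ ?_
    · simpa using key
    · exact (((contDiff_tt ρ).mul hL.smooth).sub (contDiff_const.mul hL.smooth)).sub contDiff_const
    · intro θ
      simp only [tt_periodic, hL.periodic]
    · intro θ
      have e1 : tt ρ θ * X θ - l * X θ - m - (1 + tt ρ θ) * (tt ρ θ * (1 + tt ρ θ)) =
          (1 + tt ρ θ) * (X θ - tt ρ θ * (1 + tt ρ θ)) - ((l + 1 : ℝ) : ℂ) * X θ - m := by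
        push_cast; ring
      have e0 : ‖1 + tt ρ θ‖ ≤ 2 := by
        refine (norm_add_le _ _).trans ?_
        rw [norm_one, norm_tt h0]
        linarith
      have e2 : ‖(1 + tt ρ θ) * (X θ - tt ρ θ * (1 + tt ρ θ))‖ ≤ 2 * e := by
        rw [norm_mul]
        exact mul_le_mul e0 (hX1 θ) (norm_nonneg _) (by norm_num)
      have e3 : ‖((l + 1 : ℝ) : ℂ) * X θ‖ ≤ ε / 16 * 3 := by
        rw [norm_mul]
        exact mul_le_mul hl' (hB θ).1 (norm_nonneg _) (by linarith)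
      show ‖tt ρ θ * X θ - l * X θ - m - (1 + tt ρ θ) * (tt ρ θ * (1 + tt ρ θ))‖ ≤ ε2
      rw [e1]
      refine (norm_sub_le _ _).trans ?_
      refine (add_le_add_left (norm_sub_le _ _) _).trans ?_
      linarith
    · intro θ
      have d1 : deriv (fun θ => tt ρ θ * X θ - l * X θ - m) θ =
          tt ρ θ * Complex.I * X θ + tt ρ θ * deriv X θ - l * deriv X θ :=
        ((((hasDerivAt_tt ρ θ).mul (hXd θ)).sub ((hXd θ).const_mul (l : ℂ))).sub_const _).deriv
      have d2 : deriv (fun θ => (1 + tt ρ θ) * (tt ρ θ * (1 + tt ρ θ))) θ =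
          tt ρ θ * Complex.I * (tt ρ θ * (1 + tt ρ θ)) + (1 + tt ρ θ) *
            deriv (fun θ => tt ρ θ * (1 + tt ρ θ)) θ := by
        have h := ((hasDerivAt_tt ρ θ).const_add 1).mul
          ((hasDerivAt_tt ρ θ).mul ((hasDerivAt_tt ρ θ).const_add 1))
        have h' := ((hasDerivAt_tt ρ θ).mul ((hasDerivAt_tt ρ θ).const_add 1)).deriv
        have h2 := h.deriv
        rw [← h'] at h2
        exact h2
      rw [d1, d2]
      have e1 : tt ρ θ * Complex.I * X θ + tt ρ θ * deriv X θ - l * deriv X θ -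
          (tt ρ θ * Complex.I * (tt ρ θ * (1 + tt ρ θ)) + (1 + tt ρ θ) *
            deriv (fun θ => tt ρ θ * (1 + tt ρ θ)) θ) =
          tt ρ θ * Complex.I * (X θ - tt ρ θ * (1 + tt ρ θ)) +
          (1 + tt ρ θ) * (deriv X θ - deriv (fun θ => tt ρ θ * (1 + tt ρ θ)) θ) -
          ((l + 1 : ℝ) : ℂ) * deriv X θ := by push_cast; ring
      have e0 : ‖1 + tt ρ θ‖ ≤ 2 := by
        refine (norm_add_le _ _).trans ?_
        rw [norm_one, norm_tt h0]
        linarith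
      have e2 : ‖tt ρ θ * Complex.I * (X θ - tt ρ θ * (1 + tt ρ θ))‖ ≤ e := by
        rw [norm_mul, norm_mul, Complex.norm_I, norm_tt h0]
        nlinarith [hX1 θ, norm_nonneg (X θ - tt ρ θ * (1 + tt ρ θ))]
      have e3 : ‖(1 + tt ρ θ) * (deriv X θ - deriv (fun θ => tt ρ θ * (1 + tt ρ θ)) θ)‖ ≤
          2 * e := by
        rw [norm_mul]
        exact mul_le_mul e0 (hX2 θ) (norm_nonneg _) (by norm_num)
      have e4 : ‖((l + 1 : ℝ) : ℂ) * deriv X θ‖ ≤ ε / 16 * 4 := by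
        rw [norm_mul]
        exact mul_le_mul hl' (hB θ).2 (norm_nonneg _) (by linarith)
      rw [e1]
      refine (norm_sub_le _ _).trans ?_
      refine (add_le_add_left (norm_add_le _ _) _).trans ?_
      linarith
  · intro m hm
    have hm' := hsmall m hm
    refine mono ?_ ((le_max_right D2 D3).trans (le_max_right D1 _))
    have key := k3 (fun θ => X θ - m) ?_ ?_ ?_ ?_
    · simpa using key
    · exact hL.smooth.sub contDiff_const
    · intro θ
      simp only [hL.periodic]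
    · intro θ
      have e1 : X θ - m - tt ρ θ * (1 + tt ρ θ) = (X θ - tt ρ θ * (1 + tt ρ θ)) - m := by ring
      show ‖X θ - m - tt ρ θ * (1 + tt ρ θ)‖ ≤ ε3
      rw [e1]
      refine (norm_sub_le _ _).trans ?_
      linarith [hX1 θ]
    · intro θ
      have d1 : deriv (fun θ => X θ - m) θ = deriv X θ := ((hXd θ).sub_const _).deriv
      rw [d1]
      linarith [hX2 θ]

end Pool.Agent.BEK
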