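import Pool.Agent.BEK.CIRC

set_option autoImplicit false

/-!
# LINEX: the loop near the nodal curve
-/

namespace Pool.Agent.BEK

open NiceX CircX

namespace LineXX

/-- the square root of `1 - q` -/
noncomputable def rt (z : ℂ) : ℂ := Complex.exp (Complex.log (1 - z) / 2)

theorem sq_sq {z : ℂ} (h : ‖z‖ < 1) : rt z ^ 2 = 1 - z := by
  have h0 : (1 : ℂ) - z ≠ 0 := by
    intro h1
    have : z = 1 := by linear_combination -h1
    rw [this, norm_one] at h
    exact lt_irrefl _ h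
  unfold rt
  rw [← Complex.exp_nat_mul]
  have : ((2 : ℕ) : ℂ) * (Complex.log (1 - z) / 2) = Complex.log (1 - z) := by
    push_cast
    ring
  rw [this, Complex.exp_log h0]

theorem sq_re (z : ℂ) : 0 ≤ (rt z).re := by
  unfold rt
  rw [Complex.exp_re]
  apply mul_nonneg (Real.exp_pos _).le
  have h1 : (Complex.log (1 - z) / 2).im = Complex.arg (1 - z) / 2 := by
    rw [← Complex.log_im, Complex.div_ofNat_im]
  rw [h1]
  apply Real.cos_nonneg_of_neg_pi_div_two_le_of_le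
  · have := Complex.neg_pi_lt_arg (1 - z)
    linarith
  · have := Complex.arg_le_pi (1 - z)
    linarith

theorem one_le_norm (z : ℂ) : 1 ≤ ‖1 + rt z‖ := by
  refine le_trans ?_ (Complex.re_le_norm _)
  rw [Complex.add_re, Complex.one_re]
  have := sq_re z
  linarith

theorem sq_sub_one {z : ℂ} (h : ‖z‖ < 1) : ‖rt z - 1‖ ≤ ‖z‖ := by
  have h1 : (rt z - 1) * (1 + rt z) = -z := by
    have := sq_sq h
    linear_combination this
  have h2 := congrArg norm h1
  rw [norm_mul, norm_neg] at h2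
  rw [← h2]
  exact le_mul_of_one_le_right (norm_nonneg _) (one_le_norm z)

theorem sq_norm {z : ℂ} (h : ‖z‖ ≤ 1 / 2) : ‖rt z‖ ≤ 3 / 2 := by
  have h1 := sq_sub_one (lt_of_le_of_lt h (by norm_num))
  have h2 := norm_sub_norm_le (rt z) 1
  rw [norm_one] at h2
  linarith

theorem slit {z : ℂ} (h : ‖z‖ < 1) : 1 - z ∈ Complex.slitPlane := by
  rw [sub_eq_add_neg]
  exact Complex.mem_slitPlane_of_norm_lt_one (by rwa [norm_neg])

theorem sq_conj {z : ℂ} (h : ‖z‖ < 1) : rt ((starRingEnd ℂ) z) = (starRingEnd ℂ) (rt z) := by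
  unfold rt
  have h1 : (1 : ℂ) - (starRingEnd ℂ) z = (starRingEnd ℂ) (1 - z) := by
    rw [map_sub, map_one]
  rw [h1, Complex.log_conj _ (Complex.mem_slitPlane_iff_arg.mp (slit h)).1, ← Complex.exp_conj,
    map_div₀]
  congr 2
  exact (Complex.conj_ofNat 2).symm

theorem sq_smooth {q : ℝ → ℂ} (hq : ContDiff ℝ 1 q) (h : ∀ θ, ‖q θ‖ < 1) :
    ContDiff ℝ 1 (fun θ => rt (q θ)) := by
  unfold rt
  apply ContDiff.cexp
  apply ContDiff.div_const
  rw [contDiff_iff_contDiffAt]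
  intro θ
  have h1 : ContDiffAt ℝ 1 Complex.log (1 - q θ) :=
    (Complex.contDiffAt_log (slit (h θ))).restrict_scalars ℝ
  have h2 : ContDiffAt ℝ 1 (fun θ => 1 - q θ) θ := contDiffAt_const.sub hq.contDiffAt
  exact ContDiffAt.comp θ h1 h2

theorem sq_deriv {q : ℝ → ℂ} {q' : ℂ} {θ : ℝ} (hq : HasDerivAt q q' θ) (h : ‖q θ‖ < 1) :
    HasDerivAt (fun θ => rt (q θ)) (rt (q θ) * ((-q') / (1 - q θ) / 2)) θ := by
  unfold rt
  exact (((hq.const_sub 1).clog_real (slit h)).div_const 2).cexp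

end LineXX

open LineXX

theorem lineX_proof : Stmt_LineX := by
  intro ρ h0 h1 ε hε
  set m : ℝ := ρ * (1 - ρ) with hm
  have hm0 : 0 < m := mul_pos h0 (by linarith)
  have hm1 : m ≤ 1 := by nlinarith
  have hm2 : m ^ 2 ≤ m := by nlinarith
  have hm3 : m ^ 3 ≤ m ^ 2 := by
    have : m ^ 3 = m ^ 2 * m := by ring
    rw [this]
    nlinarith [sq_nonneg m]
  have hm3p : 0 < m ^ 3 := by positivity
  set μ : ℝ := min 1 ε with hμ
  have hμ0 : 0 < μ := lt_min one_pos hε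
  have hμ1 : μ ≤ 1 := min_le_left _ _
  have hμε : μ ≤ ε := min_le_right _ _
  set δ : ℝ := m ^ 3 * μ / 1000 with hδ
  have hδ0 : 0 < δ := by positivity
  have hδm3 : δ ≤ m ^ 3 / 1000 := by
    rw [hδ]
    gcongr
    exact mul_le_of_le_one_right hm3p.le hμ1
  refine ⟨δ, hδ0, ?_⟩
  intro b c hb hc
  have hn : ∀ θ, ‖tt ρ θ‖ = ρ := tt_norm h0
  set t : ℝ → ℂ := tt ρ with ht
  set B : ℝ → ℂ := fun θ => t θ ^ 2 + (1 - c) * t θ + b with hB
  set q : ℝ → ℂ := fun θ => 4 * b * t θ / B θ ^ 2 with hq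
  have hbn : ‖(b : ℂ)‖ ≤ δ := by
    rw [Complex.norm_real]
    exact hb.le
  have hcn : ‖(c : ℂ)‖ ≤ δ := by
    rw [Complex.norm_real]
    exact hc.le
  -- size of `B`
  have hB0 : ∀ θ, ‖B θ - t θ * (1 + t θ)‖ ≤ 2 * δ := by
    intro θ
    have e : B θ - t θ * (1 + t θ) = b - c * t θ := by
      rw [hB]
      ring
    rw [e]
    refine (norm_sub_le _ _).trans ?_
    rw [norm_mul, hn]
    nlinarith [norm_nonneg (c : ℂ)]
  have hm' : ∀ θ, m ≤ ‖t θ * (1 + t θ)‖ := by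
    intro θ
    rw [norm_mul, hn, hm]
    gcongr
    have h2 := norm_sub_norm_le (1 : ℂ) (-t θ)
    rw [norm_neg, hn, norm_one, sub_neg_eq_add] at h2
    exact h2
  have hM' : ∀ θ, ‖t θ * (1 + t θ)‖ ≤ 2 := by
    intro θ
    rw [norm_mul, hn]
    have h2 := norm_add_le (1 : ℂ) (t θ)
    rw [hn, norm_one] at h2
    nlinarith [norm_nonneg (1 + t θ)]
  have hBlow : ∀ θ, m / 2 ≤ ‖B θ‖ := by
    intro θ
    have e1 := norm_sub_norm_le (t θ * (1 + t θ)) (B θ)
    rw [norm_sub_rev] at e1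
    have e2 := hB0 θ
    have e3 := hm' θ
    linarith
  have hBup : ∀ θ, ‖B θ‖ ≤ 3 := by
    intro θ
    have e1 := norm_sub_norm_le (B θ) (t θ * (1 + t θ))
    have e2 := hB0 θ
    have e3 := hM' θ
    linarith
  have hBne : ∀ θ, B θ ≠ 0 := by
    intro θ h
    have := hBlow θ
    rw [h, norm_zero] at this
    linarith
  -- size of `q`
  have hqn : ∀ θ, ‖q θ‖ ≤ 16 * δ / m ^ 2 := by
    intro θ
    rw [hq]
    simp only
    rw [norm_div, norm_mul, norm_mul, norm_pow, hn, RCLike.norm_ofNat]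
    have e1 : (m / 2) ^ 2 ≤ ‖B θ‖ ^ 2 := pow_le_pow_left₀ (by positivity) (hBlow θ) 2
    have e2 : 4 * ‖(b : ℂ)‖ * ρ ≤ 4 * δ := by nlinarith [norm_nonneg (b : ℂ)]
    calc 4 * ‖(b : ℂ)‖ * ρ / ‖B θ‖ ^ 2 ≤ 4 * δ / (m / 2) ^ 2 := by
          apply div_le_div₀ (by positivity) e2 (by positivity) e1
      _ = 16 * δ / m ^ 2 := by
          field_simp
          ring
  have hq12 : ∀ θ, ‖q θ‖ ≤ 1 / 2 := by
    intro θ
    refine (hqn θ).trans ?_
    rw [div_le_iff₀ (by positivity)]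
    linarith
  have hq1 : ∀ θ, ‖q θ‖ < 1 := fun θ => lt_of_le_of_lt (hq12 θ) (by norm_num)
  -- derivatives
  have htd : ∀ θ, HasDerivAt t (t θ * Complex.I) θ := tt_hasDeriv ρ
  set B' : ℝ → ℂ := fun θ => (2 * t θ + (1 - c)) * (t θ * Complex.I) with hB'
  have hBd : ∀ θ, HasDerivAt B (B' θ) θ := by
    intro θ
    have e1 := ((htd θ).fun_pow 2).add ((htd θ).const_mul (1 - (c : ℂ)))
    have e2 := e1.add_const (b : ℂ)
    refine e2.congr_deriv ?_
    rw [hB']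
    push_cast
    ring
  have hB'n : ∀ θ, ‖B' θ‖ ≤ 4 := by
    intro θ
    rw [hB']
    simp only
    rw [norm_mul, norm_mul, Complex.norm_I, mul_one, hn]
    have e1 : ‖2 * t θ + (1 - (c : ℂ))‖ ≤ 4 := by
      refine (norm_add_le _ _).trans ?_
      have e2 := norm_sub_le (1 : ℂ) (c : ℂ)
      rw [norm_one] at e2
      rw [norm_mul, hn, RCLike.norm_ofNat]
      linarith
    nlinarith [norm_nonneg (2 * t θ + (1 - (c : ℂ)))]
  have hB'B : ∀ θ, ‖B' θ - (2 * t θ + 1) * (t θ * Complex.I)‖ ≤ δ := by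
    intro θ
    have e : B' θ - (2 * t θ + 1) * (t θ * Complex.I) = -(c * (t θ * Complex.I)) := by
      rw [hB']
      ring
    rw [e, norm_neg, norm_mul, norm_mul, Complex.norm_I, mul_one, hn]
    nlinarith [norm_nonneg (c : ℂ)]
  set q' : ℝ → ℂ := fun θ => 4 * b * (t θ * Complex.I) / B θ ^ 2 -
    4 * b * t θ * (2 * B' θ) / B θ ^ 3 with hq'
  have hqd : ∀ θ, HasDerivAt q (q' θ) θ := by
    intro θ
    have e1 := ((htd θ).const_mul (4 * (b : ℂ))).fun_div ((hBd θ).fun_pow 2)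
      (pow_ne_zero 2 (hBne θ))
    refine e1.congr_deriv ?_
    rw [hq']
    have := hBne θ
    field_simp
    push_cast
    ring
  have hq'n : ∀ θ, ‖q' θ‖ ≤ 272 * δ / m ^ 3 := by
    intro θ
    rw [hq']
    refine (norm_sub_le _ _).trans ?_
    have e1 : ‖4 * (b : ℂ) * (t θ * Complex.I) / B θ ^ 2‖ ≤ 16 * δ / m ^ 2 := by
      rw [norm_div, norm_mul, norm_mul, norm_mul, norm_pow, hn, RCLike.norm_ofNat, Complex.norm_I,
        mul_one]
      have e1 : (m / 2) ^ 2 ≤ ‖B θ‖ ^ 2 := pow_le_pow_left₀ (by positivity) (hBlow θ) 2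
      have e2 : 4 * ‖(b : ℂ)‖ * ρ ≤ 4 * δ := by nlinarith [norm_nonneg (b : ℂ)]
      calc 4 * ‖(b : ℂ)‖ * ρ / ‖B θ‖ ^ 2 ≤ 4 * δ / (m / 2) ^ 2 := by
            apply div_le_div₀ (by positivity) e2 (by positivity) e1
        _ = 16 * δ / m ^ 2 := by
            field_simp
            ring
    have e2 : ‖4 * (b : ℂ) * t θ * (2 * B' θ) / B θ ^ 3‖ ≤ 256 * δ / m ^ 3 := by
      rw [norm_div, norm_mul, norm_mul, norm_mul, norm_mul, norm_pow, hn, RCLike.norm_ofNat,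
        RCLike.norm_ofNat]
      have e1 : (m / 2) ^ 3 ≤ ‖B θ‖ ^ 3 := pow_le_pow_left₀ (by positivity) (hBlow θ) 3
      have e2 : 4 * ‖(b : ℂ)‖ * ρ ≤ 4 * δ := by nlinarith [norm_nonneg (b : ℂ)]
      have e3 : 4 * ‖(b : ℂ)‖ * ρ * (2 * ‖B' θ‖) ≤ 4 * δ * (2 * 4) := by
        have := hB'n θ
        gcongr
      calc 4 * ‖(b : ℂ)‖ * ρ * (2 * ‖B' θ‖) / ‖B θ‖ ^ 3 ≤ 4 * δ * (2 * 4) / (m / 2) ^ 3 := by
            apply div_le_div₀ (by positivity) e3 (by positivity) e1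
        _ = 256 * δ / m ^ 3 := by
            field_simp
            ring
    have e3 : 16 * δ / m ^ 2 ≤ 16 * δ / m ^ 3 :=
      div_le_div_of_nonneg_left (by positivity) hm3p hm3
    have e4 : 16 * δ / m ^ 3 + 256 * δ / m ^ 3 = 272 * δ / m ^ 3 := by ring
    linarith
  -- the root
  have hqs : ContDiff ℝ 1 q := by
    have hts : ContDiff ℝ 1 t := tt_smooth ρ
    have hBs : ContDiff ℝ 1 B := ((hts.pow 2).add (contDiff_const.mul hts)).add contDiff_const
    have e : q = fun θ => 4 * b * t θ * (B θ ^ 2)⁻¹ := by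
      ext θ
      exact div_eq_mul_inv _ _
    rw [e]
    exact (contDiff_const.mul hts).mul ((hBs.pow 2).inv fun θ => pow_ne_zero 2 (hBne θ))
  have hBs : ContDiff ℝ 1 B :=
    (((tt_smooth ρ).pow 2).add (contDiff_const.mul (tt_smooth ρ))).add contDiff_const
  have hss := sq_smooth hqs hq1
  set X : ℝ → ℂ := fun θ => B θ * (1 + rt (q θ)) / 2 with hX
  have htp : ∀ θ, t (θ + 2 * Real.pi) = t θ := tt_per ρ
  have hBp : ∀ θ, B (θ + 2 * Real.pi) = B θ := fun θ => by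
    rw [hB]
    simp only
    rw [htp]
  have hqp : ∀ θ, q (θ + 2 * Real.pi) = q θ := fun θ => by
    rw [hq]
    simp only
    rw [htp, hBp]
  have htc : ∀ θ, t (-θ) = (starRingEnd ℂ) (t θ) := tt_conj ρ
  have hBc : ∀ θ, B (-θ) = (starRingEnd ℂ) (B θ) := fun θ => by
    rw [hB]
    simp only
    rw [htc, map_add, map_add, map_mul, map_pow, map_sub, map_one, Complex.conj_ofReal,
      Complex.conj_ofReal]
  have hqc : ∀ θ, q (-θ) = (starRingEnd ℂ) (q θ) := fun θ => by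
    rw [hq]
    simp only
    rw [htc, hBc, map_div₀, map_mul, map_mul, map_pow, Complex.conj_ofReal, Complex.conj_ofNat]
  have hsn : ∀ θ, ‖rt (q θ) - 1‖ ≤ 16 * δ / m ^ 2 := fun θ => (sq_sub_one (hq1 θ)).trans (hqn θ)
  have h16 : 16 * δ / m ^ 2 ≤ 16 * δ / m ^ 3 :=
    div_le_div_of_nonneg_left (by positivity) hm3p hm3
  have hδm : δ / m ^ 3 = μ / 1000 := by
    rw [hδ]
    field_simp
  have hδδ : δ ≤ δ / m ^ 3 := by
    rw [le_div_iff₀ hm3p]
    exact mul_le_of_le_one_right hδ0.le (by linarith)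
  refine ⟨X, ⟨(hBs.mul (contDiff_const.add hss)).div_const 2, fun θ => ?_, fun θ => ?_, fun θ => ?_,
    fun θ => ?_⟩, fun θ => ?_, fun θ => ?_⟩
  · rw [hX]
    simp only
    rw [hBp, hqp]
  · rw [hX]
    simp only
    rw [hBc, hqc, sq_conj (hq1 θ), map_div₀, map_mul, map_add (starRingEnd ℂ) 1, map_one,
      Complex.conj_ofNat]
  · rw [hX]
    simp only
    have e1 : 1 + rt (q θ) ≠ 0 := by
      intro h
      have := one_le_norm (q θ)
      rw [h, norm_zero] at this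
      linarith
    exact div_ne_zero (mul_ne_zero (hBne θ) e1) two_ne_zero
  · have e1 : X θ ^ 2 - B θ * X θ + b * t θ = 0 := by
      have e2 := sq_sq (hq1 θ)
      have e3 : B θ ^ 2 * q θ = 4 * b * t θ := by
        rw [hq]
        have := hBne θ
        field_simp
      rw [hX]
      linear_combination (B θ ^ 2 / 4) * e2 - (1 / 4) * e3
    exact e1
  · have e1 : X θ - t θ * (1 + t θ) = (B θ - t θ * (1 + t θ)) + B θ * (rt (q θ) - 1) / 2 := by
      rw [hX]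
      ring
    rw [e1]
    refine (norm_add_le _ _).trans ?_
    rw [norm_div, norm_mul, RCLike.norm_ofNat]
    have e2 : ‖B θ‖ * ‖rt (q θ) - 1‖ ≤ 3 * (16 * δ / m ^ 2) := by
      have a1 := hBup θ
      have a2 := hsn θ
      gcongr
    have e3 := hB0 θ
    have e4 : 16 * δ / m ^ 3 = 16 * (δ / m ^ 3) := by ring
    linarith
  · have hd1 : HasDerivAt X ((B' θ * (1 + rt (q θ)) +
        B θ * (rt (q θ) * ((-q' θ) / (1 - q θ) / 2))) / 2) θ := by
      have e1 := ((hBd θ).fun_mul ((sq_deriv (hqd θ) (hq1 θ)).const_add 1)).div_const 2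
      exact e1
    have hd2 : HasDerivAt (fun θ => t θ * (1 + t θ)) ((2 * t θ + 1) * (t θ * Complex.I)) θ := by
      have e1 := (htd θ).fun_mul ((htd θ).const_add 1)
      refine e1.congr_deriv ?_
      ring
    rw [hd1.deriv, hd2.deriv]
    have e1 : (B' θ * (1 + rt (q θ)) + B θ * (rt (q θ) * ((-q' θ) / (1 - q θ) / 2))) / 2 -
        (2 * t θ + 1) * (t θ * Complex.I) =
        (B' θ - (2 * t θ + 1) * (t θ * Complex.I)) + (B' θ * (rt (q θ) - 1) / 2 +
          B θ * (rt (q θ) * ((-q' θ) / (1 - q θ) / 2)) / 2) := by ring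
    rw [e1]
    refine (norm_add_le _ _).trans ?_
    have e2 := hB'B θ
    have e3 : ‖B' θ * (rt (q θ) - 1) / 2‖ ≤ 32 * (δ / m ^ 3) := by
      rw [norm_div, norm_mul, RCLike.norm_ofNat]
      have a1 := hB'n θ
      have a2 := hsn θ
      have a3 : ‖B' θ‖ * ‖rt (q θ) - 1‖ ≤ 4 * (16 * δ / m ^ 2) := by gcongr
      have e4 : 16 * δ / m ^ 3 = 16 * (δ / m ^ 3) := by ring
      linarith
    have e4 : ‖B θ * (rt (q θ) * ((-q' θ) / (1 - q θ) / 2)) / 2‖ ≤ 700 * (δ / m ^ 3) := by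
      rw [norm_div, norm_mul, norm_mul, norm_div, norm_div, norm_neg, RCLike.norm_ofNat]
      have a1 := hBup θ
      have a2 := sq_norm (hq12 θ)
      have a3 := hq'n θ
      have a4 : 1 / 2 ≤ ‖1 - q θ‖ := by
        have := norm_sub_norm_le (1 : ℂ) (q θ)
        rw [norm_one] at this
        have := hq12 θ
        linarith
      have a5 : ‖q' θ‖ / ‖1 - q θ‖ ≤ (272 * δ / m ^ 3) / (1 / 2) :=
        div_le_div₀ (by positivity) a3 (by norm_num) a4
      have a6 : ‖B θ‖ * (‖rt (q θ)‖ * (‖q' θ‖ / ‖1 - q θ‖ / 2)) ≤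
          3 * (3 / 2 * ((272 * δ / m ^ 3) / (1 / 2) / 2)) := by gcongr
      have a7 : (3 : ℝ) * (3 / 2 * ((272 * δ / m ^ 3) / (1 / 2) / 2)) = 1224 * (δ / m ^ 3) := by
        ring
      have a8 : 0 ≤ δ / m ^ 3 := by positivity
      linarith
    have e5 := norm_add_le (B' θ * (rt (q θ) - 1) / 2)
      (B θ * (rt (q θ) * ((-q' θ) / (1 - q θ) / 2)) / 2)
    linarith

end Pool.Agent.BEK
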