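import Pool.Agent.BEK.Disc

set_option autoImplicit false

/-!
# Module MON: the changes of coordinates near the cusp `(-1, 0)`
-/

namespace Pool.Agent.BEK

namespace MonX

noncomputable section

open Filter Topology

/-- the point at which the expressions are evaluated: `x`, `y`, `t = y / (x + 1)` -/
abbrev T3 := ℝ × ℝ × ℝ

def p0 : T3 := (-1, 0, -1)

def W (p : T3) : ℝ := p.2.1 + 1 - p.1 * p.2.1

def P0 (p : T3) : ℝ := -(p.2.2 * p.2.1 * W p)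
def Q0 (p : T3) : ℝ := -(p.1 * p.2.1 * W p) / (p.2.1 + 1)
def T0 (p : T3) : ℝ := p.1 * p.2.1
def P1 (p : T3) : ℝ := -(p.2.1 ^ 2 * p.2.2 * p.1)
def Q1 (p : T3) : ℝ := (p.1 + 1) * p.2.1
def T1 (p : T3) : ℝ := W p * (p.1 + 1) * p.2.1 / (p.1 * (p.2.1 + 1))
def P2 (p : T3) : ℝ := p.2.2 ^ 2 * (p.1 + 1) ^ 3 * W p * p.2.1 / (p.2.1 + 1) ^ 2
def Q2 (p : T3) : ℝ := p.2.1 * W p / (p.1 * (p.2.1 + 1))
def TT2 (p : T3) : ℝ := p.1 * p.2.2
def P3 (p : T3) : ℝ := -(p.2.1 ^ 2 * (p.1 + 1) * W p * p.1) / (p.2.1 + 1) ^ 2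
def Q3 (p : T3) : ℝ := -(p.1 ^ 2 * p.2.2)
def TT3 (p : T3) : ℝ := -(p.2.1 * (p.1 + 1) * W p) / (p.2.1 + 1)
def P4 (p : T3) : ℝ := p.2.2 * (p.1 + 1) ^ 3 * W p ^ 2 / (p.2.1 + 1) ^ 2
def Q4 (p : T3) : ℝ := -(p.2.2 * (p.1 + 1) ^ 3 * W p) / (p.1 * (p.2.1 + 1))
def TT4 (p : T3) : ℝ := p.2.1

def R1 (p : T3) : ℝ := 0 + P0 p
def R2 (p : T3) : ℝ := R1 p + P1 p
def R3 (p : T3) : ℝ := R2 p + P2 p
def R4 (p : T3) : ℝ := R3 p + P3 p
def R5 (p : T3) : ℝ := R4 p + P4 p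
def L1 (p : T3) : ℝ := 0 + (Q0 p - T0 p)
def L2 (p : T3) : ℝ := L1 p + (Q1 p - T1 p)
def L3 (p : T3) : ℝ := L2 p + (Q2 p - TT2 p)
def L4 (p : T3) : ℝ := L3 p + (Q3 p - TT3 p)
def L5 (p : T3) : ℝ := L4 p + (Q4 p - TT4 p)
def N1 (p : T3) : ℝ := 0 + P0 p * Q0 p - (Q0 p - T0 p) * R1 p
def N2 (p : T3) : ℝ := N1 p + P1 p * Q1 p - (Q1 p - T1 p) * R2 p
def N3 (p : T3) : ℝ := N2 p + P2 p * Q2 p - (Q2 p - TT2 p) * R3 p
def N4 (p : T3) : ℝ := N3 p + P3 p * Q3 p - (Q3 p - TT3 p) * R4 p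
def N5 (p : T3) : ℝ := N4 p + P4 p * Q4 p - (Q4 p - TT4 p) * R5 p

-- `U_j / (x + 1) ^ asq j`
def G0 (p : T3) : ℝ := -(p.2.2 ^ 6 * (p.2.1 + 1) ^ 2 * W p ^ 3) / p.1 ^ 2
def G1 (p : T3) : ℝ := -(p.1 ^ 5 * p.2.2 ^ 11 * W p ^ 12) / (p.2.1 + 1) ^ 5
def G2 (p : T3) : ℝ := p.1 ^ 7 * p.2.2 ^ 18 * (p.2.1 + 1) ^ 6 / W p ^ 4
def G3 (p : T3) : ℝ := -(p.2.2 ^ 20 * W p ^ 10) / (p.1 ^ 11 * (p.2.1 + 1) ^ 15)
def G4 (p : T3) : ℝ := -(p.1 ^ 21 * p.2.2 ^ 15 * W p) / (p.2.1 + 1) ^ 8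
def G5 (p : T3) : ℝ := p.2.2 ^ 8 * W p ^ 17 / (p.1 ^ 7 * (p.2.1 + 1) ^ 19)

theorem W_cont : ContinuousAt W p0 := by
  unfold W
  fun_prop

theorem W_p0 : W p0 = 1 := by
  norm_num [W, p0]

section cont

theorem P0_c : ContinuousAt P0 p0 := by
  have := W_cont
  unfold P0
  fun_prop

theorem Q0_c : ContinuousAt Q0 p0 := by
  have := W_cont
  unfold Q0
  apply ContinuousAt.div
  · fun_prop
  · fun_prop
  · norm_num [p0]

theorem T0_c : ContinuousAt T0 p0 := by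
  unfold T0
  fun_prop

theorem P1_c : ContinuousAt P1 p0 := by
  unfold P1
  fun_prop

theorem Q1_c : ContinuousAt Q1 p0 := by
  unfold Q1
  fun_prop

theorem T1_c : ContinuousAt T1 p0 := by
  have := W_cont
  unfold T1
  apply ContinuousAt.div
  · fun_prop
  · fun_prop
  · norm_num [p0]

theorem P2_c : ContinuousAt P2 p0 := by
  have := W_cont
  unfold P2
  apply ContinuousAt.div
  · fun_prop
  · fun_prop
  · norm_num [p0]

theorem Q2_c : ContinuousAt Q2 p0 := by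
  have := W_cont
  unfold Q2
  apply ContinuousAt.div
  · fun_prop
  · fun_prop
  · norm_num [p0]

theorem TT2_c : ContinuousAt TT2 p0 := by
  unfold TT2
  fun_prop

theorem P3_c : ContinuousAt P3 p0 := by
  have := W_cont
  unfold P3
  apply ContinuousAt.div
  · fun_prop
  · fun_prop
  · norm_num [p0]

theorem Q3_c : ContinuousAt Q3 p0 := by
  unfold Q3
  fun_prop

theorem TT3_c : ContinuousAt TT3 p0 := by
  have := W_cont
  unfold TT3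
  apply ContinuousAt.div
  · fun_prop
  · fun_prop
  · norm_num [p0]

theorem P4_c : ContinuousAt P4 p0 := by
  have := W_cont
  unfold P4
  apply ContinuousAt.div
  · fun_prop
  · fun_prop
  · norm_num [p0]

theorem Q4_c : ContinuousAt Q4 p0 := by
  have := W_cont
  unfold Q4
  apply ContinuousAt.div
  · fun_prop
  · fun_prop
  · norm_num [p0]

theorem TT4_c : ContinuousAt TT4 p0 := by
  unfold TT4
  fun_prop

theorem R1_c : ContinuousAt R1 p0 := continuousAt_const.add P0_c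
theorem R2_c : ContinuousAt R2 p0 := R1_c.add P1_c
theorem R3_c : ContinuousAt R3 p0 := R2_c.add P2_c
theorem R4_c : ContinuousAt R4 p0 := R3_c.add P3_c
theorem R5_c : ContinuousAt R5 p0 := R4_c.add P4_c
theorem L1_c : ContinuousAt L1 p0 := continuousAt_const.add (Q0_c.sub T0_c)
theorem L2_c : ContinuousAt L2 p0 := L1_c.add (Q1_c.sub T1_c)
theorem L3_c : ContinuousAt L3 p0 := L2_c.add (Q2_c.sub TT2_c)
theorem L4_c : ContinuousAt L4 p0 := L3_c.add (Q3_c.sub TT3_c)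
theorem L5_c : ContinuousAt L5 p0 := L4_c.add (Q4_c.sub TT4_c)
theorem N1_c : ContinuousAt N1 p0 :=
  (continuousAt_const.add (P0_c.mul Q0_c)).sub ((Q0_c.sub T0_c).mul R1_c)
theorem N2_c : ContinuousAt N2 p0 :=
  (N1_c.add (P1_c.mul Q1_c)).sub ((Q1_c.sub T1_c).mul R2_c)
theorem N3_c : ContinuousAt N3 p0 :=
  (N2_c.add (P2_c.mul Q2_c)).sub ((Q2_c.sub TT2_c).mul R3_c)
theorem N4_c : ContinuousAt N4 p0 :=
  (N3_c.add (P3_c.mul Q3_c)).sub ((Q3_c.sub TT3_c).mul R4_c)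
theorem N5_c : ContinuousAt N5 p0 :=
  (N4_c.add (P4_c.mul Q4_c)).sub ((Q4_c.sub TT4_c).mul R5_c)

theorem G0_c : ContinuousAt G0 p0 := by
  have := W_cont
  unfold G0
  apply ContinuousAt.div
  · fun_prop
  · fun_prop
  · norm_num [p0]

theorem G1_c : ContinuousAt G1 p0 := by
  have := W_cont
  unfold G1
  apply ContinuousAt.div
  · fun_prop
  · fun_prop
  · norm_num [p0]

theorem G2_c : ContinuousAt G2 p0 := by
  have := W_cont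
  unfold G2
  apply ContinuousAt.div
  · fun_prop
  · fun_prop
  · rw [W_p0]; norm_num

theorem G3_c : ContinuousAt G3 p0 := by
  have := W_cont
  unfold G3
  apply ContinuousAt.div
  · fun_prop
  · fun_prop
  · norm_num [p0]

theorem G4_c : ContinuousAt G4 p0 := by
  have := W_cont
  unfold G4
  apply ContinuousAt.div
  · fun_prop
  · fun_prop
  · norm_num [p0]

theorem G5_c : ContinuousAt G5 p0 := by
  have := W_cont
  unfold G5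
  apply ContinuousAt.div
  · fun_prop
  · fun_prop
  · norm_num [p0]

end cont

theorem vals : P0 p0 = 0 ∧ Q0 p0 = 0 ∧ T0 p0 = 0 ∧ P1 p0 = 0 ∧ Q1 p0 = 0 ∧ T1 p0 = 0 ∧
    P2 p0 = 0 ∧ Q2 p0 = 0 ∧ TT2 p0 = 1 ∧ P3 p0 = 0 ∧ Q3 p0 = 1 ∧ TT3 p0 = 0 ∧
    P4 p0 = 0 ∧ Q4 p0 = 0 ∧ TT4 p0 = 0 := by
  have e1 : p0.1 = -1 := rfl
  have e2 : p0.2.1 = 0 := rfl
  have e3 : p0.2.2 = -1 := rfl
  unfold P0 Q0 T0 P1 Q1 T1 P2 Q2 TT2 P3 Q3 TT3 P4 Q4 TT4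
  rw [W_p0, e1, e2, e3]
  norm_num

theorem valsR : R1 p0 = 0 ∧ R2 p0 = 0 ∧ R3 p0 = 0 ∧ R4 p0 = 0 ∧ R5 p0 = 0 ∧
    L1 p0 = 0 ∧ L2 p0 = 0 ∧ L3 p0 + 1 = 0 ∧ L4 p0 = 0 ∧ L5 p0 = 0 ∧
    N1 p0 = 0 ∧ N2 p0 = 0 ∧ N3 p0 = 0 ∧ N4 p0 = 0 ∧ N5 p0 = 0 := by
  obtain ⟨h0, h1, h2, h3, h4, h5, h6, h7, h8, h9, h10, h11, h12, h13, h14⟩ := vals
  unfold N5 N4 N3 N2 N1 L5 L4 L3 L2 L1 R5 R4 R3 R2 R1
  rw [h0, h1, h2, h3, h4, h5, h6, h7, h8, h9, h10, h11, h12, h13, h14]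
  norm_num

theorem valsG : |G0 p0| = 1 ∧ |G1 p0| = 1 ∧ |G2 p0| = 1 ∧ |G3 p0| = 1 ∧ |G4 p0| = 1 ∧
    |G5 p0| = 1 := by
  have e1 : p0.1 = -1 := rfl
  have e2 : p0.2.1 = 0 := rfl
  have e3 : p0.2.2 = -1 := rfl
  unfold G0 G1 G2 G3 G4 G5
  rw [W_p0, e1, e2, e3]
  norm_num

theorem small {f : T3 → ℝ} (hf : ContinuousAt f p0) (h0 : f p0 = 0) {δ : ℝ} (hδ : 0 < δ) :
    ∀ᶠ p in 𝓝 p0, |f p| < δ := by
  have h : Tendsto (fun p => |f p|) (𝓝 p0) (𝓝 |f p0|) := hf.abs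
  rw [h0, abs_zero] at h
  exact h.eventually (gt_mem_nhds hδ)

theorem logsmall {f : T3 → ℝ} (hf : ContinuousAt f p0) (h0 : |f p0| = 1) :
    ∀ᶠ p in 𝓝 p0, abs (Real.log (abs (f p))) < 1 := by
  have h : ContinuousAt (fun p => Real.log |f p|) p0 := by
    apply ContinuousAt.log hf.abs
    rw [h0]; norm_num
  apply small h _ one_pos
  rw [h0, Real.log_one]

/-- all conditions on the explicit expressions -/
structure Near (δ : ℝ) (p : T3) : Prop where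
  b0 : |P0 p| < δ
  c0 : |Q0 p| < δ
  k1 : |p.2.1 * (1 - p.1)| < δ
  k2 : |P0 p - Q0 p - p.2.1 * (1 - p.1) * Q0 p| < δ
  k3 : |(p.1 + 1) * W p| < δ
  k4 : |p.2.1 * W p| < δ
  r1 : |R1 p| < δ
  r2 : |R2 p| < δ
  r3 : |R3 p| < δ
  r4 : |R4 p| < δ
  r5 : |R5 p| < δ
  l1 : |L1 p| < δ
  l2 : |L2 p| < δ
  l3 : |L3 p + 1| < δ
  l4 : |L4 p| < δ
  l5 : |L5 p| < δ
  n1 : |N1 p| < δ
  n2 : |N2 p| < δ
  n3 : |N3 p| < δ
  n4 : |N4 p| < δ
  n5 : |N5 p| < δ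
  g0 : abs (Real.log (abs (G0 p))) < 1
  g1 : abs (Real.log (abs (G1 p))) < 1
  g2 : abs (Real.log (abs (G2 p))) < 1
  g3 : abs (Real.log (abs (G3 p))) < 1
  g4 : abs (Real.log (abs (G4 p))) < 1
  g5 : abs (Real.log (abs (G5 p))) < 1

theorem near_ev {δ : ℝ} (hδ : 0 < δ) : ∀ᶠ p in 𝓝 p0, Near δ p := by
  obtain ⟨v0, v1, -, -, -, -, -, -, -, -, -, -, -, -, -⟩ := vals
  obtain ⟨a1, a2, a3, a4, a5, b1, b2, b3, b4, b5, c1, c2, c3, c4, c5⟩ := valsR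
  obtain ⟨g0, g1, g2, g3, g4, g5⟩ := valsG
  have hW := W_cont
  have e1 : p0.1 = -1 := rfl
  have e2 : p0.2.1 = 0 := rfl
  have hP0 := P0_c
  have hQ0 := Q0_c
  have k1 : ∀ᶠ p in 𝓝 p0, |(fun p : T3 => p.2.1 * (1 - p.1)) p| < δ := by
    apply small _ _ hδ
    · fun_prop
    · show p0.2.1 * (1 - p0.1) = 0
      rw [e2, zero_mul]
  have k2 : ∀ᶠ p in 𝓝 p0, |(fun p : T3 => P0 p - Q0 p - p.2.1 * (1 - p.1) * Q0 p) p| < δ := by
    apply small _ _ hδ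
    · fun_prop
    · show P0 p0 - Q0 p0 - p0.2.1 * (1 - p0.1) * Q0 p0 = 0
      rw [v0, v1]; ring
  have k3 : ∀ᶠ p in 𝓝 p0, |(fun p : T3 => (p.1 + 1) * W p) p| < δ := by
    apply small _ _ hδ
    · fun_prop
    · show (p0.1 + 1) * W p0 = 0
      rw [e1]; norm_num
  have k4 : ∀ᶠ p in 𝓝 p0, |(fun p : T3 => p.2.1 * W p) p| < δ := by
    apply small _ _ hδ
    · fun_prop
    · show p0.2.1 * W p0 = 0
      rw [e2, zero_mul]
  have l3 : ∀ᶠ p in 𝓝 p0, |(fun p : T3 => L3 p + 1) p| < δ := by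
    apply small _ _ hδ
    · exact L3_c.add continuousAt_const
    · exact b3
  filter_upwards [small P0_c v0 hδ, small Q0_c v1 hδ, k1, k2, k3, k4,
    small R1_c a1 hδ, small R2_c a2 hδ, small R3_c a3 hδ, small R4_c a4 hδ, small R5_c a5 hδ,
    small L1_c b1 hδ, small L2_c b2 hδ, l3, small L4_c b4 hδ, small L5_c b5 hδ,
    small N1_c c1 hδ, small N2_c c2 hδ, small N3_c c3 hδ, small N4_c c4 hδ, small N5_c c5 hδ,
    logsmall G0_c g0, logsmall G1_c g1, logsmall G2_c g2, logsmall G3_c g3, logsmall G4_c g4,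
    logsmall G5_c g5] with p q1 q2 q3 q4 q5 q6 q7 q8 q9 q10 q11 q12 q13 q14 q15 q16 q17 q18 q19
      q20 q21 q22 q23 q24 q25 q26 q27
  exact ⟨q1, q2, q3, q4, q5, q6, q7, q8, q9, q10, q11, q12, q13, q14, q15, q16, q17, q18, q19,
    q20, q21, q22, q23, q24, q25, q26, q27⟩

theorem recu {a : Aff ℝ} {P Q T : ℝ} (hP : a.S ^ 2 * bb a.x a.y = P) (hQ : a.S * cc a.x a.y = Q)
    (hT : a.S * (a.x * a.y) = T) :
    a.step.R = a.R + P ∧ a.step.L = a.L + (Q - T) ∧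
      a.step.N = a.N + P * Q - (Q - T) * (a.R + P) := by
  subst hP hQ hT
  refine ⟨rfl, ?_, ?_⟩
  · show a.L + a.S * (cc a.x a.y - a.x * a.y) = _
    ring
  · show a.N + a.S ^ 3 * bb a.x a.y * cc a.x a.y -
      a.S * (cc a.x a.y - a.x * a.y) * (a.R + a.S ^ 2 * bb a.x a.y) = _
    ring

/-- `U` for a change of coordinates -/
def UU (a : Aff ℝ) : ℝ := a.S ^ 13 * (bb a.x a.y ^ 5 / (cc a.x a.y ^ 2 * a.y ^ 2))

theorem row_bb {a : Aff ℝ} {X X1 Y Y1 w S : ℝ} (h : Row a X X1 Y Y1 w S) :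
    bb a.x a.y = -(Y ^ 2 * w) / X1 := by
  show -(a.y ^ 2 * ww a.x a.y) / (a.x + 1) = _
  rw [h.w, h.x1, h.y]

theorem row_cc {a : Aff ℝ} {X X1 Y Y1 w S : ℝ} (h : Row a X X1 Y Y1 w S) :
    cc a.x a.y = -(X * Y * w) / Y1 := by
  show -(a.x * a.y * ww a.x a.y) / (a.y + 1) = _
  rw [h.w, h.y1, h.x, h.y]

theorem row_U {a : Aff ℝ} {X X1 Y Y1 w S : ℝ} (h : Row a X X1 Y Y1 w S) :
    UU a = S ^ 13 * ((-(Y ^ 2 * w) / X1) ^ 5 / ((-(X * Y * w) / Y1) ^ 2 * Y ^ 2)) := by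
  unfold UU
  rw [row_bb h, row_cc h, h.S, h.y]

section data

variable {x y : ℝ} (hg : Good x y)

include hg

theorem data0 {a : Aff ℝ} (h : Row a x (x + 1) y (y + 1) (ww x y) 1) :
    a.S ^ 2 * bb a.x a.y = P0 (x, y, y / (x + 1)) ∧ a.S * cc a.x a.y = Q0 (x, y, y / (x + 1)) ∧
      a.S * (a.x * a.y) = T0 (x, y, y / (x + 1)) ∧
      UU a = G0 (x, y, y / (x + 1)) * (x + 1) ^ 1 := by
  have h1 := hg.x0
  have h2 := hg.x1
  have h3 := hg.y0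
  have h4 := hg.y1
  have h5 := hg.w0
  have hW : W (x, y, y / (x + 1)) = ww x y := rfl
  rw [row_bb h, row_cc h, row_U h, h.S, h.x, h.y]
  unfold P0 Q0 T0 G0
  rw [hW]
  dsimp only
  refine ⟨?_, ?_, ?_, ?_⟩
  · field_simp
  · field_simp
  · field_simp
  · field_simp

theorem data1 {a : Aff ℝ} (h : Row a (-(x + 1) / x) (-1 / x) (-y / ww x y)
      (y * (y + 1) / (x * (x + 1) * ww x y)) (-(y * (y + 1) ^ 2) / ((x + 1) * ww x y ^ 2))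
      (ww x y ^ 2 / (y + 1))) :
    a.S ^ 2 * bb a.x a.y = P1 (x, y, y / (x + 1)) ∧ a.S * cc a.x a.y = Q1 (x, y, y / (x + 1)) ∧
      a.S * (a.x * a.y) = T1 (x, y, y / (x + 1)) ∧
      UU a = G1 (x, y, y / (x + 1)) * (x + 1) ^ 4 := by
  have h1 := hg.x0
  have h2 := hg.x1
  have h3 := hg.y0
  have h4 := hg.y1
  have h5 := hg.w0
  have hW : W (x, y, y / (x + 1)) = ww x y := rfl
  rw [row_bb h, row_cc h, row_U h, h.S, h.x, h.y]
  unfold P1 Q1 T1 G1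
  rw [hW]
  dsimp only
  refine ⟨?_, ?_, ?_, ?_⟩
  · field_simp
  · field_simp
  · field_simp
  · field_simp

theorem data2 {a : Aff ℝ} (h : Row a (-1 / (x + 1)) (x / (x + 1)) (-((x + 1) * ww x y) / (y + 1) ^ 2)
      (x * y / ((x + 1) * (y + 1))) (-(y * ww x y) / (x * (y + 1) ^ 2))
      (x * y * (y + 1) ^ 2 / ((x + 1) * ww x y))) :
    a.S ^ 2 * bb a.x a.y = P2 (x, y, y / (x + 1)) ∧ a.S * cc a.x a.y = Q2 (x, y, y / (x + 1)) ∧
      a.S * (a.x * a.y) = TT2 (x, y, y / (x + 1)) ∧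
      UU a = G2 (x, y, y / (x + 1)) * (x + 1) ^ 16 := by
  have h1 := hg.x0
  have h2 := hg.x1
  have h3 := hg.y0
  have h4 := hg.y1
  have h5 := hg.w0
  have hW : W (x, y, y / (x + 1)) = ww x y := rfl
  rw [row_bb h, row_cc h, row_U h, h.S, h.x, h.y]
  unfold P2 Q2 TT2 G2
  rw [hW]
  dsimp only
  refine ⟨?_, ?_, ?_, ?_⟩
  · field_simp
  · field_simp
  · field_simp
  · field_simp

theorem data3 {a : Aff ℝ} (h : Row a x (x + 1) (-(x * (x + 1)) / y) (-(x * (x + 1) ^ 2) / (y + 1))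
      (x ^ 3 / ww x y) (y ^ 2 * ww x y / (x ^ 2 * (y + 1)))) :
    a.S ^ 2 * bb a.x a.y = P3 (x, y, y / (x + 1)) ∧ a.S * cc a.x a.y = Q3 (x, y, y / (x + 1)) ∧
      a.S * (a.x * a.y) = TT3 (x, y, y / (x + 1)) ∧
      UU a = G3 (x, y, y / (x + 1)) * (x + 1) ^ 25 := by
  have h1 := hg.x0
  have h2 := hg.x1
  have h3 := hg.y0
  have h4 := hg.y1
  have h5 := hg.w0
  have hW : W (x, y, y / (x + 1)) = ww x y := rfl
  rw [row_bb h, row_cc h, row_U h, h.S, h.x, h.y]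
  unfold P3 Q3 TT3 G3
  rw [hW]
  dsimp only
  refine ⟨?_, ?_, ?_, ?_⟩
  · field_simp
  · field_simp
  · field_simp
  · field_simp

theorem data4 {a : Aff ℝ} (h : Row a (-(x + 1) / x) (-1 / x) ((x + 1) * ww x y / (x ^ 2 * y))
      ((x + 1) ^ 2 * ww x y / (x ^ 2 * y * (y + 1)))
      ((x + 1) ^ 4 * ww x y ^ 2 / (x ^ 3 * y * (y + 1) ^ 2))
      (-(x ^ 3 * y ^ 2) / ((x + 1) ^ 2 * ww x y))) :
    a.S ^ 2 * bb a.x a.y = P4 (x, y, y / (x + 1)) ∧ a.S * cc a.x a.y = Q4 (x, y, y / (x + 1)) ∧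
      a.S * (a.x * a.y) = TT4 (x, y, y / (x + 1)) ∧
      UU a = G4 (x, y, y / (x + 1)) * (x + 1) ^ 9 := by
  have h1 := hg.x0
  have h2 := hg.x1
  have h3 := hg.y0
  have h4 := hg.y1
  have h5 := hg.w0
  have hW : W (x, y, y / (x + 1)) = ww x y := rfl
  rw [row_bb h, row_cc h, row_U h, h.S, h.x, h.y]
  unfold P4 Q4 TT4 G4
  rw [hW]
  dsimp only
  refine ⟨?_, ?_, ?_, ?_⟩
  · field_simp
  · field_simp
  · field_simp
  · field_simp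

theorem data5 {a : Aff ℝ} (h : Row a (-1 / (x + 1)) (x / (x + 1))
      (-(x * (y + 1) ^ 2) / ((x + 1) ^ 3 * ww x y))
      (x * (y + 1) / ((x + 1) ^ 2 * y)) (x * (y + 1) ^ 2 / ((x + 1) ^ 3 * y * ww x y))
      (-((x + 1) ^ 4 * y * ww x y ^ 2) / (x * (y + 1) ^ 3))) :
      UU a = G5 (x, y, y / (x + 1)) * (x + 1) ^ 36 := by
  have h1 := hg.x0
  have h2 := hg.x1
  have h3 := hg.y0
  have h4 := hg.y1
  have h5 := hg.w0
  have hW : W (x, y, y / (x + 1)) = ww x y := rfl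
  rw [row_U h]
  unfold G5
  rw [hW]
  dsimp only
  field_simp

end data

theorem logU {a : Aff ℝ} {G e : ℝ} {n : ℕ} (hU : UU a = G * e ^ n) (hG : G ≠ 0) (he : e ≠ 0) :
    Real.log (abs (UU a)) - (n : ℤ) * Real.log (abs e) = Real.log (abs G) := by
  rw [hU, abs_mul, abs_pow, Real.log_mul (abs_ne_zero.mpr hG)
    (pow_ne_zero n (abs_ne_zero.mpr he)), Real.log_pow]
  push_cast
  ring

theorem U_ne {a : Aff ℝ} (h : Good a.x a.y) (hS : a.S ≠ 0) : UU a ≠ 0 := by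
  have h1 := h.x0
  have h2 := h.x1
  have h3 := h.y0
  have h4 := h.y1
  have h5 := h.w0
  unfold UU bb cc
  have e1 : -(a.y ^ 2 * ww a.x a.y) / (a.x + 1) ≠ 0 :=
    div_ne_zero (neg_ne_zero.mpr (mul_ne_zero (pow_ne_zero 2 h3) h5)) h2
  have e2 : -(a.x * a.y * ww a.x a.y) / (a.y + 1) ≠ 0 :=
    div_ne_zero (neg_ne_zero.mpr (mul_ne_zero (mul_ne_zero h1 h3) h5)) h4
  exact mul_ne_zero (pow_ne_zero _ hS) (div_ne_zero (pow_ne_zero _ e1)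
    (mul_ne_zero (pow_ne_zero _ e2) (pow_ne_zero _ h3)))

end

end MonX

open MonX in
theorem mon_proof (hTab : Stmt_Tab) : Stmt_Mon := by
  intro δ hδ
  obtain ⟨η, hη, hball⟩ := Metric.eventually_nhds_iff.mp (near_ev hδ)
  obtain ⟨δ1, hδ1, hn⟩ := DiscX.near η hη
  refine ⟨min δ1 η, 1, by positivity, ?_⟩
  intro x y hg hx hy
  rw [lt_min_iff] at hx hy
  have ht := hn x y hg hx.1 hy.1
  set q : T3 := (x, y, y / (x + 1)) with hq
  have hN : Near δ q := by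
    apply hball
    rw [hq, p0, Prod.dist_eq, Prod.dist_eq, max_lt_iff, max_lt_iff]
    refine ⟨?_, ?_, ?_⟩
    · rw [Real.dist_eq]; simpa using hx.2
    · rw [Real.dist_eq]; simpa using hy.2
    · rw [Real.dist_eq]; simpa using ht
  obtain ⟨r0, r1, r2, r3, r4, r5, -⟩ := hTab ℝ x y hg
  obtain ⟨p0', q0', t0', u0'⟩ := data0 hg r0
  obtain ⟨p1', q1', t1', u1'⟩ := data1 hg r1
  obtain ⟨p2', q2', t2', u2'⟩ := data2 hg r2
  obtain ⟨p3', q3', t3', u3'⟩ := data3 hg r3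
  obtain ⟨p4', q4', t4', u4'⟩ := data4 hg r4
  have u5' := data5 hg r5
  rw [← hq] at p0' q0' t0' u0' p1' q1' t1' u1' p2' q2' t2' u2' p3' q3' t3' u3' p4' q4' t4' u4' u5'
  have s1 := recu p0' q0' t0'
  have s2 := recu p1' q1' t1'
  have s3 := recu p2' q2' t2'
  have s4 := recu p3' q3' t3'
  have s5 := recu p4' q4' t4'
  rw [← af_succ] at s1 s2 s3 s4 s5
  have z : (af x y 0).R = 0 ∧ (af x y 0).L = 0 ∧ (af x y 0).N = 0 := ⟨rfl, rfl, rfl⟩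
  obtain ⟨z1, z2, z3⟩ := z
  have a1 : (af x y 1).R = R1 q := by rw [s1.1, z1]; rfl
  have a2 : (af x y 2).R = R2 q := by rw [s2.1, a1]; rfl
  have a3 : (af x y 3).R = R3 q := by rw [s3.1, a2]; rfl
  have a4 : (af x y 4).R = R4 q := by rw [s4.1, a3]; rfl
  have a5 : (af x y 5).R = R5 q := by rw [s5.1, a4]; rfl
  have b1 : (af x y 1).L = L1 q := by rw [s1.2.1, z2]; rfl
  have b2 : (af x y 2).L = L2 q := by rw [s2.2.1, b1]; rfl
  have b3 : (af x y 3).L = L3 q := by rw [s3.2.1, b2]; rfl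
  have b4 : (af x y 4).L = L4 q := by rw [s4.2.1, b3]; rfl
  have b5 : (af x y 5).L = L5 q := by rw [s5.2.1, b4]; rfl
  have c1 : (af x y 1).N = N1 q := by rw [s1.2.2, z3, z1]; rfl
  have c2 : (af x y 2).N = N2 q := by rw [s2.2.2, c1, a1]; rfl
  have c3 : (af x y 3).N = N3 q := by rw [s3.2.2, c2, a2]; rfl
  have c4 : (af x y 4).N = N4 q := by rw [s4.2.2, c3, a3]; rfl
  have c5 : (af x y 5).N = N5 q := by rw [s5.2.2, c4, a4]; rfl
  have hx1 := hg.x1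
  have hb : bb x y = P0 q := by
    rw [← p0', r0.S, r0.x, r0.y]; ring
  have hc : cc x y = Q0 q := by
    rw [← q0', r0.S, r0.x, r0.y]; ring
  have key : ∀ {a : Aff ℝ} {G : ℝ} {n : ℕ}, UU a = G * (x + 1) ^ n → abs (Real.log (abs G)) < 1 →
      G ≠ 0 → abs (Real.log (abs (UU a)) - (n : ℤ) * Real.log (abs (x + 1))) ≤ 1 := by
    intro a G n h1 h2 h3
    rw [logU h1 h3 hx1]
    exact h2.le
  have hx0 := hg.x0
  have hy0 := hg.y0
  have hy1 := hg.y1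
  have hw0 : W q ≠ 0 := hg.w0
  have ht0 : y / (x + 1) ≠ 0 := div_ne_zero hy0 hx1
  have gne0 : G0 q ≠ 0 := by
    unfold G0
    exact div_ne_zero (neg_ne_zero.mpr (mul_ne_zero (mul_ne_zero (pow_ne_zero _ ht0)
      (pow_ne_zero _ hy1)) (pow_ne_zero _ hw0))) (pow_ne_zero _ hx0)
  have gne1 : G1 q ≠ 0 := by
    unfold G1
    exact div_ne_zero (neg_ne_zero.mpr (mul_ne_zero (mul_ne_zero (pow_ne_zero _ hx0)
      (pow_ne_zero _ ht0)) (pow_ne_zero _ hw0))) (pow_ne_zero _ hy1)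
  have gne2 : G2 q ≠ 0 := by
    unfold G2
    exact div_ne_zero (mul_ne_zero (mul_ne_zero (pow_ne_zero _ hx0)
      (pow_ne_zero _ ht0)) (pow_ne_zero _ hy1)) (pow_ne_zero _ hw0)
  have gne3 : G3 q ≠ 0 := by
    unfold G3
    exact div_ne_zero (neg_ne_zero.mpr (mul_ne_zero (pow_ne_zero _ ht0) (pow_ne_zero _ hw0)))
      (mul_ne_zero (pow_ne_zero _ hx0) (pow_ne_zero _ hy1))
  have gne4 : G4 q ≠ 0 := by
    unfold G4
    exact div_ne_zero (neg_ne_zero.mpr (mul_ne_zero (mul_ne_zero (pow_ne_zero _ hx0)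
      (pow_ne_zero _ ht0)) hw0)) (pow_ne_zero _ hy1)
  have gne5 : G5 q ≠ 0 := by
    unfold G5
    exact div_ne_zero (mul_ne_zero (pow_ne_zero _ ht0) (pow_ne_zero _ hw0))
      (mul_ne_zero (pow_ne_zero _ hx0) (pow_ne_zero _ hy1))
  refine ⟨⟨?_, ?_, hN.k1, ?_, hN.k3, hN.k4⟩, ?_⟩
  · rw [hb]; exact hN.b0
  · rw [hc]; exact hN.c0
  · rw [hb, hc]; exact hN.k2
  · intro j hj
    interval_cases j
    · rw [z1, z2, z3]
      refine ⟨by simpa using hδ, by simpa using hδ, by simpa using hδ, ?_⟩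
      exact key u0' hN.g0 gne0
    · rw [a1, b1, c1]
      refine ⟨hN.r1, hN.n1, by simpa using hN.l1, ?_⟩
      exact key u1' hN.g1 gne1
    · rw [a2, b2, c2]
      refine ⟨hN.r2, hN.n2, by simpa using hN.l2, ?_⟩
      exact key u2' hN.g2 gne2
    · rw [a3, b3, c3]
      refine ⟨hN.r3, hN.n3, by simpa using hN.l3, ?_⟩
      exact key u3' hN.g3 gne3
    · rw [a4, b4, c4]
      refine ⟨hN.r4, hN.n4, by simpa using hN.l4, ?_⟩
      exact key u4' hN.g4 gne4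
    · rw [a5, b5, c5]
      refine ⟨hN.r5, hN.n5, by simpa using hN.l5, ?_⟩
      exact key u5' hN.g5 gne5

end Pool.Agent.BEK
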