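import Pool.Agent.BEK.Stmts

set_option autoImplicit false

/-!
# NICE: calculus of nice functions
-/

namespace Pool.Agent.BEK

namespace NiceX

theorem Nice.hasDeriv {C : ℝ} {w : ℤ} {f : ℝ → ℂ} (h : Nice C w f) (θ : ℝ) :
    HasDerivAt f (deriv f θ) θ :=
  (h.smooth.differentiable (by norm_num)).differentiableAt.hasDerivAt

theorem cont_darg {f : ℝ → ℂ} (h : ContDiff ℝ 1 f) (h0 : ∀ θ, f θ ≠ 0) :
    Continuous (darg f) := by
  unfold darg
  exact Complex.continuous_im.comp ((h.continuous_deriv (by norm_num)).div h.continuous h0)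

theorem cont_log {f : ℝ → ℂ} (h : ContDiff ℝ 1 f) (h0 : ∀ θ, f θ ≠ 0) :
    Continuous fun θ => Real.log ‖f θ‖ :=
  h.continuous.norm.log fun θ => norm_ne_zero_iff.mpr (h0 θ)

theorem darg_mul {f g : ℝ → ℂ} (hf : ContDiff ℝ 1 f) (hg : ContDiff ℝ 1 g) (hf0 : ∀ θ, f θ ≠ 0)
    (hg0 : ∀ θ, g θ ≠ 0) (θ : ℝ) : darg (fun θ => f θ * g θ) θ = darg f θ + darg g θ := by
  have h1 : HasDerivAt f (deriv f θ) θ :=
    (hf.differentiable (by norm_num)).differentiableAt.hasDerivAt
  have h2 : HasDerivAt g (deriv g θ) θ :=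
    (hg.differentiable (by norm_num)).differentiableAt.hasDerivAt
  unfold darg
  rw [(h1.fun_mul h2).deriv, ← Complex.add_im]
  congr 1
  have a := hf0 θ
  have b := hg0 θ
  field_simp

theorem darg_inv {f : ℝ → ℂ} (hf : ContDiff ℝ 1 f) (hf0 : ∀ θ, f θ ≠ 0) (θ : ℝ) :
    darg (fun θ => (f θ)⁻¹) θ = -darg f θ := by
  have h1 : HasDerivAt f (deriv f θ) θ :=
    (hf.differentiable (by norm_num)).differentiableAt.hasDerivAt
  unfold darg
  rw [(h1.fun_inv (hf0 θ)).deriv, ← Complex.neg_im]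
  congr 1
  have a := hf0 θ
  field_simp

theorem darg_div {f : ℝ → ℂ} (hf : ContDiff ℝ 1 f) {a : ℂ} (ha : a ≠ 0) (θ : ℝ) :
    darg (fun θ => f θ / a) θ = darg f θ := by
  have h1 : HasDerivAt f (deriv f θ) θ :=
    (hf.differentiable (by norm_num)).differentiableAt.hasDerivAt
  unfold darg
  rw [(h1.div_const a).deriv]
  congr 1
  by_cases hf0 : f θ = 0
  · simp [hf0]
  · field_simp

end NiceX

open NiceX

theorem nice_proof : Stmt_Nice := by
  have hpi := Real.pi_pos
  refine ⟨?_, ?_, ?_⟩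
  · intro C C' w w' f g hf hg
    refine ⟨hf.smooth.mul hg.smooth, fun θ => ?_, fun θ => mul_ne_zero (hf.ne θ) (hg.ne θ),
      fun θ => ?_, fun θ => ?_, ?_⟩
    · rw [hf.periodic, hg.periodic]
    · rw [norm_mul, Real.log_mul (norm_ne_zero_iff.mpr (hf.ne θ)) (norm_ne_zero_iff.mpr (hg.ne θ))]
      exact (abs_add_le _ _).trans (add_le_add (hf.size θ) (hg.size θ))
    · rw [darg_mul hf.smooth hg.smooth hf.ne hg.ne]
      exact (abs_add_le _ _).trans (add_le_add (hf.der θ) (hg.der θ))
    · have h1 : ∫ θ in (0 : ℝ)..2 * Real.pi, darg (fun θ => f θ * g θ) θ =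
          ∫ θ in (0 : ℝ)..2 * Real.pi, (darg f θ + darg g θ) := by
        congr 1
        ext θ
        exact darg_mul hf.smooth hg.smooth hf.ne hg.ne θ
      rw [h1, intervalIntegral.integral_add
        ((cont_darg hf.smooth hf.ne).intervalIntegrable _ _)
        ((cont_darg hg.smooth hg.ne).intervalIntegrable _ _), hf.wind, hg.wind]
      push_cast
      ring
  · intro C w f hf
    refine ⟨hf.smooth.inv hf.ne, fun θ => ?_, fun θ => inv_ne_zero (hf.ne θ),
      fun θ => ?_, fun θ => ?_, ?_⟩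
    · rw [hf.periodic]
    · rw [norm_inv, Real.log_inv, abs_neg]
      exact hf.size θ
    · rw [darg_inv hf.smooth hf.ne, abs_neg]
      exact hf.der θ
    · have h1 : ∫ θ in (0 : ℝ)..2 * Real.pi, darg (fun θ => (f θ)⁻¹) θ =
          ∫ θ in (0 : ℝ)..2 * Real.pi, -darg f θ := by
        congr 1
        ext θ
        exact darg_inv hf.smooth hf.ne θ
      rw [h1, intervalIntegral.integral_neg, hf.wind]
      push_cast
      ring
  · intro C C' w w' f g a hf hg ha
    have hC : 0 ≤ C := (abs_nonneg _).trans (hf.size 0)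
    have hC' : 0 ≤ C' := (abs_nonneg _).trans (hg.size 0)
    have cf := cont_darg hf.smooth hf.ne
    have cg := cont_darg hg.smooth hg.ne
    have lf := cont_log hf.smooth hf.ne
    have lg := cont_log hg.smooth hg.ne
    have h1 : ∀ θ, Real.log ‖f θ / a‖ * darg (fun θ => g θ / a) θ -
        Real.log ‖g θ / a‖ * darg (fun θ => f θ / a) θ =
        (Real.log ‖f θ‖ * darg g θ - Real.log ‖g θ‖ * darg f θ) -
          Real.log ‖a‖ * (darg g θ - darg f θ) := by
      intro θ
      rw [darg_div hf.smooth ha, darg_div hg.smooth ha, norm_div, norm_div,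
        Real.log_div (norm_ne_zero_iff.mpr (hf.ne θ)) (norm_ne_zero_iff.mpr ha),
        Real.log_div (norm_ne_zero_iff.mpr (hg.ne θ)) (norm_ne_zero_iff.mpr ha)]
      ring
    have i1 : IntervalIntegrable
        (fun θ => Real.log ‖f θ‖ * darg g θ - Real.log ‖g θ‖ * darg f θ) MeasureTheory.volume 0
        (2 * Real.pi) := ((lf.mul cg).sub (lg.mul cf)).intervalIntegrable _ _
    have i2 : IntervalIntegrable (fun θ => Real.log ‖a‖ * (darg g θ - darg f θ))
        MeasureTheory.volume 0 (2 * Real.pi) :=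
      (continuous_const.mul (cg.sub cf)).intervalIntegrable _ _
    have h2 : ∫ θ in (0 : ℝ)..2 * Real.pi, (Real.log ‖f θ / a‖ * darg (fun θ => g θ / a) θ -
        Real.log ‖g θ / a‖ * darg (fun θ => f θ / a) θ) =
        (∫ θ in (0 : ℝ)..2 * Real.pi, (Real.log ‖f θ‖ * darg g θ - Real.log ‖g θ‖ * darg f θ)) -
          Real.log ‖a‖ * (2 * Real.pi * w' - 2 * Real.pi * w) := by
      rw [← hf.wind, ← hg.wind, ← intervalIntegral.integral_sub (cg.intervalIntegrable _ _)
        (cf.intervalIntegrable _ _), ← intervalIntegral.integral_const_mul,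
        ← intervalIntegral.integral_sub i1 i2]
      congr 1
      ext θ
      exact h1 θ
    have h3 : |∫ θ in (0 : ℝ)..2 * Real.pi,
        (Real.log ‖f θ‖ * darg g θ - Real.log ‖g θ‖ * darg f θ)| ≤
        (2 * C * C') * |2 * Real.pi - 0| := by
      rw [← Real.norm_eq_abs]
      apply intervalIntegral.norm_integral_le_of_norm_le_const
      intro θ _
      rw [Real.norm_eq_abs]
      have e1 : |Real.log ‖f θ‖ * darg g θ| ≤ C * C' := by
        rw [abs_mul]
        exact mul_le_mul (hf.size θ) (hg.der θ) (abs_nonneg _) hC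
      have e2 : |Real.log ‖g θ‖ * darg f θ| ≤ C' * C := by
        rw [abs_mul]
        exact mul_le_mul (hg.size θ) (hf.der θ) (abs_nonneg _) hC'
      refine (abs_sub _ _).trans ?_
      linarith
    rw [sub_zero, abs_of_pos (by positivity : (0 : ℝ) < 2 * Real.pi)] at h3
    unfold regz
    rw [h2]
    have h4 : 1 / (2 * Real.pi) *
        ((∫ θ in (0 : ℝ)..2 * Real.pi, (Real.log ‖f θ‖ * darg g θ - Real.log ‖g θ‖ * darg f θ)) -
          Real.log ‖a‖ * (2 * Real.pi * w' - 2 * Real.pi * w)) - Real.log ‖a‖ * (w - w') =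
        1 / (2 * Real.pi) *
          ∫ θ in (0 : ℝ)..2 * Real.pi, (Real.log ‖f θ‖ * darg g θ - Real.log ‖g θ‖ * darg f θ) := by
      field_simp
      ring
    rw [h4, abs_mul, abs_of_pos (by positivity : (0 : ℝ) < 1 / (2 * Real.pi)), div_mul_eq_mul_div,
      one_mul, div_le_iff₀ (by positivity)]
    exact h3

end Pool.Agent.BEK
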