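import Pool.Agent.BEK.FIELD

set_option autoImplicit false

/-!
# The sextic fields are not Galois over `ℚ` for `n = 1058 m + 533`
-/

namespace Pool.Agent.BEK

namespace NonGal

open Polynomial IntermediateField

theorem z23 : ∀ a c : ZMod 23, a ^ 2 + c ^ 2 = 0 → a = 0 ∧ c = 0 := by
  decide +kernel

theorem descent (u : ℤ) : ∀ (N : ℕ) (A C B : ℤ), B.natAbs ≤ N →
    A ^ 2 + C ^ 2 = 23 * (23 * u - 1) * B ^ 2 → B = 0 := by
  intro N
  induction N with
  | zero => intro A C B h _; exact Int.natAbs_eq_zero.1 (by omega)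
  | succ N ih =>
    intro A C B hB h
    have h1 : ((A : ZMod 23)) ^ 2 + (C : ZMod 23) ^ 2 = 0 := by
      have h2 := congrArg (Int.cast : ℤ → ZMod 23) h
      push_cast at h2
      rw [h2]
      have h23 : (23 : ZMod 23) = 0 := by decide
      rw [h23]; ring
    obtain ⟨hA, hC⟩ := z23 _ _ h1
    rw [ZMod.intCast_zmod_eq_zero_iff_dvd] at hA hC
    obtain ⟨A', rfl⟩ := hA
    obtain ⟨C', rfl⟩ := hC
    have h2 : 23 * (A' ^ 2 + C' ^ 2) = (23 * u - 1) * B ^ 2 := by
      push_cast at h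
      have h3 : (23 : ℤ) * (23 * (A' ^ 2 + C' ^ 2)) = 23 * ((23 * u - 1) * B ^ 2) := by
        linear_combination h
      exact mul_left_cancel₀ (by norm_num) h3
    have h4 : (23 : ℤ) ∣ B ^ 2 := by
      have h5 : B ^ 2 = 23 * (u * B ^ 2) - 23 * (A' ^ 2 + C' ^ 2) := by
        rw [h2]; ring
      rw [h5]
      exact dvd_sub (dvd_mul_right _ _) (dvd_mul_right _ _)
    have h5 : (23 : ℤ) ∣ B :=
      (Int.prime_iff_natAbs_prime.2 (by norm_num)).dvd_of_dvd_pow h4
    obtain ⟨B', rfl⟩ := h5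
    have h6 : A' ^ 2 + C' ^ 2 = 23 * (23 * u - 1) * B' ^ 2 := by
      have h3 : (23 : ℤ) * (A' ^ 2 + C' ^ 2) = 23 * (23 * (23 * u - 1) * B' ^ 2) := by
        linear_combination h2
      exact mul_left_cancel₀ (by norm_num) h3
    have h7 : B' = 0 := by
      by_contra hB'
      apply hB'
      refine ih A' C' B' ?_ h6
      rw [Int.natAbs_mul] at hB
      have : B'.natAbs ≠ 0 := Int.natAbs_ne_zero.2 hB'
      have h8 : (23 : ℤ).natAbs = 23 := rfl
      rw [h8] at hB
      omega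
    rw [h7, mul_zero]

/-- rational version -/
theorem descentQ (u : ℤ) (a c b : ℚ) (h : a ^ 2 + c ^ 2 = (23 * (23 * (u : ℚ) - 1)) * b ^ 2) :
    b = 0 := by
  -- common denominator
  set N : ℤ := (a.den : ℤ) * c.den * b.den with hN
  have ha : (a.den : ℚ) ≠ 0 := Nat.cast_ne_zero.2 a.den_nz
  have hc : (c.den : ℚ) ≠ 0 := Nat.cast_ne_zero.2 c.den_nz
  have hb : (b.den : ℚ) ≠ 0 := Nat.cast_ne_zero.2 b.den_nz
  have ea : a * a.den = a.num := Rat.mul_den_eq_num a
  have ec : c * c.den = c.num := Rat.mul_den_eq_num c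
  have eb : b * b.den = b.num := Rat.mul_den_eq_num b
  have key : ((a.num * c.den * b.den : ℤ)) ^ 2 + ((c.num * a.den * b.den : ℤ)) ^ 2 =
      23 * (23 * u - 1) * (b.num * a.den * c.den : ℤ) ^ 2 := by
    have : (((a.num * c.den * b.den : ℤ)) ^ 2 + ((c.num * a.den * b.den : ℤ)) ^ 2 : ℚ) =
      23 * (23 * u - 1) * ((b.num * a.den * c.den : ℤ) : ℚ) ^ 2 := by
      push_cast
      rw [← ea, ← ec, ← eb]
      linear_combination ((a.den : ℚ) * c.den * b.den) ^ 2 * h
    exact_mod_cast this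
  have h0 := descent u _ _ _ _ le_rfl key
  have h1 : b.num = 0 := by
    rcases mul_eq_zero.1 h0 with h2 | h2
    · rcases mul_eq_zero.1 h2 with h3 | h3
      · exact h3
      · exfalso; exact a.den_nz (by exact_mod_cast h3)
    · exfalso; exact c.den_nz (by exact_mod_cast h2)
  exact Rat.num_eq_zero.1 h1

/-- the discriminant -/
theorem disc_formula {R : Type} [CommRing R] (n e1 e2 e3 x1 x2 x3 : R)
    (h1 : e1 = x1 + x2 + x3) (h2 : e2 = x1 * x2 + x2 * x3 + x3 * x1) (h3 : e3 = x1 * x2 * x3)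
    (k1 : e1 = -(n + 1)) (k2 : e2 = n) (k3 : e3 = -1) :
    ((x1 - x2) * (x2 - x3) * (x3 - x1)) ^ 2 = n ^ 4 - 6 * n ^ 3 + 7 * n ^ 2 + 6 * n - 31 := by
  have : ((x1 - x2) * (x2 - x3) * (x3 - x1)) ^ 2 =
      e1 ^ 2 * e2 ^ 2 - 4 * e2 ^ 3 - 4 * e1 ^ 3 * e3 + 18 * e1 * e2 * e3 - 27 * e3 ^ 2 := by
    rw [h1, h2, h3]; ring
  rw [this, k1, k2, k3]; ring

/-- elementary symmetric functions of three distinct roots -/
theorem sym {K : Type} [Field K] (n x1 x2 x3 : K) (h12 : x1 ≠ x2) (h23 : x2 ≠ x3) (h31 : x3 ≠ x1)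
    (r1 : x1 * (x1 + 1) * (x1 + n) + 1 = 0) (r2 : x2 * (x2 + 1) * (x2 + n) + 1 = 0)
    (r3 : x3 * (x3 + 1) * (x3 + n) + 1 = 0) :
    x1 + x2 + x3 = -(n + 1) ∧ x1 * x2 + x2 * x3 + x3 * x1 = n ∧ x1 * x2 * x3 = -1 := by
  have a12 : x1 ^ 2 + x1 * x2 + x2 ^ 2 + (n + 1) * (x1 + x2) + n = 0 := by
    apply mul_left_cancel₀ (sub_ne_zero.2 h12)
    linear_combination r1 - r2
  have a23 : x2 ^ 2 + x2 * x3 + x3 ^ 2 + (n + 1) * (x2 + x3) + n = 0 := by
    apply mul_left_cancel₀ (sub_ne_zero.2 h23)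
    linear_combination r2 - r3
  have e1 : x1 + x2 + x3 + (n + 1) = 0 := by
    apply mul_left_cancel₀ (sub_ne_zero.2 h31)
    linear_combination a23 - a12
  have e1' : x1 + x2 + x3 = -(n + 1) := by linear_combination e1
  have e2 : x1 * x2 + x2 * x3 + x3 * x1 = n := by
    linear_combination (x1 + x2) * e1 - a12
  refine ⟨e1', e2, ?_⟩
  linear_combination r1 - x1 ^ 2 * e1 + x1 * e2

end NonGal

open Polynomial IntermediateField in
/-- NONGAL: the sextic fields are not Galois. -/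
theorem nonGal (hIrr : Stmt_Irr) (K : Type) [Field K] [NumberField K] (x y : K) (m : ℕ)
    (hG : Good x y) (hcub : x * (x + 1) * (x + ((1058 * m + 533 : ℕ) : K)) + 1 = 0)
    (hrank : Module.finrank ℚ K = 6) : ¬ IsGalois ℚ K := by
  intro hGal
  set n : ℕ := 1058 * m + 533 with hn
  have hodd : Odd n := ⟨529 * m + 266, by rw [hn]; ring⟩
  have hirr : Irreducible (FieldX.q n) := hIrr n hodd
  -- the minimal polynomial of `y`
  have hroot : aeval y (FieldX.q n) = 0 := by
    rw [aeval_def, FieldX.eval₂_q, sub_eq_zero]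
    exact (FieldX.backward hG.y0 hG.rel hcub).2
  have hmonic : (FieldX.q n).Monic := by
    rw [FieldX.q_eq]
    apply monic_X_pow_sub
    refine lt_of_le_of_lt degree_le_natDegree ?_
    have : ((1 + C (n : ℚ) * X) * (C (n : ℚ) * X ^ 2 + C (n : ℚ) * X + 1) *
      (C ((n : ℚ) - 1) * X ^ 2 + C (n : ℚ) * X + 1)).natDegree ≤ 5 := by
      compute_degree
    exact_mod_cast lt_of_le_of_lt this (by norm_num)
  have hmin : minpoly ℚ y = FieldX.q n := (minpoly.eq_of_irreducible_of_monic hirr hroot hmonic).symm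
  have hint : IsIntegral ℚ y := IsIntegral.of_finite ℚ y
  have htop : ℚ⟮y⟯ = ⊤ := by
    rw [Field.primitive_element_iff_minpoly_natDegree_eq, hmin, FieldX.natDegree_q, hrank]
  -- its norm
  have hnorm : Algebra.norm ℚ y = -1 := by
    rw [Algebra.norm_eq_norm_adjoin, ← adjoin.powerBasis_gen hint,
      Algebra.PowerBasis.norm_gen_eq_coeff_zero_minpoly]
    have h1 : Module.finrank ℚ⟮y⟯ K = 1 := by
      have h2 := Module.finrank_mul_finrank ℚ ℚ⟮y⟯ K
      rw [adjoin.finrank hint, hmin, FieldX.natDegree_q, hrank] at h2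
      omega
    have h2 : (adjoin.powerBasis hint).dim = 6 := by
      rw [adjoin.powerBasis_dim, hmin, FieldX.natDegree_q]
    rw [h1, h2, adjoin.powerBasis_gen hint, minpoly_gen, hmin]
    rw [FieldX.q_eq]
    simp
    norm_num
  -- an element of order three
  have hcard : Nat.card (K ≃ₐ[ℚ] K) = 6 := by
    rw [IsGalois.card_aut_eq_finrank, hrank]
  obtain ⟨ρ, hρ⟩ : ∃ ρ : K ≃ₐ[ℚ] K, orderOf ρ = 3 := by
    have : Fact (Nat.Prime 3) := ⟨by norm_num⟩
    exact exists_prime_orderOf_dvd_card' 3 (by rw [hcard]; norm_num)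
  have hρ3 : ∀ z : K, ρ (ρ (ρ z)) = z := by
    intro z
    have h1 : ρ ^ 3 = 1 := by rw [← hρ]; exact pow_orderOf_eq_one ρ
    have h2 := congrArg (fun g : K ≃ₐ[ℚ] K => g z) h1
    simpa [pow_succ] using h2
  set F : IntermediateField ℚ K := fixedField (Subgroup.zpowers ρ) with hF
  have hmem : ∀ z : K, ρ z = z → z ∈ F := by
    intro z hz
    rw [hF, mem_fixedField_iff]
    intro g hg
    obtain ⟨j, rfl⟩ := Subgroup.mem_zpowers_iff.1 hg
    have h1 : ρ ∈ MulAction.stabilizer (K ≃ₐ[ℚ] K) z := hz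
    exact (MulAction.stabilizer (K ≃ₐ[ℚ] K) z).zpow_mem h1 j
  have hFK : Module.finrank F K = 3 := by
    rw [hF, finrank_fixedField_eq_card, Nat.card_zpowers, hρ]
  have hQF : Module.finrank ℚ F = 2 := by
    have h2 := Module.finrank_mul_finrank ℚ F K
    rw [hFK, hrank] at h2
    omega
  -- `ρ` moves `y` and `x`
  have hρy : ρ y ≠ y := by
    intro h
    have h1 : ℚ⟮y⟯ ≤ F := by
      rw [adjoin_simple_le_iff]
      exact hmem y h
    rw [htop, top_le_iff] at h1
    have h2 : Module.finrank F K = 1 := by rw [h1]; exact IntermediateField.finrank_top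
    omega
  have hρx : ρ x ≠ x := by
    intro h
    have r1 := hG.rel
    have r2 := congrArg ρ r1
    simp only [map_add, map_mul, map_pow, map_one, h] at r2
    have h3 : (ρ y - y) * (ρ y + y + (x ^ 3 + x ^ 2 + 1)) = 0 := by
      linear_combination r2 - r1
    rcases mul_eq_zero.1 h3 with h4 | h4
    · exact hρy (sub_eq_zero.1 h4)
    · have h5 := congrArg ρ h4
      simp only [map_add, map_pow, map_one, map_zero, h] at h5
      have h6 : ρ (ρ y) = y := by linear_combination h5 - h4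
      have h7 := hρ3 y
      rw [h6] at h7
      exact hρy h7
  set x2 : K := ρ x with hx2
  set x3 : K := ρ x2 with hx3
  have h12 : x ≠ x2 := fun h => hρx h.symm
  have h23 : x2 ≠ x3 := fun h => h12 (ρ.injective h)
  have hx1 : ρ x3 = x := hρ3 x
  have h31 : x3 ≠ x := by
    intro h
    have h1 := congrArg ρ h
    rw [hx1] at h1
    exact h12 h1
  have r2 := congrArg ρ hcub
  simp only [map_add, map_mul, map_one, map_zero, map_natCast, ← hx2] at r2
  have r3 := congrArg ρ r2
  simp only [map_add, map_mul, map_one, map_zero, map_natCast, ← hx3] at r3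
  obtain ⟨s1, s2, s3⟩ := NonGal.sym (n : K) x x2 x3 h12 h23 h31 hcub r2 r3
  have hdisc := NonGal.disc_formula (n : K) _ _ _ x x2 x3 rfl rfl rfl s1 s2 s3
  -- the square root of the discriminant
  set d : K := (x - x2) * (x2 - x3) * (x3 - x) with hd
  have hdF : d ∈ F := by
    apply hmem
    rw [hd]
    simp only [map_mul, map_sub, ← hx2, ← hx3, hx1]
    ring
  set δ : F := ⟨d, hdF⟩ with hδ
  set u : ℤ := (2 * m + 1) * ((n : ℤ) - 2) * (n - 1) * (n + 1) with hu
  set D : ℚ := 23 * (23 * (u : ℚ) - 1) with hD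
  have hDn : D = (n : ℚ) ^ 4 - 6 * n ^ 3 + 7 * n ^ 2 + 6 * n - 31 := by
    rw [hD, hu]
    push_cast
    have : (n : ℚ) = 1058 * m + 533 := by rw [hn]; push_cast; ring
    rw [this]; ring
  have hδ2 : δ * δ = algebraMap ℚ F D := by
    apply Subtype.ext
    show d * d = algebraMap ℚ K D
    rw [← pow_two, hdisc, hDn]
    simp
  have hδn : ∀ q : ℚ, δ ≠ algebraMap ℚ F q := by
    intro q hq
    rw [hq, ← map_mul] at hδ2
    have h1 : q * q = D := (algebraMap ℚ F).injective hδ2
    have h2 := NonGal.descentQ u q 0 1 (by rw [← hD, ← h1]; ring)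
    norm_num at h2
  -- the basis `1, δ`
  have hli : LinearIndependent ℚ ![(1 : F), δ] := by
    rw [LinearIndependent.pair_iff]
    intro s t hst
    by_cases ht : t = 0
    · subst ht
      rw [zero_smul, add_zero, Algebra.smul_def, mul_one] at hst
      exact ⟨(map_eq_zero _).1 hst, rfl⟩
    · exfalso
      apply hδn (-s / t)
      rw [Algebra.smul_def, Algebra.smul_def, mul_one] at hst
      have ht' : algebraMap ℚ F t ≠ 0 := (_root_.map_ne_zero _).2 ht
      rw [map_div₀, map_neg, eq_div_iff ht']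
      linear_combination hst
  have hQF' : Fintype.card (Fin 2) = Module.finrank ℚ F := by rw [hQF]; rfl
  set b : Module.Basis (Fin 2) ℚ F := basisOfLinearIndependentOfCardEqFinrank hli hQF' with hb
  have hb0 : b 0 = 1 := by rw [hb, coe_basisOfLinearIndependentOfCardEqFinrank]; rfl
  have hb1 : b 1 = δ := by rw [hb, coe_basisOfLinearIndependentOfCardEqFinrank]; rfl
  -- the norm to the quadratic field
  set w : F := Algebra.norm F y with hw
  have hNw : Algebra.norm ℚ w = -1 := by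
    rw [hw, Algebra.norm_norm, hnorm]
  set a : ℚ := b.repr w 0 with ha
  set c : ℚ := b.repr w 1 with hc
  have hwe : w = a • b 0 + c • b 1 := by
    have := b.sum_repr w
    rw [Fin.sum_univ_two] at this
    exact this.symm
  have e0 : w * b 0 = a • b 0 + c • b 1 := by rw [hb0, mul_one, ← hb0]; exact hwe
  have e1 : w * b 1 = (c * D) • b 0 + a • b 1 := by
    rw [hwe, hb0, hb1]
    simp only [Algebra.smul_def, mul_one, map_mul]
    linear_combination (algebraMap ℚ F c) * hδ2
  have hdet : Algebra.norm ℚ w = a ^ 2 - D * c ^ 2 := by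
    rw [Algebra.norm_eq_matrix_det b, Matrix.det_fin_two]
    have m00 : Algebra.leftMulMatrix b w 0 0 = a := by
      rw [Algebra.leftMulMatrix_eq_repr_mul, e0]; simp
    have m10 : Algebra.leftMulMatrix b w 1 0 = c := by
      rw [Algebra.leftMulMatrix_eq_repr_mul, e0]; simp
    have m01 : Algebra.leftMulMatrix b w 0 1 = c * D := by
      rw [Algebra.leftMulMatrix_eq_repr_mul, e1]; simp
    have m11 : Algebra.leftMulMatrix b w 1 1 = a := by
      rw [Algebra.leftMulMatrix_eq_repr_mul, e1]; simp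
    rw [m00, m10, m01, m11]; ring
  rw [hNw] at hdet
  have h1 := NonGal.descentQ u a 1 c (by rw [← hD]; linear_combination -hdet)
  rw [h1, zero_pow (by norm_num), mul_zero, sub_zero] at hdet
  have h2 := sq_nonneg a
  linarith

end Pool.Agent.BEK
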