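import Pool.Agent.BEK.CIRC

set_option autoImplicit false

/-!
# PERT: perturbation of nice functions
-/

namespace Pool.Agent.BEK

open NiceX CircX

theorem pert_proof : Stmt_Pert := by
  intro C₀ w g₀ h₀
  have hC : 0 ≤ C₀ := (abs_nonneg _).trans (h₀.size 0)
  have hpi := Real.pi_pos
  -- bounds for `g₀`
  have hlow : ∀ θ, Real.exp (-C₀) ≤ ‖g₀ θ‖ := by
    intro θ
    have h1 := (abs_le.mp (h₀.size θ)).1
    rw [← Real.exp_log (norm_pos_iff.mpr (h₀.ne θ))]
    exact Real.exp_le_exp.mpr h1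
  have hup : ∀ θ, ‖g₀ θ‖ ≤ Real.exp C₀ := by
    intro θ
    have h1 := (abs_le.mp (h₀.size θ)).2
    rw [← Real.exp_log (norm_pos_iff.mpr (h₀.ne θ))]
    exact Real.exp_le_exp.mpr h1
  have hE : 0 < Real.exp (-C₀) := Real.exp_pos _
  have hEE : Real.exp (-C₀) ≤ Real.exp C₀ := Real.exp_le_exp.mpr (by linarith)
  have hcont : Continuous (deriv g₀) := h₀.smooth.continuous_deriv (by norm_num)
  have hper : Function.Periodic (deriv g₀) (2 * Real.pi) := by
    intro θ
    rw [← deriv_comp_add_const]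
    congr 1
    ext x
    exact h₀.periodic x
  obtain ⟨B, hB⟩ := (isCompact_Icc (a := (0 : ℝ)) (b := 2 * Real.pi)).exists_bound_of_continuousOn
    hcont.continuousOn
  have hB' : ∀ θ, ‖deriv g₀ θ‖ ≤ B := by
    intro θ
    obtain ⟨y, hy, hy'⟩ := hper.exists_mem_Ico₀ (by positivity) θ
    rw [hy']
    exact hB y ⟨hy.1, hy.2.le⟩
  have hB0 : 0 ≤ B := (norm_nonneg _).trans (hB' 0)
  refine ⟨Real.exp (-C₀) / 2, C₀ + Real.log 2 +
    (B + Real.exp (-C₀) / 2) / (Real.exp (-C₀) / 2), by positivity, ?_⟩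
  intro g hg hgp hd hd'
  have hl2 : 0 ≤ Real.log 2 := Real.log_nonneg (by norm_num)
  have hq : 0 ≤ (B + Real.exp (-C₀) / 2) / (Real.exp (-C₀) / 2) := by positivity
  have hlg : ∀ θ, Real.exp (-C₀) / 2 ≤ ‖g θ‖ := by
    intro θ
    have h1 := norm_sub_norm_le (g₀ θ) (g θ)
    rw [norm_sub_rev] at h1
    have h2 := hd θ
    have h3 := hlow θ
    linarith
  have hg0 : ∀ θ, g θ ≠ 0 := by
    intro θ h
    have := hlg θ
    rw [h, norm_zero] at this
    linarith
  have hug : ∀ θ, ‖g θ‖ ≤ 2 * Real.exp C₀ := by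
    intro θ
    have h1 := norm_sub_norm_le (g θ) (g₀ θ)
    have h2 := hd θ
    have h3 := hup θ
    linarith
  refine ⟨hg, hgp, hg0, fun θ => ?_, fun θ => ?_, ?_⟩
  · have e1 : Real.log (Real.exp (-C₀) / 2) ≤ Real.log ‖g θ‖ :=
      Real.log_le_log (by positivity) (hlg θ)
    have e2 : Real.log ‖g θ‖ ≤ Real.log (2 * Real.exp C₀) :=
      Real.log_le_log (norm_pos_iff.mpr (hg0 θ)) (hug θ)
    rw [Real.log_div (by positivity) (by norm_num), Real.log_exp] at e1
    rw [Real.log_mul (by norm_num) (by positivity), Real.log_exp] at e2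
    rw [abs_le]
    constructor <;> linarith
  · have e1 : |darg g θ| ≤ (B + Real.exp (-C₀) / 2) / (Real.exp (-C₀) / 2) := by
      unfold darg
      refine (Complex.abs_im_le_norm _).trans ?_
      rw [norm_div]
      apply div_le_div₀ (by positivity) _ (by positivity) (hlg θ)
      have h1 := norm_sub_norm_le (deriv g θ) (deriv g₀ θ)
      have h2 := hd' θ
      have h3 := hB' θ
      linarith
    linarith
  · -- the quotient
    have hqs : ContDiff ℝ 1 (fun θ => g θ * (g₀ θ)⁻¹) := hg.mul (h₀.smooth.inv h₀.ne)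
    have hqp : ∀ θ, (fun θ => g θ * (g₀ θ)⁻¹) (θ + 2 * Real.pi) =
        (fun θ => g θ * (g₀ θ)⁻¹) θ := by
      intro θ
      simp only
      rw [hgp, h₀.periodic]
    have hsl : ∀ θ, (fun θ => g θ * (g₀ θ)⁻¹) θ ∈ Complex.slitPlane := by
      intro θ
      have h1 : g θ * (g₀ θ)⁻¹ = 1 + (g θ - g₀ θ) * (g₀ θ)⁻¹ := by
        have := h₀.ne θ
        field_simp
        ring
      simp only
      rw [h1]
      apply Complex.mem_slitPlane_of_norm_lt_one
      rw [norm_mul, norm_inv, mul_inv_lt_iff₀ (norm_pos_iff.mpr (h₀.ne θ))]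
      have h2 := hd θ
      have h3 := hlow θ
      linarith
    have h2 : ∀ θ, darg g θ = darg g₀ θ + darg (fun θ => g θ * (g₀ θ)⁻¹) θ := by
      intro θ
      rw [← darg_mul h₀.smooth hqs h₀.ne (fun θ => Complex.slitPlane_ne_zero (hsl θ))]
      congr 1
      ext x
      have := h₀.ne x
      field_simp
    simp_rw [h2]
    rw [intervalIntegral.integral_add ((cont_darg h₀.smooth h₀.ne).intervalIntegrable _ _)
      ((cont_darg hqs fun θ => Complex.slitPlane_ne_zero (hsl θ)).intervalIntegrable _ _),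
      h₀.wind, wind0 hqs hqp hsl, add_zero]

end Pool.Agent.BEK
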