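import Pool.Agent.BEK.Stmts

set_option autoImplicit false

/-!
# Module PAR: identities between the basic units of `X_1(13)`
-/

namespace Pool.Agent.BEK

namespace Par

variable {F : Type} [Field F] {x y : F}

theorem r1 (h : Good x y) : (1 - x * y) * (x * (x + 1)) = y * (y + 1) := by
  linear_combination (-1) * h.rel

theorem r2 (h : Good x y) : (x + y + 1) * (y + 1) = (x + 1) ^ 2 * ww x y := by
  unfold ww
  linear_combination h.rel

theorem dx1 (h : Good x y) : -(x + 1) / x + 1 = -1 / x := by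
  have := h.x0
  field_simp
  ring

theorem dy1 (h : Good x y) : -y / ww x y + 1 = y * (y + 1) / (x * (x + 1) * ww x y) := by
  have h0 := h.x0
  have h1 := h.x1
  have hw := h.w0
  rw [div_add_one hw, div_eq_div_iff hw (mul_ne_zero (mul_ne_zero h0 h1) hw)]
  unfold ww
  linear_combination (x * y - y - 1) * h.rel

theorem dw (h : Good x y) :
    ww (-(x + 1) / x) (-y / ww x y) = -(y * (y + 1) ^ 2) / ((x + 1) * ww x y ^ 2) := by
  have h0 := h.x0
  have h1 := h.x1
  have hw := h.w0
  rw [show ww (-(x + 1) / x) (-y / ww x y) = -y / ww x y + 1 - -(x + 1) / x * (-y / ww x y)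
    from rfl]
  field_simp
  unfold ww
  linear_combination (x * y - 1) * h.rel

theorem b0 (h : Good x y) : bb x y ≠ 0 := by
  unfold bb
  exact div_ne_zero (neg_ne_zero.mpr (mul_ne_zero (pow_ne_zero 2 h.y0) h.w0)) h.x1

theorem c0 (h : Good x y) : cc x y ≠ 0 := by
  unfold cc
  exact div_ne_zero (neg_ne_zero.mpr (mul_ne_zero (mul_ne_zero h.x0 h.y0) h.w0)) h.y1

theorem bc (h : Good x y) : bb x y - cc x y = x ^ 2 * y ^ 2 * ww x y / (y + 1) := by
  have h0 := h.x0
  have h1 := h.x1
  have hw := h.w0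
  have hy := h.y1
  unfold bb cc
  field_simp
  linear_combination (-y) * h.rel

theorem byw (h : Good x y) :
    bb x y - y * ww x y = -((x + 1) * y * ww x y ^ 2) / (y + 1) := by
  have h0 := h.x0
  have h1 := h.x1
  have hw := h.w0
  have hy := h.y1
  unfold bb
  field_simp
  unfold ww
  linear_combination (-y) * h.rel

theorem cyw (h : Good x y) :
    cc x y - y * ww x y = -((x + 1) ^ 2 * y * ww x y ^ 2) / (y + 1) ^ 2 := by
  have h0 := h.x0
  have h1 := h.x1
  have hw := h.w0
  have hy := h.y1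
  unfold cc
  field_simp
  unfold ww
  linear_combination (-y) * h.rel

theorem bcc (h : Good x y) :
    bb x y - cc x y - cc x y ^ 2 = x ^ 3 * y ^ 3 * ww x y / (y + 1) ^ 2 := by
  have h0 := h.x0
  have h1 := h.x1
  have hw := h.w0
  have hy := h.y1
  rw [bc h]
  unfold cc
  field_simp
  unfold ww
  linear_combination (0) * h.rel

theorem last (h : Good x y) :
    2 * (-((x + 1) * ww x y) * (y * ww x y)) + (1 - cc x y) * (y * ww x y) - bb x y =
      -((x + 1) ^ 4 * y ^ 2 * ww x y ^ 3) / (x * (y + 1) ^ 3) := by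
  have h0 := h.x0
  have h1 := h.x1
  have hw := h.w0
  have hy := h.y1
  unfold bb cc
  field_simp
  unfold ww
  linear_combination (x^4*y^3 + 2*x^3*y^3 - x^2*y^3 - x^3*y^2 - x*y^3 - 4*x^2*y^2 + 2*x*y + y^2 + y) * h.rel

theorem good (h : Good x y) : Good (-(x + 1) / x) (-y / ww x y) where
  rel := by
    have h0 := h.x0
    have hw := h.w0
    field_simp
    unfold ww
    linear_combination h.rel
  x0 := div_ne_zero (neg_ne_zero.mpr h.x1) h.x0
  x1 := by
    rw [dx1 h]
    exact div_ne_zero (neg_ne_zero.mpr one_ne_zero) h.x0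
  y0 := div_ne_zero (neg_ne_zero.mpr h.y0) h.w0
  y1 := by
    rw [dy1 h]
    exact div_ne_zero (mul_ne_zero h.y0 h.y1) (mul_ne_zero (mul_ne_zero h.x0 h.x1) h.w0)
  w0 := by
    rw [dw h]
    exact div_ne_zero (neg_ne_zero.mpr (mul_ne_zero h.y0 (pow_ne_zero 2 h.y1)))
      (mul_ne_zero h.x1 (pow_ne_zero 2 h.w0))

end Par

/-- Module PAR. -/
theorem par_proof : Stmt_Par := by
  intro F _ x y h
  refine ⟨?_, ?_, Par.good h, Par.dx1 h, Par.dy1 h, Par.dw h, ⟨Par.b0 h, Par.c0 h⟩, Par.bc h,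
    Par.byw h, Par.cyw h, Par.bcc h, Par.last h⟩
  · rw [eq_div_iff (mul_ne_zero h.x0 h.x1)]
    exact Par.r1 h
  · rw [eq_div_iff h.y1]
    exact Par.r2 h

end Pool.Agent.BEK
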