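import Pool.Agent.BEK.Stmts

set_option autoImplicit false

namespace Pool.Agent.BEK

namespace Prod

variable {F : Type} [Field F]

theorem id1 (x y : F) (h : Good x y) :
    bb x y + (y * (1 - x)) ^ 2 + (1 - cc x y) * (y * (1 - x)) = 2 * cc x y + y * ww x y := by
  have h1 := h.x1
  have h2 := h.y1
  unfold bb cc
  field_simp
  unfold ww
  linear_combination (x*y^2 - y^2 - y) * h.rel

theorem id2 (x y : F) (h : Good x y) :
    2 * (y * (1 - x)) * (bb x y - cc x y - y * (1 - x) * cc x y) +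
      (1 - cc x y) * (bb x y - cc x y - y * (1 - x) * cc x y) - bb x y * (y * (1 - x)) =
      -(cc x y ^ 2 + 2 * cc x y * (y * ww x y)) := by
  have h1 := h.x1
  have h2 := h.y1
  unfold bb cc
  field_simp
  unfold ww
  linear_combination (-x^3*y^4 + x^2*y^4 + x^2*y^3 + x*y^4 + 2*x*y^3 + x*y^2 - y^4 - 3*y^3 -
    3*y^2 - y) * h.rel

theorem id3 (x y : F) (h : Good x y) :
    (bb x y - cc x y - y * (1 - x) * cc x y) ^ 2 -
      bb x y * (bb x y - cc x y - y * (1 - x) * cc x y) = cc x y ^ 2 * (y * ww x y) := by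
  have h1 := h.x1
  have h2 := h.y1
  unfold bb cc
  field_simp
  unfold ww
  linear_combination (x^5*y^5 - 2*x^4*y^5 - 3*x^4*y^4 + 3*x^3*y^4 + 3*x^3*y^3 + 2*x^2*y^5 +
    3*x^2*y^4 - x^2*y^2 - x*y^5 - 3*x*y^4 - 3*x*y^3 - x*y^2) * h.rel

theorem id4 (x y : F) (h : Good x y) :
    bb x y + ((x + 1) * ww x y) ^ 2 - (1 - cc x y) * ((x + 1) * ww x y) =
      2 * (y * ww x y) := by
  have h1 := h.x1
  have h2 := h.y1
  unfold bb cc
  field_simp
  unfold ww
  linear_combination (x^2*y + x*y^2 - x - y^2 - 2*y - 1) * h.rel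

theorem id5 (x y : F) (h : Good x y) :
    bb x y * ((x + 1) * ww x y) = -(y * ww x y) ^ 2 := by
  have h1 := h.x1
  unfold bb
  field_simp

theorem conjc (s : St F) : s.conj.c = s.c := rfl
theorem conjb (s : St F) : s.conj.b = s.b := rfl

theorem T3conj (s : St F) (h : Good s.x s.y) (hE : s.OnE) :
    s.T3 * s.conj.T3 = -((s.X - s.c) ^ 2 * (s.X - s.y * s.w)) := by
  have e1 := id1 s.x s.y h
  have e2 := id2 s.x s.y h
  have e3 := id3 s.x s.y h
  unfold St.OnE at hE
  unfold St.T3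
  rw [conjc, conjb]
  show (s.Y - (s.b - s.c) - s.y * (1 - s.x) * (s.X - s.c)) *
    ((-s.Y - (1 - s.c) * s.X + s.b) - (s.b - s.c) - s.y * (1 - s.x) * (s.X - s.c)) = _
  have fb : bb s.x s.y = s.b := rfl
  have fc : cc s.x s.y = s.c := rfl
  have fw : ww s.x s.y = s.w := rfl
  rw [fb, fc, fw] at e1 e2 e3
  generalize s.b = b at *
  generalize s.c = c at *
  generalize s.w = w at *
  generalize s.X = X at *
  generalize s.Y = Y at *
  generalize s.x = x at *
  generalize s.y = y at *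
  linear_combination -hE + X ^ 2 * e1 + X * e2 + e3

theorem L6conj (s : St F) (h : Good s.x s.y) (hE : s.OnE) :
    s.L6 * s.conj.L6 = -(s.X * (s.X - s.y * s.w) ^ 2) := by
  have e1 := id4 s.x s.y h
  have e2 := id5 s.x s.y h
  unfold St.OnE at hE
  show (s.Y + (s.x + 1) * s.w * s.X) *
    ((-s.Y - (1 - s.c) * s.X + s.b) + (s.x + 1) * s.w * s.X) = _
  have fb : bb s.x s.y = s.b := rfl
  have fc : cc s.x s.y = s.c := rfl
  have fw : ww s.x s.y = s.w := rfl
  rw [fb, fw] at e1 e2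
  rw [fc] at e1
  generalize s.b = b at *
  generalize s.c = c at *
  generalize s.w = w at *
  generalize s.X = X at *
  generalize s.Y = Y at *
  generalize s.x = x at *
  generalize s.y = y at *
  linear_combination -hE + X ^ 2 * e1 + X * e2

end Prod

theorem prod_proof : Stmt_Prod := by
  intro F _ s h hE
  refine ⟨?_, ?_, ?_, ?_, Prod.T3conj s h hE, Prod.L6conj s h hE⟩
  · unfold St.OnE at hE ⊢
    rw [Prod.conjc, Prod.conjb]
    show (-s.Y - (1 - s.c) * s.X + s.b) ^ 2 + (1 - s.c) * s.X * (-s.Y - (1 - s.c) * s.X + s.b) -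
      s.b * (-s.Y - (1 - s.c) * s.X + s.b) = s.X ^ 3 - s.b * s.X ^ 2
    linear_combination hE
  · have : s.conj.conj = ⟨s.x, s.y, s.X, -(-s.Y - (1 - s.c) * s.X + s.b) - (1 - s.c) * s.X + s.b⟩ :=
      rfl
    rw [this]
    ext
    · rfl
    · rfl
    · rfl
    · show -(-s.Y - (1 - s.c) * s.X + s.b) - (1 - s.c) * s.X + s.b = s.Y
      ring
  · unfold St.OnE at hE
    show s.Y * (-s.Y - (1 - s.c) * s.X + s.b) = _
    linear_combination -hE
  · unfold St.OnE at hE
    show (s.Y - s.c * s.X) * ((-s.Y - (1 - s.c) * s.X + s.b) - s.c * s.X) = _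
    linear_combination -hE

end Pool.Agent.BEK
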