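import Mathlib
import Pool.Agent.BEK.Stmts

set_option autoImplicit false

/-!
# Squad BEK, module ROOTS: the six real points
-/

namespace Pool.Agent.BEK
namespace Roots

/-- the first coordinate of the diamond operator -/
noncomputable def mu (x : ℝ) : ℝ := -(x + 1) / x

theorem fst_iter (p : ℝ × ℝ) (k : ℕ) : (dia^[k] p).1 = mu^[k] p.1 := by
  induction k with
  | zero => rfl
  | succ k ih =>
    rw [Function.iterate_succ_apply', Function.iterate_succ_apply', ← ih]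
    rfl

theorem mu_add_one {x : ℝ} (hx : x ≠ 0) : mu x + 1 = -1 / x := by
  unfold mu; field_simp; ring

theorem mu2 {x : ℝ} (hx : x ≠ 0) (hx1 : x + 1 ≠ 0) : mu (mu x) = -1 / (x + 1) := by
  have h1 : mu (mu x) = -(mu x + 1) / mu x := rfl
  rw [h1, mu_add_one hx]
  unfold mu
  field_simp

theorem mu3 {x : ℝ} (hx : x ≠ 0) (hx1 : x + 1 ≠ 0) : mu (mu (mu x)) = x := by
  rw [mu2 hx hx1]
  unfold mu
  field_simp
  ring

theorem mu3' {x : ℝ} (hx : x ≠ 0) (hx1 : x + 1 ≠ 0) : mu^[3] x = x := mu3 hx hx1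

theorem mu6 {x : ℝ} (hx : x ≠ 0) (hx1 : x + 1 ≠ 0) : mu^[6] x = x := by
  have : mu^[6] x = mu^[3] (mu^[3] x) := rfl
  rw [this, mu3' hx hx1, mu3' hx hx1]

/-- the point of the modular curve over a parameter near `-1` -/
theorem exY (δ : ℝ) (hδ : 0 < δ) : ∃ δ' : ℝ, 0 < δ' ∧ ∀ x : ℝ, x + 1 ≠ 0 → |x + 1| < δ' →
    ∃ y : ℝ, Good x y ∧ |x + 1| < δ ∧ |y| < δ := by
  refine ⟨min δ 1 / 16, by positivity, ?_⟩
  intro x hx1 hx
  have hm1 : min δ 1 ≤ δ := min_le_left _ _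
  have hm2 : min δ 1 ≤ 1 := min_le_right _ _
  have hm0 : 0 < min δ 1 := lt_min hδ one_pos
  have he := abs_lt.1 hx
  set e := x + 1 with hedef
  have hxe : x = e - 1 := by rw [hedef]; ring
  have he1 : |e| < 1 / 16 := by
    refine lt_of_lt_of_le hx ?_
    linarith
  have he2 := abs_lt.1 he1
  have hx0 : x ≠ 0 := by
    intro h
    rw [h] at hxe
    linarith
  set P := x ^ 3 + x ^ 2 + 1 with hP
  set Q := x ^ 2 + x with hQ
  have hQe : Q = x * e := by rw [hQ, hedef]; ring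
  have hPe : P = x ^ 2 * e + 1 := by rw [hP, hedef]; ring
  have hxb : |x| ≤ 17 / 16 := by
    rw [abs_le]; constructor <;> linarith
  have hx2 : x ^ 2 ≤ 2 := by nlinarith
  have hx2' : 0 ≤ x ^ 2 := sq_nonneg x
  have hPl : 7 / 8 ≤ P := by
    rw [hPe]
    nlinarith
  have hQb : |Q| ≤ 17 / 16 * |e| := by
    rw [hQe, abs_mul]
    exact mul_le_mul_of_nonneg_right hxb (abs_nonneg e)
  have hQb2 : |Q| ≤ 17 / 256 := by
    linarith
  have hQb3 := abs_le.1 hQb2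
  have hD : 0 ≤ P ^ 2 + 4 * Q := by nlinarith
  set s := Real.sqrt (P ^ 2 + 4 * Q) with hs
  have hs0 : 0 ≤ s := Real.sqrt_nonneg _
  have hs2 : s ^ 2 = P ^ 2 + 4 * Q := Real.sq_sqrt hD
  set y := (s - P) / 2 with hy
  have hyQ : y * (s + P) = 2 * Q := by
    rw [hy]
    have : (s - P) / 2 * (s + P) = (s ^ 2 - P ^ 2) / 2 := by ring
    rw [this, hs2]; ring
  have hyb : |y| ≤ 5 * |e| := by
    have h1 : |y| * (s + P) = 2 * |Q| := by
      have h2 : |y * (s + P)| = |2 * Q| := by rw [hyQ]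
      rw [abs_mul, abs_mul, abs_of_nonneg (show (0 : ℝ) ≤ s + P by linarith)] at h2
      rw [h2]; norm_num
    have h3 : |y| * (7 / 8) ≤ |y| * (s + P) :=
      mul_le_mul_of_nonneg_left (by linarith) (abs_nonneg y)
    have h4 : 0 ≤ |e| := abs_nonneg e
    linarith
  have hy5 : |y| ≤ 5 / 16 := by linarith
  have hy6 := abs_le.1 hy5
  refine ⟨y, ⟨?_, hx0, hx1, ?_, ?_, ?_⟩, ?_, ?_⟩
  · -- the equation
    have : y ^ 2 + P * y = Q := by
      have h1 : s = 2 * y + P := by rw [hy]; ring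
      rw [h1] at hyQ
      linarith [hyQ]
    rw [hP, hQ] at this
    linarith
  · intro h
    rw [h, zero_mul] at hyQ
    have hQ0 : Q = 0 := by linarith
    rw [hQe] at hQ0
    rcases mul_eq_zero.1 hQ0 with h | h
    · exact hx0 h
    · exact hx1 h
  · intro h
    linarith
  · intro h
    have h1 : ww x y = y + 1 - x * y := rfl
    rw [h1] at h
    have h2 : y * (1 - x) = -1 := by linarith
    have h3 : |y * (1 - x)| = 1 := by rw [h2]; norm_num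
    rw [abs_mul] at h3
    have h4 : |1 - x| ≤ 33 / 16 := by
      rw [abs_le]; constructor <;> linarith
    have h5 : |y| * |1 - x| ≤ 5 / 16 * (33 / 16) :=
      mul_le_mul hy5 h4 (abs_nonneg _) (by norm_num)
    rw [h3] at h5
    norm_num at h5
  · linarith
  · linarith

/-- roots of the cubic -/
theorem exRoot (ε : ℝ) (hε : 0 < ε) : ∃ n₀ : ℕ, ∀ n : ℕ, n₀ ≤ n →
    (∃ x : ℝ, x ≠ 0 ∧ x + 1 ≠ 0 ∧ x * (x + 1) * (x + n) + 1 = 0 ∧ |x + 1| < ε) ∧
    (∃ x : ℝ, x ≠ 0 ∧ x + 1 ≠ 0 ∧ x * (x + 1) * (x + n) + 1 = 0 ∧ |-1 / x| < ε) ∧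
    (∃ x : ℝ, x ≠ 0 ∧ x + 1 ≠ 0 ∧ x * (x + 1) * (x + n) + 1 = 0 ∧ |x / (x + 1)| < ε) := by
  set η := min ε 1 / 4 with hη
  have hm0 : 0 < min ε 1 := lt_min hε one_pos
  have hη0 : 0 < η := by positivity
  have hη1 : η ≤ 1 / 4 := by
    have : min ε 1 ≤ 1 := min_le_right _ _
    rw [hη]; linarith
  have hηε : 4 * η ≤ ε := by
    have : min ε 1 ≤ ε := min_le_left _ _
    rw [hη]; linarith
  obtain ⟨n₀, hn₀⟩ := exists_nat_gt (2 / η + 1)
  refine ⟨n₀, fun n hn => ?_⟩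
  have hn' : 2 / η + 1 < (n : ℝ) := lt_of_lt_of_le hn₀ (by exact_mod_cast hn)
  have h2η : 0 < 2 / η := by positivity
  have hnη : 2 < ((n : ℝ) - 1) * η := by
    have : 2 / η < (n : ℝ) - 1 := by linarith
    rwa [div_lt_iff₀ hη0] at this
  have hn1 : (1 : ℝ) < n := by linarith
  set q : ℝ → ℝ := fun x => x * (x + 1) * (x + n) + 1 with hq
  have hqc : Continuous q := by rw [hq]; fun_prop
  have q0 : q 0 = 1 := by simp [hq]
  have q1 : q (-1) = 1 := by simp [hq]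
  have qn : q (-n) = 1 := by simp [hq]
  have hne : ∀ x, q x = 0 → x ≠ 0 ∧ x + 1 ≠ 0 := by
    intro x hx
    constructor
    · rintro rfl
      rw [q0] at hx; exact one_ne_zero hx
    · intro h
      have : x = -1 := by linarith
      rw [this, q1] at hx; exact one_ne_zero hx
  refine ⟨?_, ?_, ?_⟩
  · -- near -1
    have h1 : q (-1 + η) ≤ 0 := by
      show (-1 + η) * (-1 + η + 1) * (-1 + η + n) + 1 ≤ 0
      have e1 : (-1 + η) * (-1 + η + 1) * (-1 + η + (n : ℝ)) + 1 =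
        -(((n : ℝ) - 1) * η + η * η) * (1 - η) + 1 := by ring
      have e2 : 2 ≤ ((n : ℝ) - 1) * η + η * η := by
        have := mul_pos hη0 hη0
        linarith
      have e3 : 2 * (3 / 4 : ℝ) ≤ (((n : ℝ) - 1) * η + η * η) * (1 - η) :=
        mul_le_mul e2 (by linarith) (by norm_num) (by linarith)
      rw [e1, neg_mul]
      linarith
    obtain ⟨x, hx, hx0⟩ := intermediate_value_Icc' (show (-1 : ℝ) ≤ -1 + η by linarith)
      hqc.continuousOn ⟨h1, by rw [q1]; exact zero_le_one⟩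
    obtain ⟨ha, hb⟩ := hne x hx0
    refine ⟨x, ha, hb, hx0, ?_⟩
    rw [abs_lt]
    constructor <;> linarith [hx.1, hx.2]
  · have h1 : q (-(2 * n)) ≤ 0 := by
      show -(2 * (n : ℝ)) * (-(2 * (n : ℝ)) + 1) * (-(2 * (n : ℝ)) + n) + 1 ≤ 0
      have : -(2 * (n : ℝ)) * (-(2 * (n : ℝ)) + 1) * (-(2 * (n : ℝ)) + n) + 1 =
        -(2 * (n : ℝ) ^ 2 * (2 * n - 1)) + 1 := by ring
      rw [this]
      have h3 : (1 : ℝ) ≤ (n : ℝ) ^ 2 := by nlinarith
      nlinarith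
    obtain ⟨x, hx, hx0⟩ := intermediate_value_Icc (show -(2 * (n : ℝ)) ≤ -n by linarith)
      hqc.continuousOn ⟨h1, by rw [qn]; exact zero_le_one⟩
    obtain ⟨ha, hb⟩ := hne x hx0
    refine ⟨x, ha, hb, hx0, ?_⟩
    have hxn : x ≤ -n := hx.2
    have hx' : x < 0 := by linarith
    rw [abs_div, abs_neg, abs_one, abs_of_neg hx', div_lt_iff₀ (by linarith)]
    nlinarith
  · have h1 : q (-η) ≤ 0 := by
      show (-η) * (-η + 1) * (-η + n) + 1 ≤ 0
      have e1 : (-η) * (-η + 1) * (-η + (n : ℝ)) + 1 =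
        -(((n : ℝ) - 1) * η + η * (1 - η)) * (1 - η) + 1 := by ring
      have e2 : 2 ≤ ((n : ℝ) - 1) * η + η * (1 - η) := by
        have := mul_pos hη0 (show 0 < 1 - η by linarith)
        linarith
      have e3 : 2 * (3 / 4 : ℝ) ≤ (((n : ℝ) - 1) * η + η * (1 - η)) * (1 - η) :=
        mul_le_mul e2 (by linarith) (by norm_num) (by linarith)
      rw [e1, neg_mul]
      linarith
    obtain ⟨x, hx, hx0⟩ := intermediate_value_Icc (show -η ≤ 0 by linarith)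
      hqc.continuousOn ⟨h1, by rw [q0]; exact zero_le_one⟩
    obtain ⟨ha, hb⟩ := hne x hx0
    refine ⟨x, ha, hb, hx0, ?_⟩
    have h2 : 3 / 4 ≤ x + 1 := by linarith [hx.1]
    rw [abs_div, abs_of_pos (show 0 < x + 1 by linarith), div_lt_iff₀ (by linarith), abs_lt]
    constructor <;> nlinarith [hx.1, hx.2]

theorem exStar (ε : ℝ) (hε : 0 < ε) : ∃ n₀ : ℕ, ∀ n : ℕ, n₀ ≤ n → ∀ m : Fin 6,
    ∃ x : ℝ, x ≠ 0 ∧ x + 1 ≠ 0 ∧ x * (x + 1) * (x + n) + 1 = 0 ∧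
      mu^[(m : ℕ)] x + 1 ≠ 0 ∧ |mu^[(m : ℕ)] x + 1| < ε := by
  obtain ⟨n₀, h⟩ := exRoot ε hε
  refine ⟨n₀, fun n hn m => ?_⟩
  obtain ⟨⟨x0, a0, b0, c0, d0⟩, ⟨x1, a1, b1, c1, d1⟩, ⟨x2, a2, b2, c2, d2⟩⟩ := h n hn
  have e1 : mu x1 + 1 = -1 / x1 := mu_add_one a1
  have f1 : mu x1 + 1 ≠ 0 := by
    rw [e1]; exact div_ne_zero (by norm_num) a1
  have e2 : mu (mu x2) + 1 = x2 / (x2 + 1) := by
    rw [mu2 a2 b2]; field_simp; ring
  have f2 : mu (mu x2) + 1 ≠ 0 := by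
    rw [e2]; exact div_ne_zero a2 b2
  fin_cases m
  · exact ⟨x0, a0, b0, c0, b0, d0⟩
  · exact ⟨x1, a1, b1, c1, f1, by show |mu x1 + 1| < ε; rw [e1]; exact d1⟩
  · exact ⟨x2, a2, b2, c2, f2, by show |mu (mu x2) + 1| < ε; rw [e2]; exact d2⟩
  · have : mu^[3] x0 = x0 := mu3' a0 b0
    exact ⟨x0, a0, b0, c0, by show mu^[3] x0 + 1 ≠ 0; rw [this]; exact b0,
      by show |mu^[3] x0 + 1| < ε; rw [this]; exact d0⟩
  · have : mu^[4] x1 = mu x1 := by
      have h : mu^[4] x1 = mu (mu^[3] x1) := Function.iterate_succ_apply' mu 3 x1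
      rw [h, mu3' a1 b1]
    exact ⟨x1, a1, b1, c1, by show mu^[4] x1 + 1 ≠ 0; rw [this]; exact f1,
      by show |mu^[4] x1 + 1| < ε; rw [this, e1]; exact d1⟩
  · have : mu^[5] x2 = mu (mu x2) := by
      have h : mu^[5] x2 = mu^[2] (mu^[3] x2) := Function.iterate_add_apply mu 2 3 x2
      rw [h, mu3' a2 b2]
      rfl
    exact ⟨x2, a2, b2, c2, by show mu^[5] x2 + 1 ≠ 0; rw [this]; exact f2,
      by show |mu^[5] x2 + 1| < ε; rw [this, e2]; exact d2⟩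

theorem good_iter (hPar : Stmt_Par) (p : ℝ × ℝ) (h : Good p.1 p.2) (k : ℕ) :
    Good (dia^[k] p).1 (dia^[k] p).2 := by
  induction k with
  | zero => exact h
  | succ k ih =>
    rw [Function.iterate_succ_apply']
    exact (hPar ℝ _ _ ih).2.2.1

end Roots

open Roots in
theorem roots_proof (hPar : Stmt_Par) (hAff : Stmt_Aff) : Stmt_Roots := by
  intro δ hδ
  obtain ⟨δ', hδ', hY⟩ := exY δ hδ
  obtain ⟨n₀, hn₀⟩ := exStar δ' hδ'
  refine ⟨n₀, fun n hn m => ?_⟩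
  obtain ⟨xs, ha, hb, hc, hd, he⟩ := hn₀ n hn m
  obtain ⟨y', hg, h1, h2⟩ := hY _ hd he
  set p : ℝ × ℝ := (mu^[(m : ℕ)] xs, y') with hp
  have hm : (m : ℕ) ≤ 6 := by have := m.2; omega
  have hx : (dia^[6 - (m : ℕ)] p).1 = xs := by
    rw [fst_iter]
    show mu^[6 - (m : ℕ)] (mu^[(m : ℕ)] xs) = xs
    rw [← Function.iterate_add_apply, Nat.sub_add_cancel hm, mu6 ha hb]
  have h6 : dia^[6] p = p := (hAff ℝ _ _ hg).2.2.1
  have hback : dia^[(m : ℕ)] (dia^[6 - (m : ℕ)] p) = p := by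
    rw [← Function.iterate_add_apply, Nat.add_sub_cancel' hm, h6]
  have hgood := good_iter hPar p hg (6 - (m : ℕ))
  refine ⟨(dia^[6 - (m : ℕ)] p).1, (dia^[6 - (m : ℕ)] p).2, hgood, ?_, ?_, ?_⟩
  · rw [hx]; exact hc
  · rw [Prod.mk.eta, hback]; exact h1
  · rw [Prod.mk.eta, hback]; exact h2

end Pool.Agent.BEK
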