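import Pool.Agent.BEK.Stmts

/-!
# SEP: a point is near the cusp for at most one `m`
-/

set_option autoImplicit false

namespace Pool.Agent.BEK

namespace SepX

theorem good_iter (hPar : Stmt_Par) {x y : ℝ} (h : Good x y) (k : ℕ) :
    Good (dia^[k] (x, y)).1 (dia^[k] (x, y)).2 := by
  induction k with
  | zero => exact h
  | succ k ih =>
    rw [Function.iterate_succ_apply']
    exact (hPar ℝ _ _ ih).2.2.1

/-- points near the cusp are not near the cusp after `1, …, 5` steps -/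
theorem step_far (hTab : Stmt_Tab) {x y : ℝ} (h : Good x y) (hx : |x + 1| < 1 / 10)
    (hy : |y| < 1 / 10) (d : ℕ) (hd1 : 1 ≤ d) (hd2 : d ≤ 5)
    (hx' : |(dia^[d] (x, y)).1 + 1| < 1 / 10) (hy' : |(dia^[d] (x, y)).2| < 1 / 10) : False := by
  obtain ⟨-, r1, r2, r3, r4, r5, -⟩ := hTab ℝ x y h
  rw [dia_iter] at hx' hy'
  simp only at hx' hy'
  have hx1 := h.x1
  have hx0 := h.x0
  have hy0 := h.y0
  rw [abs_lt] at hx hy
  have hxneg : x < -9 / 10 := by linarith [hx.2]
  have hxneg' : -11 / 10 < x := by linarith [hx.1]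
  have case1 : ¬ |-(x + 1) / x + 1| < 1 / 10 := by
    intro hc
    have e : -(x + 1) / x + 1 = -1 / x := by field_simp; ring
    rw [e, abs_lt] at hc
    have h2 := hc.2
    have hxn : 0 < -x := by linarith
    have e2 : -1 / x = 1 / (-x) := by rw [div_neg, neg_div]
    rw [e2, div_lt_iff₀ hxn] at h2
    linarith
  have case2 : ¬ |-1 / (x + 1) + 1| < 1 / 10 := by
    intro hc
    have e : -1 / (x + 1) + 1 = x / (x + 1) := by field_simp; ring
    rw [e, abs_div] at hc
    have hpos : 0 < |x + 1| := abs_pos.mpr hx1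
    rw [div_lt_iff₀ hpos] at hc
    have h3 : 9 / 10 < |x| := by rw [abs_of_neg (by linarith)]; linarith
    have h4 : |x + 1| < 1 / 10 := abs_lt.mpr hx
    linarith
  interval_cases d
  · rw [r1.x] at hx'; exact case1 hx'
  · rw [r2.x] at hx'; exact case2 hx'
  · rw [r3.y] at hy'
    have e : -(x * (x + 1)) / y = -(y + x ^ 3 + x ^ 2 + 1) := by
      field_simp
      linear_combination h.rel
    rw [e, abs_neg, abs_lt] at hy'
    have h3 : x ^ 3 + x ^ 2 = x ^ 2 * (x + 1) := by ring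
    have h4 : x ^ 2 ≤ 2 := by nlinarith
    have h5 : 0 ≤ x ^ 2 := sq_nonneg x
    have h6 : -(1 / 5) ≤ x ^ 2 * (x + 1) := by nlinarith [hx.1]
    nlinarith [hy'.2, hy.1]
  · rw [r4.x] at hx'; exact case1 hx'
  · rw [r5.x] at hx'; exact case2 hx'

theorem lt_case (hPar : Stmt_Par) (hTab : Stmt_Tab) {x y : ℝ} (h : Good x y) {m m' : ℕ}
    (hm : m < m') (hm' : m' ≤ m + 5)
    (h1 : |(dia^[m] (x, y)).1 + 1| < 1 / 10) (h2 : |(dia^[m] (x, y)).2| < 1 / 10)
    (h3 : |(dia^[m'] (x, y)).1 + 1| < 1 / 10) (h4 : |(dia^[m'] (x, y)).2| < 1 / 10) : False := by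
  obtain ⟨d, rfl⟩ := Nat.exists_eq_add_of_lt hm
  have e : dia^[m + d + 1] (x, y) = dia^[d + 1] ((dia^[m] (x, y)).1, (dia^[m] (x, y)).2) := by
    rw [show m + d + 1 = (d + 1) + m by ring, Function.iterate_add_apply]
  rw [e] at h3 h4
  exact step_far hTab (good_iter hPar h m) h1 h2 (d + 1) (by omega) (by omega) h3 h4

end SepX

open SepX in
theorem sep_proof (hPar : Stmt_Par) (hTab : Stmt_Tab) : Stmt_Sep := by
  refine ⟨1 / 10, by norm_num, fun x y h m m' h1 h2 h3 h4 => ?_⟩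
  by_contra hne
  rcases lt_or_gt_of_ne hne with hlt | hlt
  · exact lt_case hPar hTab h (m := m) (m' := m') hlt (by omega) h1 h2 h3 h4
  · exact lt_case hPar hTab h (m := m') (m' := m) hlt (by omega) h3 h4 h1 h2

end Pool.Agent.BEK
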