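import Pool.Agent.BEK.Stmts

set_option autoImplicit false

namespace Pool.Agent.BEK

namespace Step

variable {F : Type} [Field F]

/-- the `X`-coordinate of `4P` -/
def R2 (x y : F) : F := -(y ^ 2 * (y + 1)) / (x + 1)

/-- constant term of the tangent at `3P` -/
def mm (x y : F) : F := bb x y - cc x y - y * (1 - x) * cc x y

theorem e0 (x y : F) (h : Good x y) : bb x y = cc x y * (1 - x * y) := by
  have h1 := h.x1
  have h2 := h.y1
  unfold bb cc
  field_simp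
  unfold ww
  linear_combination (x*y^2 - y^2 - y) * h.rel

theorem e1 (x y : F) (h : Good x y) :
    -(R2 x y - cc x y) * (1 - cc x y) - (2 * (x * y) - cc x y - y * (x + 1)) * cc x y -
      (x * y - y * (x + 1)) * bb x y - (cc x y + y * (1 - x)) * R2 x y + mm x y = 0 := by
  have h1 := h.x1
  have h2 := h.y1
  unfold R2 mm bb cc
  field_simp
  unfold ww
  ring

theorem e2 (x y : F) (h : Good x y) :
    (R2 x y - cc x y) * bb x y + (x * y - y * (x + 1)) * bb x y * cc x y -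
      mm x y * R2 x y = 0 := by
  have h1 := h.x1
  have h2 := h.y1
  unfold R2 mm bb cc
  field_simp
  unfold ww
  ring

theorem e3 (x y : F) (h : Good x y) :
    (R2 x y - cc x y) - x * y * (cc x y - x * y + y * (x + 1)) - cc x y * (y * (1 - x)) = 0 := by
  have h1 := h.x1
  have h2 := h.y1
  unfold R2 cc
  field_simp
  unfold ww
  linear_combination (-y^2 - y) * h.rel

theorem e4 (x y : F) (h : Good x y) :
    -(R2 x y - cc x y) * bb x y - x * y * ((x * y - y * (x + 1)) * bb x y -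
      cc x y * (cc x y - x * y + y * (x + 1))) - cc x y * (mm x y - y * (1 - x) * R2 x y) = 0 := by
  have h1 := h.x1
  have h2 := h.y1
  unfold R2 mm bb cc
  field_simp
  unfold ww
  linear_combination (x^3*y^4 + x^3*y^3 - x^2*y^3 - x^2*y^2 + x*y^6 + 2*x*y^5 - 2*x*y^3 -
    x*y^2 - y^6 - 3*y^5 - 3*y^4 - y^3) * h.rel

theorem e5 (x y : F) (h : Good x y) :
    x * y * (x * y - y * (x + 1)) * bb x y * cc x y + cc x y * mm x y * R2 x y = 0 := by
  have h1 := h.x1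
  have h2 := h.y1
  unfold R2 mm bb cc
  field_simp
  unfold ww
  linear_combination (-x^3*y^6 + 2*x^2*y^6 + 2*x^2*y^5 - x*y^6 - 2*x*y^5 - x*y^4) * h.rel

theorem e6 (x y : F) (h : Good x y) :
    bb x y + (x * y) ^ 2 - x * y * (1 - cc x y) = cc x y + R2 x y := by
  have h1 := h.x1
  have h2 := h.y1
  unfold R2 bb cc
  field_simp
  unfold ww
  linear_combination (x*y^2) * h.rel

theorem e7 (x y : F) (h : Good x y) :
    -(x * y * bb x y) = cc x y * R2 x y := by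
  have h1 := h.x1
  have h2 := h.y1
  unfold R2 bb cc
  field_simp

/-- the scaling factor -/
def sgx (x y : F) : F := ww x y ^ 2 / (y + 1)

theorem cdia (hPar : Stmt_Par) (x y : F) (h : Good x y) :
    cc (-(x + 1) / x) (-y / ww x y) = y * (y + 1) * (x + 1) / ww x y ^ 2 := by
  obtain ⟨p1, p2, -, p4, p5, p6, -⟩ := hPar F x y h
  have h0 := h.x0
  have h1 := h.x1
  have h2 := h.y0
  have h3 := h.y1
  have h4 := h.w0
  have p5' : -y / ww x y + 1 = y * (y + 1) / (x * (x + 1) * ww x y) := p5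
  have p6' : ww (-(x + 1) / x) (-y / ww x y) = -(y * (y + 1) ^ 2) / ((x + 1) * ww x y ^ 2) := p6
  rw [cc, p5', p6']
  generalize ww x y = w at *
  field_simp

theorem bdia (hPar : Stmt_Par) (x y : F) (h : Good x y) :
    bb (-(x + 1) / x) (-y / ww x y) = -(x * y ^ 3 * (y + 1) ^ 2) / ((x + 1) * ww x y ^ 4) := by
  obtain ⟨p1, p2, -, p4, p5, p6, -⟩ := hPar F x y h
  have h0 := h.x0
  have h1 := h.x1
  have h2 := h.y0
  have h3 := h.y1
  have h4 := h.w0
  have p4' : -(x + 1) / x + 1 = -1 / x := p4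
  have p6' : ww (-(x + 1) / x) (-y / ww x y) = -(y * (y + 1) ^ 2) / ((x + 1) * ww x y ^ 2) := p6
  rw [bb, p4', p6']
  generalize ww x y = w at *
  field_simp

theorem f1 (hPar : Stmt_Par) (x y : F) (h : Good x y) :
    sgx x y ^ 2 * bb (-(x + 1) / x) (-y / ww x y) = R2 x y - bb x y := by
  rw [bdia hPar x y h]
  have h1 := h.x1
  have h3 := h.y1
  have h4 := h.w0
  unfold sgx R2 bb
  field_simp
  unfold ww
  ring

theorem f2 (hPar : Stmt_Par) (x y : F) (h : Good x y) :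
    sgx x y ^ 2 * cc (-(x + 1) / x) (-y / ww x y) = y * ww x y - bb x y := by
  obtain ⟨p1, p2, -, p4, p5, p6, -, -, p9, -⟩ := hPar F x y h
  rw [cdia hPar x y h]
  have h1 := h.x1
  have h3 := h.y1
  have h4 := h.w0
  have : y * ww x y - bb x y = ((x + 1) * y * ww x y ^ 2) / (y + 1) := by
    linear_combination -p9
  rw [this]
  unfold sgx
  generalize ww x y = w at *
  field_simp

theorem f3 (hPar : Stmt_Par) (x y : F) (h : Good x y) :
    sgx x y ^ 2 * (-y / ww x y * ww (-(x + 1) / x) (-y / ww x y)) = - bb x y := by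
  obtain ⟨p1, p2, -, p4, p5, p6, -, -, p9, -⟩ := hPar F x y h
  have p6' : ww (-(x + 1) / x) (-y / ww x y) = -(y * (y + 1) ^ 2) / ((x + 1) * ww x y ^ 2) := p6
  rw [p6']
  have h1 := h.x1
  have h3 := h.y1
  have h4 := h.w0
  unfold sgx bb
  generalize ww x y = w at *
  field_simp

theorem g1 (hPar : Stmt_Par) (x y : F) (h : Good x y) :
    sgx x y * cc (-(x + 1) / x) (-y / ww x y) = y * (x + 1) := by
  rw [cdia hPar x y h]
  have h1 := h.x1
  have h3 := h.y1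
  have h4 := h.w0
  unfold sgx
  generalize ww x y = w at *
  field_simp

theorem g2 (x y : F) (h : Good x y) :
    sgx x y * (-y / ww x y * (1 - -(x + 1) / x)) = -((x + 1) * ww x y) - (cc x y - x * y) := by
  have h0 := h.x0
  have h1 := h.x1
  have h3 := h.y1
  have h4 := h.w0
  unfold sgx cc
  field_simp
  unfold ww
  linear_combination (-1) * h.rel

theorem g3 (hPar : Stmt_Par) (x y : F) (h : Good x y) :
    sgx x y * ((-(x + 1) / x + 1) * ww (-(x + 1) / x) (-y / ww x y)) = 1 - x * y := by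
  obtain ⟨p1, p2, -, p4, p5, p6, -, -, p9, -⟩ := hPar F x y h
  have p4' : -(x + 1) / x + 1 = -1 / x := p4
  have p6' : ww (-(x + 1) / x) (-y / ww x y) = -(y * (y + 1) ^ 2) / ((x + 1) * ww x y ^ 2) := p6
  rw [p4', p6', p1]
  have h0 := h.x0
  have h1 := h.x1
  have h3 := h.y1
  have h4 := h.w0
  unfold sgx
  generalize ww x y = w at *
  field_simp

theorem g4 (hPar : Stmt_Par) (x y : F) (h : Good x y) :
    sgx x y ^ 3 * (bb (-(x + 1) / x) (-y / ww x y) - cc (-(x + 1) / x) (-y / ww x y) -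
      (-y / ww x y * (1 - -(x + 1) / x)) * cc (-(x + 1) / x) (-y / ww x y)) =
      -(bb x y * ((x + 1) * ww x y + cc x y)) := by
  have q1 := f1 hPar x y h
  have q2 := f2 hPar x y h
  have q3 := g2 x y h
  have : sgx x y ^ 3 * (bb (-(x + 1) / x) (-y / ww x y) - cc (-(x + 1) / x) (-y / ww x y) -
      (-y / ww x y * (1 - -(x + 1) / x)) * cc (-(x + 1) / x) (-y / ww x y)) =
      sgx x y * (sgx x y ^ 2 * bb (-(x + 1) / x) (-y / ww x y)) -
      sgx x y * (sgx x y ^ 2 * cc (-(x + 1) / x) (-y / ww x y)) -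
      (sgx x y * (-y / ww x y * (1 - -(x + 1) / x))) *
        (sgx x y ^ 2 * cc (-(x + 1) / x) (-y / ww x y)) := by ring
  rw [this, q1, q2, q3]
  have h0 := h.x0
  have h1 := h.x1
  have h3 := h.y1
  have h4 := h.w0
  unfold sgx cc bb R2
  field_simp
  unfold ww
  linear_combination (-y^2 - y) * h.rel

/-- pure algebra -/
theorem core {Y X v2 v3 v4 v6 C1 T3 T2 C2 L6 Yb l sg Y' C1' T3' L6' a1 a2 a3 : F}
    (hs : sg ≠ 0) (hX : X ≠ 0) (h2 : v2 ≠ 0) (h3 : v3 ≠ 0) (h4 : v4 ≠ 0) (h6 : v6 ≠ 0)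
    (hl : l ≠ 0) (hY : Y * Yb = -(X ^ 2 * v2)) (ha : Y * T2 * v3 = C1 * l * v2)
    (hb : C2 * l * v3 = C1 * T3 * v4) (q1 : sg ^ 3 * Y' = T2) (q2 : sg ^ 3 * C1' = C2)
    (q3 : sg ^ 3 * T3' = L6) (q4 : sg ^ 3 * L6' = -Yb) (r1 : sg ^ 2 * a1 = v4)
    (r2 : sg ^ 2 * a2 = v6) (r3 : sg ^ 2 * a3 = X) :
    sg ^ 13 * ((Y' * C1') ^ 4 * T3' ^ 2 * L6' / ((a1 * a2) ^ 4 * a3 ^ 2)) =
      ((Y * C1) ^ 4 * T3 ^ 2 * L6 / ((v2 * v3) ^ 4 * v6 ^ 2)) ^ 2 * (v2 / Y) ^ 13 := by
  have hY0 : Y ≠ 0 := by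
    intro e
    rw [e, zero_mul] at hY
    have : X ^ 2 * v2 ≠ 0 := mul_ne_zero (pow_ne_zero 2 hX) h2
    exact this (by linear_combination hY)
  have k1 : T2 * C2 = C1 ^ 2 * T3 * v2 * v4 / (Y * v3 ^ 2) := by
    rw [eq_div_iff (mul_ne_zero hY0 (pow_ne_zero 2 h3))]
    apply mul_left_cancel₀ hl
    linear_combination C2 * l * v3 * ha + C1 * l * v2 * hb
  have k2 : Yb = -(X ^ 2 * v2) / Y := by
    rw [eq_div_iff hY0]
    linear_combination hY
  have e1 : Y' = T2 / sg ^ 3 := by rw [← q1]; field_simp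
  have e2 : C1' = C2 / sg ^ 3 := by rw [← q2]; field_simp
  have e3 : T3' = L6 / sg ^ 3 := by rw [← q3]; field_simp
  have e4 : L6' = -Yb / sg ^ 3 := by rw [← q4]; field_simp
  have e5 : a1 = v4 / sg ^ 2 := by rw [← r1]; field_simp
  have e6 : a2 = v6 / sg ^ 2 := by rw [← r2]; field_simp
  have e7 : a3 = X / sg ^ 2 := by rw [← r3]; field_simp
  have e8 : Y' * C1' = C1 ^ 2 * T3 * v2 * v4 / (Y * v3 ^ 2) / sg ^ 6 := by
    rw [← k1, e1, e2]
    field_simp
  rw [e8, e3, e4, e5, e6, e7, k2]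
  field_simp

end Step

theorem step_proof (hPar : Stmt_Par) : Stmt_Step := by
  intro F _ s h hE hG hG'
  have h0 := h.x0
  have h1 := h.x1
  have h2 := h.y0
  have h3 := h.y1
  have h4 := h.w0
  -- notation
  have fb : s.b = bb s.x s.y := rfl
  have fc : s.c = cc s.x s.y := rfl
  have fw : s.w = ww s.x s.y := rfl
  have fs : s.sg = Step.sgx s.x s.y := rfl
  have fb' : s.step.b = bb (-(s.x + 1) / s.x) (-s.y / ww s.x s.y) := rfl
  have fc' : s.step.c = cc (-(s.x + 1) / s.x) (-s.y / ww s.x s.y) := rfl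
  have fw' : s.step.w = ww (-(s.x + 1) / s.x) (-s.y / ww s.x s.y) := rfl
  have fx' : s.step.x = -(s.x + 1) / s.x := rfl
  have fy' : s.step.y = -s.y / ww s.x s.y := rfl
  have hs : s.sg ≠ 0 := by
    rw [fs]
    unfold Step.sgx
    exact div_ne_zero (pow_ne_zero 2 h4) h3
  have m1 : s.sg ^ 2 * s.step.X = s.X - s.b := by
    show s.sg ^ 2 * ((s.X - s.b) / s.sg ^ 2) = _
    field_simp
  have m2 : s.sg ^ 3 * s.step.Y = s.Y - s.b * s.c - (s.c - s.x * s.y) * (s.X - s.b) := by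
    show s.sg ^ 3 * ((s.Y - s.b * s.c - (s.c - s.x * s.y) * (s.X - s.b)) / s.sg ^ 3) = _
    field_simp
  have e0 := Step.e0 s.x s.y h
  have e1 := Step.e1 s.x s.y h
  have e2 := Step.e2 s.x s.y h
  have e3 := Step.e3 s.x s.y h
  have e4 := Step.e4 s.x s.y h
  have e5 := Step.e5 s.x s.y h
  have e6 := Step.e6 s.x s.y h
  have e7 := Step.e7 s.x s.y h
  have f1 := Step.f1 hPar s.x s.y h
  have f2 := Step.f2 hPar s.x s.y h
  have f3 := Step.f3 hPar s.x s.y h
  have g1 := Step.g1 hPar s.x s.y h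
  have g2 := Step.g2 s.x s.y h
  have g3 := Step.g3 hPar s.x s.y h
  have g4 := Step.g4 hPar s.x s.y h
  unfold Step.mm at e1 e2 e4 e5
  rw [← fs, ← fb', ← fb] at f1
  rw [← fs, ← fc', ← fb, ← fw] at f2
  rw [← fs, ← fw', ← fy', ← fb] at f3
  rw [← fs, ← fc'] at g1
  rw [← fs, ← fx', ← fy', ← fw, ← fc] at g2
  rw [← fs, ← fw', ← fx'] at g3
  rw [← fs, ← fb', ← fc', ← fx', ← fy', ← fb, ← fw, ← fc] at g4
  rw [← fb, ← fc] at e0 e1 e2 e4 e5 e6
  rw [← fb, ← fc] at e7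
  rw [← fc] at e3
  unfold St.OnE at hE
  obtain ⟨R, hR⟩ : ∃ R, Step.R2 s.x s.y = R := ⟨_, rfl⟩
  rw [hR] at e1 e2 e3 e4 e5 e6 e7 f1
  have r1 : s.sg ^ 2 * (s.step.X - s.step.b) = s.X - R := by
    linear_combination m1 - f1
  have r2 : s.sg ^ 2 * (s.step.X - s.step.c) = s.X - s.y * s.w := by
    linear_combination m1 - f2
  have r3 : s.sg ^ 2 * (s.step.X - s.step.y * s.step.w) = s.X := by
    linear_combination m1 - f3
  have v2 : s.X - s.b ≠ 0 := sub_ne_zero.mpr hG.Xb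
  have v3 : s.X - s.c ≠ 0 := sub_ne_zero.mpr hG.Xc
  have v6 : s.X - s.y * s.w ≠ 0 := sub_ne_zero.mpr hG.X6
  have v4 : s.X - R ≠ 0 := by
    rw [← r1]
    exact mul_ne_zero (pow_ne_zero 2 hs) (sub_ne_zero.mpr hG'.Xb)
  have hl : s.Y + s.x * s.y * s.X ≠ 0 := by
    intro e
    have : s.X * (s.X - s.c) * (s.X - R) = 0 := by
      linear_combination -hE + (s.Y + (1 - s.c) * s.X - s.b - s.x * s.y * s.X) * e +
        s.X ^ 2 * e6 - s.X * e7
    exact mul_ne_zero (mul_ne_zero hG.X0 v3) v4 this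
  have q4 : s.sg ^ 3 * s.step.L6 = -(-s.Y - (1 - s.c) * s.X + s.b) := by
    unfold St.L6
    linear_combination m2 + (s.X - s.b) * g3 + s.sg * (s.step.x + 1) * s.step.w * m1
  have q3 : s.sg ^ 3 * s.step.T3 = s.L6 := by
    unfold St.T3 St.L6
    linear_combination m2 - g4 - s.sg * (s.step.y * (1 - s.step.x)) * m1 - (s.X - s.b) * g2
  have q2 : s.sg ^ 3 * s.step.L2 = s.Y - s.b * s.c - (s.c - s.x * s.y) * (s.X - s.b) -
      s.y * (s.x + 1) * (s.X - s.b) := by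
    unfold St.L2
    linear_combination m2 - s.sg * s.step.c * m1 - (s.X - s.b) * g1
  have ha : s.Y * (s.Y - s.b * s.c - (s.c - s.x * s.y) * (s.X - s.b)) * (s.X - s.c) =
      s.L2 * (s.Y + s.x * s.y * s.X) * (s.X - s.b) := by
    unfold St.L2
    linear_combination (s.b - s.c) * hE + (s.X ^ 2 * (s.X - s.b) + s.Y * (s.b - s.X)) * e0
  have hb : (s.Y - s.b * s.c - (s.c - s.x * s.y) * (s.X - s.b) -
      s.y * (s.x + 1) * (s.X - s.b)) * (s.Y + s.x * s.y * s.X) * (s.X - s.c) =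
      s.L2 * s.T3 * (s.X - R) := by
    unfold St.L2 St.T3
    linear_combination (R - s.c) * hE + s.X * s.Y * e1 + s.Y * e2 +
      s.X * (s.X ^ 2 * e3 + s.X * e4 + e5)
  have hY : s.Y * (-s.Y - (1 - s.c) * s.X + s.b) = -(s.X ^ 2 * (s.X - s.b)) := by
    linear_combination -hE
  exact Step.core hs hG.X0 v2 v3 v4 v6 hl hY ha hb m2 q2 q3 q4 r1 r2 r3

end Pool.Agent.BEK
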