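import Pool.Agent.BEK.Stmts

set_option autoImplicit false

/-! # TAB: the table of the units -/

namespace Pool.Agent.BEK

namespace Tab

variable {F : Type} [Field F]

/-- one step of the table -/
theorem row_step (hPar : Stmt_Par) {a : Aff F} {X X1 Y Y1 W S : F} (hg : Good a.x a.y)
    (h : Row a X X1 Y Y1 W S) :
    Good a.step.x a.step.y ∧
    Row a.step (-X1 / X) (-1 / X) (-Y / W) (Y * Y1 / (X * X1 * W))
      (-(Y * Y1 ^ 2) / (X1 * W ^ 2)) (S * (W ^ 2 / Y1)) := by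
  obtain ⟨h1, h2, h3, h4, h5, h6, -⟩ := hPar F a.x a.y hg
  have e1 : a.step.x = (dia (a.x, a.y)).1 := rfl
  have e2 : a.step.y = (dia (a.x, a.y)).2 := rfl
  refine ⟨by rw [e1, e2]; exact h3, ?_, ?_, ?_, ?_, ?_, ?_⟩
  · show -(a.x + 1) / a.x = _
    rw [h.x1, h.x]
  · rw [e1, h4, h.x]
  · show -a.y / ww a.x a.y = _
    rw [h.w, h.y]
  · rw [e2, h5, h.w, h.x1, h.x, h.y1, h.y]
  · rw [e1, e2, h6, h.w, h.x1, h.y1, h.y]
  · show a.S * (ww a.x a.y ^ 2 / (a.y + 1)) = _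
    rw [h.S, h.w, h.y1]

theorem row_congr {a : Aff F} {X X1 Y Y1 W S X' X1' Y' Y1' W' S' : F}
    (h : Row a X X1 Y Y1 W S) (h1 : X = X') (h2 : X1 = X1') (h3 : Y = Y') (h4 : Y1 = Y1')
    (h5 : W = W') (h6 : S = S') : Row a X' X1' Y' Y1' W' S' := by
  subst h1 h2 h3 h4 h5 h6
  exact h

end Tab

theorem tab_proof (hPar : Stmt_Par) : Stmt_Tab := by
  intro F _ x y hg
  have hx0 := hg.x0
  have hx1 := hg.x1
  have hy0 := hg.y0
  have hy1 := hg.y1
  have hw0 := hg.w0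
  have r0 : Row (af x y 0) x (x + 1) y (y + 1) (ww x y) 1 := ⟨rfl, rfl, rfl, rfl, rfl, rfl⟩
  have g0 : Good (af x y 0).x (af x y 0).y := hg
  obtain ⟨g1, r1⟩ := Tab.row_step hPar g0 r0
  rw [← af_succ] at g1 r1
  have r1' := Tab.row_congr r1 (X' := -(x + 1) / x) (X1' := -1 / x) (Y' := -y / ww x y)
    (Y1' := y * (y + 1) / (x * (x + 1) * ww x y)) (W' := -(y * (y + 1) ^ 2) / ((x + 1) * ww x y ^ 2))
    (S' := ww x y ^ 2 / (y + 1)) rfl rfl rfl rfl rfl (by rw [one_mul])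
  obtain ⟨g2, r2⟩ := Tab.row_step hPar g1 r1'
  rw [← af_succ] at g2 r2
  have r2' := Tab.row_congr r2 (X' := -1 / (x + 1)) (X1' := x / (x + 1))
    (Y' := -((x + 1) * ww x y) / (y + 1) ^ 2)
    (Y1' := x * y / ((x + 1) * (y + 1))) (W' := -(y * ww x y) / (x * (y + 1) ^ 2))
    (S' := x * y * (y + 1) ^ 2 / ((x + 1) * ww x y)) (by field_simp) (by field_simp) (by field_simp)
    (by field_simp) (by field_simp) (by field_simp)
  obtain ⟨g3, r3⟩ := Tab.row_step hPar g2 r2'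
  rw [← af_succ] at g3 r3
  have r3' := Tab.row_congr r3 (X' := x) (X1' := x + 1)
    (Y' := -(x * (x + 1)) / y)
    (Y1' := -(x * (x + 1) ^ 2) / (y + 1)) (W' := x ^ 3 / ww x y)
    (S' := y ^ 2 * ww x y / (x ^ 2 * (y + 1))) (by field_simp) (by field_simp) (by field_simp)
    (by field_simp) (by field_simp) (by field_simp)
  obtain ⟨g4, r4⟩ := Tab.row_step hPar g3 r3'
  rw [← af_succ] at g4 r4
  have r4' := Tab.row_congr r4 (X' := -(x + 1) / x) (X1' := -1 / x)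
    (Y' := (x + 1) * ww x y / (x ^ 2 * y))
    (Y1' := (x + 1) ^ 2 * ww x y / (x ^ 2 * y * (y + 1)))
    (W' := (x + 1) ^ 4 * ww x y ^ 2 / (x ^ 3 * y * (y + 1) ^ 2))
    (S' := -(x ^ 3 * y ^ 2) / ((x + 1) ^ 2 * ww x y)) rfl rfl (by field_simp)
    (by field_simp) (by field_simp) (by field_simp)
  obtain ⟨g5, r5⟩ := Tab.row_step hPar g4 r4'
  rw [← af_succ] at g5 r5
  have r5' := Tab.row_congr r5 (X' := -1 / (x + 1)) (X1' := x / (x + 1))
    (Y' := -(x * (y + 1) ^ 2) / ((x + 1) ^ 3 * ww x y))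
    (Y1' := x * (y + 1) / ((x + 1) ^ 2 * y))
    (W' := x * (y + 1) ^ 2 / ((x + 1) ^ 3 * y * ww x y))
    (S' := -((x + 1) ^ 4 * y * ww x y ^ 2) / (x * (y + 1) ^ 3)) (by field_simp) (by field_simp)
    (by field_simp) (by field_simp) (by field_simp) (by field_simp)
  obtain ⟨g6, r6⟩ := Tab.row_step hPar g5 r5'
  rw [← af_succ] at g6 r6
  have r6' := Tab.row_congr r6 (X' := x) (X1' := x + 1) (Y' := y) (Y1' := y + 1)
    (W' := ww x y) (S' := -1) (by field_simp) (by field_simp)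
    (by field_simp) (by field_simp) (by field_simp) (by field_simp)
  exact ⟨r0, r1', r2', r3', r4', r5', r6'⟩

end Pool.Agent.BEK
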