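import Pool.Agent.BEK.Stmts

/-!
# TRANS: transcendence
-/

set_option autoImplicit false

namespace Pool.Agent.BEK

namespace TransX

theorem exists_rho : ∃ ρ : ℝ, 0 < ρ ∧ ρ < 1 ∧ Transcendental ℚ (ρ ^ 2) := by
  have hc : {x : ℝ | IsAlgebraic ℚ x}.Countable := Algebraic.countable ℚ ℝ
  have hd : Dense {x : ℝ | IsAlgebraic ℚ x}ᶜ := hc.dense_compl ℝ
  obtain ⟨c, hc1, hc2⟩ := hd.exists_between (show (0 : ℝ) < 1 by norm_num)
  refine ⟨Real.sqrt c, Real.sqrt_pos.mpr hc2.1, ?_, ?_⟩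
  · rw [Real.sqrt_lt' one_pos, one_pow]; exact hc2.2
  · rw [Real.sq_sqrt hc2.1.le]
    exact hc1

theorem alg_of_root {K : Type} [Field K] [NumberField K] (φ : K →+* ℂ) (X : ℂ)
    (p : Polynomial K) (hp : p ≠ 0) (h : (p.map φ).eval X = 0) : IsAlgebraic ℚ X := by
  let _ := φ.toAlgebra
  have : IsScalarTower ℚ K ℂ := IsScalarTower.of_algebraMap_eq' (Subsingleton.elim _ _)
  have h1 : IsAlgebraic K X := by
    refine ⟨p, hp, ?_⟩
    rw [Polynomial.aeval_def, ← Polynomial.eval_map]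
    exact h
  exact h1.restrictScalars ℚ

theorem alg_elem {K : Type} [Field K] [NumberField K] (φ : K →+* ℂ) (k : K) :
    IsAlgebraic ℚ (φ k) := by
  refine alg_of_root φ (φ k) (Polynomial.X - Polynomial.C k) (Polynomial.X_sub_C_ne_zero k) ?_
  simp

theorem alg_quad {t A B C : ℂ} (hA : IsAlgebraic ℚ A) (hB : IsAlgebraic ℚ B)
    (hC : IsAlgebraic ℚ C) (hA0 : A ≠ 0) (h : A * t ^ 2 + B * t + C = 0) : IsAlgebraic ℚ t := by
  set L := algebraicClosure ℚ ℂ with hL
  have hLalg : Algebra.IsAlgebraic ℚ L := by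
    rw [hL]
    exact algebraicClosure.isAlgebraic ℚ ℂ
  have hmem : ∀ z : ℂ, IsAlgebraic ℚ z → z ∈ L := fun z hz => mem_algebraicClosure_iff.mpr hz
  let a : L := ⟨A, hmem A hA⟩
  let b : L := ⟨B, hmem B hB⟩
  let c : L := ⟨C, hmem C hC⟩
  have h1 : IsAlgebraic L t := by
    refine ⟨Polynomial.C a * Polynomial.X ^ 2 + Polynomial.C b * Polynomial.X +
      Polynomial.C c, ?_, ?_⟩
    · intro h0
      have h2 := congrArg (fun p => Polynomial.coeff p 2) h0
      simp at h2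
      apply hA0
      exact congrArg Subtype.val h2
    · have e1 : algebraMap L ℂ a = A := rfl
      have e2 : algebraMap L ℂ b = B := rfl
      have e3 : algebraMap L ℂ c = C := rfl
      simp only [map_add, map_mul, map_pow, Polynomial.aeval_X, Polynomial.aeval_C, e1, e2, e3]
      exact h
  exact h1.restrictScalars ℚ

end TransX

open TransX in
theorem trans_proof : Stmt_Trans := by
  refine ⟨exists_rho, ?_⟩
  intro K _ _ σ ρ b c hρ htr X θ hX0 hX p hp hpX
  apply htr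
  set φ : K →+* ℂ := (algebraMap ℝ ℂ).comp σ with hφ
  have hXalg : IsAlgebraic ℚ X := alg_of_root φ X p hp hpX
  have hb : IsAlgebraic ℚ ((σ b : ℝ) : ℂ) := alg_elem φ b
  have hc : IsAlgebraic ℚ ((σ c : ℝ) : ℂ) := alg_elem φ c
  have ht : IsAlgebraic ℚ (tt ρ θ) := by
    refine alg_quad (A := X) (B := (1 - (σ c : ℂ)) * X - (σ b : ℂ))
      (C := (σ b : ℂ) * X - X ^ 2) hXalg ?_ ?_ hX0 ?_
    · exact ((isAlgebraic_one.sub hc).mul hXalg).sub hb
    · exact (hb.mul hXalg).sub (hXalg.pow 2)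
    · linear_combination -hX
  have ht' : IsAlgebraic ℚ ((starRingEnd ℂ) (tt ρ θ)) := by
    have := ht.algHom (Complex.conjAe.toAlgHom.restrictScalars ℚ)
    exact this
  have hprod : IsAlgebraic ℚ (tt ρ θ * (starRingEnd ℂ) (tt ρ θ)) := ht.mul ht'
  have e : tt ρ θ * (starRingEnd ℂ) (tt ρ θ) = algebraMap ℝ ℂ (ρ ^ 2) := by
    rw [Complex.mul_conj, Complex.normSq_eq_norm_sq]
    unfold tt
    rw [norm_mul, Complex.norm_exp_ofReal_mul_I, mul_one, Complex.norm_real, Real.norm_eq_abs,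
      sq_abs]
    rfl
  rw [e] at hprod
  exact (isAlgebraic_algebraMap_iff (algebraMap ℝ ℂ).injective).mp hprod

end Pool.Agent.BEK
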