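import Pool.Agent.BEK.UnrBase

set_option autoImplicit false

/-!
# Squad BEK, module UNEG: valuations near the origin `O`
-/

namespace Pool.Agent.BEK

namespace Unr

variable {F : Type} [Field F] {v : DV F}

/-- an integral element has nonnegative order -/
theorem I.pos {a : F} (h : I v a) (ha : a ≠ 0) : 0 ≤ o v a := by
  rcases h with h | h
  · exact absurd h ha
  · exact h

theorem M_of_pos {a : F} (h : 0 < o v a) : M v a := Or.inr h

/-- the orders of `Y` and of its conjugate near `O` -/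
theorem neg_o (hProd : Stmt_Prod) {s : St F} (hg : Good s.x s.y)
    (he : s.OnE) (hgen : s.Gen) (hu : UnitsAt v s) (hX : o v s.X < 0) :
    o v s.Y = o v s.conj.Y ∧ o v s.Y < o v s.X := by
  have hl := linesNe hProd hg he hgen
  obtain ⟨p1, -, -, -⟩ := o_prods hProd hg he hgen v
  have ob := un_b hg hu
  have oc := un_c hg hu
  have hX0 := hgen.X0
  have mXi : M v s.X⁻¹ := M_of_pos (by rw [o_inv]; omega)
  have hXb : o v (s.X - s.b) = o v s.X := by
    have h1 : Un v ((s.X - s.b) / s.X) := by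
      apply Un_one.congr
      have e : (s.X - s.b) / s.X - 1 = -(s.b * s.X⁻¹) := by field_simp; ring
      rw [e]
      exact (ob.int.mul_M mXi).neg
    have h2 := h1.2
    rw [o_div v (sub_ne_zero.mpr hgen.Xb) hX0] at h2
    omega
  -- the sum `Y + conj Y` is small relatively to `Y` and `conj Y`
  have key : ∀ A B : F, A ≠ 0 → B ≠ 0 → A + B = s.b - (1 - s.c) * s.X →
      o v A + o v B = 3 * o v s.X → ¬ o v A < o v B := by
    intro A B hA hB hAB hs hlt
    have h1 : Un v (1 + B / A) := by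
      apply Un_one.add_M
      apply M_of_pos
      rw [o_div v hB hA]; omega
    have h2 : A + B = A * (1 + B / A) := by field_simp
    have h3 : A + B ≠ 0 := by rw [h2]; exact mul_ne_zero hA h1.1
    have h4 : o v (A + B) = o v A := by
      rw [h2, o_mul v hA h1.1, h1.2, add_zero]
    have h5 : (A + B) / s.X = s.b * s.X⁻¹ - (1 - s.c) := by
      rw [hAB]; field_simp
    have h6 : I v ((A + B) / s.X) := by
      rw [h5]
      exact (ob.int.mul mXi.int).sub (I_one.sub oc.int)
    have h7 := h6.pos (div_ne_zero h3 hX0)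
    rw [o_div v h3 hX0] at h7
    omega
  have hsum : s.Y + s.conj.Y = s.b - (1 - s.c) * s.X := by rw [conj_Y]; ring
  have k1 := key _ _ hl.Y hl.Yc hsum (by omega)
  have k2 := key _ _ hl.Yc hl.Y (by rw [add_comm]; exact hsum) (by omega)
  constructor
  · omega
  · omega

/-- a line is equivalent to `Y` near `O` -/
theorem line_eqv {X Y l m : F} (hY0 : Y ≠ 0) (hX0 : X ≠ 0) (h1 : o v Y < o v X)
    (h2 : o v X < 0) (hl : I v l) (hm : I v m) : Eqv v ((Y - l * X - m) / Y) 1 := by
  refine ⟨Un_one, ?_⟩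
  have e : (Y - l * X - m) / Y - 1 = -(l * (X / Y)) - m * Y⁻¹ := by field_simp; ring
  rw [e]
  have m1 : M v (X / Y) := M_of_pos (by rw [o_div v hX0 hY0]; omega)
  have m2 : M v Y⁻¹ := M_of_pos (by rw [o_inv]; omega)
  exact (hl.mul_M m1).neg.sub (hm.mul_M m2)

theorem eqv_ratio {A B C D : F} (hB : B ≠ 0) (hC : C ≠ 0) (h1 : Eqv v (A / B) 1)
    (h2 : Eqv v (B / C) (-1)) (h3 : Eqv v (D / C) 1) : Eqv v (A / D) (-1) := by
  have h := (h1.mul h2).mul h3.inv
  have e1 : (A / B) * (B / C) * (D / C)⁻¹ = A / D := by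
    rw [inv_div]
    by_cases hD : D = 0
    · rw [hD]; simp
    · field_simp
  have e2 : (1 : F) * (-1) * 1⁻¹ = -1 := by simp
  rw [e1, e2] at h
  exact h

/-- near `O` the quotient `h / conj h` is congruent to `-1` -/
theorem neg_ratio (hProd : Stmt_Prod) {s : St F} (hg : Good s.x s.y)
    (he : s.OnE) (hgen : s.Gen) (hu : UnitsAt v s) (hX : o v s.X < 0) :
    Eqv v (s.h / s.conj.h) (-1) := by
  have hl := linesNe hProd hg he hgen
  obtain ⟨q1, q2⟩ := neg_o hProd hg he hgen hu hX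
  have q3 : o v s.conj.Y < o v s.X := by rw [← q1]; exact q2
  have ob := un_b hg hu
  have oc := un_c hg hu
  have ow := un_w hg hu
  have hX0 := hgen.X0
  have eY : Eqv v (s.Y / s.conj.Y) (-1) := by
    refine ⟨Un_one.neg, ?_⟩
    have hYc := hl.Yc
    have e : s.Y / s.conj.Y - -1 = s.b * s.conj.Y⁻¹ - (1 - s.c) * (s.X / s.conj.Y) := by
      have hsum : s.Y = s.b - (1 - s.c) * s.X - s.conj.Y := by rw [conj_Y]; ring
      field_simp
      linear_combination hsum
    rw [e]
    have m1 : M v (s.X / s.conj.Y) := M_of_pos (by rw [o_div v hX0 hl.Yc]; omega)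
    have m2 : M v s.conj.Y⁻¹ := M_of_pos (by rw [o_inv]; omega)
    exact (ob.int.mul_M m2).sub ((I_one.sub oc.int).mul_M m1)
  -- the three lines
  have eL2 : Eqv v (s.L2 / s.conj.L2) (-1) := by
    have a1 := line_eqv (v := v) (l := s.c) (m := 0) hl.Y hX0 q2 hX oc.int (Or.inl rfl)
    have a2 := line_eqv (v := v) (l := s.c) (m := 0) hl.Yc hX0 q3 hX oc.int (Or.inl rfl)
    have b1 : s.Y - s.c * s.X - 0 = s.L2 := by unfold St.L2; ring
    have b2 : s.conj.Y - s.c * s.X - 0 = s.conj.L2 := by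
      show _ = s.conj.Y - s.c * s.X
      ring
    rw [b1] at a1
    rw [b2] at a2
    exact eqv_ratio hl.Y hl.Yc a1 eY a2
  have eT3 : Eqv v (s.T3 / s.conj.T3) (-1) := by
    have il : I v (s.y * (1 - s.x)) := (un_y hg hu).int.mul (I_one.sub (un_x hg hu).int)
    have im : I v (s.b - s.c - s.y * (1 - s.x) * s.c) :=
      (ob.int.sub oc.int).sub (il.mul oc.int)
    have a1 := line_eqv (v := v) hl.Y hX0 q2 hX il im
    have a2 := line_eqv (v := v) hl.Yc hX0 q3 hX il im
    have b1 : s.Y - s.y * (1 - s.x) * s.X - (s.b - s.c - s.y * (1 - s.x) * s.c) = s.T3 := by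
      unfold St.T3; ring
    have b2 : s.conj.Y - s.y * (1 - s.x) * s.X - (s.b - s.c - s.y * (1 - s.x) * s.c) =
        s.conj.T3 := by
      show _ = s.conj.Y - (s.b - s.c) - s.y * (1 - s.x) * (s.X - s.c)
      ring
    rw [b1] at a1
    rw [b2] at a2
    exact eqv_ratio hl.Y hl.Yc a1 eY a2
  have eL6 : Eqv v (s.L6 / s.conj.L6) (-1) := by
    have il : I v (-((s.x + 1) * s.w)) := ((un_x1 hg hu).int.mul ow.int).neg
    have a1 := line_eqv (v := v) (m := 0) hl.Y hX0 q2 hX il (Or.inl rfl)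
    have a2 := line_eqv (v := v) (m := 0) hl.Yc hX0 q3 hX il (Or.inl rfl)
    have b1 : s.Y - -((s.x + 1) * s.w) * s.X - 0 = s.L6 := by unfold St.L6; ring
    have b2 : s.conj.Y - -((s.x + 1) * s.w) * s.X - 0 = s.conj.L6 := by
      show _ = s.conj.Y + (s.x + 1) * s.w * s.X
      ring
    rw [b1] at a1
    rw [b2] at a2
    exact eqv_ratio hl.Y hl.Yc a1 eY a2
  have key := (((eY.mul eL2).pow 4).mul (eT3.pow 2)).mul eL6
  have hval : ((-1 : F) * -1) ^ 4 * (-1) ^ 2 * -1 = -1 := by ring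
  rw [hval] at key
  have hrat : s.h / s.conj.h = (s.Y / s.conj.Y * (s.L2 / s.conj.L2)) ^ 4 *
      (s.T3 / s.conj.T3) ^ 2 * (s.L6 / s.conj.L6) := by
    have h1 : s.h = s.fn / s.u := rfl
    have h2 : s.conj.h = s.conj.fn / s.u := rfl
    have hu0 := (un_u hg hu).1
    have n1 := hl.Yc
    have n2 := hl.L2c
    have n3 := hl.T3c
    have n4 := hl.L6c
    have hb := sub_ne_zero.mpr hgen.Xb
    have hc := sub_ne_zero.mpr hgen.Xc
    have h6 := sub_ne_zero.mpr hgen.X6
    rw [h1, h2, fn_conj]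
    unfold St.fn
    generalize s.Y = y0 at *
    generalize s.conj.Y = y1 at *
    generalize s.L2 = l0 at *
    generalize s.conj.L2 = l1 at *
    generalize s.T3 = t0 at *
    generalize s.conj.T3 = t1 at *
    generalize s.L6 = m0 at *
    generalize s.conj.L6 = m1 at *
    generalize s.X - s.b = v1 at *
    generalize s.X - s.c = v2 at *
    generalize s.X - s.y * s.w = v3 at *
    generalize s.u = u0 at *
    field_simp
  rw [hrat]
  exact key

end Unr

/-- UNEG -/
theorem uneg_proof (hProd : Stmt_Prod) : Stmt_UnrNeg := by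
  intro F _ v s hg he hgen hu hX f g hf hg'
  obtain ⟨e, he1, he2⟩ := hX
  have hXn : Unr.o v s.X < 0 := by rw [← he1, Unr.o_unit]; exact he2
  have h := Unr.neg_ratio hProd hg he hgen hu hXn
  rw [← hf, ← hg'] at h
  have h1 : Unr.Eqv v (((-1 * f * g⁻¹ : Fˣ) : F)) 1 := by
    have h2 := (Unr.Eqv.mul (v := v) (a := -1) (b := -1) ⟨Unr.Un_one.neg, Or.inl (sub_self _)⟩ h)
    have e1 : (-1 : F) * ((f : F) / g) = ((-1 * f * g⁻¹ : Fˣ) : F) := by
      rw [Units.val_mul, Units.val_mul, Units.val_inv_eq_inv_val, Units.val_neg, Units.val_one]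
      ring
    have e2 : (-1 : F) * -1 = 1 := by ring
    rw [e1, e2] at h2
    exact h2
  have hmem := Unr.mem_U1 h1
  have hord : v.ord f = v.ord g := by
    have h2 : v.ord (-1 * f * g⁻¹) = 0 := hmem.1
    rw [v.mul, v.mul, v.neg_one, v.inv] at h2
    omega
  rw [DV.tame_eq_one]
  have e : (v.tu f g : Fˣ) = (-1 * f * g⁻¹) ^ v.ord g := by
    show (-1) ^ (v.ord f * v.ord g) * f ^ v.ord g * (g ^ v.ord f)⁻¹ = _
    rw [hord]
    have hk : ((-1 : Fˣ)) ^ (v.ord g * v.ord g) = (-1) ^ v.ord g := by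
      have h3 : v.ord g * v.ord g = v.ord g * (v.ord g - 1) + v.ord g := by ring
      rw [h3, zpow_add, (Int.even_mul_pred_self _).neg_one_zpow, one_mul]
    rw [hk, mul_zpow, mul_zpow, inv_zpow]
  rw [e]
  exact zpow_mem hmem _

end Pool.Agent.BEK
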