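import Pool.Agent.BEK.UnrBase

set_option autoImplicit false

/-!
# Squad BEK, module UPOS: valuations near `P` or `-P`
-/

namespace Pool.Agent.BEK

namespace Unr

variable {F : Type} [Field F] {v : DV F}

/-- near `-P` the function `h` is congruent to `1` -/
theorem pos_h (hProd : Stmt_Prod) {s : St F} (hg : Good s.x s.y)
    (he : s.OnE) (hgen : s.Gen) (hu : UnitsAt v s) (hX : M v s.X) (hY : Un v s.Y) :
    Eqv v s.h 1 := by
  have hl := linesNe hProd hg he hgen
  obtain ⟨p1, -, -, -⟩ := o_prods hProd hg he hgen v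
  have ob := un_b hg hu
  have oc := un_c hg hu
  have oyw := un_yw hg hu
  have ow := un_w hg hu
  have ub : Un v (s.X - s.b) := by
    have := ob.neg.add_M hX
    have e : -s.b + s.X = s.X - s.b := by ring
    rwa [e] at this
  have hX1 : 0 < o v s.X := by
    rcases hX with h | h
    · exact absurd h hgen.X0
    · exact h
  have mYc : M v s.conj.Y := by
    right
    have := hY.2
    have := ub.2
    omega
  have mYb : M v (s.Y - s.b) := by
    have e : s.Y - s.b = -(s.conj.Y + (1 - s.c) * s.X) := by rw [conj_Y]; ring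
    rw [e]
    exact (mYc.add ((I_one.sub oc.int).mul_M hX)).neg
  have e1 : Eqv v s.Y s.b := ⟨ob, mYb⟩
  have e2 : Eqv v s.L2 s.b := by
    refine ⟨ob, ?_⟩
    have e : s.L2 - s.b = (s.Y - s.b) - s.c * s.X := by unfold St.L2; ring
    rw [e]
    exact mYb.sub (oc.int.mul_M hX)
  have e3 : Eqv v s.T3 (s.c * s.w) := by
    refine ⟨oc.mul ow, ?_⟩
    have hw : s.w = s.y + 1 - s.x * s.y := rfl
    have e : s.T3 - s.c * s.w = (s.Y - s.b) - (s.w - 1) * s.X := by
      unfold St.T3; rw [hw]; ring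
    rw [e]
    exact mYb.sub ((ow.int.sub I_one).mul_M hX)
  have e4 : Eqv v s.L6 s.b := by
    refine ⟨ob, ?_⟩
    have e : s.L6 - s.b = (s.Y - s.b) + (s.x + 1) * s.w * s.X := by unfold St.L6; ring
    rw [e]
    exact mYb.add (((un_x1 hg hu).int.mul ow.int).mul_M hX)
  have e5 : Eqv v (s.X - s.b) (-s.b) := by
    refine ⟨ob.neg, ?_⟩
    have e : s.X - s.b - -s.b = s.X := by ring
    rw [e]; exact hX
  have e6 : Eqv v (s.X - s.c) (-s.c) := by
    refine ⟨oc.neg, ?_⟩
    have e : s.X - s.c - -s.c = s.X := by ring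
    rw [e]; exact hX
  have e7 : Eqv v (s.X - s.y * s.w) (-(s.y * s.w)) := by
    refine ⟨oyw.neg, ?_⟩
    have e : s.X - s.y * s.w - -(s.y * s.w) = s.X := by ring
    rw [e]; exact hX
  have eu : Eqv v s.u s.u := ⟨un_u hg hu, Or.inl (sub_self _)⟩
  have key : Eqv v s.h
      ((s.b * s.b) ^ 4 * (s.c * s.w) ^ 2 * s.b /
        ((-s.b * -s.c) ^ 4 * (-(s.y * s.w)) ^ 2) / s.u) :=
    (((((e1.mul e2).pow 4).mul (e3.pow 2)).mul e4).div
      (((e5.mul e6).pow 4).mul (e7.pow 2))).div eu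
  have hval : (s.b * s.b) ^ 4 * (s.c * s.w) ^ 2 * s.b /
        ((-s.b * -s.c) ^ 4 * (-(s.y * s.w)) ^ 2) / s.u = 1 := by
    have hb0 := ob.1
    have hc0 := oc.1
    have hy0 := hg.y0
    have hw0 := ow.1
    unfold St.u
    field_simp
  rw [hval] at key
  exact key

end Unr

/-- UPOS -/
theorem upos_proof (hProd : Stmt_Prod) : Stmt_UnrPos := by
  intro F _ v s hg he hgen hu hX f g hf hg'
  obtain ⟨e, he1, he2⟩ := hX
  have hXm : Unr.M v s.X := by
    right
    rw [← he1, Unr.o_unit]; exact he2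
  obtain ⟨hec, hcc, -, -, -, -⟩ := hProd F s hg he
  have ob := Unr.un_b hg hu
  have oc := Unr.un_c hg hu
  have iY : Unr.I v s.Y := Unr.int_Y hg hu he hXm.int
  have iYc : Unr.I v s.conj.Y :=
    Unr.int_Y (s := s.conj) hg (Unr.unitsAt_conj hu) hec hXm.int
  have hsum : Unr.Un v (s.Y + s.conj.Y) := by
    apply ob.congr
    have e : s.Y + s.conj.Y - s.b = -((1 - s.c) * s.X) := by
      rw [Unr.conj_Y]; ring
    rw [e]
    exact ((Unr.I_one.sub oc.int).mul_M hXm).neg
  rw [DV.tame_eq_one]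
  rcases hsum.of_add iY iYc with h | h
  · have h1 := Unr.pos_h hProd hg he hgen hu hXm h
    rw [← hf] at h1
    have hmem := Unr.mem_U1 h1
    have hord : v.ord f = 0 := hmem.1
    have e : (v.tu f g : Fˣ) = f ^ v.ord g := by
      show (-1) ^ (v.ord f * v.ord g) * f ^ v.ord g * (g ^ v.ord f)⁻¹ = _
      rw [hord]; simp
    rw [e]
    exact zpow_mem hmem _
  · have h1 := Unr.pos_h hProd (s := s.conj) hg hec (Unr.gen_conj hgen) (Unr.unitsAt_conj hu)
      hXm h
    rw [← hg'] at h1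
    have hmem := Unr.mem_U1 h1
    have hord : v.ord g = 0 := hmem.1
    have e : (v.tu f g : Fˣ) = (g ^ v.ord f)⁻¹ := by
      show (-1) ^ (v.ord f * v.ord g) * f ^ v.ord g * (g ^ v.ord f)⁻¹ = _
      rw [hord]; simp
    rw [e]
    exact inv_mem (zpow_mem hmem _)

end Pool.Agent.BEK
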