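import Pool.Agent.BEK.UnrBase

set_option autoImplicit false

/-!
# Squad BEK, module UZERO: valuations away from `O`, `P`, `-P`
-/

namespace Pool.Agent.BEK

namespace Unr

variable {F : Type} [Field F] {v : DV F}

theorem zero_fn (hPar : Stmt_Par) (hProd : Stmt_Prod) {s : St F} (hg : Good s.x s.y)
    (he : s.OnE) (hgen : s.Gen) (hu : UnitsAt v s) (hX : Un v s.X) : o v s.fn = 0 := by
  have hl := linesNe hProd hg he hgen
  obtain ⟨hec, -, -, -, -, -⟩ := hProd F s hg he
  obtain ⟨p1, p2, p3, p4⟩ := o_prods hProd hg he hgen v
  rw [o_fn hl hgen v]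
  have huc := unitsAt_conj hu
  have ob := un_b hg hu
  have oc := un_c hg hu
  have oyw := un_yw hg hu
  have hX0 : o v s.X = 0 := hX.2
  have iY : I v s.Y := int_Y hg hu he hX.int
  have iYc : I v s.conj.Y := int_Y (s := s.conj) hg huc hec hX.int
  have iL2 : I v s.L2 := int_L2 hg hu he hX.int
  have iL2c : I v s.conj.L2 := int_L2 (s := s.conj) hg huc hec hX.int
  have iT3 : I v s.T3 := int_T3 hg hu he hX.int
  have iT3c : I v s.conj.T3 := int_T3 (s := s.conj) hg huc hec hX.int
  have iL6 : I v s.L6 := int_L6 hg hu he hX.int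
  have iL6c : I v s.conj.L6 := int_L6 (s := s.conj) hg huc hec hX.int
  have ib : I v (s.X - s.b) := hX.int.sub ob.int
  have ic : I v (s.X - s.c) := hX.int.sub oc.int
  have i6 : I v (s.X - s.y * s.w) := hX.int.sub oyw.int
  -- nonnegativity of orders
  have pos : ∀ {a : F}, a ≠ 0 → I v a → 0 ≤ o v a := by
    intro a ha h
    rcases h with h | h
    · exact absurd h ha
    · exact h
  have q1 := pos hl.Y iY
  have q1' := pos hl.Yc iYc
  have q2 := pos hl.L2 iL2
  have q2' := pos hl.L2c iL2c
  have q3 := pos hl.T3 iT3
  have q3' := pos hl.T3c iT3c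
  have q4 := pos hl.L6 iL6
  have q4' := pos hl.L6c iL6c
  rcases ib.cases with mb | ub
  · -- near `2P` or `-2P`
    have uc : Un v (s.X - s.c) := by
      have := (un_bc hPar hg hu).add_M mb
      have e : s.b - s.c + (s.X - s.b) = s.X - s.c := by ring
      rwa [e] at this
    have u6 : Un v (s.X - s.y * s.w) := by
      have := (un_byw hPar hg hu).add_M mb
      have e : s.b - s.y * s.w + (s.X - s.b) = s.X - s.y * s.w := by ring
      rwa [e] at this
    have r5 := uc.2
    have r6 := u6.2
    have hsum : Un v (s.Y + s.conj.Y) := by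
      apply (ob.mul oc).congr
      have e : s.Y + s.conj.Y - s.b * s.c = -((1 - s.c) * (s.X - s.b)) := by
        rw [conj_Y]; ring
      rw [e]
      exact ((I_one.sub oc.int).mul_M mb).neg
    have hs1 : M v (s.L2 + s.conj.Y) := by rw [L2_add]; exact mb.neg
    have hs2 : M v (s.conj.L2 + s.Y) := by
      have h := L2_add s.conj
      have h2 : s.conj.conj.Y = s.Y := by rw [conj_Y s.conj, conj_Y s]; show _ = _; simp only [St.conj, St.c, St.b]; ring
      rw [h2] at h
      rw [h]
      exact mb.neg
    rcases hsum.of_add iY iYc with h | h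
    · -- `Y` is a unit
      have h2 : Un v s.conj.L2 := by
        apply h.neg.congr
        rw [sub_neg_eq_add]; exact hs2
      have r1 := h.2
      have r2 := h2.2
      omega
    · have h2 : Un v s.L2 := by
        apply h.neg.congr
        rw [sub_neg_eq_add]; exact hs1
      have r1 := h.2
      have r2 := h2.2
      omega
  · have r4 := ub.2
    rcases ic.cases with mc | uc
    · -- near `3P` or `-3P`
      have u6 : Un v (s.X - s.y * s.w) := by
        have := (un_cyw hPar hg hu).add_M mc
        have e : s.c - s.y * s.w + (s.X - s.c) = s.X - s.y * s.w := by ring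
        rwa [e] at this
      have r6 := u6.2
      have hsum : Un v (s.L2 + s.conj.L2) := by
        apply (un_bcc hPar hg hu).congr
        have e : s.L2 + s.conj.L2 - (s.b - s.c - s.c ^ 2) = -((1 + s.c) * (s.X - s.c)) := by
          have h1 : s.conj.L2 = s.conj.Y - s.c * s.X := rfl
          rw [h1, conj_Y]; unfold St.L2; ring
        rw [e]
        exact ((I_one.add oc.int).mul_M mc).neg
      have hs1 : M v (s.T3 + s.conj.L2) := by
        rw [T3_add]; exact ((un_w hg hu).int.mul_M mc).neg
      have hs2 : M v (s.conj.T3 + s.L2) := by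
        have h := T3_add s.conj
        have h2 : s.conj.conj.L2 = s.L2 := by
          show s.conj.conj.Y - s.c * s.X = s.Y - s.c * s.X
          rw [conj_Y s.conj, conj_Y s]; simp only [St.conj, St.c, St.b]; ring
        rw [h2] at h
        rw [h]
        exact ((un_w hg hu).int.mul_M mc).neg
      rcases hsum.of_add iL2 iL2c with h | h
      · have h2 : Un v s.conj.T3 := by
          apply h.neg.congr
          rw [sub_neg_eq_add]; exact hs2
        have r1 := h.2
        have r2 := h2.2
        omega
      · have h2 : Un v s.T3 := by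
          apply h.neg.congr
          rw [sub_neg_eq_add]; exact hs1
        have r1 := h.2
        have r2 := h2.2
        omega
    · have r5 := uc.2
      rcases i6.cases with m6 | u6
      · -- near `6P` or `-6P`
        have hsum : Un v (s.L6 + s.conj.L6) := by
          apply (un_six hPar hg hu).neg.congr
          have e : s.L6 + s.conj.L6 - -(2 * (-((s.x + 1) * s.w) * (s.y * s.w)) +
              (1 - s.c) * (s.y * s.w) - s.b) =
              (2 * ((s.x + 1) * s.w) - (1 - s.c)) * (s.X - s.y * s.w) := by
            have h1 : s.conj.L6 = s.conj.Y + (s.x + 1) * s.w * s.X := rfl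
            rw [h1, conj_Y]; unfold St.L6; ring
          rw [e]
          apply I.mul_M _ m6
          have hi : I v ((s.x + 1) * s.w) := (un_x1 hg hu).int.mul (un_w hg hu).int
          have : 2 * ((s.x + 1) * s.w) = (s.x + 1) * s.w + (s.x + 1) * s.w := by ring
          rw [this]
          exact (hi.add hi).sub (I_one.sub oc.int)
        have icw : I v (s.c + s.x * s.w) := oc.int.add ((un_x hg hu).int.mul (un_w hg hu).int)
        have hs1 : M v (s.T3 + s.conj.L6) := by
          rw [T3_add' hg]; exact icw.mul_M m6
        have hs2 : M v (s.conj.T3 + s.L6) := by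
          have h := T3_add' (s := s.conj) hg
          have h2 : s.conj.conj.L6 = s.L6 := by
            show s.conj.conj.Y + (s.x + 1) * s.w * s.X = s.Y + (s.x + 1) * s.w * s.X
            rw [conj_Y s.conj, conj_Y s]; simp only [St.conj, St.c, St.b]; ring
          rw [h2] at h
          rw [h]
          exact icw.mul_M m6
        rcases hsum.of_add iL6 iL6c with h | h
        · have h2 : Un v s.conj.T3 := by
            apply h.neg.congr
            rw [sub_neg_eq_add]; exact hs2
          have r1 := h.2
          have r2 := h2.2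
          omega
        · have h2 : Un v s.T3 := by
            apply h.neg.congr
            rw [sub_neg_eq_add]; exact hs1
          have r1 := h.2
          have r2 := h2.2
          omega
      · have r6 := u6.2
        omega

end Unr

/-- UZERO -/
theorem uzero_proof (hPar : Stmt_Par) (hProd : Stmt_Prod) : Stmt_UnrZero := by
  intro F _ v s hg he hgen hu hX f g hf hg'
  obtain ⟨e, he1, he2⟩ := hX
  have hXu : Unr.Un v s.X := by
    refine ⟨hgen.X0, ?_⟩
    rw [← he1, Unr.o_unit, he2]
  obtain ⟨hec, -, -, -, -, -⟩ := hProd F s hg he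
  have h1 := Unr.zero_fn hPar hProd hg he hgen hu hXu
  have h2 := Unr.zero_fn hPar hProd (s := s.conj) hg hec (Unr.gen_conj hgen)
    (Unr.unitsAt_conj hu) hXu
  have hl := Unr.linesNe hProd hg he hgen
  have hlc := Unr.LinesNe.conj hProd hg he hgen
  have ku := Unr.un_u hg hu
  have kuc : Unr.Un v s.conj.u := ku
  constructor
  · rw [← Unr.o_unit, hf]
    show Unr.o v (s.fn / s.u) = 0
    rw [Unr.o_div v (Unr.fn_ne hl hgen) ku.1, h1, ku.2]; rfl
  · rw [← Unr.o_unit, hg']
    show Unr.o v (s.conj.fn / s.conj.u) = 0
    rw [Unr.o_div v (Unr.fn_ne hlc (Unr.gen_conj hgen)) kuc.1, h2, kuc.2]; rfl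

end Pool.Agent.BEK
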