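import Pool.Agent.BEK.UNEG
import Pool.Agent.BEK.UPOS
import Pool.Agent.BEK.UZERO

set_option autoImplicit false

/-!
# Squad BEK: the tame symbols of `{h, conj h}` are trivial
-/

namespace Pool.Agent.BEK

/-- UNR from UNEG, UPOS, UZERO -/
theorem unr_of (hNeg : Stmt_UnrNeg) (hPos : Stmt_UnrPos) (hZero : Stmt_UnrZero) : Stmt_Unr := by
  intro F _ v s hg he hgen hu f g hf hg'
  rcases lt_trichotomy (v.ord (Units.mk0 s.X hgen.X0)) 0 with h | h | h
  · exact hNeg F v s hg he hgen hu ⟨_, rfl, h⟩ f g hf hg'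
  · obtain ⟨h1, h2⟩ := hZero F v s hg he hgen hu ⟨_, rfl, h⟩ f g hf hg'
    rw [DV.tame_eq_one]
    have e : (v.tu f g : Fˣ) = 1 := by
      show (-1) ^ (v.ord f * v.ord g) * f ^ v.ord g * (g ^ v.ord f)⁻¹ = _
      rw [h1, h2]; simp
    rw [e]
    exact one_mem _
  · exact hPos F v s hg he hgen hu ⟨_, rfl, h⟩ f g hf hg'

/-- UNR -/
theorem unr_proof (hPar : Stmt_Par) (hProd : Stmt_Prod) : Stmt_Unr :=
  unr_of (uneg_proof hProd) (upos_proof hProd) (uzero_proof hPar hProd)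

end Pool.Agent.BEK
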