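import Pool.Agent.BEK.Stmts

/-!
# UNITS: the basic units are units
-/

set_option autoImplicit false

namespace Pool.Agent.BEK

namespace UnitsX

variable {K : Type} [Field K]

theorem quad {y a b : K} (ha : IsIntegral ℤ a) (hb : IsIntegral ℤ b) (h : y ^ 2 + a * y = b) :
    IsIntegral ℤ y := by
  let A := integralClosure ℤ K
  have h1 : IsIntegral A y := by
    refine ⟨Polynomial.X ^ 2 + Polynomial.C (⟨a, ha⟩ : A) * Polynomial.X -
      Polynomial.C (⟨b, hb⟩ : A), ?_, ?_⟩
    · monicity!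
    · have e1 : algebraMap A K ⟨a, ha⟩ = a := rfl
      have e2 : algebraMap A K ⟨b, hb⟩ = b := rfl
      simp only [Polynomial.eval₂_sub, Polynomial.eval₂_add, Polynomial.eval₂_mul,
        Polynomial.eval₂_pow, Polynomial.eval₂_X, Polynomial.eval₂_C, e1, e2]
      rw [h, sub_self]
  exact isIntegral_trans y h1

end UnitsX

open UnitsX in
theorem units_proof : Stmt_Units := by
  intro K _ x y n hg hn
  have h1 : IsIntegral ℤ (1 : K) := isIntegral_one
  have hnn : IsIntegral ℤ (n : K) := by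
    have := isIntegral_algebraMap (R := ℤ) (A := K) (x := (n : ℤ))
    simpa using this
  have hx : IsIntegral ℤ x := by
    refine ⟨Polynomial.X ^ 3 + Polynomial.C ((n : ℤ) + 1) * Polynomial.X ^ 2 +
      Polynomial.C (n : ℤ) * Polynomial.X + 1, ?_, ?_⟩
    · monicity!
    · simp only [Polynomial.eval₂_add, Polynomial.eval₂_mul, Polynomial.eval₂_pow,
        Polynomial.eval₂_X, Polynomial.eval₂_natCast, Polynomial.eval₂_one, map_add, map_natCast,
        map_one]
      linear_combination hn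
  have hx' : IsIntegral ℤ x⁻¹ := by
    have e : x⁻¹ = -((x + 1) * (x + n)) := by
      have := hg.x0
      field_simp
      linear_combination hn
    rw [e]
    exact ((hx.add h1).mul (hx.add hnn)).neg
  have hz : IsIntegral ℤ (x + 1) := hx.add h1
  have hz' : IsIntegral ℤ (x + 1)⁻¹ := by
    have e : (x + 1)⁻¹ = -(x * (x + n)) := by
      have := hg.x1
      field_simp
      linear_combination hn
    rw [e]
    exact (hx.mul (hx.add hnn)).neg
  have hA : IsIntegral ℤ (x ^ 3 + x ^ 2 + 1) := ((hx.pow 3).add (hx.pow 2)).add h1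
  have hy : IsIntegral ℤ y := quad hA ((hx.pow 2).add hx) hg.rel
  have hy' : IsIntegral ℤ y⁻¹ := by
    have e : y⁻¹ = (y + (x ^ 3 + x ^ 2 + 1)) * x⁻¹ * (x + 1)⁻¹ := by
      have h2 := hg.x0
      have h3 := hg.x1
      have h4 := hg.y0
      field_simp
      linear_combination -hg.rel
    rw [e]
    exact ((hy.add hA).mul hx').mul hz'
  have hv : IsIntegral ℤ (y + 1) := hy.add h1
  have hv' : IsIntegral ℤ (y + 1)⁻¹ := by
    have e : (y + 1)⁻¹ = (y + x ^ 3 + x ^ 2) * x⁻¹ * ((x + 1)⁻¹ * (x + 1)⁻¹) := by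
      have h2 := hg.x0
      have h3 := hg.x1
      have h4 := hg.y1
      field_simp
      linear_combination -hg.rel
    rw [e]
    exact (((hy.add (hx.pow 3)).add (hx.pow 2)).mul hx').mul (hz'.mul hz')
  have hw : IsIntegral ℤ (ww x y) := (hy.add h1).sub (hx.mul hy)
  have hw' : IsIntegral ℤ (ww x y)⁻¹ := by
    have e : (ww x y)⁻¹ = (1 - (1 - x) * (y + (x ^ 3 + x ^ 2 + 1))) * (x⁻¹ * x⁻¹ * x⁻¹) := by
      have h2 := hg.x0
      have h4 := hg.w0
      field_simp
      unfold ww
      linear_combination ((1 - x) ^ 2) * hg.rel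
    rw [e]
    exact (h1.sub ((h1.sub hx).mul (hy.add hA))).mul ((hx'.mul hx').mul hx')
  intro e he
  rcases he with rfl | rfl | rfl | rfl | rfl
  · exact ⟨hx, hx'⟩
  · exact ⟨hz, hz'⟩
  · exact ⟨hy, hy'⟩
  · exact ⟨hv, hv'⟩
  · exact ⟨hw, hw'⟩

end Pool.Agent.BEK
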