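import Pool.Agent.BEK.Stmts

set_option autoImplicit false

/-!
# Squad BEK: local calculus for the modules UNEG, UPOS, UZERO

`o v a` is the order of `a` (and `0` for `a = 0`); `I v a`, `M v a`, `Un v a` say that `a` is
integral, small, a unit for `v`.
-/

namespace Pool.Agent.BEK

namespace Unr

variable {F : Type} [Field F] (v : DV F)

open Classical in
/-- the order of a nonzero element (`0` for `0`) -/
noncomputable def o (a : F) : ℤ := if h : a = 0 then 0 else v.ord (Units.mk0 a h)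

theorem o_unit (e : Fˣ) : o v (e : F) = v.ord e := by
  unfold o
  rw [dif_neg e.ne_zero]
  congr 1
  exact Units.ext rfl

theorem o_mk {a : F} (ha : a ≠ 0) : o v a = v.ord (Units.mk0 a ha) := by
  rw [← o_unit v (Units.mk0 a ha), Units.val_mk0]

theorem o_mul {a b : F} (ha : a ≠ 0) (hb : b ≠ 0) : o v (a * b) = o v a + o v b := by
  rw [o_mk v ha, o_mk v hb, ← v.mul, ← o_unit, Units.val_mul, Units.val_mk0, Units.val_mk0]

theorem o_one : o v (1 : F) = 0 := by
  have := o_unit v (1 : Fˣ)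
  rw [v.one] at this
  simpa using this

theorem o_neg_one : o v (-1 : F) = 0 := by
  have := o_unit v (-1 : Fˣ)
  rw [v.neg_one] at this
  simpa using this

theorem o_neg (a : F) : o v (-a) = o v a := by
  by_cases ha : a = 0
  · rw [ha, neg_zero]
  · have : -a = (-1) * a := by ring
    rw [this, o_mul v (neg_ne_zero.mpr one_ne_zero) ha, o_neg_one, zero_add]

theorem o_inv (a : F) : o v a⁻¹ = -o v a := by
  by_cases ha : a = 0
  · rw [ha, inv_zero]; unfold o; simp
  · have h := o_mul v ha (inv_ne_zero ha)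
    rw [mul_inv_cancel₀ ha, o_one] at h
    omega

theorem o_div {a b : F} (ha : a ≠ 0) (hb : b ≠ 0) : o v (a / b) = o v a - o v b := by
  rw [div_eq_mul_inv, o_mul v ha (inv_ne_zero hb), o_inv]; ring

theorem o_pow {a : F} (ha : a ≠ 0) (n : ℕ) : o v (a ^ n) = n * o v a := by
  induction n with
  | zero => simp [o_one]
  | succ n ih =>
    rw [pow_succ, o_mul v (pow_ne_zero n ha) ha, ih]
    push_cast; ring

theorem o_add {a b : F} (ha : a ≠ 0) (hb : b ≠ 0) (hab : a + b ≠ 0) :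
    min (o v a) (o v b) ≤ o v (a + b) := by
  rw [o_mk v ha, o_mk v hb, o_mk v hab]
  exact v.add _ _ _ rfl

/-- integral elements -/
def I (a : F) : Prop := a = 0 ∨ 0 ≤ o v a
/-- small elements -/
def M (a : F) : Prop := a = 0 ∨ 0 < o v a
/-- units -/
def Un (a : F) : Prop := a ≠ 0 ∧ o v a = 0

variable {v}

theorem M.int {a : F} (h : M v a) : I v a := by
  rcases h with h | h
  · exact Or.inl h
  · exact Or.inr h.le

theorem Un.int {a : F} (h : Un v a) : I v a := Or.inr h.2.ge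

theorem Un.not_M {a : F} (h : Un v a) : ¬ M v a := by
  rintro (h' | h')
  · exact h.1 h'
  · have := h.2; omega

theorem I.cases {a : F} (h : I v a) : M v a ∨ Un v a := by
  rcases h with h | h
  · exact Or.inl (Or.inl h)
  · by_cases h0 : a = 0
    · exact Or.inl (Or.inl h0)
    · by_cases h1 : o v a = 0
      · exact Or.inr ⟨h0, h1⟩
      · left; right; omega

theorem I_one : I v (1 : F) := Or.inr (o_one v).ge

theorem Un_one : Un v (1 : F) := ⟨one_ne_zero, o_one v⟩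

theorem I.mul {a b : F} (ha : I v a) (hb : I v b) : I v (a * b) := by
  by_cases h0 : a = 0
  · left; rw [h0, zero_mul]
  by_cases h1 : b = 0
  · left; rw [h1, mul_zero]
  right
  rw [o_mul v h0 h1]
  rcases ha with ha | ha
  · exact absurd ha h0
  rcases hb with hb | hb
  · exact absurd hb h1
  omega

theorem M.mul_I {a b : F} (ha : M v a) (hb : I v b) : M v (a * b) := by
  by_cases h0 : a = 0
  · left; rw [h0, zero_mul]
  by_cases h1 : b = 0
  · left; rw [h1, mul_zero]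
  right
  rw [o_mul v h0 h1]
  rcases ha with ha | ha
  · exact absurd ha h0
  rcases hb with hb | hb
  · exact absurd hb h1
  omega

theorem I.mul_M {a b : F} (ha : I v a) (hb : M v b) : M v (a * b) := by
  rw [mul_comm]; exact hb.mul_I ha

theorem Un.mul {a b : F} (ha : Un v a) (hb : Un v b) : Un v (a * b) :=
  ⟨mul_ne_zero ha.1 hb.1, by rw [o_mul v ha.1 hb.1, ha.2, hb.2]; rfl⟩

theorem Un.inv {a : F} (ha : Un v a) : Un v a⁻¹ :=
  ⟨inv_ne_zero ha.1, by rw [o_inv, ha.2]; rfl⟩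

theorem Un.div {a b : F} (ha : Un v a) (hb : Un v b) : Un v (a / b) := by
  rw [div_eq_mul_inv]; exact ha.mul hb.inv

theorem Un.neg {a : F} (ha : Un v a) : Un v (-a) :=
  ⟨neg_ne_zero.mpr ha.1, by rw [o_neg]; exact ha.2⟩

theorem Un.pow {a : F} (ha : Un v a) (n : ℕ) : Un v (a ^ n) :=
  ⟨pow_ne_zero n ha.1, by rw [o_pow v ha.1, ha.2, mul_zero]⟩

theorem I.neg {a : F} (ha : I v a) : I v (-a) := by
  rcases ha with h | h
  · left; rw [h, neg_zero]
  · right; rw [o_neg]; exact h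

theorem M.neg {a : F} (ha : M v a) : M v (-a) := by
  rcases ha with h | h
  · left; rw [h, neg_zero]
  · right; rw [o_neg]; exact h

theorem I.add {a b : F} (ha : I v a) (hb : I v b) : I v (a + b) := by
  by_cases h0 : a = 0
  · rw [h0, zero_add]; exact hb
  by_cases h1 : b = 0
  · rw [h1, add_zero]; exact ha
  by_cases h2 : a + b = 0
  · exact Or.inl h2
  right
  have h := o_add v h0 h1 h2
  rcases ha with ha | ha
  · exact absurd ha h0
  rcases hb with hb | hb
  · exact absurd hb h1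
  omega

theorem M.add {a b : F} (ha : M v a) (hb : M v b) : M v (a + b) := by
  by_cases h0 : a = 0
  · rw [h0, zero_add]; exact hb
  by_cases h1 : b = 0
  · rw [h1, add_zero]; exact ha
  by_cases h2 : a + b = 0
  · exact Or.inl h2
  right
  have h := o_add v h0 h1 h2
  rcases ha with ha | ha
  · exact absurd ha h0
  rcases hb with hb | hb
  · exact absurd hb h1
  omega

theorem I.sub {a b : F} (ha : I v a) (hb : I v b) : I v (a - b) := by
  rw [sub_eq_add_neg]; exact ha.add hb.neg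

theorem M.sub {a b : F} (ha : M v a) (hb : M v b) : M v (a - b) := by
  rw [sub_eq_add_neg]; exact ha.add hb.neg

theorem I.pow {a : F} (ha : I v a) (n : ℕ) : I v (a ^ n) := by
  induction n with
  | zero => rw [pow_zero]; exact I_one
  | succ n ih => rw [pow_succ]; exact ih.mul ha

/-- unit plus small is a unit -/
theorem Un.add_M {a b : F} (ha : Un v a) (hb : M v b) : Un v (a + b) := by
  rcases (ha.int.add hb.int).cases with h | h
  · exfalso
    apply ha.not_M
    have := h.sub hb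
    rwa [add_sub_cancel_right] at this
  · exact h

/-- an element congruent to a unit is a unit -/
theorem Un.congr {a b : F} (ha : Un v a) (hb : M v (b - a)) : Un v b := by
  have := ha.add_M hb
  rwa [add_sub_cancel] at this

theorem Un.congr' {a b : F} (ha : Un v a) (hb : M v (a - b)) : Un v b := by
  apply ha.congr
  have := hb.neg
  rwa [neg_sub] at this

/-- if a sum of integral elements is a unit then one of them is a unit -/
theorem Un.of_add {a b : F} (h : Un v (a + b)) (ha : I v a) (hb : I v b) :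
    Un v a ∨ Un v b := by
  rcases ha.cases with h1 | h1
  · rcases hb.cases with h2 | h2
    · exact absurd (h1.add h2) h.not_M
    · exact Or.inr h2
  · exact Or.inl h1

theorem Un.left_of_mul {a b : F} (h : Un v (a * b)) (ha : I v a) (hb : I v b) : Un v a := by
  rcases ha.cases with h1 | h1
  · exact absurd (h1.mul_I hb) h.not_M
  · exact h1

theorem Un.right_of_mul {a b : F} (h : Un v (a * b)) (ha : I v a) (hb : I v b) : Un v b := by
  rw [mul_comm] at h
  exact h.left_of_mul hb ha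

/-- if `e^2` is dominated then it is integral: integrality of a root of a monic quadratic -/
theorem I_of_quadratic {Y p q : F} (hp : I v p) (hq : I v q) (h : Y ^ 2 + p * Y = q) :
    I v Y := by
  by_cases h0 : Y = 0
  · exact Or.inl h0
  right
  by_contra hneg
  have hneg' : o v Y < 0 := not_le.mp hneg
  -- `Y⁻¹` is small and `1 = -p Y⁻¹ + q Y⁻²`
  have hM : M v Y⁻¹ := by right; rw [o_inv]; omega
  have h1 : (1 : F) = Y⁻¹ * (q * Y⁻¹ - p) := by
    field_simp
    linear_combination h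
  have h2 : M v (1 : F) := by
    rw [h1]
    exact hM.mul_I ((hq.mul hM.int).sub hp)
  exact Un_one.not_M h2

/-! ### Congruences of products -/

/-- `a ≡ b` and `a' ≡ b'` -/
theorem mul_congr {a b a' b' : F} (h : M v (a - b)) (h' : M v (a' - b')) (ha' : I v a')
    (hb : I v b) : M v (a * a' - b * b') := by
  have : a * a' - b * b' = (a - b) * a' + b * (a' - b') := by ring
  rw [this]
  exact (h.mul_I ha').add (hb.mul_M h')

/-- congruence of units: `a / b ≡ 1` -/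
def Eqv (v : DV F) (a b : F) : Prop := Un v b ∧ M v (a - b)

theorem Eqv.un {a b : F} (h : Eqv v a b) : Un v a := h.1.congr h.2

theorem Eqv.mul {a b a' b' : F} (h : Eqv v a b) (h' : Eqv v a' b') :
    Eqv v (a * a') (b * b') :=
  ⟨h.1.mul h'.1, mul_congr h.2 h'.2 h'.un.int h.1.int⟩

theorem Eqv.pow {a b : F} (h : Eqv v a b) (n : ℕ) : Eqv v (a ^ n) (b ^ n) := by
  induction n with
  | zero => rw [pow_zero, pow_zero]; exact ⟨Un_one, Or.inl (sub_self _)⟩
  | succ n ih => rw [pow_succ, pow_succ]; exact ih.mul h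

theorem Eqv.inv {a b : F} (h : Eqv v a b) : Eqv v a⁻¹ b⁻¹ := by
  refine ⟨h.1.inv, ?_⟩
  have ha := h.un.1
  have hb := h.1.1
  have : a⁻¹ - b⁻¹ = -(a - b) * (a⁻¹ * b⁻¹) := by field_simp; ring
  rw [this]
  exact h.2.neg.mul_I (h.un.inv.mul h.1.inv).int

theorem Eqv.div {a b a' b' : F} (h : Eqv v a b) (h' : Eqv v a' b') :
    Eqv v (a / a') (b / b') := by
  rw [div_eq_mul_inv, div_eq_mul_inv]
  exact h.mul h'.inv

theorem mem_U1 {e : Fˣ} (h : Eqv v (e : F) 1) : e ∈ v.U1 := by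
  refine ⟨?_, ?_⟩
  · have := h.un.2
    rwa [o_unit] at this
  · intro c hc
    rcases h.2 with h2 | h2
    · exfalso; apply c.ne_zero; rw [← hc, h2]
    · rw [hc, o_unit] at h2; exact h2

/-! ### The units of a point -/

section point

variable {s : St F}

theorem un_x (hg : Good s.x s.y) (hu : UnitsAt v s) : Un v s.x :=
  ⟨hg.x0, by rw [o_mk v hg.x0]; exact hu _ (Or.inl rfl)⟩

theorem un_x1 (hg : Good s.x s.y) (hu : UnitsAt v s) : Un v (s.x + 1) :=
  ⟨hg.x1, by rw [o_mk v hg.x1]; exact hu _ (Or.inr (Or.inl rfl))⟩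

theorem un_y (hg : Good s.x s.y) (hu : UnitsAt v s) : Un v s.y :=
  ⟨hg.y0, by rw [o_mk v hg.y0]; exact hu _ (Or.inr (Or.inr (Or.inl rfl)))⟩

theorem un_y1 (hg : Good s.x s.y) (hu : UnitsAt v s) : Un v (s.y + 1) :=
  ⟨hg.y1, by rw [o_mk v hg.y1]; exact hu _ (Or.inr (Or.inr (Or.inr (Or.inl rfl))))⟩

theorem un_w (hg : Good s.x s.y) (hu : UnitsAt v s) : Un v s.w :=
  ⟨hg.w0, by
    have h0 : s.w ≠ 0 := hg.w0
    rw [o_mk v h0]; exact hu _ (Or.inr (Or.inr (Or.inr (Or.inr rfl))))⟩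

theorem un_b (hg : Good s.x s.y) (hu : UnitsAt v s) : Un v s.b := by
  have : s.b = -(s.y ^ 2 * s.w) / (s.x + 1) := rfl
  rw [this]
  exact (((un_y hg hu).pow 2).mul (un_w hg hu)).neg.div (un_x1 hg hu)

theorem un_c (hg : Good s.x s.y) (hu : UnitsAt v s) : Un v s.c := by
  have : s.c = -(s.x * s.y * s.w) / (s.y + 1) := rfl
  rw [this]
  exact (((un_x hg hu).mul (un_y hg hu)).mul (un_w hg hu)).neg.div (un_y1 hg hu)

theorem un_yw (hg : Good s.x s.y) (hu : UnitsAt v s) : Un v (s.y * s.w) :=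
  (un_y hg hu).mul (un_w hg hu)

theorem un_u (hg : Good s.x s.y) (hu : UnitsAt v s) : Un v s.u := by
  have : s.u = s.b ^ 5 / (s.c ^ 2 * s.y ^ 2) := rfl
  rw [this]
  exact ((un_b hg hu).pow 5).div (((un_c hg hu).pow 2).mul ((un_y hg hu).pow 2))

theorem un_bc (hPar : Stmt_Par) (hg : Good s.x s.y) (hu : UnitsAt v s) : Un v (s.b - s.c) := by
  obtain ⟨-, -, -, -, -, -, -, h, -, -, -, -⟩ := hPar F s.x s.y hg
  have h' : s.b - s.c = s.x ^ 2 * s.y ^ 2 * s.w / (s.y + 1) := h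
  rw [h']
  exact ((((un_x hg hu).pow 2).mul ((un_y hg hu).pow 2)).mul (un_w hg hu)).div (un_y1 hg hu)

theorem un_byw (hPar : Stmt_Par) (hg : Good s.x s.y) (hu : UnitsAt v s) :
    Un v (s.b - s.y * s.w) := by
  obtain ⟨-, -, -, -, -, -, -, -, h, -, -, -⟩ := hPar F s.x s.y hg
  have h' : s.b - s.y * s.w = -((s.x + 1) * s.y * s.w ^ 2) / (s.y + 1) := h
  rw [h']
  exact (((un_x1 hg hu).mul (un_y hg hu)).mul ((un_w hg hu).pow 2)).neg.div (un_y1 hg hu)

theorem un_cyw (hPar : Stmt_Par) (hg : Good s.x s.y) (hu : UnitsAt v s) :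
    Un v (s.c - s.y * s.w) := by
  obtain ⟨-, -, -, -, -, -, -, -, -, h, -, -⟩ := hPar F s.x s.y hg
  have h' : s.c - s.y * s.w = -((s.x + 1) ^ 2 * s.y * s.w ^ 2) / (s.y + 1) ^ 2 := h
  rw [h']
  exact ((((un_x1 hg hu).pow 2).mul (un_y hg hu)).mul ((un_w hg hu).pow 2)).neg.div
    ((un_y1 hg hu).pow 2)

theorem un_bcc (hPar : Stmt_Par) (hg : Good s.x s.y) (hu : UnitsAt v s) :
    Un v (s.b - s.c - s.c ^ 2) := by
  obtain ⟨-, -, -, -, -, -, -, -, -, -, h, -⟩ := hPar F s.x s.y hg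
  have h' : s.b - s.c - s.c ^ 2 = s.x ^ 3 * s.y ^ 3 * s.w / (s.y + 1) ^ 2 := h
  rw [h']
  exact ((((un_x hg hu).pow 3).mul ((un_y hg hu).pow 3)).mul (un_w hg hu)).div
    ((un_y1 hg hu).pow 2)

theorem un_six (hPar : Stmt_Par) (hg : Good s.x s.y) (hu : UnitsAt v s) :
    Un v (2 * (-((s.x + 1) * s.w) * (s.y * s.w)) + (1 - s.c) * (s.y * s.w) - s.b) := by
  obtain ⟨-, -, -, -, -, -, -, -, -, -, -, h⟩ := hPar F s.x s.y hg
  have h' : 2 * (-((s.x + 1) * s.w) * (s.y * s.w)) + (1 - s.c) * (s.y * s.w) - s.b =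
      -((s.x + 1) ^ 4 * s.y ^ 2 * s.w ^ 3) / (s.x * (s.y + 1) ^ 3) := h
  rw [h']
  exact ((((un_x1 hg hu).pow 4).mul ((un_y hg hu).pow 2)).mul ((un_w hg hu).pow 3)).neg.div
    ((un_x hg hu).mul ((un_y1 hg hu).pow 3))

theorem unitsAt_conj (hu : UnitsAt v s) : UnitsAt v s.conj := hu

theorem gen_conj (h : s.Gen) : s.conj.Gen := ⟨h.X0, h.Xb, h.Xc, h.X6⟩

/-! ### Relations between the lines -/

theorem conj_Y (s : St F) : s.conj.Y = -s.Y - (1 - s.c) * s.X + s.b := rfl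

/-- `L2 + conj Y = -(X - b)` -/
theorem L2_add (s : St F) : s.L2 + s.conj.Y = -(s.X - s.b) := by
  rw [conj_Y]; unfold St.L2; ring

/-- `T3 + conj L2 = -w (X - c)` -/
theorem T3_add (s : St F) : s.T3 + s.conj.L2 = -(s.w * (s.X - s.c)) := by
  have h1 : s.conj.L2 = s.conj.Y - s.c * s.X := rfl
  rw [h1, conj_Y]; unfold St.T3
  have hw : s.w = s.y + 1 - s.x * s.y := rfl
  rw [hw]; ring

/-- `T3 + conj L6 = (c + x w) (X - y w)` -/
theorem T3_add' (hg : Good s.x s.y) :
    s.T3 + s.conj.L6 = (s.c + s.x * s.w) * (s.X - s.y * s.w) := by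
  have h1 : s.conj.L6 = s.conj.Y + (s.x + 1) * s.w * s.X := rfl
  rw [h1, conj_Y]; unfold St.T3
  have hc : s.c * (s.y + 1) = -(s.x * s.y * s.w) := by
    have : s.c = -(s.x * s.y * s.w) / (s.y + 1) := rfl
    rw [this, div_mul_cancel₀ _ hg.y1]
  have hw : s.w = s.y + 1 - s.x * s.y := rfl
  have hyx : s.y * (1 - s.x) = s.w - 1 := by rw [hw]; ring
  rw [hyx]
  linear_combination s.w * hc

theorem fn_conj (s : St F) : s.conj.fn = (s.conj.Y * s.conj.L2) ^ 4 * s.conj.T3 ^ 2 * s.conj.L6 /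
    (((s.X - s.b) * (s.X - s.c)) ^ 4 * (s.X - s.y * s.w) ^ 2) := rfl

/-- the lines do not vanish at a generic point -/
structure LinesNe (s : St F) : Prop where
  Y : s.Y ≠ 0
  Yc : s.conj.Y ≠ 0
  L2 : s.L2 ≠ 0
  L2c : s.conj.L2 ≠ 0
  T3 : s.T3 ≠ 0
  T3c : s.conj.T3 ≠ 0
  L6 : s.L6 ≠ 0
  L6c : s.conj.L6 ≠ 0

theorem linesNe (hProd : Stmt_Prod) (hg : Good s.x s.y) (he : s.OnE) (hgen : s.Gen) :
    LinesNe s := by
  obtain ⟨-, -, h1, h2, h3, h4⟩ := hProd F s hg he
  have hX := hgen.X0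
  have hb := sub_ne_zero.mpr hgen.Xb
  have hc := sub_ne_zero.mpr hgen.Xc
  have h6 := sub_ne_zero.mpr hgen.X6
  have k1 : s.Y * s.conj.Y ≠ 0 := by
    rw [h1]; exact neg_ne_zero.mpr (mul_ne_zero (pow_ne_zero 2 hX) hb)
  have k2 : s.L2 * s.conj.L2 ≠ 0 := by
    rw [h2]; exact neg_ne_zero.mpr (mul_ne_zero (mul_ne_zero hX hb) hc)
  have k3 : s.T3 * s.conj.T3 ≠ 0 := by
    rw [h3]; exact neg_ne_zero.mpr (mul_ne_zero (pow_ne_zero 2 hc) h6)
  have k4 : s.L6 * s.conj.L6 ≠ 0 := by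
    rw [h4]; exact neg_ne_zero.mpr (mul_ne_zero hX (pow_ne_zero 2 h6))
  exact ⟨left_ne_zero_of_mul k1, right_ne_zero_of_mul k1, left_ne_zero_of_mul k2,
    right_ne_zero_of_mul k2, left_ne_zero_of_mul k3, right_ne_zero_of_mul k3,
    left_ne_zero_of_mul k4, right_ne_zero_of_mul k4⟩

theorem LinesNe.conj (hProd : Stmt_Prod) (hg : Good s.x s.y) (he : s.OnE) (hgen : s.Gen) :
    LinesNe s.conj := by
  obtain ⟨h0, -, -, -, -, -⟩ := hProd F s hg he
  exact linesNe hProd (s := s.conj) hg h0 (gen_conj hgen)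

/-- the orders of the products -/
theorem o_prods (hProd : Stmt_Prod) (hg : Good s.x s.y) (he : s.OnE) (hgen : s.Gen) (v : DV F) :
    o v s.Y + o v s.conj.Y = 2 * o v s.X + o v (s.X - s.b) ∧
    o v s.L2 + o v s.conj.L2 = o v s.X + o v (s.X - s.b) + o v (s.X - s.c) ∧
    o v s.T3 + o v s.conj.T3 = 2 * o v (s.X - s.c) + o v (s.X - s.y * s.w) ∧
    o v s.L6 + o v s.conj.L6 = o v s.X + 2 * o v (s.X - s.y * s.w) := by
  have hl := linesNe hProd hg he hgen
  obtain ⟨-, -, h1, h2, h3, h4⟩ := hProd F s hg he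
  have hX := hgen.X0
  have hb := sub_ne_zero.mpr hgen.Xb
  have hc := sub_ne_zero.mpr hgen.Xc
  have h6 := sub_ne_zero.mpr hgen.X6
  refine ⟨?_, ?_, ?_, ?_⟩
  · rw [← o_mul v hl.Y hl.Yc, h1, o_neg, o_mul v (pow_ne_zero 2 hX) hb, o_pow v hX]; rfl
  · rw [← o_mul v hl.L2 hl.L2c, h2, o_neg, o_mul v (mul_ne_zero hX hb) hc, o_mul v hX hb]
  · rw [← o_mul v hl.T3 hl.T3c, h3, o_neg, o_mul v (pow_ne_zero 2 hc) h6, o_pow v hc]; rfl
  · rw [← o_mul v hl.L6 hl.L6c, h4, o_neg, o_mul v hX (pow_ne_zero 2 h6), o_pow v h6]; rfl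

theorem fn_ne (hl : LinesNe s) (hgen : s.Gen) : s.fn ≠ 0 := by
  unfold St.fn
  have hb := sub_ne_zero.mpr hgen.Xb
  have hc := sub_ne_zero.mpr hgen.Xc
  have h6 := sub_ne_zero.mpr hgen.X6
  exact div_ne_zero (mul_ne_zero (mul_ne_zero (pow_ne_zero 4 (mul_ne_zero hl.Y hl.L2))
    (pow_ne_zero 2 hl.T3)) hl.L6) (mul_ne_zero (pow_ne_zero 4 (mul_ne_zero hb hc))
    (pow_ne_zero 2 h6))

theorem o_fn (hl : LinesNe s) (hgen : s.Gen) (v : DV F) :
    o v s.fn = 4 * (o v s.Y + o v s.L2) + 2 * o v s.T3 + o v s.L6 -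
      (4 * (o v (s.X - s.b) + o v (s.X - s.c)) + 2 * o v (s.X - s.y * s.w)) := by
  unfold St.fn
  have hb := sub_ne_zero.mpr hgen.Xb
  have hc := sub_ne_zero.mpr hgen.Xc
  have h6 := sub_ne_zero.mpr hgen.X6
  have n1 := mul_ne_zero hl.Y hl.L2
  have n2 := mul_ne_zero hb hc
  rw [o_div v (mul_ne_zero (mul_ne_zero (pow_ne_zero 4 n1) (pow_ne_zero 2 hl.T3)) hl.L6)
    (mul_ne_zero (pow_ne_zero 4 n2) (pow_ne_zero 2 h6)),
    o_mul v (mul_ne_zero (pow_ne_zero 4 n1) (pow_ne_zero 2 hl.T3)) hl.L6,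
    o_mul v (pow_ne_zero 4 n1) (pow_ne_zero 2 hl.T3), o_pow v n1, o_pow v hl.T3,
    o_mul v (pow_ne_zero 4 n2) (pow_ne_zero 2 h6), o_pow v n2, o_pow v h6,
    o_mul v hl.Y hl.L2, o_mul v hb hc]
  push_cast
  ring

theorem int_Y (hg : Good s.x s.y) (hu : UnitsAt v s) (he : s.OnE) (hX : I v s.X) :
    I v s.Y := by
  have h1 : s.Y ^ 2 + ((1 - s.c) * s.X - s.b) * s.Y = s.X ^ 3 - s.b * s.X ^ 2 := by
    have := he
    unfold St.OnE at this
    linear_combination this
  exact I_of_quadratic (((I_one.sub (un_c hg hu).int).mul hX).sub (un_b hg hu).int)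
    ((hX.pow 3).sub ((un_b hg hu).int.mul (hX.pow 2))) h1

theorem int_L2 (hg : Good s.x s.y) (hu : UnitsAt v s) (he : s.OnE) (hX : I v s.X) :
    I v s.L2 :=
  (int_Y hg hu he hX).sub ((un_c hg hu).int.mul hX)

theorem int_T3 (hg : Good s.x s.y) (hu : UnitsAt v s) (he : s.OnE) (hX : I v s.X) :
    I v s.T3 :=
  ((int_Y hg hu he hX).sub ((un_b hg hu).int.sub (un_c hg hu).int)).sub
    (((un_y hg hu).int.mul (I_one.sub (un_x hg hu).int)).mul (hX.sub (un_c hg hu).int))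

theorem int_L6 (hg : Good s.x s.y) (hu : UnitsAt v s) (he : s.OnE) (hX : I v s.X) :
    I v s.L6 :=
  (int_Y hg hu he hX).add (((un_x1 hg hu).int.mul (un_w hg hu).int).mul hX)

end point

end Unr

end Pool.Agent.BEK
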